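import Pool.Agent.Helper91.GR.Ltp
import Pool.Agent.Helper83.NSA.St

/-! ROW VOL of case A: the volume of the base. Either a coordinate `y ≠ z` of the direction is rich over the labels, or
the base has no sheets beyond the window. -/

set_option autoImplicit false

namespace Pool.Agent.Helper91.GR

open Filter Topology Matrix Pool.Agent.Helper69.RK Pool.Agent.Helper31.EC Pool.Agent.Helper31.EC.Sp
open Pool.Agent.Helper42.NS Pool.Agent.Helper40.EL Pool.Agent.Helper40.NSK Pool.Agent.Helper52.KP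
open Pool.Agent.Helper95.LF (PdM)
open Pool.Agent.Helper3.LF (pl Mon phi gam nn nn_one sp_Sub sp_dl sp_n lb)
open Pool.Agent.Helper3.SG (Fac HfP lamP IsCanP exists_canP le_lamP lamP_nonneg)
open Pool.Agent.Helper3.PR (logGG_nonneg GG_pos')
open Pool.Agent.Helper89.LX
open Pool.Agent.Helper48.NS (Jf GG Jf_gam Jf_symm Jf_nonneg)
open Pool.Agent.Helper52.SL (GDP)

noncomputable section

variable {S : Sp} {m : ℕ}

/-- the volume of an affine form in dimension two, bounded by its size -/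
theorem GG_size {r : ℝ} {A : Matrix (Mon (2 + 1) 1) (Mon (2 + 1) 1) ℝ} (hA : PdM A) {p : Fin (2 + 1) → ℝ} {Y : ℝ}
    (hY : 1 ≤ Y) (h2 : ¬ Y ≤ gam r A p) : Real.logb 2 (GG r A p) ≤ 2 * Real.logb 2 Y + 2 := by
  push Not at h2
  have hup : ∀ w : Fin 2 → ℝ, w ⬝ᵥ ((1 + Jf r A p) *ᵥ w) ≤ (1 + Y) * (w ⬝ᵥ w) := by
    intro w
    rw [Pool.Agent.Helper95.LF.dv_add, Pool.Agent.Helper48.NS.one_dv]
    have h3 := Jf_gam r A hA p w
    have h4 : gam r A p * (w ⬝ᵥ w) ≤ Y * (w ⬝ᵥ w) :=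
      mul_le_mul_of_nonneg_right h2.le (Pool.Agent.Helper95.LF.self_nonneg' w)
    linarith
  have hdet : GG r A p ≤ (1 + Y) * (1 + Y) := by
    unfold GG
    refine det_two (v := ![1, 0]) ?_ ?_ (hup _) (by linarith) hup ?_
    · exact Pool.Agent.Helper48.NS.one_Jf_symm r hA.1 p
    · rw [dotProduct, Fin.sum_univ_two]
      simp
    · intro w
      rw [Pool.Agent.Helper95.LF.dv_add, Pool.Agent.Helper48.NS.one_dv]
      have h3 := Jf_nonneg r hA.nonneg p w
      have h4 := Pool.Agent.Helper95.LF.self_nonneg' w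
      linarith
  have h5 : (1 + Y) * (1 + Y) ≤ (2 * Y) * (2 * Y) :=
    mul_le_mul (by linarith) (by linarith) (by linarith) (by linarith)
  have h6 := Real.logb_le_logb_of_le (b := 2) (by norm_num) (GG_pos' r hA p) (hdet.trans h5)
  rw [Real.logb_mul (by positivity) (by positivity), Real.logb_mul (by norm_num) (by linarith),
    Real.logb_self_eq_one (by norm_num)] at h6
  linarith

/-- the volume of the base is at most four times the depth of its sheets -/
theorem vol_size {s : Sys S m} {s' : Sys S 2} {c : ℝ}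
    {x : ∀ k, FD (S.F k) (Mon (2 + 1) 1)} (hx : (gau s' 1).Opt (cA s c) (cB s) x) {lam : ℝ} (hl0 : 0 ≤ lam)
    (hlam : ∀ e : ℝ, 0 < e → Tendsto (fun k => (x k).l.T.pb (fun ω => 2 ^ (2 * (lam + e) * (S.F k).n) ≤
      sga s' 1 k ((x k).l.p.π ω) ((x k).g ω))) UF (𝓝 0)) :
    Pool.Agent.Helper52.SL.lvolP s s' 1 c ≤ 4 * lam := by
  rw [← Pool.Agent.Helper52.SL.lvolP_eq s s' hx]
  apply le_of_forall_pos_le_add
  intro e he
  obtain ⟨d, hd0, hde⟩ : ∃ d : ℝ, 0 < d ∧ 4 * d = e := ⟨e / 4, by linarith, by ring⟩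
  set Y : ℕ → ℝ := fun k => 2 ^ (2 * (lam + d) * (S.F k).n) with hY
  set E : ∀ k, (x k).l.T.Ω → Prop := fun k ω => ¬ Y k ≤ sga s' 1 k ((x k).l.p.π ω) ((x k).g ω) with hEd
  have hT : Tendsto (fun k => (x k).l.T.pb (fun ω => ¬ E k ω)) UF (𝓝 0) := by
    refine (hlam d hd0).congr fun k => ?_
    congr 1
    funext ω
    exact propext not_not.symm
  obtain ⟨C, hC, hub⟩ := Pool.Agent.Helper3.PR.logGG_ub s' 1
  have t1 := ((S.div_n_tendsto 2).const_add (4 * (lam + d))).add (hT.const_mul C)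
  rw [add_zero, mul_zero, add_zero] at t1
  have h9 : ul (fun k => Pool.Agent.Helper3.PR.lgd s' 1 x k / (S.F k).n) ≤ 4 * (lam + d) := by
    refine le_of_tendsto_of_tendsto (ul_tendsto (Pool.Agent.Helper3.PR.lgd_UB s' hx.1)) t1 ?_
    filter_upwards [hub, hx.1 1 one_pos] with k h2 h3
    have hn := (S.F k).pos
    have hc : ∀ ω, (x k).l.T.μ ω ≠ 0 → Cpd ((gau s' 1).cp k) ((x k).g ω) := fun ω hω => (h3.2.2.1 ω hω).1
    have h4 := sum_le_bad (F := (x k).l.T) (f := fun ω => Real.logb 2 (GG (S.dl 1 k) ((x k).g ω)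
      (ptf s' k ((x k).l.p.π ω)))) (E := E k) (B := 4 * (lam + d) * (S.F k).n + 2) (C := C * (S.F k).n)
      (by positivity) (fun ω hω hE => by
        have b2 : (1 : ℝ) ≤ Y k := Real.one_le_rpow (by norm_num) (by positivity)
        have b3 := GG_size (hc ω hω).pdM b2 hE
        have b5 : Real.logb 2 (Y k) = 2 * (lam + d) * (S.F k).n := Real.logb_rpow (by norm_num) (by norm_num)
        rw [b5] at b3
        refine b3.trans (le_of_eq ?_)
        ring) (fun ω hω => h2 _ ((x k).l.p.supp ω hω) _ (hc ω hω)) (by positivity)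
    have h5 : Pool.Agent.Helper3.PR.lgd s' 1 x k ≤ 4 * (lam + d) * (S.F k).n + 2 +
      C * (S.F k).n * (x k).l.T.pb (fun ω => ¬ E k ω) := h4
    rw [div_le_iff₀ hn]
    refine h5.trans (le_of_eq ?_)
    field_simp
  linarith

/-- THE VOLUME OF THE BASE if it has no sheets beyond the window -/
theorem vol_triv {s : Sys S 3} {z : Fin 3} {c : ℝ}
    (h01 : ∀ σ, psi (GDP (selM z) 1) s c σ = 0 ∨ psi (GDP (selM z) 1) s c σ = 1) (hc : lamI s z c ≤ c) :
    Pool.Agent.Helper52.SL.lvolP s (prI s z) 1 c ≤ 2 * (c + lamI s z c) := by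
  obtain ⟨x, hx1, -⟩ := exists_canP s (prI s z) 1 c
  have h1 := vol_size hx1 (lamP_nonneg le_rfl c)
    (fun e he => trace_up (h01 _) (lt_add_of_pos_right _ he) hx1.1)
  have h2 : lamP s (prB (selM z) s) 1 c = lamI s z c := rfl
  rw [h2] at h1
  linarith

/-- the two volumes of the base -/
theorem lvolP_both {q D : ℕ} (s : Sys S m) (s' : Sys S q) (c : ℝ) :
    Pool.Agent.Helper3.SG.lvolP s s' D c = Pool.Agent.Helper52.SL.lvolP s s' D c := by
  obtain ⟨x, hx1, -⟩ := exists_canP s s' D c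
  rw [← Pool.Agent.Helper3.SG.lvolP_eq s s' hx1]
  exact Pool.Agent.Helper52.SL.lvolP_eq s s' hx1

/-- THE ROW at one system -/
theorem vola_of {s : Sys S 3} {z : Fin 3} (hL : RobustG (fun i : Fin 3 => GDP (selM i) 1) s) {c0 : ℝ}
    (hlt : lamI s z c0 < 1)
    (hR : (∃ y, y ≠ z ∧ RYl s y) ∨ ∃ u < c0, ∀ c, u < c → c < c0 → 0 ≤ c → lamI s z c ≤ c) :
    ∃ u, u < c0 ∧ ∀ c, u < c → c < c0 → 0 ≤ c → Pool.Agent.Helper52.SL.lvolP s (prI s z) 1 c ≤ 2 * (c + lamI s z c) := by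
  rcases hR with ⟨y, hy, hRY⟩ | ⟨u, hu, h⟩
  · have h1 : c0 < 1 := by
      by_contra hcon
      push Not at hcon
      have h5 : lamI s z 1 ≤ lamI s z c0 := Pool.Agent.Helper3.SG.lamP_mono le_rfl hcon
      have h6 : (1 : ℝ) ≤ lamI s z 1 :=
        Pool.Agent.Helper3.SG.lamP_ge_self (Pool.Agent.Helper3.SG.Fac.pr s _ _ _ _) le_rfl zero_le_one le_rfl
      linarith
    exact ⟨c0 - 1, by linarith, fun c _ hc h0 => vol_ry hy hRY h0 (hc.trans h1) fun σ => hL.zero_one z c σ⟩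
  · exact ⟨u, hu, fun c h2 h3 h0 => vol_triv (fun σ => hL.zero_one z c σ) (h c h2 h3 h0)⟩

/-- the dichotomy: a rich coordinate of the base, or no sheets beyond the window -/
def HRY (D : ℕ) : Prop := Pool.Agent.Helper83.NSA.Ex4 D (fun _ _ s => ∀ i : Fin 3, ZDir s D i →
  lamI s i (c0 s D) < 1 → FlatI s D i →
  (∃ y, y ≠ i ∧ RYl s y) ∨ ∃ u < c0 s D, ∀ c, u < c → c < c0 s D → 0 ≤ c → lamI s i c ≤ c)

/-- ROW VOL -/
theorem st_vola {D : ℕ} (h : HRY D) : Pool.Agent.Helper83.NSA.ST_VOLA D := by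
  obtain ⟨G, Φ, M, hM, h⟩ := h
  refine ⟨G, Φ, M, hM, fun g S s hs i h1 h2 h3 => ?_⟩
  obtain ⟨u, hu, hv⟩ := vola_of hs.robL h2 (h g S s hs i h1 h2 h3)
  refine ⟨u, hu, fun c a b d => ?_⟩
  rw [lvolP_both]
  exact hv c a b d

end

end Pool.Agent.Helper91.GR
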