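import Pool.Agent.Helper91.GR.Ovr
import Pool.Agent.Helper51.SW.Swap
import Pool.Agent.Helper31.EC.Cpy

/-! Coordinates (`t`, flat coordinates, `R`, `z`) of a system; digits of a sheet; LEMMA NC for systems: the deficit of
the point is a deficit of `z` given all digits of the other coordinates. -/

set_option autoImplicit false

namespace Pool.Agent.Helper91.GR

open Finset Filter Topology Pool.Agent.Helper69.RK Pool.Agent.Helper31.EC Pool.Agent.Helper31.EC.Sp
open Pool.Agent.Helper40.EL Pool.Agent.Helper52.KP Pool.Agent.Helper42.NS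
open Pool.Agent.Helper3.LF (pl pl_zero pl_succ pl_line Sub_pow_two sp_Sub sp_dl sp_n)

noncomputable section

variable {S : Sp} {m N : ℕ}

/-- the time and the point -/
def pv (s : Sys S m) : S.VV (m + 1) where
  v := fun k ω => pl (s.a.v k ω) (s.x.v k ω) (s.t.v k ω 0)
  bd := by
    obtain ⟨K, hK, h⟩ := s.t.bd
    obtain ⟨L, hL, h'⟩ := s.P.bd
    refine ⟨_, hK.add hL, ?_⟩
    filter_upwards [h, h', hK.1, hL.1] with k a b c d ω hω j
    refine Fin.cases ?_ (fun i => ?_) j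
    · rw [pl_zero]
      have := a ω hω 0
      linarith
    · rw [pl_succ]
      have := b ω hω i
      exact this.trans (by linarith)

/-- the coordinates `j` of `(t, P)` -/
def pc (s : Sys S m) (j : Fin (m + 1)) : TR S := TR.cor (pv s) j

theorem pc_zero_dg (s : Sys S m) (r : ℝ) : TR.dg (pc s 0) r = s.t.dg r := by
  have h1 : TR.vec (fun _ : Fin 1 => pc s 0) = s.t := by
    have h2 : ∀ y : S.VV 1, TR.vec (fun _ : Fin 1 => TR.cor y 0) = y := fun y => by
      have h3 : (fun _ : Fin 1 => TR.cor y 0) = TR.cor y := by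
        funext i
        rw [Subsingleton.elim i 0]
      rw [h3]
      exact TR.vec_cor y
    exact h2 s.t
  unfold TR.dg
  rw [h1]

theorem pc_succ (s : Sys S m) (i : Fin m) : pc s i.succ = TR.cor s.P i := rfl

theorem pv_dg (s : Sys S m) (r : ℝ) : (pv s).dg r = s.P.dg r ⊔ s.t.dg r := by
  apply le_antisymm
  · rw [TR.vv_dg_le_iff]
    intro j
    refine Fin.cases ?_ (fun i => ?_) j
    · exact (pc_zero_dg s r).le.trans le_sup_right
    · exact (TR.cor_dg_le s.P i r).trans le_sup_left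
  · apply sup_le
    · rw [TR.vv_dg_le_iff]
      intro i
      exact TR.cor_dg_le (pv s) i.succ r
    · rw [← pc_zero_dg]
      exact TR.cor_dg_le (pv s) 0 r

/-- coordinates in `J`, the others replaced by `0` -/
def msk {q : ℕ} (J : Finset (Fin q)) (y : S.VV q) : S.VV q where
  v := fun k ω j => if j ∈ J then y.v k ω j else 0
  bd := by
    obtain ⟨K, hK, h⟩ := y.bd
    refine ⟨K, hK, ?_⟩
    filter_upwards [h, hK.1] with k a b ω hω j
    split_ifs
    · exact a ω hω j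
    · rw [abs_zero]
      exact b

theorem tr_zero_dg (r : ℝ) : TR.dg (0 : TR S) r = ⊥ := by
  apply le_antisymm _ bot_le
  have h1 : (TR.vec (fun _ : Fin 1 => (0 : TR S))).dg r ≤ (TR.vec (fun _ : Fin 1 => (0 : TR S))).dg 0 := by
    apply VV.dg_le_dg _ _ _ _ (fun _ _ => True) Typ_true (fun _ => 0) (S.Sub_const le_rfl)
    refine Eventually.of_forall fun k ω ω' _ _ _ _ _ g i => ?_
    show |(0 : ℝ) - 0| ≤ _
    simp
  exact h1.trans (VV.dg_nonpos _ le_rfl).le

theorem msk_dg_le {q : ℕ} {J : Finset (Fin q)} {y : S.VV q} {r : ℝ} {A : S.L}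
    (h : ∀ j ∈ J, TR.dg (TR.cor y j) r ≤ A) : (msk J y).dg r ≤ A := by
  rw [TR.vv_dg_le_iff]
  intro j
  by_cases hj : j ∈ J
  · have e : TR.cor (msk J y) j = TR.cor y j := by
      apply Subtype.ext
      funext k ω
      show (if j ∈ J then y.v k ω j else 0) = y.v k ω j
      rw [if_pos hj]
    rw [e]
    exact h j hj
  · have e : TR.cor (msk J y) j = 0 := by
      apply Subtype.ext
      funext k ω
      show (if j ∈ J then y.v k ω j else 0) = 0
      rw [if_neg hj]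
    rw [e, tr_zero_dg]
    exact bot_le

/-- a function over a label -/
def ct (l : Lab S) (f : TR S) : TR (l.ovr 1 one_pos) := TR.cor (Pool.Agent.Helper52.SL.cv l (TR.vec fun _ : Fin 1 => f)) 0

theorem ct_dg (l : Lab S) (f : TR S) (r : ℝ) : TR.dg (ct l f) r = up1 l (TR.dg f r) := by
  unfold TR.dg
  rw [← Pool.Agent.Helper52.SL.cv_dg]
  rfl

theorem ct_cor {q : ℕ} (l : Lab S) (y : S.VV q) (j : Fin q) :
    ct l (TR.cor y j) = TR.cor (Pool.Agent.Helper52.SL.cv l y) j := rfl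

theorem dg_pair_le (f : TR S) {q : ℕ} (y : S.VV q) (r : ℝ) (E : ∀ k, (S.F k).Ω → Prop) (hE : Typ E) (K : ℕ → ℝ)
    (hK : S.Sub K) (hh : ∀ᶠ k in UF, ∀ ω ω', (S.F k).μ ω ≠ 0 → (S.F k).μ ω' ≠ 0 → E k ω → E k ω' → (S.F k).Z ω ω' →
      (∀ i, |y.v k ω i - y.v k ω' i| ≤ S.dl r k) → |TR.ev f k ω - TR.ev f k ω'| ≤ K k * S.dl r k) :
    TR.dg f r ≤ y.dg r := by
  apply VV.dg_le_dg _ _ _ _ E hE K hK
  filter_upwards [hh] with k hk ω ω' a b c d e g _
  exact hk ω ω' a b c d e g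

/-- Typical events of a label in the space over it -/
theorem typ_chg {T : Sp} (Z : ∀ k, Setoid (T.F k).Ω) {c : ℝ} (hc : 0 < c) {E : ∀ k, (T.F k).Ω → Prop}
    (h : Typ E) : Typ (S := T.chg Z c hc) E := h

/-- DIGITS OF A SHEET -/
theorem Sht.dg_le {s : Sys S m} {i : Fin m} {J : Finset (Fin (m + 1))} {σ : ℝ} {l : Lab S}
    {v : ∀ k, (l k).T.Ω → Cf (m + 1)} (hv : Sht s i J σ l v) {r : ℝ} (hr : r ≤ σ) {A : (l.ovr 1 one_pos).L}
    (hA : ∀ j ∈ J, up1 l (TR.dg (pc s j) r) ≤ A) : up1 l (TR.dg (pc s i.succ) r) ≤ A := by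
  obtain ⟨hm, K, hK, hs, ht⟩ := hv
  have h1 : (msk J (Pool.Agent.Helper52.SL.cv l (pv s))).dg r ≤ A := by
    apply msk_dg_le
    intro j hj
    have h2 := hA j hj
    rw [← ct_dg] at h2
    exact h2
  rw [← ct_dg]
  refine le_trans ?_ h1
  have hKS : (l.ovr 1 one_pos).Sub (fun k => (m + 1) * K k + 2 * K k) := by
    have h3 : l.sp.Sub (fun k => ((m : ℝ) + 1) * K k + 2 * K k) := by
      rw [sp_Sub]
      exact ((S.Sub_const (by positivity)).mul hK).add ((S.Sub_const (by norm_num)).mul hK)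
    exact chg_sub l.V 1 one_pos h3
  refine dg_pair_le (S := l.ovr 1 one_pos) (ct l (pc s i.succ)) (msk J (Pool.Agent.Helper52.SL.cv l (pv s))) r _
    (typ_chg l.V one_pos ht) _ hKS ?_
  filter_upwards [hs, hK.1] with k hk1 hk2 ω ω' a b e e' hZ g
  have hdl : (l.ovr 1 one_pos).dl r k = S.dl r k := by
    have h3 : (l.ovr 1 one_pos).dl r k = l.sp.dl (1 * r) k := chg_dl l.V 1 one_pos r k
    rw [h3, one_mul, sp_dl]
  rw [hdl] at g ⊢
  have hd := S.dl_pos r k
  have hdσ : S.dl σ k ≤ S.dl r k := S.dl_anti hr k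
  have hvv : v k ω = v k ω' := hm k ω ω' a b hZ.1 hZ.2
  have e1 : TR.ev (ct l (pc s i.succ)) k ω = aff J (v k ω) (pl (s.a.v k ((l k).p.π ω)) (s.x.v k ((l k).p.π ω))
      (s.t.v k ((l k).p.π ω) 0)) + dfl s i J l v k ω := by
    show s.a.v k ((l k).p.π ω) i + s.t.v k ((l k).p.π ω) 0 * s.x.v k ((l k).p.π ω) i = _
    unfold dfl df
    ring
  have e2 : TR.ev (ct l (pc s i.succ)) k ω' = aff J (v k ω') (pl (s.a.v k ((l k).p.π ω')) (s.x.v k ((l k).p.π ω'))
      (s.t.v k ((l k).p.π ω') 0)) + dfl s i J l v k ω' := by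
    show s.a.v k ((l k).p.π ω') i + s.t.v k ((l k).p.π ω') 0 * s.x.v k ((l k).p.π ω') i = _
    unfold dfl df
    ring
  rw [e1, e2, ← hvv]
  have e3 : |aff J (v k ω) (pl (s.a.v k ((l k).p.π ω)) (s.x.v k ((l k).p.π ω)) (s.t.v k ((l k).p.π ω) 0)) -
      aff J (v k ω) (pl (s.a.v k ((l k).p.π ω')) (s.x.v k ((l k).p.π ω')) (s.t.v k ((l k).p.π ω') 0))| ≤
      (m + 1) * K k * S.dl r k := by
    unfold aff
    rw [add_sub_add_left_eq_sub, ← Finset.sum_sub_distrib]
    refine (Finset.abs_sum_le_sum_abs _ _).trans ?_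
    calc ∑ j ∈ J, |(v k ω).2 j * pl (s.a.v k ((l k).p.π ω)) (s.x.v k ((l k).p.π ω)) (s.t.v k ((l k).p.π ω) 0) j -
          (v k ω).2 j * pl (s.a.v k ((l k).p.π ω')) (s.x.v k ((l k).p.π ω')) (s.t.v k ((l k).p.π ω') 0) j| ≤
          ∑ _j ∈ J, K k * S.dl r k := by
          apply Finset.sum_le_sum
          intro j hj
          rw [← mul_sub, abs_mul]
          have h4 := g j
          have h5 : (msk J (Pool.Agent.Helper52.SL.cv l (pv s))).v k ω j =
              pl (s.a.v k ((l k).p.π ω)) (s.x.v k ((l k).p.π ω)) (s.t.v k ((l k).p.π ω) 0) j := if_pos hj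
          have h6 : (msk J (Pool.Agent.Helper52.SL.cv l (pv s))).v k ω' j =
              pl (s.a.v k ((l k).p.π ω')) (s.x.v k ((l k).p.π ω')) (s.t.v k ((l k).p.π ω') 0) j := if_pos hj
          rw [h5, h6] at h4
          exact mul_le_mul (hk1 ω a j) h4 (abs_nonneg _) hk2
      _ ≤ ∑ _j : Fin (m + 1), K k * S.dl r k := by
          apply Finset.sum_le_sum_of_subset_of_nonneg (Finset.subset_univ _)
          intro _ _ _
          positivity
      _ = (m + 1) * K k * S.dl r k := by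
          rw [Finset.sum_const, Finset.card_univ, Fintype.card_fin, nsmul_eq_mul]
          push_cast
          ring
  have e' : |dfl s i J l v k ω'| ≤ K k * S.dl σ k := e'
  have e : |dfl s i J l v k ω| ≤ K k * S.dl σ k := e
  have h7 : K k * S.dl σ k ≤ K k * S.dl r k := mul_le_mul_of_nonneg_left hdσ hk2
  have h8 := abs_le.mp e3
  have h9 := abs_le.mp e
  have h10 := abs_le.mp e'
  rw [abs_le]
  constructor <;> nlinarith [h8.1, h8.2, h9.1, h9.2, h10.1, h10.2]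

/-- names of the coordinates: time and flat coordinates, `R`, `z` -/
structure Cd (m N : ℕ) where
  sel : Fin (N + 1) → Fin (m + 1)
  R : Fin m
  z : Fin m
  sel0 : sel 0 = 0
  inj : Function.Injective sel
  hR : ∀ a, sel a ≠ R.succ
  hz : ∀ a, sel a ≠ z.succ
  hRz : R ≠ z
  cov : ∀ j, j = z.succ ∨ j = R.succ ∨ ∃ a, j = sel a

namespace Cd

variable (C : Cd m N)

/-- the flat coordinates and the time -/
def JR : Finset (Fin (m + 1)) := Finset.univ.image C.sel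

/-- all coordinates but `z` -/
def Jz : Finset (Fin (m + 1)) := insert C.R.succ C.JR

/-- the flat coordinates -/
def fl (s : Sys S m) : S.VV N := TR.vec fun a => pc s (C.sel a.succ)

/-- the flat coordinates and `R` -/
def M (s : Sys S m) (r : ℝ) : S.L := (C.fl s).dg r ⊔ TR.dg (pc s C.R.succ) r

theorem M_mono (s : Sys S m) {r r' : ℝ} (h : r ≤ r') : C.M s r ≤ C.M s r' :=
  sup_le_sup ((C.fl s).dg_mono h) (TR.dg_mono _ h)

theorem pc_le {s : Sys S m} {r : ℝ} {A : S.L} (j : Fin (m + 1)) (h : (pv s).dg r ≤ A) : TR.dg (pc s j) r ≤ A :=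
  (TR.cor_dg_le (pv s) j r).trans h

theorem P_eq (s : Sys S m) (r : ℝ) :
    s.P.dg r ⊔ s.t.dg r = C.M s r ⊔ TR.dg (pc s C.z.succ) r ⊔ s.t.dg r := by
  rw [← pv_dg]
  apply le_antisymm
  · rw [TR.vv_dg_le_iff]
    intro j
    rcases C.cov j with hj | hj | ⟨a, hj⟩
    · rw [hj]
      exact (le_sup_right.trans le_sup_left : TR.dg (pc s C.z.succ) r ≤ C.M s r ⊔ TR.dg (pc s C.z.succ) r ⊔ s.t.dg r)
    · rw [hj]
      exact ((le_sup_right.trans le_sup_left).trans le_sup_left :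
        TR.dg (pc s C.R.succ) r ≤ C.M s r ⊔ TR.dg (pc s C.z.succ) r ⊔ s.t.dg r)
    · rw [hj]
      rcases Fin.eq_zero_or_eq_succ a with h0 | ⟨b, hb⟩
      · rw [h0, C.sel0]
        exact ((pc_zero_dg s r).le.trans le_sup_right :
          TR.dg (pc s 0) r ≤ C.M s r ⊔ TR.dg (pc s C.z.succ) r ⊔ s.t.dg r)
      · rw [hb]
        have h1 : TR.dg (pc s (C.sel b.succ)) r ≤ (C.fl s).dg r := TR.cor_dg_le (C.fl s) b r
        exact ((h1.trans le_sup_left).trans le_sup_left).trans le_sup_left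
  · refine sup_le (sup_le (sup_le ?_ (pc_le _ le_rfl)) (pc_le _ le_rfl)) ?_
    · rw [TR.vv_dg_le_iff]
      intro a
      exact pc_le (C.sel a.succ) le_rfl
    · rw [← pc_zero_dg]
      exact pc_le 0 le_rfl

theorem sel_le (s : Sys S m) (r : ℝ) (j : Fin (m + 1)) (hj : j ∈ C.JR) :
    TR.dg (pc s j) r ≤ (C.fl s).dg r ⊔ s.t.dg r := by
  unfold JR at hj
  rw [Finset.mem_image] at hj
  obtain ⟨a, -, rfl⟩ := hj
  rcases Fin.eq_zero_or_eq_succ a with h0 | ⟨b, hb⟩
  · rw [h0, C.sel0]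
    exact (pc_zero_dg s r).le.trans le_sup_right
  · rw [hb]
    exact (TR.cor_dg_le (C.fl s) b r).trans le_sup_left

theorem M_t_le (s : Sys S m) {r : ℝ} : C.M s r ≤ s.P.dg r ⊔ s.t.dg r := by
  rw [C.P_eq]
  exact le_sup_left.trans le_sup_left

/-- LEMMA NC for systems -/
theorem nc {s : Sys S m} {c0 lam : ℝ} (h0 : 0 ≤ c0) (hcl : c0 ≤ lam) (h1 : lam ≤ 1) {l : Lab S} (hl : IsKap s c0 l)
    {v w : ∀ k, (l k).T.Ω → Cf (m + 1)} (hv : Sht s C.z C.Jz 1 l v) (hw : Sht s C.R C.JR lam l w)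
    (hfull : N * (1 - c0) + (1 - lam) ≤ h (s.P.dg 1) s.T - Pool.Agent.Helper40.EL.ic s c0) {r r' : ℝ} (hr : lam ≤ r) (hrr : r ≤ r')
    (hr' : r' ≤ 1) :
    h (TR.dg (pc s C.z.succ) r') (C.M s 1 ⊔ (TR.dg (pc s C.z.succ) r ⊔ s.T)) ≤
      s.F 0 r' - s.F 0 r - (N + 1) * (r' - r) := by
  have hc1 : c0 ≤ 1 := hcl.trans h1
  have hr0 : 0 ≤ r := (h0.trans hcl).trans hr
  have hr1 : r ≤ 1 := hrr.trans hr'
  have hr0' : 0 ≤ r' := hr0.trans hrr
  set zc : ℝ → S.L := fun u => TR.dg (pc s C.z.succ) u with hzc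
  set Rc : ℝ → S.L := fun u => TR.dg (pc s C.R.succ) u with hRc
  have hT : ∀ u, u ≤ 1 → s.t.dg u ≤ s.T := fun u hu => s.t.dg_mono hu
  -- digits of the sheets
  have hzM : ∀ u, u ≤ 1 → up1 l (zc u) ≤ up1 l (C.M s u) ⊔ up1 l s.T := by
    intro u hu
    refine hv.dg_le hu fun j hj => ?_
    rw [← up1_sup]
    apply up1_mono
    unfold Jz at hj
    rw [Finset.mem_insert] at hj
    rcases hj with rfl | hj
    · exact (le_sup_right.trans le_sup_left : Rc u ≤ C.M s u ⊔ s.T)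
    · exact (C.sel_le s u j hj).trans (sup_le (le_sup_left.trans le_sup_left) ((hT u hu).trans le_sup_right))
  have hRf : up1 l (Rc lam) ≤ up1 l ((C.fl s).dg lam) ⊔ up1 l s.T := by
    refine hw.dg_le le_rfl fun j hj => ?_
    rw [← up1_sup]
    apply up1_mono
    exact (C.sel_le s lam j hj).trans (sup_le_sup_left (hT lam h1) _)
  -- fullness over the label
  have f1 : h (up1 l (s.P.dg 1)) (up1 l s.T) ≤ h (up1 l (C.M s 1)) (up1 l s.T) := by
    have e1 : s.P.dg 1 ≤ C.M s 1 ⊔ zc 1 ⊔ s.T := by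
      have := (C.P_eq s 1)
      exact le_sup_left.trans this.le
    have e2 : h (up1 l (s.P.dg 1)) (up1 l s.T) ≤ h (up1 l (C.M s 1) ⊔ up1 l (zc 1)) (up1 l s.T) := by
      have e3 := up1_mono l e1
      rw [up1_sup, up1_sup] at e3
      have e4 : h (up1 l (s.P.dg 1)) (up1 l s.T) ≤ h (up1 l (C.M s 1) ⊔ up1 l (zc 1) ⊔ up1 l s.T) (up1 l s.T) :=
        h_mono e3
      rwa [h_sup_right_of_le le_rfl] at e4
    refine e2.trans ?_
    rw [h_chain]
    have e5 : h (up1 l (zc 1)) (up1 l (C.M s 1) ⊔ up1 l s.T) = 0 := h_zero (hzM 1 le_rfl)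
    rw [e5, add_zero]
  have f2 : h (up1 l (C.M s r)) (up1 l s.T) ≤ N * (r - c0) + (r - lam) := by
    have e1 : h (up1 l (C.M s r)) (up1 l s.T) = h (up1 l ((C.fl s).dg r)) (up1 l s.T) +
        h (up1 l (Rc r)) (up1 l ((C.fl s).dg r) ⊔ up1 l s.T) := by
      unfold M
      rw [up1_sup, h_chain]
    have e2 : h (up1 l ((C.fl s).dg r)) (up1 l s.T) ≤ N * (r - c0) := by
      have e3 : up1 l ((C.fl s).dg c0) = ⊥ := by
        apply le_antisymm _ bot_le
        rw [← hl.P_bot hc1]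
        have e4 : (C.fl s).dg c0 ≤ s.P.dg c0 ⊔ s.t.dg c0 := le_sup_left.trans (C.M_t_le s)
        have e5 := up1_mono l e4
        rw [up1_sup, hl.t_bot hc1, sup_bot_eq] at e5
        exact e5
      calc h (up1 l ((C.fl s).dg r)) (up1 l s.T) ≤ H (up1 l ((C.fl s).dg r)) := h_le_H _ _
        _ = h (up1 l ((C.fl s).dg r)) (up1 l ((C.fl s).dg c0)) := by rw [e3, h_bot]
        _ ≤ h ((C.fl s).dg r) ((C.fl s).dg c0) := h_up1_le l _ _
        _ ≤ N * (r - c0) := (C.fl s).h_dg_dg (hcl.trans hr)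
    have e3 : h (up1 l (Rc r)) (up1 l ((C.fl s).dg r) ⊔ up1 l s.T) ≤ r - lam := by
      have e4 : up1 l (Rc lam) ≤ up1 l ((C.fl s).dg r) ⊔ up1 l s.T :=
        hRf.trans (sup_le_sup_right (up1_mono l ((C.fl s).dg_mono hr)) _)
      calc h (up1 l (Rc r)) (up1 l ((C.fl s).dg r) ⊔ up1 l s.T) ≤ h (up1 l (Rc r)) (up1 l (Rc lam)) := h_anti e4
        _ ≤ h (Rc r) (Rc lam) := h_up1_le l _ _
        _ ≤ (1 : ℕ) * (r - lam) := VV.h_dg_dg _ hr
        _ = r - lam := by push_cast; ring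
    linarith
  have f3 : ((N : ℝ) + 1) * (1 - r) ≤ h (C.M s 1) (C.M s r ⊔ zc r ⊔ s.T) := by
    have e1 : h (up1 l (C.M s 1)) (up1 l (C.M s r ⊔ zc r ⊔ s.T)) ≤ h (C.M s 1) (C.M s r ⊔ zc r ⊔ s.T) := h_up1_le l _ _
    have e2 : up1 l (C.M s r ⊔ zc r ⊔ s.T) = up1 l (C.M s r) ⊔ up1 l s.T := by
      rw [up1_sup, up1_sup]
      apply le_antisymm
      · exact sup_le (sup_le le_sup_left (hzM r hr1)) le_sup_right
      · exact sup_le (le_sup_left.trans le_sup_left) le_sup_right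
    have e3 : h (up1 l (C.M s 1)) (up1 l s.T) = h (up1 l (C.M s r)) (up1 l s.T) +
        h (up1 l (C.M s 1)) (up1 l (C.M s r) ⊔ up1 l s.T) := by
      rw [← h_chain, sup_eq_right.mpr (up1_mono l (C.M_mono s hr1))]
    have e4 := hl.ic_P h0 hc1
    rw [e2] at e1
    nlinarith
  -- the deficit
  have f4 : h (C.M s r' ⊔ zc r') (C.M s r ⊔ zc r ⊔ s.T) ≤ s.F 0 r' - s.F 0 r := by
    have e1 : ∀ u, u ≤ 1 → s.F 0 u = h (C.M s u ⊔ zc u) s.T := by
      intro u hu
      have e2 : s.F 0 u = h (s.x.dg 0 ⊔ s.P.dg u) s.T := rfl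
      rw [e2, s.x.dg_nonpos le_rfl, bot_sup_eq]
      apply h_congr_left
      · have := (C.P_eq s u).le
        exact (le_sup_left.trans this).trans (sup_le_sup_left (hT u hu) _)
      · have := (C.P_eq s u).ge
        exact (le_sup_left.trans this).trans (sup_le_sup_left (hT u hu) _)
    rw [e1 r' hr', e1 r hr1]
    have e2 : h (C.M s r' ⊔ zc r') s.T = h (C.M s r ⊔ zc r) s.T +
        h (C.M s r' ⊔ zc r') (C.M s r ⊔ zc r ⊔ s.T) := by
      rw [← h_chain]
      congr 1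
      exact (sup_eq_right.mpr (sup_le_sup (C.M_mono s hrr) (TR.dg_mono _ hrr))).symm
    linarith
  have f5 : h (C.M s 1) (C.M s r' ⊔ s.T) ≤ (N + 1) * (1 - r') := by
    have e1 : h (C.M s 1) (C.M s r') ≤ (N + 1) * (1 - r') := by
      unfold M
      have e2 := h_sup_le ((C.fl s).dg 1) (Rc 1) ((C.fl s).dg r' ⊔ Rc r')
      have e3 : h ((C.fl s).dg 1) ((C.fl s).dg r' ⊔ Rc r') ≤ N * (1 - r') :=
        (h_anti le_sup_left).trans ((C.fl s).h_dg_dg hr')
      have e4 : h (Rc 1) ((C.fl s).dg r' ⊔ Rc r') ≤ (1 : ℕ) * (1 - r') :=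
        (h_anti le_sup_right).trans (VV.h_dg_dg _ hr')
      push_cast at e4
      linarith
    exact (h_anti le_sup_left).trans e1
  have f6 := Pool.Agent.Helper51.SW.nc_deficit (W := s.T) (M := C.M s 1) (Ms := C.M s r') (Mr := C.M s r) (zs := zc r')
    (zr := zc r) (C.M_mono s hr') (C.M_mono s hrr) f4 f3
  linarith

end Cd

end

end Pool.Agent.Helper91.GR
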