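import Pool.Agent.Helper91.GR.Bh
import Pool.Agent.Helper40.EL.D5

/-! NORMAL LABELS: maximal labels which know the cells of the window and the sheets literally; the label of the window
`c0` over the label of the window `c`. -/

set_option autoImplicit false

namespace Pool.Agent.Helper91.GR

open Finset Filter Topology Pool.Agent.Helper69.RK Pool.Agent.Helper31.EC Pool.Agent.Helper31.EC.Sp
open Pool.Agent.Helper40.EL Pool.Agent.Helper42.NS
open Pool.Agent.Helper52.SL (cv cv_dg)

noncomputable section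

variable {S : Sp} {m : ℕ} {s : Sys S m} {c : ℝ}

/-- `HH` passes to events of extensions -/
theorem HH_im' {G : Gg m} {σ : ℝ} (h : HH G s c σ) {T : Sp} (p : Pj T S) (E : ∀ k, (T.F k).Ω → Prop)
    (hE : 0 < ul (T.pr E)) : HH G (s.im p E hE) c σ := by
  rw [HH_iff] at h ⊢
  apply le_antisymm (psi_le_one _ _ _)
  rcases Sp.typ_or E with ht | hE'
  · have h1 := psi_im_typ (G := G) (s := s) p E hE ht c σ
    rwa [h] at h1
  · have h1 := psi_im_split (G := G) (s := s) p E hE hE' c σ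
    rw [h] at h1
    have h2 := psi_le_one (G := G) (s.im p (fun k ω => ¬ E k ω) hE') c σ
    have h3 : 0 ≤ 1 - ul (T.pr E) := by linarith [Sp.ul_pr_le_one E]
    have h4 : ul (T.pr E) * 1 ≤ ul (T.pr E) * psi G (s.im p E hE) c σ := by nlinarith
    exact le_of_mul_le_mul_left h4 hE

theorem info_mono {l l' : Lab S} {A B : Part S} (hl : l.DM A B) (hl' : l'.DM A B) (hA : A.Bd)
    (h : ∀ k, (l k).info ≤ (l' k).info) : l.info ≤ l'.info :=
  ul_mono (hl.ub hA) (hl'.ub hA) (Eventually.of_forall fun k => div_le_div_of_nonneg_right (h k) (S.F k).pos.le)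

theorem IsKap_of_info {l l' : Lab S} (hl : IsKap s c l) (hl' : DMc s c l') (h : ∀ k, (l k).info ≤ (l' k).info) :
    IsKap s c l' := ⟨hl', fun l2 h2 => (hl.2 l2 h2).trans (info_mono hl.1 hl' (cA_Bd s c) h)⟩

theorem IsKap_join_left {l l' : Lab S} (hl : IsKap s c l) (hl' : DMc s c l') : IsKap s c (l.join l') :=
  IsKap_of_info hl (Lab.DM.join hl.1 hl') fun k => (l k).join_info_ge_left (l' k)

theorem IsKap_join_right {l l' : Lab S} (hl : DMc s c l) (hl' : IsKap s c l') : IsKap s c (l.join l') :=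
  IsKap_of_info hl' (Lab.DM.join hl hl'.1) fun k => (l k).join_info_ge_right (l' k)

/-- labels with the same leaks -/
theorem IsKap_of_leak {l l' : Lab S} (hl : IsKap s c l) (h : ∀ k x, (l' k).leak x = (l k).leak x) : IsKap s c l' := by
  refine IsKap_of_info hl ⟨?_, ?_⟩ fun k => ?_
  · exact hl.1.1.congr fun k => congrArg (· / (S.F k).n) (h k (cA s c k)).symm
  · exact hl.1.2.congr fun k => congrArg (· / (S.F k).n) (h k (cB s k)).symm
  · rw [← FLab.leak_bot, ← FLab.leak_bot, h]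

/-! ### sheets of finer labels -/

theorem Sht_pull {i : Fin m} {J : Finset (Fin (m + 1))} {σ : ℝ} {l L : Lab S} {v : ∀ k, (l k).T.Ω → Cf (m + 1)}
    (h : Sht s i J σ l v) (q : ∀ k, FPj (L k).T (l k).T)
    (hp : ∀ k w, (L k).T.μ w ≠ 0 → (L k).p.π w = (l k).p.π ((q k).π w))
    (hV : ∀ k w w', (L k).V w w' → (l k).V ((q k).π w) ((q k).π w')) :
    Sht s i J σ L (fun k w => v k ((q k).π w)) := by
  obtain ⟨hm, K, hK, hs, ht⟩ := h
  refine ⟨fun k w w' a a' b d => ?_, K, hK, ?_, ?_⟩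
  · exact hm k _ _ ((q k).supp w a) ((q k).supp w' a') (hV k w w' b) (((q k).hZ w w' a a').mp d)
  · filter_upwards [hs] with k hk w a j
    exact hk _ ((q k).supp w a) j
  · set P : Pj L.sp l.sp := ⟨fun k => (q k).π, fun k => (q k).law, fun k => (q k).hZ,
      fun k => (L k).hn.trans (l k).hn.symm⟩ with hP
    refine Typ.mono (typ_pj P ht) ?_
    refine Eventually.of_forall fun k w a g => ?_
    have e1 : dfl s i J L (fun k w => v k ((q k).π w)) k w = dfl s i J l v k ((q k).π w) := by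
      unfold dfl
      rw [hp k w a]
    rw [e1]
    exact g

theorem Sht_join_left {i : Fin m} {J : Finset (Fin (m + 1))} {σ : ℝ} {l l' : Lab S}
    {v : ∀ k, (l k).T.Ω → Cf (m + 1)} (h : Sht s i J σ l v) : Sht s i J σ (l.join l') (fun k w => v k w.1) :=
  Sht_pull (L := l.join l') h (fun k => ((l k).am (l' k)).p1) (fun _ _ _ => rfl) (fun _ _ _ g => g.1)

theorem Sht_join_right {i : Fin m} {J : Finset (Fin (m + 1))} {σ : ℝ} {l l' : Lab S}
    {v : ∀ k, (l' k).T.Ω → Cf (m + 1)} (h : Sht s i J σ l' v) : Sht s i J σ (l.join l') (fun k w => v k w.2) :=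
  Sht_pull (L := l.join l') h (fun k => ((l k).am (l' k)).p2) (fun k w a => (((l k).am (l' k)).supp w a).1)
    (fun _ _ _ g => g.2)

/-! ### the cells of the window -/

/-- add the cells of the window -/
def addC (s : Sys S m) (c : ℝ) (l : Lab S) : Lab S :=
  fun k => (l k).add (Setoid.ker (s.t.cellv c k) ⊓ Setoid.ker (s.P.cellv c k))

theorem addC_IsKap (h1 : c ≤ 1) {l : Lab S} (hl : IsKap s c l) : IsKap s c (addC s c l) := by
  set Y : S.Inf := Inf.sup (s.It c) (s.IP c) with hY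
  have e1 : cl Y = s.t.dg c ⊔ s.P.dg c := by
    rw [hY, cl_sup, s.cl_It, s.cl_IP]
  have key : ∀ (B : S.Inf) (Bp : Part S), Bp = rpI B → s.t.dg c ⊔ s.P.dg c ≤ cl B →
      Nul S (fun k => (l k).leak (Bp k)) → Nul S (fun k => (addC s c l k).leak (Bp k)) := by
    intro B Bp hBp hB hn
    have h2 : PLe (rpI Y) (rpI B) := PLe_rpI.mpr (by rw [e1]; exact hB)
    have h3 : Nul S (fun k => h (rpI Y k) (rpI B k)) := h2
    apply (hn.add h3).of_le (Eventually.of_forall fun k => FLab.leak_nonneg _ _)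
    refine Eventually.of_forall fun k => ?_
    have h4 := (l k).add_leak_le (Setoid.ker (s.t.cellv c k) ⊓ Setoid.ker (s.P.cellv c k)) (Bp k)
    rw [hBp] at h4 ⊢
    exact h4
  refine IsKap_of_info hl ⟨?_, ?_⟩ fun k => (l k).add_info_ge _
  · refine key _ _ (cA_eq s c) ?_ hl.1.1
    rw [cl_A]
    exact sup_le le_sup_right (P_le_A s h1)
  · refine key _ _ (cB_eq s) ?_ hl.1.2
    rw [cl_B]
    exact sup_le (t_le_B s h1) (P_le_B s h1)

theorem addC_lit (l : Lab S) (j : Fin (m + 1)) : Lit (TR.cor (cv (addC s c l) (pv s)) j) c := by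
  refine Eventually.of_forall fun k ω ω' _ _ hZ => ?_
  have hV : (addC s c l k).V ω ω' := hZ.1
  have h1 : s.t.cellv c k ((l k).p.π ω) = s.t.cellv c k ((l k).p.π ω') := hV.2.1
  have h2 : s.P.cellv c k ((l k).p.π ω) = s.P.cellv c k ((l k).p.π ω') := hV.2.2
  have hd : ((addC s c l).ovr 1 one_pos).dl c k = S.dl c k := by
    have h3 : ((addC s c l).ovr 1 one_pos).dl c k = (addC s c l).sp.dl (1 * c) k :=
      chg_dl (addC s c l).V 1 one_pos c k
    rw [h3, one_mul, Pool.Agent.Helper3.LF.sp_dl]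
  unfold flr
  rw [hd]
  refine Fin.cases ?_ (fun i => ?_) j
  · exact congrFun h1 0
  · exact congrFun h2 i

/-! ### the label of the second window over the label of the first window -/

/-- the projection which forgets the second factor, over the first label -/
def ovp {F : FSp} (l l' : FLab F) : FPj ((l.am l').sp.chg (Setoid.comap (l.am l').p1.π l.V) 1 one_pos)
    (l.ovr 1 one_pos) where
  π := fun w => w.1
  law := (l.am l').p1.law
  hZ := fun _ _ _ _ => Iff.rfl

/-- a label over another label -/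
def ovl (l l' : Lab S) : Lab (l.ovr 1 one_pos) := fun k =>
  { T := ((l k).am (l' k)).sp.chg (Setoid.comap ((l k).am (l' k)).p1.π (l k).V) 1 one_pos
    p := ovp (l k) (l' k)
    hn := rfl
    V := Setoid.comap ((l k).am (l' k)).p2.π (l' k).V }

/-- the composed label and the join -/
def cjp (l l' : Lab S) (k : ℕ) : FPj ((l.comp 1 one_pos (ovl l l')) k).T ((l.join l') k).T where
  π := fun w => w
  law := push_id _
  hZ := fun w w' a b => by
    have a1 := (((l k).am (l' k)).supp w a).2.1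
    have b1 := (((l k).am (l' k)).supp w' b).2.1
    exact ((l k).p.hZ w.1 w'.1 a1 b1).symm

theorem comp_ovl_leak (l l' : Lab S) (k : ℕ) (x : FL (S.F k)) :
    ((l.comp 1 one_pos (ovl l l')) k).leak x = ((l.join l') k).leak x := by
  have h1 := (cjp l l' k).I_map ((l.join l') k).v ((l.join l') k).p.top (((l.join l') k).p.map x)
  have h2 : (cjp l l' k).map (((l.join l') k).p.map x) = ((l.comp 1 one_pos (ovl l l')) k).p.map x := by
    induction x using fc_ind
    rfl
  rw [h2] at h1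
  exact h1

theorem ovl_IsKap {c0 : ℝ} {l l' : Lab S} (hl : DMc s c0 l) (hl' : IsKap s c0 l') :
    IsKap s c0 (l.comp 1 one_pos (ovl l l')) :=
  IsKap_of_leak (IsKap_join_right hl hl') fun k x => comp_ovl_leak l l' k x

theorem ovl_Sht {i : Fin m} {J : Finset (Fin (m + 1))} {σ : ℝ} {l l' : Lab S}
    {v : ∀ k, (l' k).T.Ω → Cf (m + 1)} (h : Sht s i J σ l' v) :
    Sht s i J σ (l.comp 1 one_pos (ovl l l')) (fun k w => v k w.2) :=
  Sht_pull (L := l.comp 1 one_pos (ovl l l')) h (fun k => (cjp l l' k).comp ((l k).am (l' k)).p2)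
    (fun k w a => (((l k).am (l' k)).supp w a).1) (fun _ _ _ g => g.2)

/-- NORMAL LABELS -/
theorem exists_nrm {i : Fin m} {J : Finset (Fin (m + 1))} {lam : ℝ} (h1 : c ≤ 1) (h : HH (SJ i J) s c lam) :
    ∃ (l : Lab S) (w : ∀ k, (l k).T.Ω → Cf (m + 1)), IsKap s c l ∧ Sht s i J lam l w ∧
      ∀ j, Lit (TR.cor (cv l (pv s)) j) c := by
  obtain ⟨l1, w, hl1, hw⟩ := Sht_of_HH h
  obtain ⟨l0, hl0⟩ := exists_kap s c
  have hk : IsKap s c (l1.join l0) := IsKap_join_right hl1 hl0
  refine ⟨addC s c (l1.join l0), fun k ω => w k ω.1, addC_IsKap h1 hk, ?_, addC_lit _⟩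
  have h2 : Sht s i J lam (l1.join l0) (fun k ω => w k ω.1) := Sht_join_left hw
  exact Sht_pull (L := addC s c (l1.join l0)) h2 (fun k => ⟨fun ω => ω, push_id _, fun _ _ _ _ => Iff.rfl⟩)
    (fun _ _ _ => rfl) (fun _ _ _ g => g.1)

/-- maximal labels with two sheets -/
theorem exists_kap2 {i i' : Fin m} {J J' : Finset (Fin (m + 1))} {σ σ' : ℝ} (h : HH (SJ i J) s c σ)
    (h' : HH (SJ i' J') s c σ') : ∃ (l : Lab S) (v w : ∀ k, (l k).T.Ω → Cf (m + 1)), IsKap s c l ∧
      Sht s i J σ l v ∧ Sht s i' J' σ' l w := by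
  obtain ⟨l1, v, hl1, hv⟩ := Sht_of_HH h
  obtain ⟨l2, w, hl2, hw⟩ := Sht_of_HH h'
  obtain ⟨l0, hl0⟩ := exists_kap s c
  exact ⟨l1.join (l2.join l0), fun k ω => v k ω.1, fun k ω => w k ω.2.1, IsKap_join_right hl1 (IsKap_join_right hl2 hl0),
    Sht_join_left hv, Sht_join_right (Sht_join_left hw)⟩

end

end Pool.Agent.Helper91.GR
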