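import Pool.Agent.Helper91.GR.Lip

/-! The sheet of the label of the window `c0` at the fresh point of the window `c`; LIP. -/

set_option autoImplicit false

namespace Pool.Agent.Helper91.GR

open Finset Filter Topology Pool.Agent.Helper69.RK Pool.Agent.Helper31.EC Pool.Agent.Helper31.EC.Sp
open Pool.Agent.Helper40.EL Pool.Agent.Helper42.NS
open Pool.Agent.Helper3.LF (pl pl_zero pl_succ sp_Sub sp_dl sp_n)
open Pool.Agent.Helper52.SL (cv cv_dg)

noncomputable section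

variable {m N : ℕ} {S : Sp} {s : Sys S m} {c c0 : ℝ}

/-- functions of the second label on the space over the first label -/
def v2 {l l0 : Lab S} (v : ∀ k, (l0 k).T.Ω → Cf (m + 1)) (k : ℕ) (w : ((ovl l l0).sp.F k).Ω) : Cf (m + 1) :=
  v k w.2

/-- the sheet at the fresh point -/
def vY {l l0 : Lab S} (s : Sys S m) (c : ℝ) (v : ∀ k, (l0 k).T.Ω → Cf (m + 1)) (k : ℕ)
    (ω : ((fX s c (ovl l l0)).sp.F k).Ω) : Cf (m + 1) := v2 (l := l) v k ((fX s c (ovl l l0)).p1.π k ω)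

theorem fsh {i : Fin m} {J : Finset (Fin (m + 1))} {l l0 : Lab S} {v : ∀ k, (l0 k).T.Ω → Cf (m + 1)} (h0 : 0 ≤ c)
    (hcc : c ≤ c0) (h1 : c0 < 1) (hl : DMc s c0 l) (hl0 : IsKap s c0 l0) (hv : Sht s i J 1 l0 v) :
    ∃ K : ℕ → ℝ, S.Sub K ∧ (∀ᶠ k in UF, ∀ ω, ((fX s c (ovl l l0)).sp.F k).μ ω ≠ 0 → ∀ j,
      |(vY (l := l) s c v k ω).2 j| ≤ K k) ∧ Typ (S := (fX s c (ovl l l0)).sp) (fun k ω =>
      |df i J (vY (l := l) s c v k ω) (s.a.v k ((l k).p.π ((fX s c (ovl l l0)).p2.π k ω)))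
        (s.x.v k ((l k).p.π ((fX s c (ovl l l0)).p2.π k ω)))
        (s.t.v k ((l k).p.π ((fX s c (ovl l l0)).p2.π k ω)) 0)| ≤ K k * S.dl (1 - (c0 - c)) k) := by
  have hk2 := ovl_IsKap (l := l) (l' := l0) hl hl0
  have hsh : Sht s i J 1 (l.comp 1 one_pos (ovl l l0)) (v2 (l := l) v) := ovl_Sht (l := l) hv
  obtain ⟨hm, K, hK, hs, ht⟩ := hsh
  obtain ⟨Kt, hKt, hKtb⟩ := s.t.bd
  obtain ⟨K', hK', hT⟩ := win_df (h0.trans hcc) h1 (l := l.comp 1 one_pos (ovl l l0)) hk2.1.1 i J _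
    (Eventually.of_forall hm) hK hs (c0 - c) (by linarith) (fun _ => 1) (S.Sub_const zero_le_one)
  set Y := (fX s c (ovl l l0)).sp with hY
  have hT1 : Typ (S := (ovl l l0).sp) (fun k (ω : ((ovl l l0) k).T.Ω) =>
      ∀ r, |r - s.t.v k (((l.comp 1 one_pos (ovl l l0)) k).p.π ω) 0| ≤ 1 * S.dl (c0 - (c0 - c)) k →
      |df i J (v2 (l := l) v k ω) (s.a.v k (((l.comp 1 one_pos (ovl l l0)) k).p.π ω))
        (s.x.v k (((l.comp 1 one_pos (ovl l l0)) k).p.π ω)) r| ≤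
        K' k * 2 ^ ((c0 - c) * (S.F k).n) *
          (|dfl s i J (l.comp 1 one_pos (ovl l l0)) (v2 (l := l) v) k ω| + S.dl 1 k)) := hT
  have ht1 : Typ (S := (ovl l l0).sp) (fun k (ω : ((ovl l l0) k).T.Ω) =>
      |dfl s i J (l.comp 1 one_pos (ovl l l0)) (v2 (l := l) v) k ω| ≤ K k * S.dl 1 k) := ht
  have hE := (typ_pj (fX s c (ovl l l0)).p1 hT1).and (typ_pj (fX s c (ovl l l0)).p1 ht1)
  refine ⟨fun k => K k + (K' k * (K k + 1) + (1 + Kt k) * (1 + (m + 1) * K k)), ?_, ?_, ?_⟩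
  · have a1 : S.Sub (fun k => 1 + Kt k) := (S.Sub_const zero_le_one).add hKt
    have a2 : S.Sub (fun k => 1 + ((m : ℝ) + 1) * K k) :=
      (S.Sub_const zero_le_one).add ((S.Sub_const (by positivity)).mul hK)
    exact hK.add ((hK'.mul (hK.add (S.Sub_const zero_le_one))).add (a1.mul a2))
  · filter_upwards [hs, hK.1, hK'.1, hKt.1] with k a b b' d ω hω j
    have e1 := a _ ((fX s c (ovl l l0)).p1.supp k ω hω) j
    have e2 : 0 ≤ K' k * (K k + 1) + (1 + Kt k) * (1 + (m + 1) * K k) := by positivity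
    exact e1.trans (by linarith)
  · refine Typ.mono hE ?_
    filter_upwards [hs, hK.1, hK'.1, hKt.1, hKtb] with k a b b' d hKb ω hω g
    obtain ⟨g1, g2⟩ := g
    have hω1 := (fX s c (ovl l l0)).p1.supp k ω hω
    have hω2 := (fX s c (ovl l l0)).p2.supp k ω hω
    have hVA := Pj.join_supp (ovl l l0).pj (VA s l c) k ω hω
    set ω1 := (fX s c (ovl l l0)).p1.π k ω with hω1d
    set ω2 := (fX s c (ovl l l0)).p2.π k ω with hω2d
    have hdl : ∀ r, (l.ovr 1 one_pos).dl r k = S.dl r k := by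
      intro r
      have h4 : (l.ovr 1 one_pos).dl r k = l.sp.dl (1 * r) k := chg_dl l.V 1 one_pos r k
      rw [h4, one_mul, sp_dl]
    have hVA' : VA s l c k ((ovl l l0).pj.π k ω1) = VA s l c k ω2 := hVA
    have ca := (cv l s.a).cellv_close 1 k _ _ (Prod.mk.inj (Prod.mk.inj hVA').1).1
    have cx := (cv l s.x).cellv_close 1 k _ _ (Prod.mk.inj (Prod.mk.inj hVA').1).2
    have ct' := (cv l s.t).cellv_close c k _ _ (Prod.mk.inj hVA').2 0
    rw [hdl] at ca cx ct'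
    set x1 := ((l.comp 1 one_pos (ovl l l0)) k).p.π ω1 with hx1
    set x2 := (l k).p.π ω2 with hx2
    have ca' : ∀ i, |s.a.v k x2 i - s.a.v k x1 i| ≤ S.dl 1 k := fun i => by
      rw [abs_sub_comm]
      exact ca i
    have cx' : ∀ i, |s.x.v k x2 i - s.x.v k x1 i| ≤ S.dl 1 k := fun i => by
      rw [abs_sub_comm]
      exact cx i
    have ct'' : |s.t.v k x2 0 - s.t.v k x1 0| ≤ 1 * S.dl (c0 - (c0 - c)) k := by
      rw [abs_sub_comm, one_mul, sub_sub_cancel]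
      exact ct'
    have e1 := g1 (s.t.v k x2 0) ct''
    have hd1 := S.dl_pos 1 k
    have e2 := df_diff (i := i) (J := J) (f := v2 (l := l) v k ω1) b hd1.le (a ω1 hω1) ca' cx' (s.t.v k x2 0)
    have e3 : |s.t.v k x2 0| ≤ Kt k := hKb x2 ((l k).p.supp ω2 hω2) 0
    have e4 : S.dl (1 - (c0 - c)) k = 2 ^ ((c0 - c) * (S.F k).n) * S.dl 1 k := by
      unfold Sp.dl
      rw [← Real.rpow_add (by norm_num)]
      congr 1
      ring
    have hn := (S.F k).pos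
    have e5 : (1 : ℝ) ≤ 2 ^ ((c0 - c) * (S.F k).n) :=
      Real.one_le_rpow (by norm_num) (mul_nonneg (by linarith) hn.le)
    have e6 : K' k * 2 ^ ((c0 - c) * (S.F k).n) *
        (|dfl s i J (l.comp 1 one_pos (ovl l l0)) (v2 (l := l) v) k ω1| + S.dl 1 k) ≤
        K' k * (K k + 1) * (2 ^ ((c0 - c) * (S.F k).n) * S.dl 1 k) := by
      have f1 : |dfl s i J (l.comp 1 one_pos (ovl l l0)) (v2 (l := l) v) k ω1| + S.dl 1 k ≤
        (K k + 1) * S.dl 1 k := by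
        rw [add_mul, one_mul]
        exact add_le_add g2 le_rfl
      calc K' k * 2 ^ ((c0 - c) * (S.F k).n) *
          (|dfl s i J (l.comp 1 one_pos (ovl l l0)) (v2 (l := l) v) k ω1| + S.dl 1 k) ≤
          K' k * 2 ^ ((c0 - c) * (S.F k).n) * ((K k + 1) * S.dl 1 k) :=
            mul_le_mul_of_nonneg_left f1 (by positivity)
        _ = K' k * (K k + 1) * (2 ^ ((c0 - c) * (S.F k).n) * S.dl 1 k) := by ring
    have e7 : (1 + |s.t.v k x2 0|) * (1 + (m + 1) * K k) * S.dl 1 k ≤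
        (1 + Kt k) * (1 + (m + 1) * K k) * (2 ^ ((c0 - c) * (S.F k).n) * S.dl 1 k) := by
      apply mul_le_mul
      · exact mul_le_mul_of_nonneg_right (by linarith) (by positivity)
      · nlinarith
      · exact hd1.le
      · positivity
    have e8 : 0 ≤ K k * (2 ^ ((c0 - c) * (S.F k).n) * S.dl 1 k) := by positivity
    show |df i J (v2 (l := l) v k ω1) (s.a.v k x2) (s.x.v k x2) (s.t.v k x2 0)| ≤ _
    rw [e4]
    have e9 : |df i J (v2 (l := l) v k ω1) (s.a.v k x2) (s.x.v k x2) (s.t.v k x2 0)| ≤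
        |df i J (v2 (l := l) v k ω1) (s.a.v k x1) (s.x.v k x1) (s.t.v k x2 0)| +
        |df i J (v2 (l := l) v k ω1) (s.a.v k x2) (s.x.v k x2) (s.t.v k x2 0) -
          df i J (v2 (l := l) v k ω1) (s.a.v k x1) (s.x.v k x1) (s.t.v k x2 0)| := by
      have := abs_add_le (df i J (v2 (l := l) v k ω1) (s.a.v k x1) (s.x.v k x1) (s.t.v k x2 0))
        (df i J (v2 (l := l) v k ω1) (s.a.v k x2) (s.x.v k x2) (s.t.v k x2 0) -
          df i J (v2 (l := l) v k ω1) (s.a.v k x1) (s.x.v k x1) (s.t.v k x2 0))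
      rwa [add_sub_cancel] at this
    rw [add_mul, add_mul]
    linarith

/-- the cells of a function on the second label -/
def x2 {q : ℕ} {l l0 : Lab S} (y : l0.sp.VV q) (k : ℕ) (w : ((ovl l l0).sp.F k).Ω) : Fin q → ℤ := y.cellv 1 k w.2

theorem x2_bdd {q : ℕ} {l l0 : Lab S} (y : l0.sp.VV q) : Sp.Bdd (S := (ovl l l0).sp) (x2 (l := l) y) := by
  set P : Pj (l.join l0).sp l0.sp := ⟨fun k => ((l k).am (l0 k)).p2.π, fun k => ((l k).am (l0 k)).p2.law,
    fun k => ((l k).am (l0 k)).p2.hZ, fun k => ((l.join l0) k).hn.trans (l0 k).hn.symm⟩ with hP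
  have h1 : Sp.Bdd (S := (l.join l0).sp) (fun k ω => y.cellv 1 k (P.π k ω)) := (P.bdd_iff (y.cellv 1)).mpr (y.bdd 1)
  have h2 := chg_VB (S := (l.join l0).sp) (fun k => Setoid.comap ((l k).am (l0 k)).p1.π (l k).V) 1 one_pos h1
  exact h2

/-- LIP -/
theorem lip (N : ℕ) (ρ : ℝ) (hρ : 0 < ρ) (hρ1 : ρ ≤ 1) : ∃ K : ℝ, 1 ≤ K ∧
    ∀ {S : Sp} {m : ℕ} {C : Cd m N} {s : Sys S m} {c c0 lam lam0 R κ : ℝ}, 0 ≤ c → c ≤ c0 → c ≤ lam →
    c0 ≤ lam0 → lam ≤ 1 → Pool.Agent.Helper52.SL.RobP s → Pool.Agent.Helper52.KP.RobustI s →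
    HH (SJ C.z C.Jz) s c0 1 → HH (SJ C.R C.JR) s c0 lam0 → HH (SJ C.R C.JR) s c lam →
    N * (1 - c0) + (1 - lam0) ≤ s.F 0 1 - Pool.Agent.Helper40.EL.ic s c0 →
    0 < R → R + (c0 - c) + lam0 ≤ 1 → K * ((N + 1) * (c0 - c) + (lam0 - lam)) ≤ R → K * κ ≤ R →
    (∀ r r', 1 - (c0 - c) - R ≤ r → r ≤ r' → r' ≤ 1 - (c0 - c) →
      s.F 0 r' - s.F 0 r ≤ (N + 2 - ρ) * (r' - r) + κ) →
    HH (SJ C.z C.Jz) s c (1 - (c0 - c) - R) := by
  obtain ⟨Cc, hCc, hbl⟩ := blind_HH N ρ hρ hρ1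
  refine ⟨Cc, hCc, ?_⟩
  intro S m C s c c0 lam lam0 R κ h0 hcc hcl hcl0 hl1 hp hi hz hR hRc hfull hR0 hR1 hε hκ hdef
  have hc0 : c0 < 1 := by linarith
  obtain ⟨l, w, hl, hw, hlit⟩ := exists_nrm (by linarith) hRc
  obtain ⟨l0, v0, -, hl0, hv0, -⟩ := exists_kap2 hz hz
  obtain ⟨y, hv, hylit⟩ := hv0.round zero_le_one le_rfl
  have hldm : DMc s c0 l := DMc.mono hcc hl.1
  have hk2 := ovl_IsKap (l := l) (l' := l0) hldm hl0
  obtain ⟨K2, hK2, hb2, ht2⟩ := fsh (l := l) h0 hcc hc0 hldm hl0 hv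
  obtain ⟨hwm, K1, hK1, hb1, ht1⟩ := hw
  set σ : ℝ := 1 - (c0 - c) with hσ
  set Y := (fX s c (ovl l l0)).sp with hY
  set π := (fX s c (ovl l l0)).p2 with hπ
  set K : ℕ → ℝ := fun k => 1 + |K1 k| + |K2 k| with hKd
  have hKS : S.Sub K := by
    have h3 : S.Sub (fun k => 1 + K1 k + K2 k) := ((S.Sub_const zero_le_one).add hK1).add hK2
    refine h3.mono (Eventually.of_forall fun k => by positivity) ?_
    filter_upwards [hK1.1, hK2.1] with k a b
    rw [hKd]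
    beta_reduce
    rw [abs_of_nonneg a, abs_of_nonneg b]
  have hdl : ∀ r k, (l.ovr 1 one_pos).dl r k = S.dl r k := by
    intro r k
    have h4 : (l.ovr 1 one_pos).dl r k = l.sp.dl (1 * r) k := chg_dl l.V 1 one_pos r k
    rw [h4, one_mul, sp_dl]
  have hKO : (l.ovr 1 one_pos).Sub K := chg_sub l.V 1 one_pos ((sp_Sub l).mpr hKS)
  have le1 : ∀ k, K1 k ≤ K k := fun k => by
    rw [hKd]
    have := le_abs_self (K1 k)
    have := abs_nonneg (K2 k)
    beta_reduce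
    linarith
  have le2 : ∀ k, K2 k ≤ K k := fun k => by
    rw [hKd]
    have := le_abs_self (K2 k)
    have := abs_nonneg (K1 k)
    beta_reduce
    linarith
  have D : Bx C π (cv l (pv s)) c lam σ w (vY (l := l) s c (vfl y)) K := by
    refine ⟨h0, hcl, hl1, by linarith, by linarith, hKO, fun k => ?_, hlit, ?_, ?_, ?_, ?_, ?_⟩
    · rw [hKd]
      have := abs_nonneg (K1 k)
      have := abs_nonneg (K2 k)
      beta_reduce
      linarith
    · filter_upwards [hb1] with k a ω hω j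
      exact (a ω hω j).trans (le1 k)
    · filter_upwards [hb2] with k a ω hω j
      exact (a ω hω j).trans (le2 k)
    · exact Eventually.of_forall fun k ω ω' a b z => hwm k ω ω' a b z.1 z.2
    · refine Typ.mono (typ_chg l.V one_pos ht1) ?_
      refine Eventually.of_forall fun k ω hω g => ?_
      rw [hdl]
      exact g.trans (mul_le_mul_of_nonneg_right (le1 k) (S.dl_pos _ _).le)
    · refine Typ.mono ht2 ?_
      refine Eventually.of_forall fun k ω hω g => ?_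
      rw [hdl]
      exact g.trans (mul_le_mul_of_nonneg_right (le2 k) (S.dl_pos _ _).le)
  have hX0 := x2_bdd (l := l) y
  have hXV : ∀ᶠ k in UF, ∀ ω ω', ((ovl l l0).sp.F k).μ ω ≠ 0 → ((ovl l l0).sp.F k).μ ω' ≠ 0 →
      ((ovl l l0).sp.F k).Z ω ω' → ((ovl l l0) k).V ω ω' → x2 (l := l) y k ω = x2 (l := l) y k ω' := by
    refine Eventually.of_forall fun k ω ω' a b z v => ?_
    have a1 := ((l k).am (l0 k)).p2.supp ω a
    have b1 := ((l k).am (l0 k)).p2.supp ω' b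
    exact hylit k _ _ a1 b1 v ((((l k).am (l0 k)).p2.hZ ω ω' a b).mp z.2)
  have hX := ((fX s c (ovl l l0)).p1.bdd_iff (x2 (l := l) y)).mpr hX0
  have hXv : ∀ᶠ k in UF, ∀ ω ω', (Y.F k).μ ω ≠ 0 → (Y.F k).μ ω' ≠ 0 → (Y.F k).Z ω ω' →
      x2 (l := l) y k ((fX s c (ovl l l0)).p1.π k ω) = x2 (l := l) y k ((fX s c (ovl l l0)).p1.π k ω') →
      vY (l := l) s c (vfl y) k ω = vY (l := l) s c (vfl y) k ω' :=
    Eventually.of_forall fun k ω ω' _ _ _ h => vfl_lit y k _ _ h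
  have hio : Sp.io (S := Y) (fun k ω => x2 (l := l) y k ((fX s c (ovl l l0)).p1.π k ω)) =
      (fX s c (ovl l l0)).p1.map (Sp.io (x2 (l := l) y)) := (Pj.map_io _ _).symm
  refine hbl D hl hX hXv ?_ (ε := (N + 1) * (c0 - c) + (lam0 - lam)) ?_ ?_ hR0 (by linarith) hε hκ
  · rw [hio]
    have f1 := Pj.join_indep (ovl l l0).pj (VA s l c) VA_bdd (Sp.io (x2 (l := l) y)) ((cv l s.t).dg 1)
    have f2 := Pj.join_common (ovl l l0).pj (VA s l c) VA_bdd
    rw [f2, VA_io, cv_dg, cv_dg, cv_dg, cv_dg, hl.t_bot (by linarith), sup_bot_eq, ← up1_sup] at f1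
    exact f1
  · intro T q E hE
    have b1 := blind' h0 hcc hc0.le hl hk2 hp hi q hE hX0 hXV
    rw [← hio] at b1
    have b2 := D.cnt hX hXv q E hE b1
    refine le_trans ?_ b2
    rw [hσ]
    linarith
  · intro T q E hE r r' hr hrr hr'
    have b1 := dfc (h0.trans hcc) hcl0 (by linarith) hp hi hz hR hfull q E hE (r := r) (r' := r')
      (by linarith) hrr (by linarith)
    have b2 := hdef r r' (by linarith) hrr (by linarith)
    refine b1.trans ?_
    linarith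

end

end Pool.Agent.Helper91.GR
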