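import Pool.Agent.Helper91.GR.Def

/-! Windows of sheets: a sheet of a label without leak at `(ξ, t_c)` extends along the line from the point to the
window of level `c - b` with loss `2 ^ (b n + o(n))`. -/

set_option autoImplicit false

namespace Pool.Agent.Helper91.GR

open Finset Filter Topology Pool.Agent.Helper69.RK Pool.Agent.Helper31.EC Pool.Agent.Helper31.EC.Sp
open Pool.Agent.Helper40.EL Pool.Agent.Helper52.KP Pool.Agent.Helper42.NS
open Pool.Agent.Helper3.LF (pl pl_zero pl_succ pl_line Sub_pow_two sp_Sub sp_dl sp_n wB cellv_pj wB_close remez_EC_grow)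

noncomputable section

variable {S : Sp} {m : ℕ} {s : Sys S m}

/-- no leak at `(ξ, t_c)` -/
def NlA (s : Sys S m) (c : ℝ) (l : Lab S) : Prop := Nul S (fun k => (l k).leak (cA s c k))

/-- full entropy of the height below the window -/
theorem win_entA {c : ℝ} (h0 : 0 ≤ c) (h1 : c ≤ 1) {l : Lab S} (hl : NlA s c l) :
    1 - c ≤ ul (l.sp.rt (fun k => Setoid.ker ((l.pj.vv s.t).cellv 1 k)) (wB s c l)) := by
  have e1 : h s.T (lA s c) = 1 - c := h_T_A s h0 h1
  have e2 : h s.T (lA s c) = ul (S.rt (fun k => Setoid.ker (s.t.cellv 1 k))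
      (fun k => Setoid.ker (s.a.cellv 1 k) ⊓ Setoid.ker (s.x.cellv 1 k) ⊓ Setoid.ker (s.t.cellv c k))) := by
    rw [← cl_A]
    have h3 : s.T = Sp.cl (s.It 1) := (s.cl_It 1).symm
    rw [h3, Sp.h_cl]
    rfl
  have hU1 : UB (S.rt (fun k => Setoid.ker (s.t.cellv 1 k))
      (fun k => Setoid.ker (s.a.cellv 1 k) ⊓ Setoid.ker (s.x.cellv 1 k) ⊓ Setoid.ker (s.t.cellv c k))) :=
    Sp.UB_rt (s.It 1) _
  have hU2 : UB (l.sp.rt (fun k => Setoid.ker ((l.pj.vv s.t).cellv 1 k)) (wB s c l)) :=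
    Sp.UB_rt ((l.pj.vv s.t).bdd 1).toInf _
  have hlk : Tendsto (fun k => (l k).leak (cA s c k) / (S.F k).n) UF (𝓝 0) := hl
  have t1 := (ul_tendsto hU1).sub hlk
  rw [← e2, e1, sub_zero] at t1
  refine le_of_tendsto_of_tendsto t1 (ul_tendsto hU2) (Eventually.of_forall fun k => ?_)
  have hn := (S.F k).pos
  unfold Sp.rt
  beta_reduce
  rw [sp_n, ← sub_div]
  apply div_le_div_of_nonneg_right _ hn.le
  -- finite inequality
  set A : Setoid (S.F k).Ω := Setoid.ker (s.a.cellv 1 k) ⊓ Setoid.ker (s.x.cellv 1 k) ⊓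
    Setoid.ker (s.t.cellv c k) with hA
  have f1 : (S.F k).e (Setoid.ker (s.t.cellv 1 k)) (A ⊓ (S.F k).Z) = h (fc (Setoid.ker (s.t.cellv 1 k))) (fc A) :=
    (h_fc _ _).symm
  have f2 : (l.sp.F k).e (Setoid.ker ((l.pj.vv s.t).cellv 1 k)) (wB s c l k ⊓ (l.sp.F k).Z) =
      h ((l k).p.map (fc (Setoid.ker (s.t.cellv 1 k)))) ((l k).v ⊔ (l k).p.map (fc A)) := by
    rw [cellv_pj]
    exact (h_fc _ _).symm
  rw [f1, f2]
  have f3 : (l k).leak (cA s c k) = I (l k).v (l k).p.top ((l k).p.map (fc A)) := rfl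
  have f4 : I (l k).v ((l k).p.map (fc (Setoid.ker (s.t.cellv 1 k)))) ((l k).p.map (fc A)) ≤
      I (l k).v (l k).p.top ((l k).p.map (fc A)) := by
    apply I_mono_right
    exact ((l k).p.map_le_top _).trans le_sup_left
  have f5 : I (l k).v ((l k).p.map (fc (Setoid.ker (s.t.cellv 1 k)))) ((l k).p.map (fc A)) =
      h ((l k).p.map (fc (Setoid.ker (s.t.cellv 1 k)))) ((l k).p.map (fc A)) -
      h ((l k).p.map (fc (Setoid.ker (s.t.cellv 1 k)))) ((l k).v ⊔ (l k).p.map (fc A)) := by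
    rw [I_comm, I_eq]
  have f6 := (l k).p.h_map (fc (Setoid.ker (s.t.cellv 1 k))) (fc A)
  rw [f3]
  linarith

/-- value and slope of the distance along the line -/
def d0 (i : Fin m) (J : Finset (Fin (m + 1))) (f : Cf (m + 1)) (a : Fin m → ℝ) : ℝ :=
  a i - f.1 - ∑ j ∈ J, f.2 j * (Fin.cons 0 a : Fin (m + 1) → ℝ) j

def d1 (i : Fin m) (J : Finset (Fin (m + 1))) (f : Cf (m + 1)) (x : Fin m → ℝ) : ℝ :=
  x i - ∑ j ∈ J, f.2 j * (Fin.cons 1 x : Fin (m + 1) → ℝ) j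

theorem df_lin (i : Fin m) (J : Finset (Fin (m + 1))) (f : Cf (m + 1)) (a x : Fin m → ℝ) (t : ℝ) :
    df i J f a x t = d0 i J f a + t * d1 i J f x := by
  have h1 : ∑ j ∈ J, f.2 j * pl a x t j = ∑ j ∈ J, f.2 j * (Fin.cons 0 a : Fin (m + 1) → ℝ) j +
      t * ∑ j ∈ J, f.2 j * (Fin.cons 1 x : Fin (m + 1) → ℝ) j := by
    rw [Finset.mul_sum, ← Finset.sum_add_distrib]
    apply Finset.sum_congr rfl
    intro j _
    rw [pl_line]
    ring
  unfold df aff d0 d1
  rw [h1]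
  ring

theorem cons_diff {a a' : Fin m → ℝ} {u e : ℝ} (he : 0 ≤ e) (h : ∀ i, |a' i - a i| ≤ e) (j : Fin (m + 1)) :
    |(Fin.cons u a' : Fin (m + 1) → ℝ) j - (Fin.cons u a : Fin (m + 1) → ℝ) j| ≤ e := by
  refine Fin.cases ?_ (fun i => ?_) j
  · rw [Fin.cons_zero, Fin.cons_zero, sub_self, abs_zero]
    exact he
  · rw [Fin.cons_succ, Fin.cons_succ]
    exact h i

theorem sum_diff {J : Finset (Fin (m + 1))} {f : Fin (m + 1) → ℝ} {K e : ℝ} (hK : 0 ≤ K) (he : 0 ≤ e)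
    (hf : ∀ j, |f j| ≤ K) {y y' : Fin (m + 1) → ℝ} (hy : ∀ j, |y' j - y j| ≤ e) :
    |∑ j ∈ J, f j * y' j - ∑ j ∈ J, f j * y j| ≤ (m + 1) * K * e := by
  rw [← Finset.sum_sub_distrib]
  refine (Finset.abs_sum_le_sum_abs _ _).trans ?_
  calc ∑ j ∈ J, |f j * y' j - f j * y j| ≤ ∑ _j ∈ J, K * e := by
        apply Finset.sum_le_sum
        intro j _
        rw [← mul_sub, abs_mul]
        exact mul_le_mul (hf j) (hy j) (abs_nonneg _) hK
    _ ≤ ∑ _j : Fin (m + 1), K * e := by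
        apply Finset.sum_le_sum_of_subset_of_nonneg (Finset.subset_univ _)
        intro _ _ _
        positivity
    _ = (m + 1) * K * e := by
        rw [Finset.sum_const, Finset.card_univ, Fintype.card_fin, nsmul_eq_mul]
        push_cast
        ring

theorem df_diff {i : Fin m} {J : Finset (Fin (m + 1))} {f : Cf (m + 1)} {K e : ℝ} (hK : 0 ≤ K) (he : 0 ≤ e)
    (hf : ∀ j, |f.2 j| ≤ K) {a a' x x' : Fin m → ℝ} (ha : ∀ i, |a' i - a i| ≤ e) (hx : ∀ i, |x' i - x i| ≤ e)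
    (r : ℝ) : |df i J f a' x' r - df i J f a x r| ≤ (1 + |r|) * (1 + (m + 1) * K) * e := by
  rw [df_lin, df_lin]
  have h1 : |d0 i J f a' - d0 i J f a| ≤ (1 + (m + 1) * K) * e := by
    have e1 : d0 i J f a' - d0 i J f a = (a' i - a i) - (∑ j ∈ J, f.2 j * (Fin.cons 0 a' : Fin (m + 1) → ℝ) j -
        ∑ j ∈ J, f.2 j * (Fin.cons 0 a : Fin (m + 1) → ℝ) j) := by
      unfold d0
      ring
    rw [e1]
    refine (abs_sub _ _).trans ?_
    have h3 := sum_diff (J := J) hK he hf (fun j => cons_diff (u := 0) he ha j)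
    have h4 := ha i
    nlinarith
  have h2 : |d1 i J f x' - d1 i J f x| ≤ (1 + (m + 1) * K) * e := by
    have e1 : d1 i J f x' - d1 i J f x = (x' i - x i) - (∑ j ∈ J, f.2 j * (Fin.cons 1 x' : Fin (m + 1) → ℝ) j -
        ∑ j ∈ J, f.2 j * (Fin.cons 1 x : Fin (m + 1) → ℝ) j) := by
      unfold d1
      ring
    rw [e1]
    refine (abs_sub _ _).trans ?_
    have h3 := sum_diff (J := J) hK he hf (fun j => cons_diff (u := 1) he hx j)
    have h4 := hx i
    nlinarith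
  have e2 : d0 i J f a' + r * d1 i J f x' - (d0 i J f a + r * d1 i J f x) =
      (d0 i J f a' - d0 i J f a) + r * (d1 i J f x' - d1 i J f x) := by ring
  rw [e2]
  refine (abs_add_le _ _).trans ?_
  rw [abs_mul]
  have h5 := mul_le_mul_of_nonneg_left h2 (abs_nonneg r)
  nlinarith

/-- WINDOWS OF SHEETS -/
theorem win_df {c : ℝ} (h0 : 0 ≤ c) (h1 : c < 1) {l : Lab S} (hl : NlA s c l) (i : Fin m)
    (J : Finset (Fin (m + 1))) (v : ∀ k, (l k).T.Ω → Cf (m + 1))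
    (hm : ∀ᶠ k in UF, ∀ ω ω', (l k).T.μ ω ≠ 0 → (l k).T.μ ω' ≠ 0 → (l k).V ω ω' → (l k).T.Z ω ω' → v k ω = v k ω')
    {K : ℕ → ℝ} (hK : S.Sub K) (hs : ∀ᶠ k in UF, ∀ ω, (l k).T.μ ω ≠ 0 → ∀ j, |(v k ω).2 j| ≤ K k)
    (b : ℝ) (hb : 0 ≤ b) (L : ℕ → ℝ) (hL : S.Sub L) :
    ∃ K' : ℕ → ℝ, S.Sub K' ∧ Typ (S := l.sp) (fun k (ω : (l k).T.Ω) =>
      ∀ r, |r - s.t.v k ((l k).p.π ω) 0| ≤ L k * S.dl (c - b) k →
      |df i J (v k ω) (s.a.v k ((l k).p.π ω)) (s.x.v k ((l k).p.π ω)) r| ≤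
        K' k * 2 ^ (b * (S.F k).n) * (|dfl s i J l v k ω| + S.dl 1 k)) := by
  obtain ⟨Kt, hKt, hKtb⟩ := s.t.bd
  -- the polynomials
  set g : ∀ k, (l.sp.F k).Ω → Polynomial ℝ := fun k ω =>
    (Polynomial.C (d0 i J (v k ω) (s.a.v k ((l k).p.π ω))) +
      Polynomial.C (d1 i J (v k ω) (s.x.v k ((l k).p.π ω))) * Polynomial.X) ^ 2 + Polynomial.C ((S.dl 1 k) ^ 2) with hg
  have hev : ∀ k (ω : (l k).T.Ω) r, (g k ω).eval r =
      df i J (v k ω) (s.a.v k ((l k).p.π ω)) (s.x.v k ((l k).p.π ω)) r ^ 2 + (S.dl 1 k) ^ 2 := by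
    intro k ω r
    rw [hg]
    simp only [Polynomial.eval_add, Polynomial.eval_pow, Polynomial.eval_C, Polynomial.eval_mul, Polynomial.eval_X]
    rw [df_lin]
    ring
  have hpos : ∀ k (ω : (l k).T.Ω) r, 0 ≤ (g k ω).eval r := by
    intro k ω r
    rw [hev]
    positivity
  set M : ℕ → ℝ := fun k => (1 + (Kt k + 4)) * (1 + (m + 1) * K k) with hMd
  have hM : S.Sub M := by
    have a1 : S.Sub (fun k => 1 + (Kt k + 4)) := (S.Sub_const zero_le_one).add (hKt.add (S.Sub_const (by norm_num)))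
    have a2 : S.Sub (fun k => 1 + ((m : ℝ) + 1) * K k) :=
      (S.Sub_const zero_le_one).add ((S.Sub_const (by positivity)).mul hK)
    exact a1.mul a2
  have hκ : l.sp.Sub (fun k => 2 + 2 * (M k) ^ 2 + 1) := by
    rw [sp_Sub]
    have a2 : S.Sub (fun k => (M k) ^ 2) := by
      have := hM.mul hM
      simpa only [pow_two] using this
    exact ((S.Sub_const (by norm_num)).add ((S.Sub_const (by norm_num)).mul a2)).add (S.Sub_const zero_le_one)
  have hUB : UB (l.sp.rt (fun k => Setoid.ker ((l.pj.vv s.t).cellv 1 k)) (wB s c l)) :=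
    Sp.UB_rt ((l.pj.vv s.t).bdd 1).toInf _
  have hent := win_entA h0 h1.le hl
  set e : ℕ → ℝ := fun k => |l.sp.rt (fun k => Setoid.ker ((l.pj.vv s.t).cellv 1 k)) (wB s c l) k -
    ul (l.sp.rt (fun k => Setoid.ker ((l.pj.vv s.t).cellv 1 k)) (wB s c l))| with he
  have het : Tendsto e UF (𝓝 0) := by
    have h2 := (ul_tendsto hUB).sub_const (ul (l.sp.rt (fun k => Setoid.ker ((l.pj.vv s.t).cellv 1 k)) (wB s c l)))
    rw [sub_self] at h2
    have h3 := h2.abs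
    rw [abs_zero] at h3
    exact h3
  obtain ⟨K', hK', hT⟩ := remez_EC_grow (S := l.sp) (l.pj.vv s.t) c 1 h1 (wB s c l) 2 g (fun _ => 1)
    (fun k => 2 + 2 * (M k) ^ 2 + 1) (l.sp.Sub_const zero_le_one) hκ e het
    (Eventually.of_forall fun k => by
      have h2 := neg_abs_le (l.sp.rt (fun k => Setoid.ker ((l.pj.vv s.t).cellv 1 k)) (wB s c l) k -
        ul (l.sp.rt (fun k => Setoid.ker ((l.pj.vv s.t).cellv 1 k)) (wB s c l)))
      rw [he]
      beta_reduce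
      linarith)
    (Eventually.of_forall fun k ω _ => by
      rw [hg]
      beta_reduce
      refine (Polynomial.natDegree_add_le _ _).trans ?_
      apply max_le
      · refine Polynomial.natDegree_pow_le.trans ?_
        have h2 : (Polynomial.C (d0 i J (v k ω) (s.a.v k ((l k).p.π ω))) +
            Polynomial.C (d1 i J (v k ω) (s.x.v k ((l k).p.π ω))) * Polynomial.X).natDegree ≤ 1 := by
          refine (Polynomial.natDegree_add_le _ _).trans ?_
          apply max_le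
          · rw [Polynomial.natDegree_C]
            exact Nat.zero_le _
          · refine (Polynomial.natDegree_C_mul_le _ _).trans ?_
            exact Polynomial.natDegree_X_le
        omega
      · rw [Polynomial.natDegree_C]
        exact Nat.zero_le _)
    (Eventually.of_forall fun k ω ω' _ _ h2 _ => (wB_close (s := s) k ω ω' h2).2.2)
    (by
      filter_upwards [hm, hs, hK.1, hKt.1, hKtb] with k hk hk2 hk3 hk4 hk5 ω ω' a a' h2 z r hr
      obtain ⟨c1, c2, -⟩ := wB_close (s := s) k ω ω' h2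
      have hv : v k ω' = v k ω := hk ω' ω a' a h2.1 z
      rw [abs_of_nonneg (hpos k ω' r), abs_of_nonneg (hpos k ω r), hev, hev, hv]
      have hd := (S.dl_pos 1 k)
      have ht : |s.t.v k ((l k).p.π ω) 0| ≤ Kt k := hk5 _ ((l k).p.supp ω a) 0
      have hr1 : |r| ≤ Kt k + 4 := by
        have h3 : |r - s.t.v k ((l k).p.π ω) 0| ≤ 2 * ((1 + 1) * l.sp.dl c k) := hr
        rw [sp_dl] at h3
        have h4 : S.dl c k ≤ 1 := by
          have := S.dl_anti h0 k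
          rwa [S.dl_zero] at this
        have h5 := abs_le.mp h3
        have h6 := abs_le.mp ht
        rw [abs_le]
        constructor <;> linarith
      have h3 := df_diff (i := i) (J := J) hk3 hd.le (hk2 ω a)
        (fun i => by
          have := c1 i
          rw [sp_dl, one_mul] at this
          exact this)
        (fun i => by
          have := c2 i
          rw [sp_dl, one_mul] at this
          exact this) r
      have h3' : |df i J (v k ω) (s.a.v k ((l k).p.π ω')) (s.x.v k ((l k).p.π ω')) r -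
          df i J (v k ω) (s.a.v k ((l k).p.π ω)) (s.x.v k ((l k).p.π ω)) r| ≤ M k * S.dl 1 k := by
        refine h3.trans ?_
        rw [hMd]
        apply mul_le_mul_of_nonneg_right _ hd.le
        apply mul_le_mul_of_nonneg_right (by linarith) (by positivity)
      set X := df i J (v k ω) (s.a.v k ((l k).p.π ω')) (s.x.v k ((l k).p.π ω')) r
      set Y := df i J (v k ω) (s.a.v k ((l k).p.π ω)) (s.x.v k ((l k).p.π ω)) r
      have h4 : (X - Y) ^ 2 ≤ (M k * S.dl 1 k) ^ 2 := by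
        rw [← sq_abs]
        exact pow_le_pow_left₀ (abs_nonneg _) h3' 2
      have h5 : X ^ 2 ≤ 2 * Y ^ 2 + 2 * (X - Y) ^ 2 := by nlinarith [sq_nonneg (X - 2 * Y)]
      have h6 : 0 ≤ (M k) ^ 2 := sq_nonneg _
      have h7 : 0 ≤ Y ^ 2 := sq_nonneg _
      have h8 : 0 ≤ (S.dl 1 k) ^ 2 := sq_nonneg _
      nlinarith [mul_nonneg h6 h7])
    b hb L ((sp_Sub l).mpr hL)
  have hK'S : S.Sub K' := (sp_Sub l).mp hK'
  refine ⟨fun k => K' k + 1, hK'S.add (S.Sub_const zero_le_one), ?_⟩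
  apply Typ.mono hT
  filter_upwards [hK'S.1] with k hk0 ω hω hT' r hr
  have h2 := hT' r (by rw [sp_dl]; exact hr)
  rw [abs_of_nonneg (hpos k ω r), hev] at h2
  have h3 : |(g k ω).eval ((l.pj.vv s.t).v k ω 0)| = dfl s i J l v k ω ^ 2 + (S.dl 1 k) ^ 2 := by
    rw [abs_of_nonneg (hpos k ω _), hev]
    rfl
  rw [h3, sp_n] at h2
  set X := df i J (v k ω) (s.a.v k ((l k).p.π ω)) (s.x.v k ((l k).p.π ω)) r
  set Y := dfl s i J l v k ω
  have hd := (S.dl_pos 1 k)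
  have hn := (S.F k).pos
  apply abs_le_of_sq_le_sq _ (by positivity)
  have e2 : ((2 : ℝ) ^ (b * (S.F k).n)) ^ 2 = 2 ^ (((2 : ℕ) : ℝ) * b * (S.F k).n) := by
    rw [← Real.rpow_natCast, ← Real.rpow_mul (by norm_num)]
    congr 1
    push_cast
    ring
  have e3 : (K' k + 1) ^ 2 ≥ K' k := by nlinarith
  have e4 : (|Y| + S.dl 1 k) ^ 2 ≥ Y ^ 2 + (S.dl 1 k) ^ 2 := by
    have := sq_abs Y
    nlinarith [abs_nonneg Y]
  have e5 : 0 ≤ Y ^ 2 + (S.dl 1 k) ^ 2 := by positivity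
  have e6 : (0 : ℝ) < 2 ^ (((2 : ℕ) : ℝ) * b * (S.F k).n) := by positivity
  calc X ^ 2 ≤ X ^ 2 + (S.dl 1 k) ^ 2 := by nlinarith [sq_nonneg (S.dl 1 k)]
    _ ≤ K' k * 2 ^ (((2 : ℕ) : ℝ) * b * (S.F k).n) * (Y ^ 2 + (S.dl 1 k) ^ 2) := h2
    _ ≤ (K' k + 1) ^ 2 * 2 ^ (((2 : ℕ) : ℝ) * b * (S.F k).n) * (|Y| + S.dl 1 k) ^ 2 := by
        apply mul_le_mul _ e4 e5 (by positivity)
        exact mul_le_mul_of_nonneg_right e3 e6.le
    _ = ((K' k + 1) * 2 ^ (b * (S.F k).n) * (|Y| + S.dl 1 k)) ^ 2 := by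
        rw [mul_pow, mul_pow, e2]

end

end Pool.Agent.Helper91.GR
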