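import Pool.Agent.Helper91.GR.Fur

/-! A coordinate `y` of the base whose velocity is rich over the point: the volume of the base is at most
`2 (c + lamI c)`, and a plank `y = F(t, R)` is a plank `R = F(t, y)`. -/

set_option autoImplicit false

namespace Pool.Agent.Helper91.GR

open Filter Topology Matrix Pool.Agent.Helper69.RK Pool.Agent.Helper31.EC Pool.Agent.Helper31.EC.Sp
open Pool.Agent.Helper42.NS Pool.Agent.Helper40.EL Pool.Agent.Helper40.NSK Pool.Agent.Helper52.KP
open Pool.Agent.Helper19.S12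
open Pool.Agent.Helper3.LF (pl Mon phi gam nn nn_one sp_Sub sp_dl sp_n lb pl_zero pl_succ)
open Pool.Agent.Helper3.SG (Fac HfP lamP IsCanP exists_canP le_lamP lamP_nonneg)
open Pool.Agent.Helper89.LX
open Pool.Agent.Helper80.HCI

noncomputable section

variable {S : Sp} {m : ℕ}

/-- the velocity of the coordinate `y` is rich over the point: small digits, all events of all extensions -/
def RYl (s : Sys S m) (y : Fin m) : Prop := ∃ g u : ℝ, 0 < g ∧ 0 < u ∧
  ∀ (T : Sp) (p : Pj T S) (E : ∀ k, (T.F k).Ω → Prop) (hE : 0 < ul (T.pr E)) (r : ℝ), 0 ≤ r → r ≤ u →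
    g * r ≤ h (restL E hE (p.map (TR.dg (TR.cor s.x y) r))) (restL E hE (p.map (lB s)))

/-- richness of the coordinate over a label -/
theorem ry_ovr {s : Sys S m} {y : Fin m} {g u : ℝ}
    (hRY : ∀ (T : Sp) (p : Pj T S) (E : ∀ k, (T.F k).Ω → Prop) (hE : 0 < ul (T.pr E)) (r : ℝ), 0 ≤ r → r ≤ u →
      g * r ≤ h (restL E hE (p.map (TR.dg (TR.cor s.x y) r))) (restL E hE (p.map (lB s)))) {a : ℝ} {l : Lab S}
    (hl : DMc s a l) {W : Sp} (p : Pj W (l.ovr 1 one_pos)) (E : ∀ k, (W.F k).Ω → Prop) (hE : 0 < ul (W.pr E))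
    {r : ℝ} (h0 : 0 ≤ r) (h1 : r ≤ u) :
    g * r ≤ h (restL E hE (p.map (up1 l (TR.dg (TR.cor s.x y) r)))) (restL E hE (p.map (up1 l (lB s)))) := by
  obtain ⟨A, hA⟩ : ∃ A : S.Inf, Sp.cl A = TR.dg (TR.cor s.x y) r := by
    induction (TR.dg (TR.cor s.x y) r) using Sp.cl_ind with
    | h A => exact ⟨A, rfl⟩
  have h2 := hRY (exl l p).sp (exl l p).pj E hE r h0 h1
  have h3 := h_ovr l p E hE A (Inf.sup (s.IP 1) (s.It 1))
  rw [imI_sup, imI_IP l p E hE s, imI_It l p E hE s, cl_B, cl_B, DMc.h_B (exE_DMc l p E hE s hl) le_rfl, div_one,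
    hA] at h3
  have e3 : h (restL (S := (exl l p).sp) E hE ((exl l p).pj.map (Sp.cl A)))
      (restL (S := (exl l p).sp) E hE ((exl l p).pj.map (lB s))) =
      h (Sp.cl (Sp.imI (exl l p).pj E A)) (lB (sysE l p E hE s)) := by
    have e4 : restL (S := (exl l p).sp) E hE ((exl l p).pj.map (Sp.cl A)) =
        (imq (exl l p).pj E).map (Sp.cl (Sp.imI (exl l p).pj E A)) := rfl
    have e5 : restL (S := (exl l p).sp) E hE ((exl l p).pj.map (lB s)) =
        (imq (exl l p).pj E).map (lB (sysE l p E hE s)) := by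
      rw [← cl_B, ← cl_B]
      rfl
    rw [e4, e5, Pj.h_map]
  rw [← hA, e3] at h2
  have h4 : h (restL E hE (p.map (up1 l (TR.dg (TR.cor s.x y) r)))) (restL E hE (p.map (up1 l (lB s)))) =
      h (Sp.cl (Sp.imI (exl l p).pj E A)) (lB (sysE l p E hE s)) := h3
  rw [h4]
  exact h2

/-- the velocity is not determined by the label, at any depth, on any event -/
theorem RYl.nb {s : Sys S m} {y : Fin m} (hRY : RYl s y) {a : ℝ} {l : Lab S} (hl : DMc s a l)
    (E : ∀ k, ((l.ovr 1 one_pos).F k).Ω → Prop) (hE : 0 < ul ((l.ovr 1 one_pos).pr E)) {r : ℝ} (hr : 0 < r) :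
    restL E hE (up1 l (TR.dg (TR.cor s.x y) r)) ≠ ⊥ := by
  obtain ⟨g, u, hg, hu, hRY⟩ := hRY
  intro key'
  obtain ⟨r1, hr0, hr1, hr2⟩ : ∃ r1 : ℝ, 0 < r1 ∧ r1 ≤ u ∧ r1 ≤ r :=
    ⟨min u r, lt_min hu hr, min_le_left _ _, min_le_right _ _⟩
  have key : restL E hE (up1 l (TR.dg (TR.cor s.x y) r1)) ≤ ⊥ := by
    rw [← key']
    exact restL_mono E hE (up1_mono l (TR.dg_mono _ hr2))
  have h3 := ry_ovr hRY hl (Pj.id (l.ovr 1 one_pos)) E hE hr0.le hr1
  rw [Pj.id_map, Pj.id_map] at h3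
  have h5 := (h_eq_zero_iff (A := restL E hE (up1 l (TR.dg (TR.cor s.x y) r1)))
    (B := restL E hE (up1 l (lB s)))).mpr (key.trans bot_le)
  rw [h5] at h3
  have h7 := mul_pos hg hr0
  linarith

theorem RYl.NB_pr {s : Sys S 3} {y z : Fin 3} (hyz : y ≠ z) (hRY : RYl s y) {a : ℝ} {l : Lab S} (hl : DMc s a l) :
    NB (prI s z) l := by
  intro E hE r hr key
  obtain ⟨j, hj⟩ := Fin.exists_succAbove_eq hyz
  refine hRY.nb hl E hE hr (le_antisymm ?_ bot_le)
  rw [← key]
  refine restL_mono E hE (up1_mono l ?_)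
  refine dg_pair_le (TR.cor s.x y) (prI s z).x r (fun _ _ => True) Typ_true (fun _ => 1)
    (S.Sub_const zero_le_one) (Eventually.of_forall fun k ω ω' _ _ _ _ _ g => ?_)
  have h3 := g j
  rw [prI_x_v, prI_x_v, hj] at h3
  rw [one_mul]
  exact h3

/-- THE VOLUME OF THE BASE, for a rich coordinate `y ≠ z` -/
theorem vol_ry {s : Sys S 3} {y z : Fin 3} (hyz : y ≠ z) (hRY : RYl s y) {c : ℝ} (h0 : 0 ≤ c) (h1 : c < 1)
    (h01 : ∀ σ, psi (Pool.Agent.Helper52.SL.GDP (selM z) 1) s c σ = 0 ∨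
      psi (Pool.Agent.Helper52.SL.GDP (selM z) 1) s c σ = 1) :
    Pool.Agent.Helper52.SL.lvolP s (prI s z) 1 c ≤ 2 * (c + lamI s z c) := by
  obtain ⟨x, hx1, hx2⟩ := exists_canP s (prI s z) 1 c
  have hF : Fac s (prI s z) := Fac.pr s _ _ _ _
  exact vol_base hF h0 h1 hx1 (hRY.NB_pr hyz hx2.dm) (lamP_nonneg le_rfl c)
    (fun e he => trace_up (h01 _) (lt_add_of_pos_right _ he) hx1.1)

/-- a subexponential lower bound of a function which is typically not exponentially small -/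
theorem typ_low {l : Lab S} {f : ∀ k, (l k).T.Ω → ℝ}
    (h : ∀ e : ℝ, 0 < e → Tendsto (fun k => (l k).T.pb (fun ω => f k ω < S.dl e k)) UF (𝓝 0)) :
    ∃ K : ℕ → ℝ, S.Sub K ∧ (∀ k, 0 < K k) ∧ Typ (S := l.sp) (fun k (ω : (l k).T.Ω) => 1 ≤ K k * f k ω) := by
  obtain ⟨J, hJ, hG⟩ := dia (fun i k => (l k).T.pb (fun ω => f k ω < S.dl (1 / ((i : ℝ) + 1)) k) ≤
    1 / ((i : ℝ) + 1)) (fun i => by
    have h1 : (0 : ℝ) < 1 / ((i : ℝ) + 1) := by positivity
    filter_upwards [(h _ h1).eventually (gt_mem_nhds h1)] with k hk using hk.le)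
  have h0 : Tendsto (fun k => 1 / ((J k : ℝ) + 1)) UF (𝓝 0) :=
    tendsto_one_div_add_atTop_nhds_zero_nat.comp hJ
  refine ⟨fun k => 2 ^ (1 / ((J k : ℝ) + 1) * (S.F k).n), ⟨Eventually.of_forall fun k => by positivity, ?_⟩,
    fun k => by positivity, ?_⟩
  · have h1 : Tendsto (fun k => Real.logb 2 3 / (S.F k).n + 1 / ((J k : ℝ) + 1)) UF (𝓝 0) := by
      have := (S.div_n_tendsto (Real.logb 2 3)).add h0
      rwa [add_zero] at this
    refine tendsto_of_tendsto_of_tendsto_of_le_of_le' tendsto_const_nhds h1 ?_ ?_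
    · refine Eventually.of_forall fun k => div_nonneg (Real.logb_nonneg (by norm_num) ?_) (S.F k).pos.le
      have : (0 : ℝ) < 2 ^ (1 / ((J k : ℝ) + 1) * (S.F k).n) := by positivity
      linarith
    · refine Eventually.of_forall fun k => ?_
      have hn := (S.F k).pos
      have h2 : (1 : ℝ) ≤ 2 ^ (1 / ((J k : ℝ) + 1) * (S.F k).n) :=
        Real.one_le_rpow (by norm_num) (by positivity)
      rw [div_add' _ _ _ hn.ne']
      apply div_le_div_of_nonneg_right _ hn.le
      calc Real.logb 2 (2 ^ (1 / ((J k : ℝ) + 1) * (S.F k).n) + 2) ≤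
          Real.logb 2 (3 * 2 ^ (1 / ((J k : ℝ) + 1) * (S.F k).n)) :=
            Real.logb_le_logb_of_le (by norm_num) (by positivity) (by linarith)
        _ = _ := by
          rw [Real.logb_mul (by norm_num) (by positivity), Real.logb_rpow (by norm_num) (by norm_num)]
  · have h2 : Tendsto (fun k => (l k).T.pb (fun ω => ¬ 1 ≤ 2 ^ (1 / ((J k : ℝ) + 1) * (S.F k).n) * f k ω)) UF
        (𝓝 0) := by
      refine tendsto_of_tendsto_of_tendsto_of_le_of_le' tendsto_const_nhds h0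
        (Eventually.of_forall fun k => FSp.pb_nonneg _ _) ?_
      filter_upwards [hG] with k hk
      refine le_trans (FSp.pb_mono _ ?_) (hk (J k) le_rfl)
      intro ω _ h3
      by_contra h4
      push Not at h4
      apply h3
      have h5 : (1 : ℝ) = 2 ^ (1 / ((J k : ℝ) + 1) * (S.F k).n) * S.dl (1 / ((J k : ℝ) + 1)) k := by
        unfold Sp.dl
        rw [← Real.rpow_add (by norm_num), add_neg_cancel, Real.rpow_zero]
      have h6 : (0 : ℝ) ≤ 2 ^ (1 / ((J k : ℝ) + 1) * (S.F k).n) := by positivity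
      exact h5.le.trans (mul_le_mul_of_nonneg_left h4 h6)
    exact h2

open Classical in
/-- INVERSION OF A PLANK: a plank `y = F(t, R)` of depth `μ > c` is a plank `R = F'(t, y)`, if the velocity of `y` is rich
over the point -/
theorem plank_inv {s : Sys S m} {y R : Fin m} (hRY : RYl s y) {c μ : ℝ} (h0 : 0 ≤ c) (h1 : c < 1)
    (hcμ : c < μ) (h : HH (SJ y {0, R.succ}) s c μ) : HH (SJ R {0, y.succ}) s c μ := by
  have hμ1 : μ ≤ 1 := HH_le_one h
  obtain ⟨l, v, d, hv⟩ := Sht_of_HH h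
  have hl : DMc s c l := d
  obtain ⟨K1, hK1, hT1⟩ := hv.vel h0 h1 hμ1 hl.1
  obtain ⟨hm, K, hK, hs, ht⟩ := hv
  obtain ⟨Kx, hKx, hx⟩ := s.x.bd
  -- the slope is not exponentially small
  have hb : ∀ e : ℝ, 0 < e → Tendsto (fun k => (l k).T.pb (fun ω => |(v k ω).2 R.succ| < S.dl e k)) UF (𝓝 0) := by
    intro e he
    have hU := UB_pb (F := fun k => (l k).T) (fun k ω => |(v k ω).2 R.succ| < S.dl e k)
    have hT1' : Tendsto (fun k => (l k).T.pb (fun ω => ¬ |d1 y {0, R.succ} (v k ω) (s.x.v k ((l k).p.π ω))| ≤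
      K1 k * S.dl (μ - c) k)) UF (𝓝 0) := hT1
    by_contra hne
    have hpos : 0 < ul (fun k => (l k).T.pb (fun ω => |(v k ω).2 R.succ| < S.dl e k)) := by
      have h3 := ul_mono (UB_const 0) hU (Eventually.of_forall fun k => FSp.pb_nonneg _ _)
      rw [ul_const] at h3
      refine lt_of_le_of_ne h3 fun h => hne ?_
      have h2 := ul_tendsto hU
      rw [← h] at h2
      exact h2
    set E : ∀ k, ((l.ovr 1 one_pos).F k).Ω → Prop := fun k ω => |(v k ω).2 R.succ| < S.dl e k ∧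
      |d1 y {0, R.succ} (v k ω) (s.x.v k ((l k).p.π ω))| ≤ K1 k * S.dl (μ - c) k with hEd
    have hUE : UB (fun k => (l k).T.pb (E k)) := UB_pb (F := fun k => (l k).T) E
    have hE : 0 < ul ((l.ovr 1 one_pos).pr E) := by
      have t1 := (ul_tendsto hU).sub hT1'
      rw [sub_zero] at t1
      refine lt_of_lt_of_le hpos (le_of_tendsto_of_tendsto t1 (ul_tendsto hUE) (Eventually.of_forall fun k => ?_))
      beta_reduce
      have a1 : (l k).T.pb (fun ω => |(v k ω).2 R.succ| < S.dl e k) ≤ (l k).T.pb (fun ω => E k ω ∨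
          ¬ |d1 y {0, R.succ} (v k ω) (s.x.v k ((l k).p.π ω))| ≤ K1 k * S.dl (μ - c) k) := by
        refine FSp.pb_mono _ fun ω _ h => ?_
        by_cases hv : |d1 y {0, R.succ} (v k ω) (s.x.v k ((l k).p.π ω))| ≤ K1 k * S.dl (μ - c) k
        · exact Or.inl ⟨h, hv⟩
        · exact Or.inr hv
      have a2 := Pool.Agent.Helper89.LX.pb_or (l k).T (E k)
        (fun ω => ¬ |d1 y {0, R.succ} (v k ω) (s.x.v k ((l k).p.π ω))| ≤ K1 k * S.dl (μ - c) k)
      have a3 : (l.ovr 1 one_pos).pr E k = (l k).T.pb (E k) := rfl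
      rw [a3]
      linarith
    obtain ⟨r, hr0, hr1, hr2⟩ : ∃ r : ℝ, 0 < r ∧ r ≤ e ∧ r ≤ μ - c :=
      ⟨min e (μ - c), lt_min he (by linarith), min_le_left _ _, min_le_right _ _⟩
    refine hRY.nb hl E hE hr0 ?_
    set yy : S.VV 1 := TR.vec fun _ : Fin 1 => TR.cor s.x y with hyy
    have e0 : TR.dg (TR.cor s.x y) r = yy.dg r := rfl
    have key : (vE (E := E) (Pj.id (l.ovr 1 one_pos)) yy).dg r = ⊥ := by
      apply le_antisymm _ bot_le
      rw [← VV.dg_nonpos (vE (E := E) (Pj.id (l.ovr 1 one_pos)) yy) (le_refl (0 : ℝ))]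
      have h2s : ((l.ovr 1 one_pos).rest E).Sub (fun k => 2 * (Kx k + K1 k)) := by
        have h3 : l.sp.Sub (fun k => 2 * (Kx k + K1 k)) := by
          rw [sp_Sub]
          exact (S.Sub_const (by norm_num)).mul (hKx.add hK1)
        exact chg_sub l.V 1 one_pos h3
      apply VV.dg_le_dg _ _ _ _ (fun _ _ => True) Typ_true _ h2s
      filter_upwards [pr_half' hE, hx, hKx.1, hK1.1] with k hk hxk hk1 hk2 ω ω' a b _ _ hZ _ i
      have hpb : (l k).T.pb (E k) ≠ 0 := by
        have h5 : ul ((l.ovr 1 one_pos).pr E) / 2 ≤ (l k).T.pb (E k) := hk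
        have h6 : 0 < ul ((l.ovr 1 one_pos).pr E) / 2 := by linarith
        linarith
      have a1 := (((l.ovr 1 one_pos).F k).rest_supp (E k) ω a)
      have b1 := (((l.ovr 1 one_pos).F k).rest_supp (E k) ω' b)
      obtain ⟨a2, a3⟩ : E k ω := a1.2 hpb
      obtain ⟨b2, b3⟩ : E k ω' := b1.2 hpb
      have hZ' : (l k).V ω ω' ∧ (l k).T.Z ω ω' := hZ
      have hvv : v k ω = v k ω' := hm k ω ω' a1.1 b1.1 hZ'.1 hZ'.2
      have hdl : ((l.ovr 1 one_pos).rest E).dl r k = S.dl r k := by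
        have h3 : ((l.ovr 1 one_pos).rest E).dl r k = l.sp.dl (1 * r) k := chg_dl l.V 1 one_pos r k
        rw [h3, one_mul, sp_dl]
      rw [hdl]
      have hval : ∀ w : (l k).T.Ω, s.x.v k ((l k).p.π w) y = (v k w).2 0 + (v k w).2 R.succ *
          s.x.v k ((l k).p.π w) R + d1 y {0, R.succ} (v k w) (s.x.v k ((l k).p.π w)) := by
        intro w
        unfold d1
        rw [Finset.sum_pair (Fin.succ_ne_zero R).symm, Fin.cons_zero, Fin.cons_succ]
        ring
      have e1 := hval ω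
      have e2 := hval ω'
      rw [← hvv] at e2 b2 b3
      have e3 := hxk _ ((l k).p.supp ω a1.1) R
      have e4 := hxk _ ((l k).p.supp ω' b1.1) R
      have d1' := S.dl_anti hr1 k
      have d2' := S.dl_anti hr2 k
      have hd := S.dl_pos r k
      have f1 : |(v k ω).2 R.succ * s.x.v k ((l k).p.π ω) R| ≤ S.dl r k * Kx k := by
        rw [abs_mul]
        exact mul_le_mul (a2.le.trans d1') e3 (abs_nonneg _) hd.le
      have f2 : |(v k ω).2 R.succ * s.x.v k ((l k).p.π ω') R| ≤ S.dl r k * Kx k := by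
        rw [abs_mul]
        exact mul_le_mul (a2.le.trans d1') e4 (abs_nonneg _) hd.le
      have f3 : K1 k * S.dl (μ - c) k ≤ K1 k * S.dl r k := mul_le_mul_of_nonneg_left d2' hk2
      have g1 := abs_le.mp f1
      have g2 := abs_le.mp f2
      have g3 := abs_le.mp (a3.trans f3)
      have g4 := abs_le.mp (b3.trans f3)
      show |s.x.v k ((l k).p.π ω) y - s.x.v k ((l k).p.π ω') y| ≤ _
      rw [e1, e2, abs_le]
      constructor <;> nlinarith [g1.1, g1.2, g2.1, g2.2, g3.1, g3.2, g4.1, g4.2]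
    rw [vE_dg _ _ _ hE, Pj.id_map] at key
    exact key
  obtain ⟨K2, hK2, hK20, hT2⟩ := typ_low (l := l) hb
  -- the inverse plank
  set v' : ∀ k, (l k).T.Ω → Cf (m + 1) := fun k ω =>
    if 1 ≤ K2 k * |(v k ω).2 R.succ| then (-(v k ω).1 / (v k ω).2 R.succ,
      fun j => if j = 0 then -(v k ω).2 0 / (v k ω).2 R.succ else if j = y.succ then 1 / (v k ω).2 R.succ else 0)
    else (0, 0) with hv'
  have hKS : S.Sub (fun k => K k * K2 k + K2 k) := (hK.mul hK2).add hK2
  refine HH_of_Sht (h0.trans hcμ.le) hμ1 (l := l) (v := v') d ⟨?_, _, hKS, ?_, Typ.mono (ht.and hT2) ?_⟩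
  · intro k ω ω' a b e f
    have h3 := hm k ω ω' a b e f
    rw [hv']
    beta_reduce
    rw [h3]
  · filter_upwards [hs, hK.1] with k a1 a2 ω hω j
    have b0 := hK20 k
    have b1 := a1 ω hω 0
    rw [hv']
    beta_reduce
    by_cases hg : 1 ≤ K2 k * |(v k ω).2 R.succ|
    · rw [if_pos hg]
      have hpos : 0 < |(v k ω).2 R.succ| := by
        by_contra hc
        push Not at hc
        nlinarith
      have hinv : 1 / |(v k ω).2 R.succ| ≤ K2 k := by
        rw [div_le_iff₀ hpos]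
        exact hg
      show |if j = 0 then -(v k ω).2 0 / (v k ω).2 R.succ else if j = y.succ then 1 / (v k ω).2 R.succ else 0| ≤ _
      split_ifs
      · rw [abs_div, abs_neg, div_eq_mul_one_div]
        have := mul_le_mul b1 hinv (by positivity) a2
        linarith
      · rw [abs_div, abs_one]
        have := mul_nonneg a2 b0.le
        linarith
      · rw [abs_zero]
        have := mul_nonneg a2 b0.le
        linarith
    · rw [if_neg hg]
      show |(0 : ℝ)| ≤ _
      rw [abs_zero]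
      have := mul_nonneg a2 b0.le
      linarith
  · filter_upwards [hK.1] with k a2 ω hω g
    obtain ⟨g1, g2⟩ := g
    have b0 := hK20 k
    have hpos : 0 < |(v k ω).2 R.succ| := by
      by_contra hc
      push Not at hc
      nlinarith
    have hne : (v k ω).2 R.succ ≠ 0 := abs_pos.mp hpos
    have hinv : 1 / |(v k ω).2 R.succ| ≤ K2 k := by
      rw [div_le_iff₀ hpos]
      exact g2
    rw [dfl_eq] at g1 ⊢
    have e1 : v' k ω = (-(v k ω).1 / (v k ω).2 R.succ,
      fun j => if j = 0 then -(v k ω).2 0 / (v k ω).2 R.succ else if j = y.succ then 1 / (v k ω).2 R.succ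
        else 0) := if_pos g2
    set p := (pv s).v k ((l k).p.π ω) with hp
    have e2 : aff {0, R.succ} (v k ω) p = (v k ω).1 + ((v k ω).2 0 * p 0 + (v k ω).2 R.succ * p R.succ) := by
      unfold aff
      rw [Finset.sum_pair (Fin.succ_ne_zero R).symm]
    have e3 : aff {0, y.succ} (v' k ω) p = -(v k ω).1 / (v k ω).2 R.succ +
        (-(v k ω).2 0 / (v k ω).2 R.succ * p 0 + 1 / (v k ω).2 R.succ * p y.succ) := by
      unfold aff
      rw [Finset.sum_pair (Fin.succ_ne_zero y).symm, e1]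
      simp only [if_true, if_neg (Fin.succ_ne_zero y)]
    have e4 : p R.succ - aff {0, y.succ} (v' k ω) p = -(p y.succ - aff {0, R.succ} (v k ω) p) *
        (1 / (v k ω).2 R.succ) := by
      rw [e2, e3]
      field_simp
      ring
    rw [e4, abs_mul, abs_neg, abs_div, abs_one]
    have hd := S.dl_pos μ k
    calc |p y.succ - aff {0, R.succ} (v k ω) p| * (1 / |(v k ω).2 R.succ|) ≤ (K k * S.dl μ k) * K2 k :=
          mul_le_mul g1 hinv (by positivity) (by positivity)
      _ ≤ (K k * K2 k + K2 k) * S.dl μ k := by nlinarith [mul_pos b0 hd]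

/-- the depths of the planks of the base, for a rich coordinate `y` -/
theorem la_le_of_ry {s : Sys S m} {y R : Fin m} (hRY : RYl s y) {c : ℝ} (h0 : 0 ≤ c) (h1 : c < 1) :
    la s y {0, R.succ} c ≤ la s R {0, y.succ} c := by
  rcases le_or_gt (la s y {0, R.succ} c) c with h2 | h2
  · exact h2.trans (la_ge_self h0 h1.le)
  · exact le_la (plank_inv hRY h0 h1 h2 (HH_la c))

end

end Pool.Agent.Helper91.GR
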