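import Pool.Agent.Helper91.GR.Vol
import Pool.Agent.Helper46.LI.La5
import Pool.Agent.Helper59.GR.Shf

/-! LIP AT A WINDOW WITH A LINEAR SHEET OF FULL DEPTH, for the selected systems of lines of `R^4`. -/

set_option autoImplicit false

namespace Pool.Agent.Helper91.GR

open Filter Topology MeasureTheory Set Pool.Agent.Helper69.RK Pool.Agent.Helper31.EC Pool.Agent.Helper31.EC.Sp
open Pool.Agent.Helper42.NS Pool.Agent.Helper40.EL Pool.Agent.Helper40.NSK
open Pool.Agent.Helper19.S12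
open Pool.Agent.Helper52.SL (GDP RobP RobA defic)
open Pool.Agent.Helper59.EV (ST)
open scoped NNReal ENNReal

noncomputable section

variable {S : Sp}

/-- names of the coordinates: `z`, `R = z.succAbove j`, the flat coordinate `z.succAbove (1 - j)` -/
def cdz (z : Fin 3) (j : Fin 2) : Cd 3 1 where
  sel := ![0, (z.succAbove (1 - j)).succ]
  R := z.succAbove j
  z := z
  sel0 := rfl
  inj := by
    intro a b h
    fin_cases a <;> fin_cases b
    · rfl
    · exact absurd h.symm (Fin.succ_ne_zero _)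
    · exact absurd h (Fin.succ_ne_zero _)
    · rfl
  hR := by
    intro a h
    fin_cases a
    · exact absurd h.symm (Fin.succ_ne_zero _)
    · have h1 : z.succAbove (1 - j) = z.succAbove j := Fin.succ_injective _ h
      have h2 := Fin.succAbove_right_injective h1
      fin_cases j <;> simp at h2
  hz := by
    intro a h
    fin_cases a
    · exact absurd h.symm (Fin.succ_ne_zero _)
    · have h1 : z.succAbove (1 - j) = z := Fin.succ_injective _ h
      exact Fin.succAbove_ne z _ h1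
  hRz := Fin.succAbove_ne z j
  cov := by
    intro i
    rcases Fin.eq_zero_or_eq_succ i with h | ⟨i', h⟩
    · exact Or.inr (Or.inr ⟨0, h⟩)
    · by_cases hz : i' = z
      · exact Or.inl (by rw [h, hz])
      · obtain ⟨k, hk⟩ := Fin.exists_succAbove_eq hz
        by_cases hj : k = j
        · exact Or.inr (Or.inl (by rw [h, ← hk, hj]))
        · refine Or.inr (Or.inr ⟨1, ?_⟩)
          have h2 : k = 1 - j := by
            fin_cases j <;> fin_cases k <;> simp_all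
          rw [h, ← hk, h2]
          rfl

theorem cdz_JR (z : Fin 3) (j : Fin 2) : (cdz z j).JR = {0, (z.succAbove (1 - j)).succ} := by
  unfold Cd.JR
  ext i
  simp only [Finset.mem_image, Finset.mem_univ, true_and, Finset.mem_insert, Finset.mem_singleton]
  constructor
  · rintro ⟨a, rfl⟩
    fin_cases a
    · exact Or.inl rfl
    · exact Or.inr rfl
  · rintro (rfl | rfl)
    · exact ⟨0, rfl⟩
    · exact ⟨1, rfl⟩

theorem cdz_Jz (z : Fin 3) (j : Fin 2) : (cdz z j).Jz = Finset.univ.erase z.succ := by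
  ext i
  rw [Finset.mem_erase]
  unfold Cd.Jz
  rw [Finset.mem_insert]
  constructor
  · rintro (h | h)
    · refine ⟨?_, Finset.mem_univ _⟩
      rw [h]
      exact fun h2 => (cdz z j).hRz (Fin.succ_injective _ h2)
    · refine ⟨?_, Finset.mem_univ _⟩
      unfold Cd.JR at h
      obtain ⟨a, -, ha⟩ := Finset.mem_image.mp h
      rw [← ha]
      exact (cdz z j).hz a
  · rintro ⟨h, -⟩
    rcases (cdz z j).cov i with h1 | h1 | ⟨a, h1⟩
    · exact absurd h1 h
    · exact Or.inl h1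
    · right
      unfold Cd.JR
      exact Finset.mem_image.mpr ⟨a, Finset.mem_univ _, h1.symm⟩

/-- robustness of the two slabs of the base `M` (all coordinates except `z`) -/
def RobSl (s : Sys S 3) (z : Fin 3) : Prop := ∀ (j : Fin 2) (T : Sp) (p : Pj T S) (E : ∀ k, (T.F k).Ω → Prop)
  (hE : 0 < ul (T.pr E)) (c σ : ℝ), psi (SJ (z.succAbove j) {0, (z.succAbove (1 - j)).succ}) (s.im p E hE) c σ =
    psi (SJ (z.succAbove j) {0, (z.succAbove (1 - j)).succ}) s c σ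

/-- NAMES AND FULLNESS at a window with a linear sheet of full depth -/
theorem exists_names {g : ℝ} {s : Sys S 3} (hst : ST 1 2) (hg0 : 0 < g) (hg : Pool.Agent.Helper80.MX.Rich s g)
    (z : Fin 3) (hL : RobustG (fun i : Fin 3 => GDP (selM i) 1) s) (hS : RobSl s z) {c : ℝ} (h0 : 0 ≤ c) (h1 : c < 1)
    {J : Finset (Fin 4)} (hJ : z.succ ∉ J) (hz : HH (SJ z J) s c 1) :
    ∃ j : Fin 2, la s (cdz z j).R (cdz z j).JR c = lamI s z c ∧ HH (SJ (cdz z j).R (cdz z j).JR) s c (lamI s z c) ∧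
      (1 - c) + (1 - lamI s z c) ≤ s.F 0 1 - ic s c := by
  have e1 := Pool.Agent.Helper46.LI.lamI_eq z hS h0 h1.le
  obtain ⟨j, hj⟩ : ∃ j : Fin 2, la s (cdz z j).R (cdz z j).JR c = lamI s z c := by
    rcases max_choice (la s (z.succAbove 0) {0, (z.succAbove 1).succ} c)
      (la s (z.succAbove 1) {0, (z.succAbove 0).succ} c) with h | h
    · refine ⟨0, ?_⟩
      rw [e1, h, cdz_JR]
      rfl
    · refine ⟨1, ?_⟩
      rw [e1, h, cdz_JR]
      rfl
  refine ⟨j, hj, ?_, full_top hst hg0 hg z (fun σ => hL.zero_one z c σ) hJ h0 h1 hz⟩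
  rw [← hj]
  exact HH_la c

/-- LIP AT A WINDOW WITH A LINEAR SHEET OF FULL DEPTH in the direction `z` -/
theorem lip_top {b g : ℝ} (hb : b < 3) (hg0 : 0 < g) (hst : ST 1 2) : ∃ Cc : ℝ, 0 ≤ Cc ∧
    ∀ {S : Sp} {s : Sys S 3} {z : Fin 3} {J : Finset (Fin 4)} {c0 : ℝ}, 0 < c0 → RobP s →
    Pool.Agent.Helper52.KP.RobustI s → Pool.Agent.Helper80.MX.Rich s g →
    RobustG (fun i : Fin 3 => GDP (selM i) 1) s → RobSl s z → z.succ ∉ J → HH (SJ z J) s c0 1 → lamI s z c0 < 1 →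
    Tendsto (fun δ : ℝ => volume (Ioo (1 - δ) 1 \ defic s b) / ENNReal.ofReal δ) (𝓝[>] 0) (𝓝 0) →
    ∃ d' > 0, d' ≤ c0 ∧ ∀ c ∈ Ioo (c0 - d') c0, 1 - la s z (Finset.univ.erase z.succ) c ≤ Cc * (c0 - c) := by
  obtain ⟨Cc, hCc, hl⟩ := lip_flag hb hg0
  refine ⟨Cc, hCc, ?_⟩
  intro S s z J c0 h0 hp hi hg hL hS hJ hz hlt hden
  have h1 : c0 < 1 := by
    by_contra hcon
    push Not at hcon
    have h5 : lamI s z 1 ≤ lamI s z c0 := Pool.Agent.Helper3.SG.lamP_mono le_rfl hcon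
    have h6 : (1 : ℝ) ≤ lamI s z 1 :=
      Pool.Agent.Helper3.SG.lamP_ge_self (Pool.Agent.Helper3.SG.Fac.pr s _ _ _ _) le_rfl zero_le_one le_rfl
    linarith
  obtain ⟨j, hj, -, hful⟩ := exists_names hst hg0 hg z hL hS h0.le h1 hJ hz
  have hz' : HH (SJ (cdz z j).z (cdz z j).Jz) s c0 1 := by
    rw [cdz_Jz]
    refine HH_mono_J (fun i hi => ?_) hz
    rw [Finset.mem_erase]
    exact ⟨fun h => hJ (h ▸ hi), Finset.mem_univ _⟩
  have h6 := hl (C := cdz z j) (s := s) (c0 := c0) (d := c0) h0 (by linarith) hp hi hg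
    (by
      rw [cdz_JR]
      exact hS j) hz' (by rw [hj]; exact hlt) (by rw [hj]; exact hful) hden
  obtain ⟨d', a1, a2, a3⟩ := h6
  refine ⟨d', a1, a2, fun c hc => ?_⟩
  have a4 := a3 c hc
  rw [cdz_Jz] at a4
  exact a4

/-- LIP for the depth of the sheets of degree `D` -/
theorem lip_eta {b g : ℝ} (hb : b < 3) (hg0 : 0 < g) (hst : ST 1 2) {D : ℕ} (hD : 1 ≤ D) : ∃ Cc : ℝ, 0 ≤ Cc ∧
    ∀ {S : Sp} {s : Sys S 3} {z : Fin 3} {J : Finset (Fin 4)} {c0 : ℝ}, 0 < c0 → RobP s →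
    Pool.Agent.Helper52.KP.RobustI s → Pool.Agent.Helper80.MX.Rich s g →
    RobustG (fun i : Fin 3 => GDP (selM i) 1) s → RobSl s z → z.succ ∉ J → HH (SJ z J) s c0 1 → lamI s z c0 < 1 →
    Tendsto (fun δ : ℝ => volume (Ioo (1 - δ) 1 \ defic s b) / ENNReal.ofReal δ) (𝓝[>] 0) (𝓝 0) →
    ∃ d' > 0, d' ≤ c0 ∧ ∀ c ∈ Ioo (c0 - d') c0, 1 - Pool.Agent.Helper3.LF.eta s D c ≤ Cc * (c0 - c) := by
  obtain ⟨Cc, hCc, hl⟩ := lip_top hb hg0 hst
  refine ⟨Cc, hCc, ?_⟩
  intro S s z J c0 h0 hp hi hg hL hS hJ hz hlt hden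
  obtain ⟨d', a1, a2, a3⟩ := hl h0 hp hi hg hL hS hJ hz hlt hden
  refine ⟨d', a1, a2, fun c hc => ?_⟩
  have a4 := a3 c hc
  have a5 : HH (SJ z (Finset.univ.erase z.succ)) s c (la s z (Finset.univ.erase z.succ) c) := HH_la c
  have a6 := Pool.Agent.Helper59.GR.Hf_of_SJD hD (Finset.notMem_erase _ _) a5
  have a7 := Pool.Agent.Helper3.LF.le_eta a6
  linarith

/-! ### the selected systems -/

section sel
variable {G : ℕ → Gg 3} {Φ : ℕ → Fnl 3} {D : ℕ} {g : ℝ} {s : Sys S 3}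

theorem robSl_of_sel (hs : Sel4 G Φ D g s) (z : Fin 3)
    (hG : ∀ j : Fin 2, ∃ k, G k = SJ (z.succAbove j) {0, (z.succAbove (1 - j)).succ}) : RobSl s z := by
  intro j T p E hE c σ
  obtain ⟨k, hk⟩ := hG j
  rw [← hk]
  exact hs.rob.g k T p E hE c σ

/-- LIP for the selected systems -/
theorem lip_sel (hD : 1 ≤ D) (hst : ST 1 2) (hs : Sel4 G Φ D g s) {z : Fin 3}
    (hG : ∀ j : Fin 2, ∃ k, G k = SJ (z.succAbove j) {0, (z.succAbove (1 - j)).succ}) {J : Finset (Fin 4)}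
    (hJ : z.succ ∉ J) (hz : HH (SJ z J) s (c0 s D) 1) (hlt : lamI s z (c0 s D) < 1) :
    ∃ Cc d' : ℝ, 0 ≤ Cc ∧ 0 < d' ∧ d' ≤ c0 s D ∧ ∀ c ∈ Ioo (c0 s D - d') (c0 s D),
      1 - la s z (Finset.univ.erase z.succ) c ≤ Cc * (c0 s D - c) ∧
      1 - Pool.Agent.Helper3.LF.eta s D c ≤ Cc * (c0 s D - c) := by
  have hb : 3 - g / 2 < 3 := by
    have := hs.g0
    linarith
  obtain ⟨Cc, hCc, hl⟩ := lip_top hb hs.g0 hst
  obtain ⟨d', a1, a2, a3⟩ := hl (Sel4.c0_pos hD hs) hs.rob.p hs.rob.i hs.rich hs.robL (robSl_of_sel hs z hG) hJ hz hlt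
    hs.dens
  refine ⟨Cc, d', hCc, a1, a2, fun c hc => ?_⟩
  have a4 := a3 c hc
  have a5 : HH (SJ z (Finset.univ.erase z.succ)) s c (la s z (Finset.univ.erase z.succ) c) := HH_la c
  have a6 := Pool.Agent.Helper59.GR.Hf_of_SJD hD (Finset.notMem_erase _ _) a5
  have a7 := Pool.Agent.Helper3.LF.le_eta a6
  exact ⟨a4, by linarith⟩

end sel

/-- the volume of the base and the winner of the slabs, for a rich coordinate `y = z.succAbove (1 - j)` -/
theorem lamI_ry {s : Sys S 3} {z : Fin 3} {j : Fin 2} (hS : RobSl s z) (hRY : RYl s (z.succAbove (1 - j))) {c : ℝ}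
    (h0 : 0 ≤ c) (h1 : c < 1) :
    lamI s z c = la s (z.succAbove j) {0, (z.succAbove (1 - j)).succ} c := by
  rw [Pool.Agent.Helper46.LI.lamI_eq z hS h0 h1.le]
  have h2 := la_le_of_ry (R := z.succAbove j) hRY h0 h1
  fin_cases j
  · exact max_eq_left h2
  · exact max_eq_right h2

theorem vol_ry' {s : Sys S 3} {z : Fin 3} {j : Fin 2} (hL : RobustG (fun i : Fin 3 => GDP (selM i) 1) s)
    (hS : RobSl s z) (hRY : RYl s (z.succAbove (1 - j))) {c : ℝ} (h0 : 0 ≤ c) (h1 : c < 1) :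
    Pool.Agent.Helper52.SL.lvolP s (prI s z) 1 c ≤
      2 * (c + la s (z.succAbove j) {0, (z.succAbove (1 - j)).succ} c) := by
  rw [← lamI_ry hS hRY h0 h1]
  exact vol_ry (Fin.succAbove_ne z _) hRY h0 h1 fun σ => hL.zero_one z c σ

end

end Pool.Agent.Helper91.GR
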