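import Pool.Agent.Helper42.NS.Rbt
import Pool.Agent.Helper3.LF.Win
import Pool.Agent.Helper52.KP.Agr

/-! SHEETS AS A GAUGE: the coordinate `P_i` of the point is an affine function, with slopes `2 ^ o(n)`, of the
coordinates of `(t, P)` in a set `J`, up to `2 ^ (-σ n + o(n))`. `HH` of the gauge means: there is a double Markov
label of the window which knows such an affine function. -/

set_option autoImplicit false

namespace Pool.Agent.Helper91.GR

open Finset Filter Topology Pool.Agent.Helper69.RK Pool.Agent.Helper31.EC Pool.Agent.Helper31.EC.Sp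
open Pool.Agent.Helper40.EL Pool.Agent.Helper52.KP Pool.Agent.Helper42.NS
open Pool.Agent.Helper3.LF (pl pl_zero pl_succ pl_line Sub_pow_two sp_Sub sp_dl sp_n)

noncomputable section

/-- coefficients of affine functions -/
abbrev Cf (N : ℕ) : Type := ℝ × (Fin N → ℝ)

/-- affine function of the coordinates in `J` -/
def aff {N : ℕ} (J : Finset (Fin N)) (f : Cf N) (p : Fin N → ℝ) : ℝ := f.1 + ∑ j ∈ J, f.2 j * p j

/-- distance of the coordinate `i` of the point of the line `(a, x)` at the height `t` from the sheet -/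
def df {m : ℕ} (i : Fin m) (J : Finset (Fin (m + 1))) (f : Cf (m + 1)) (a x : Fin m → ℝ) (t : ℝ) : ℝ :=
  a i + t * x i - aff J f (pl a x t)

theorem df_zero {m : ℕ} (i : Fin m) (J : Finset (Fin (m + 1))) (a x : Fin m → ℝ) (t : ℝ) :
    df i J (0, 0) a x t = a i + t * x i := by
  unfold df aff
  simp

/-- the gauge of sheets -/
def SJ {m : ℕ} (i : Fin m) (J : Finset (Fin (m + 1))) : Gg m where
  Frm := Cf (m + 1) × ℝ
  cap := fun n A => 1 ≤ A.2 ∧ A.2 ≤ 2 ^ n
  phi := fun _ A a x t => (A.2 * df i J A.1 a x t) ^ 2 + ∑ j, (A.1.2 j) ^ 2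
  gam := fun _ A _ _ _ => A.2 ^ 2
  one := fun _ => ((0, 0), 1)
  cap_one := fun n hn => ⟨le_rfl, Real.one_le_rpow (by norm_num) hn.le⟩
  D := 4
  C := 1
  C0 := zero_le_one
  phi_one := fun n a x t K _ hK ha hx ht => by
    have h1 : df i J ((0 : ℝ), (0 : Fin (m + 1) → ℝ)) a x t = a i + t * x i := df_zero i J a x t
    show (1 * df i J ((0 : ℝ), (0 : Fin (m + 1) → ℝ)) a x t) ^ 2 + ∑ j : Fin (m + 1), (0 : ℝ) ^ 2 ≤ 1 * (K + 2) ^ 4
    rw [h1, one_mul, one_mul]
    have h2 : |a i + t * x i| ≤ (K + 2) ^ 2 := by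
      refine (abs_add_le _ _).trans ?_
      rw [abs_mul]
      have h3 : |t| * |x i| ≤ K * K := mul_le_mul ht (hx i) (abs_nonneg _) hK
      have h4 := ha i
      nlinarith
    have h5 : (a i + t * x i) ^ 2 ≤ ((K + 2) ^ 2) ^ 2 := by
      rw [← sq_abs (a i + t * x i)]
      exact pow_le_pow_left₀ (abs_nonneg _) h2 2
    have h6 : ∑ j : Fin (m + 1), (0 : ℝ) ^ 2 = 0 := by simp
    rw [h6, add_zero]
    refine h5.trans (le_of_eq ?_)
    ring

variable {S : Sp} {m : ℕ}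

/-- the distance from the sheet on the space of a label -/
def dfl (s : Sys S m) (i : Fin m) (J : Finset (Fin (m + 1))) (l : Lab S) (v : ∀ k, (l k).T.Ω → Cf (m + 1)) (k : ℕ)
    (ω : (l k).T.Ω) : ℝ :=
  df i J (v k ω) (s.a.v k ((l k).p.π ω)) (s.x.v k ((l k).p.π ω)) (s.t.v k ((l k).p.π ω) 0)

/-- the label knows a sheet of depth `σ` -/
def Sht (s : Sys S m) (i : Fin m) (J : Finset (Fin (m + 1))) (σ : ℝ) (l : Lab S)
    (v : ∀ k, (l k).T.Ω → Cf (m + 1)) : Prop :=
  (∀ k ω ω', (l k).T.μ ω ≠ 0 → (l k).T.μ ω' ≠ 0 → (l k).V ω ω' → (l k).T.Z ω ω' → v k ω = v k ω') ∧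
  ∃ K : ℕ → ℝ, S.Sub K ∧ (∀ᶠ k in UF, ∀ ω, (l k).T.μ ω ≠ 0 → ∀ j, |(v k ω).2 j| ≤ K k) ∧
    Typ (S := l.sp) (fun k (ω : (l k).T.Ω) => |dfl s i J l v k ω| ≤ K k * S.dl σ k)

/-- labels with sheets realize `HH` -/
theorem HH_of_Sht {s : Sys S m} {i : Fin m} {J : Finset (Fin (m + 1))} {c σ : ℝ} (h0 : 0 ≤ σ) (h1 : σ ≤ 1) {l : Lab S}
    {v : ∀ k, (l k).T.Ω → Cf (m + 1)} (hl : l.DM (pA s c) (pB s)) (hv : Sht s i J σ l v) : HH (SJ i J) s c σ := by
  obtain ⟨hm, K, hK, hs, ht⟩ := hv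
  have hcap : ∀ k, (1 : ℝ) ≤ 2 ^ (σ * (S.F k).n) ∧ (2 : ℝ) ^ (σ * (S.F k).n) ≤ 2 ^ (S.F k).n := by
    intro k
    have hn := (S.F k).pos
    exact ⟨Real.one_le_rpow (by norm_num) (by positivity),
      Real.rpow_le_rpow_of_exponent_le (by norm_num) (by nlinarith)⟩
  set f : LFm (SJ i J) s := fun k =>
    { l := l k
      A := fun ω => (v k ω, (2 : ℝ) ^ (σ * (S.F k).n))
      hA := fun ω ω' a b c d => by rw [hm k ω ω' a b c d]
      hc := fun _ _ => hcap k } with hf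
  refine ⟨f, hl, fun e he => ?_, fun e he => ?_⟩
  · have hS : S.Sub (fun k => K k ^ 2 + ∑ _j : Fin (m + 1), K k ^ 2) := by
      have h2 : S.Sub (fun k => K k ^ 2) := by
        have := hK.mul hK
        simpa only [pow_two] using this
      have h3 : S.Sub (fun k => ∑ _j : Fin (m + 1), K k ^ 2) := by
        have := (S.Sub_const (show (0 : ℝ) ≤ ((m + 1 : ℕ) : ℝ) by positivity)).mul h2
        refine this.mono ?_ (Eventually.of_forall fun k => ?_)
        · exact Eventually.of_forall fun k => Finset.sum_nonneg fun _ _ => sq_nonneg _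
        · rw [Finset.sum_const, Finset.card_univ, Fintype.card_fin, nsmul_eq_mul]
      exact h2.add h3
    have ht' := (Typ_iff _).mp ht
    filter_upwards [hS.eventually_le he, hs, hK.1, ht'.eventually (lt_mem_nhds (show 1 - e < 1 by linarith))]
      with k a b c d
    refine d.le.trans ?_
    apply (l k).T.pb_mono
    intro ω hω g
    have e1 : (f k).phv ω = ((2 : ℝ) ^ (σ * (S.F k).n) * dfl s i J l v k ω) ^ 2 + ∑ j, ((v k ω).2 j) ^ 2 := rfl
    show (f k).phv ω ≤ (2 : ℝ) ^ (e * (S.F k).n)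
    rw [e1]
    refine le_trans (add_le_add ?_ ?_) ((show K k ^ 2 + ∑ _j : Fin (m + 1), K k ^ 2 ≤ _ from le_rfl).trans
      (show K k ^ 2 + ∑ _j : Fin (m + 1), K k ^ 2 ≤ (2 : ℝ) ^ (e * (S.F k).n) by linarith))
    · have h4 : |(2 : ℝ) ^ (σ * (S.F k).n) * dfl s i J l v k ω| ≤ K k := by
        rw [abs_mul, abs_of_pos (show (0 : ℝ) < 2 ^ (σ * (S.F k).n) by positivity)]
        have h5 : (2 : ℝ) ^ (σ * (S.F k).n) * S.dl σ k = 1 := by
          unfold Sp.dl
          rw [← Real.rpow_add (by norm_num), add_neg_cancel, Real.rpow_zero]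
        calc (2 : ℝ) ^ (σ * (S.F k).n) * |dfl s i J l v k ω| ≤ (2 : ℝ) ^ (σ * (S.F k).n) * (K k * S.dl σ k) :=
              mul_le_mul_of_nonneg_left g (by positivity)
          _ = K k := by rw [mul_left_comm, h5, mul_one]
      rw [← sq_abs]
      exact pow_le_pow_left₀ (abs_nonneg _) h4 2
    · apply Finset.sum_le_sum
      intro j _
      rw [← sq_abs]
      exact pow_le_pow_left₀ (abs_nonneg _) (b ω hω j) 2
  · refine Eventually.of_forall fun k => ?_
    have hn := (S.F k).pos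
    have h2 : (f k).gp (2 * (σ - e)) = 1 := by
      apply pb_eq_one
      intro ω _
      have e1 : (f k).gav ω = ((2 : ℝ) ^ (σ * (S.F k).n)) ^ 2 := rfl
      show (2 : ℝ) ^ (2 * (σ - e) * (S.F k).n) ≤ (f k).gav ω
      rw [e1, ← Real.rpow_natCast, ← Real.rpow_mul (by norm_num)]
      apply Real.rpow_le_rpow_of_exponent_le (by norm_num)
      push_cast
      nlinarith
    rw [h2]
    linarith

/-- `HH` gives a label with a sheet -/
theorem Sht_of_HH {s : Sys S m} {i : Fin m} {J : Finset (Fin (m + 1))} {c σ : ℝ} (h : HH (SJ i J) s c σ) :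
    ∃ (l : Lab S) (v : ∀ k, (l k).T.Ω → Cf (m + 1)), l.DM (pA s c) (pB s) ∧ Sht s i J σ l v := by
  classical
  obtain ⟨f, hf, hb, hl⟩ := h
  obtain ⟨Jn, hJ, hJ2⟩ := dia (fun j k => 1 - 1 / ((j : ℝ) + 1) ≤ (f k).bp (1 / ((j : ℝ) + 1)) ∧
    1 - 1 / ((j : ℝ) + 1) ≤ (f k).gp (2 * (σ - 1 / ((j : ℝ) + 1))))
    (fun j => by
      have h1 : (0 : ℝ) < 1 / ((j : ℝ) + 1) := by positivity
      filter_upwards [hb _ h1, hl _ h1] with k a b using ⟨a, b⟩)
  set e : ℕ → ℝ := fun k => 1 / ((Jn k : ℝ) + 1) with he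
  have he0 : ∀ k, 0 < e k := fun k => by
    rw [he]
    positivity
  have het : Tendsto e UF (𝓝 0) := tendsto_inv_J hJ
  set K : ℕ → ℝ := fun k => (2 : ℝ) ^ ((2 * e k) * (S.F k).n) with hKd
  have hK : S.Sub K := by
    apply Sub_pow_two
    · have := het.const_mul 2
      rwa [mul_zero] at this
    · exact Eventually.of_forall fun k => by
        have := he0 k
        positivity
  have hK0 : ∀ k, 0 < K k := fun k => by
    rw [hKd]
    positivity
  set v : ∀ k, (f.lab k).T.Ω → Cf (m + 1) := fun k ω =>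
    if ∀ j, |((f k).A ω).1.2 j| ≤ K k then ((f k).A ω).1 else (0, 0) with hv
  refine ⟨f.lab, v, hf, fun k ω ω' a b c' d => ?_, K, hK, Eventually.of_forall fun k ω _ j => ?_, ?_⟩
  · have h1 : (f k).A ω = (f k).A ω' := (f k).hA ω ω' a b c' d
    rw [hv]
    simp only [h1]
  · rw [hv]
    simp only
    split_ifs with h1
    · exact h1 j
    · show |(0 : Fin (m + 1) → ℝ) j| ≤ K k
      rw [Pi.zero_apply, abs_zero]
      exact (hK0 k).le
  · rw [Typ_iff]
    have hlim : Tendsto (fun k => 1 - 2 * e k) UF (𝓝 1) := by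
      have := (het.const_mul 2).const_sub 1
      rwa [mul_zero, sub_zero] at this
    refine tendsto_of_tendsto_of_tendsto_of_le_of_le' hlim tendsto_const_nhds ?_
      (Eventually.of_forall fun k => FSp.pb_le_one _ _)
    filter_upwards [hJ2] with k hk
    obtain ⟨h1, h2⟩ := hk (Jn k) le_rfl
    have hn := (S.F k).pos
    have hek := he0 k
    have h3 := (f.lab k).T.pb_and_ge (fun ω => (f k).phv ω ≤ (2 : ℝ) ^ (e k * (S.F k).n))
      (fun ω => (2 : ℝ) ^ (2 * (σ - e k) * (S.F k).n) ≤ (f k).gav ω)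
    have h4 : 1 - 2 * e k ≤ (f.lab k).T.pb (fun ω => (f k).phv ω ≤ (2 : ℝ) ^ (e k * (S.F k).n) ∧
        (2 : ℝ) ^ (2 * (σ - e k) * (S.F k).n) ≤ (f k).gav ω) := by
      refine le_trans ?_ h3
      have h1' : 1 - e k ≤ (f.lab k).T.pb (fun ω => (f k).phv ω ≤ (2 : ℝ) ^ (e k * (S.F k).n)) := h1
      have h2' : 1 - e k ≤ (f.lab k).T.pb (fun ω => (2 : ℝ) ^ (2 * (σ - e k) * (S.F k).n) ≤ (f k).gav ω) := h2
      linarith
    refine h4.trans ?_
    apply FSp.pb_mono
    rintro ω hω ⟨g1, g2⟩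
    have e1 : (f k).phv ω = (((f k).A ω).2 * df i J ((f k).A ω).1 (s.a.v k ((f k).l.p.π ω)) (s.x.v k ((f k).l.p.π ω))
      (s.t.v k ((f k).l.p.π ω) 0)) ^ 2 + ∑ j, (((f k).A ω).1.2 j) ^ 2 := rfl
    have e2 : (f k).gav ω = ((f k).A ω).2 ^ 2 := rfl
    rw [e1] at g1
    rw [e2] at g2
    have hτ1 : 1 ≤ ((f k).A ω).2 := ((f k).hc ω hω).1
    have hee : ((2 : ℝ) ^ (e k * (S.F k).n / 2)) ^ 2 = 2 ^ (e k * (S.F k).n) := by
      rw [← Real.rpow_natCast, ← Real.rpow_mul (by norm_num)]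
      congr 1
      push_cast
      ring
    -- slopes
    have hsl : ∀ j, |((f k).A ω).1.2 j| ≤ (2 : ℝ) ^ (e k * (S.F k).n / 2) := by
      intro j
      apply abs_le_of_sq_le_sq _ (by positivity)
      rw [hee]
      have h5 := Finset.single_le_sum (f := fun j => (((f k).A ω).1.2 j) ^ 2) (fun j _ => sq_nonneg _)
        (Finset.mem_univ j)
      have h6 := sq_nonneg (((f k).A ω).2 * df i J ((f k).A ω).1 (s.a.v k ((f k).l.p.π ω))
        (s.x.v k ((f k).l.p.π ω)) (s.t.v k ((f k).l.p.π ω) 0))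
      have h5' : (((f k).A ω).1.2 j) ^ 2 ≤ ∑ j, (((f k).A ω).1.2 j) ^ 2 := h5
      linarith
    have hKle : (2 : ℝ) ^ (e k * (S.F k).n / 2) ≤ K k := by
      rw [hKd]
      apply Real.rpow_le_rpow_of_exponent_le (by norm_num)
      nlinarith
    have hv1 : v k ω = ((f k).A ω).1 := by
      rw [hv]
      simp only
      rw [if_pos]
      exact fun j => (hsl j).trans hKle
    -- the distance
    have hτ2 : (2 : ℝ) ^ ((σ - e k) * (S.F k).n) ≤ ((f k).A ω).2 := by
      have h7 : ((2 : ℝ) ^ ((σ - e k) * (S.F k).n)) ^ 2 ≤ ((f k).A ω).2 ^ 2 := by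
        refine le_trans (le_of_eq ?_) g2
        rw [← Real.rpow_natCast, ← Real.rpow_mul (by norm_num)]
        congr 1
        push_cast
        ring
      have h8 := abs_le_of_sq_le_sq h7 (by linarith)
      exact (le_abs_self _).trans h8
    have hd : |((f k).A ω).2 * df i J ((f k).A ω).1 (s.a.v k ((f k).l.p.π ω)) (s.x.v k ((f k).l.p.π ω))
        (s.t.v k ((f k).l.p.π ω) 0)| ≤ (2 : ℝ) ^ (e k * (S.F k).n / 2) := by
      apply abs_le_of_sq_le_sq _ (by positivity)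
      rw [hee]
      have h5 : 0 ≤ ∑ j, (((f k).A ω).1.2 j) ^ 2 := Finset.sum_nonneg fun _ _ => sq_nonneg _
      linarith
    show |dfl s i J f.lab v k ω| ≤ K k * S.dl σ k
    have e3 : dfl s i J f.lab v k ω = df i J ((f k).A ω).1 (s.a.v k ((f k).l.p.π ω)) (s.x.v k ((f k).l.p.π ω))
        (s.t.v k ((f k).l.p.π ω) 0) := by
      unfold dfl
      rw [hv1]
      rfl
    rw [e3]
    set d := df i J ((f k).A ω).1 (s.a.v k ((f k).l.p.π ω)) (s.x.v k ((f k).l.p.π ω)) (s.t.v k ((f k).l.p.π ω) 0)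
    rw [abs_mul, abs_of_pos (show 0 < ((f k).A ω).2 by linarith)] at hd
    have h9 : (2 : ℝ) ^ ((σ - e k) * (S.F k).n) * |d| ≤ (2 : ℝ) ^ (e k * (S.F k).n / 2) :=
      (mul_le_mul_of_nonneg_right hτ2 (abs_nonneg _)).trans hd
    have h10 : |d| ≤ (2 : ℝ) ^ (e k * (S.F k).n / 2) * (2 : ℝ) ^ (-((σ - e k) * (S.F k).n)) := by
      have h11 : (2 : ℝ) ^ (-((σ - e k) * (S.F k).n)) * ((2 : ℝ) ^ ((σ - e k) * (S.F k).n) * |d|) = |d| := by
        rw [← mul_assoc, ← Real.rpow_add (by norm_num), neg_add_cancel, Real.rpow_zero, one_mul]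
      rw [← h11, mul_comm ((2 : ℝ) ^ (e k * (S.F k).n / 2))]
      exact mul_le_mul_of_nonneg_left h9 (by positivity)
    refine h10.trans ?_
    rw [hKd]
    unfold Sp.dl
    rw [← Real.rpow_add (by norm_num), ← Real.rpow_add (by norm_num)]
    apply Real.rpow_le_rpow_of_exponent_le (by norm_num)
    nlinarith

end

end Pool.Agent.Helper91.GR
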