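import Pool.Agent.Helper91.GR.Voa
import Pool.Agent.Helper31.NSB.Lev

/-! ROW B_VOL0: at a window with no form beyond the window the volume of the base is trivial. -/

set_option autoImplicit false

namespace Pool.Agent.Helper91.GR

open Filter Topology Matrix Pool.Agent.Helper69.RK Pool.Agent.Helper31.EC Pool.Agent.Helper31.EC.Sp
open Pool.Agent.Helper42.NS Pool.Agent.Helper40.EL Pool.Agent.Helper40.NSK Pool.Agent.Helper52.KP
open Pool.Agent.Helper3.SG (exists_canP lamP_nonneg lamP)
open Pool.Agent.Helper19.S12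
open Pool.Agent.Helper52.SL (GDP)

noncomputable section

variable {S : Sp}

theorem RobSl_of_Rbb {g : ℝ} {s : Sys S 3} (h : Pool.Agent.Helper31.NSB.Rbb g s) (z : Fin 3) : RobSl s z :=
  fun _ T p E hE c σ => h.sj _ _ () T p E hE c σ

/-- sheets of the base are forms -/
theorem lamI_le_eta {s : Sys S 3} {z : Fin 3} (hS : RobSl s z) {D : ℕ} (hD : 1 ≤ D) {c : ℝ} (h0 : 0 ≤ c)
    (h1 : c ≤ 1) : lamI s z c ≤ Pool.Agent.Helper3.LF.eta s D c := by
  have key : ∀ j : Fin 2, la s (z.succAbove j) {0, (z.succAbove (1 - j)).succ} c ≤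
      Pool.Agent.Helper3.LF.eta s D c := by
    intro j
    have a5 : HH (SJ (z.succAbove j) {0, (z.succAbove (1 - j)).succ}) s c
        (la s (z.succAbove j) {0, (z.succAbove (1 - j)).succ} c) := HH_la c
    have hn : (z.succAbove j).succ ∉ ({0, (z.succAbove (1 - j)).succ} : Finset (Fin 4)) := by
      intro hmem
      rw [Finset.mem_insert, Finset.mem_singleton] at hmem
      rcases hmem with h | h
      · exact Fin.succ_ne_zero _ h
      · have h2 := Fin.succAbove_right_injective (Fin.succ_injective _ h)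
        fin_cases j <;> simp at h2
    exact Pool.Agent.Helper3.LF.le_eta (Pool.Agent.Helper59.GR.Hf_of_SJD hD hn a5)
  rw [Pool.Agent.Helper46.LI.lamI_eq z hS h0 h1]
  exact max_le (key _) (key _)

/-- **ROW B_VOL0** -/
theorem vol_trivial {g : ℝ} {s : Sys S 3} (h : Pool.Agent.Helper31.NSB.Rbb g s) {D : ℕ} (hD : 1 ≤ D) {y R z : Fin 3}
    {c : ℝ} (h0 : 0 ≤ c) (h1 : c < 1) (he : Pool.Agent.Helper3.LF.eta s D c ≤ c) :
    Pool.Agent.Helper31.NSB.VolB s y R z c := by
  have h2 : lamI s z c ≤ c := (lamI_le_eta (RobSl_of_Rbb h z) hD h0 h1.le).trans he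
  obtain ⟨x, hx1, -⟩ := exists_canP s (prI s z) 1 c
  have h3 := vol_size hx1 (lamP_nonneg le_rfl c)
    (fun e he => trace_up (h.gdp.zero_one z c _) (lt_add_of_pos_right _ he) hx1.1)
  have h4 : lamP s (prB (selM z) s) 1 c = lamI s z c := rfl
  rw [h4] at h3
  have h5 : c ≤ la s R {0, y.succ} c := la_ge_self h0 h1.le
  show Pool.Agent.Helper52.SL.lvolP s (prI s z) 1 c ≤ 2 * (c + la s R {0, y.succ} c)
  linarith

end

end Pool.Agent.Helper91.GR
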