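import Pool.Agent.Helper91.GR.Lip4

/-! Sheets: more coordinates, substitution; LIP when the label of the corner has two directions of full depth. -/

set_option autoImplicit false

namespace Pool.Agent.Helper91.GR

open Filter Topology MeasureTheory Set Pool.Agent.Helper69.RK Pool.Agent.Helper31.EC Pool.Agent.Helper31.EC.Sp
open Pool.Agent.Helper42.NS Pool.Agent.Helper19.S12 Pool.Agent.Helper40.EL
open Pool.Agent.Helper3.LF (pl pl_succ sp_Sub sp_dl)

noncomputable section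

variable {S : Sp} {m : ℕ} {s : Sys S m}

theorem dfl_eq (s : Sys S m) (i : Fin m) (J : Finset (Fin (m + 1))) (l : Lab S) (v : ∀ k, (l k).T.Ω → Cf (m + 1))
    (k : ℕ) (ω : (l k).T.Ω) : dfl s i J l v k ω = (pv s).v k ((l k).p.π ω) i.succ -
      aff J (v k ω) ((pv s).v k ((l k).p.π ω)) := by
  unfold dfl df
  have h1 : (pv s).v k ((l k).p.π ω) = pl (s.a.v k ((l k).p.π ω)) (s.x.v k ((l k).p.π ω))
      (s.t.v k ((l k).p.π ω) 0) := rfl
  rw [h1, pl_succ]

open Classical in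
/-- sheets with more coordinates -/
theorem HH_mono_J {i : Fin m} {J J' : Finset (Fin (m + 1))} (hJ : J ⊆ J') {c σ : ℝ} (h : HH (SJ i J) s c σ) :
    HH (SJ i J') s c σ := by
  rcases le_or_gt σ 0 with h0 | h0
  · exact HH.mono s (HH_zero s i J' c) le_rfl h0
  obtain ⟨l, v, hl, hm, K, hK, hs, ht⟩ := Sht_of_HH h
  have e1 : ∀ (f : Cf (m + 1)) (p : Fin (m + 1) → ℝ),
      aff J' (f.1, fun j => if j ∈ J then f.2 j else 0) p = aff J f p := by
    intro f p
    unfold aff
    congr 1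
    rw [← Finset.sum_subset hJ]
    · refine Finset.sum_congr rfl fun j hj => ?_
      show (if j ∈ J then f.2 j else 0) * p j = _
      rw [if_pos hj]
    · intro j _ hj
      show (if j ∈ J then f.2 j else 0) * p j = 0
      rw [if_neg hj, zero_mul]
  refine HH_of_Sht h0.le (HH_le_one h) (l := l)
    (v := fun k ω => ((v k ω).1, fun j => if j ∈ J then (v k ω).2 j else 0)) hl ⟨?_, K, hK, ?_, ?_⟩
  · intro k ω ω' a b e d
    beta_reduce
    rw [hm k ω ω' a b e d]
  · filter_upwards [hs, hK.1] with k a b ω hω j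
    show |if j ∈ J then (v k ω).2 j else 0| ≤ K k
    split_ifs
    · exact a ω hω j
    · rw [abs_zero]
      exact b
  · refine Typ.mono ht (Eventually.of_forall fun k ω hω g => ?_)
    rw [dfl_eq] at g ⊢
    rw [e1]
    exact g

/-- substitution of a slab in a sheet -/
theorem HH_subst {i j : Fin m} {J : Finset (Fin (m + 1))} (hj : j.succ ∉ J) {c σ τ : ℝ}
    (h : HH (SJ i (insert j.succ J)) s c σ) (h' : HH (SJ j J) s c τ) : HH (SJ i J) s c (min σ τ) := by
  rcases le_or_gt (min σ τ) 0 with h0 | h0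
  · exact HH.mono s (HH_zero s i J c) le_rfl h0
  obtain ⟨l1, v, hl1, hv⟩ := Sht_of_HH h
  obtain ⟨l2, w, hl2, hw⟩ := Sht_of_HH h'
  obtain ⟨hm, K, hK, hs, ht⟩ := Sht_join_left (l' := l2) hv
  obtain ⟨hm', K', hK', hs', ht'⟩ := Sht_join_right (l := l1) hw
  set a := fun k (ω : ((l1.join l2) k).T.Ω) => v k ω.1 with ha
  set b := fun k (ω : ((l1.join l2) k).T.Ω) => w k ω.2 with hb
  refine HH_of_Sht h0.le ((min_le_left _ _).trans (HH_le_one h)) (l := l1.join l2)
    (v := fun k ω => ((a k ω).1 + (a k ω).2 j.succ * (b k ω).1,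
      fun q => (a k ω).2 q + (a k ω).2 j.succ * (b k ω).2 q)) (Lab.DM.join hl1 hl2)
    ⟨?_, fun k => K k + K k * K' k, hK.add (hK.mul hK'), ?_, ?_⟩
  · intro k ω ω' x y z u
    have e1 : a k ω = a k ω' := hm k ω ω' x y z u
    have e2 : b k ω = b k ω' := hm' k ω ω' x y z u
    beta_reduce
    rw [e1, e2]
  · filter_upwards [hs, hs', hK.1] with k e1 e2 e3 ω hω q
    refine (abs_add_le _ _).trans ?_
    rw [abs_mul]
    exact add_le_add (e1 ω hω q) (mul_le_mul (e1 ω hω _) (e2 ω hω q) (abs_nonneg _) e3)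
  · refine Typ.mono (ht.and ht') ?_
    filter_upwards [hs, hK.1, hK'.1] with k e1 e3 e4 ω hω g
    obtain ⟨g1, g2⟩ := g
    rw [dfl_eq] at g1 g2 ⊢
    have e5 : aff (insert j.succ J) (a k ω) ((pv s).v k (((l1.join l2) k).p.π ω)) =
        (a k ω).1 + ((a k ω).2 j.succ * (pv s).v k (((l1.join l2) k).p.π ω) j.succ +
          ∑ q ∈ J, (a k ω).2 q * (pv s).v k (((l1.join l2) k).p.π ω) q) := by
      unfold aff
      rw [Finset.sum_insert hj]
    set p := (pv s).v k (((l1.join l2) k).p.π ω) with hp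
    have e6 : aff J ((a k ω).1 + (a k ω).2 j.succ * (b k ω).1, fun q => (a k ω).2 q + (a k ω).2 j.succ * (b k ω).2 q) p =
        (a k ω).1 + (a k ω).2 j.succ * (b k ω).1 + (∑ q ∈ J, (a k ω).2 q * p q +
          (a k ω).2 j.succ * ∑ q ∈ J, (b k ω).2 q * p q) := by
      unfold aff
      beta_reduce
      rw [Finset.mul_sum, ← Finset.sum_add_distrib]
      congr 1
      refine Finset.sum_congr rfl fun q _ => ?_
      ring
    have e7 : p i.succ - aff J ((a k ω).1 + (a k ω).2 j.succ * (b k ω).1,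
        fun q => (a k ω).2 q + (a k ω).2 j.succ * (b k ω).2 q) p =
        (p i.succ - aff (insert j.succ J) (a k ω) p) + (a k ω).2 j.succ * (p j.succ - aff J (b k ω) p) := by
      rw [e6, e5]
      unfold aff
      ring
    rw [e7]
    refine (abs_add_le _ _).trans ?_
    rw [abs_mul, add_mul]
    have f1 : S.dl σ k ≤ S.dl (min σ τ) k := S.dl_anti (min_le_left _ _) k
    have f2 : S.dl τ k ≤ S.dl (min σ τ) k := S.dl_anti (min_le_right _ _) k
    have f3 := S.dl_pos τ k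
    refine add_le_add (g1.trans (mul_le_mul_of_nonneg_left f1 e3)) ?_
    calc |(a k ω).2 j.succ| * |p j.succ - aff J (b k ω) p| ≤ K k * (K' k * S.dl τ k) :=
          mul_le_mul (e1 ω hω _) g2 (abs_nonneg _) e3
      _ ≤ K k * K' k * S.dl (min σ τ) k := by
          rw [mul_assoc]
          exact mul_le_mul_of_nonneg_left (mul_le_mul_of_nonneg_left f2 e4) e3

theorem la_mono_J {i : Fin m} {J J' : Finset (Fin (m + 1))} (hJ : J ⊆ J') (c : ℝ) : la s i J c ≤ la s i J' c :=
  le_la (HH_mono_J hJ (HH_la c))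

/-- LIP WHEN THE LABEL OF THE CORNER HAS TWO DIRECTIONS OF FULL DEPTH (FLAG SPEED for `z` and for `R`): all depths are
Lipschitz at `c0` from the left -/
theorem lip_two {g : ℝ} (hg0 : 0 < g) {C : Cd m 1} {c0 : ℝ} (h0 : 0 ≤ c0) (hc0 : c0 < 1)
    (hg : Pool.Agent.Helper80.MX.Rich s g)
    (hrR : ∀ (T : Sp) (p : Pj T S) (E : ∀ k, (T.F k).Ω → Prop) (hE : 0 < ul (T.pr E)) (c σ : ℝ),
      psi (SJ C.R C.JR) (s.im p E hE) c σ = psi (SJ C.R C.JR) s c σ)
    (hrz : ∀ (T : Sp) (p : Pj T S) (E : ∀ k, (T.F k).Ω → Prop) (hE : 0 < ul (T.pr E)) (c σ : ℝ),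
      psi (SJ C.z C.JR) (s.im p E hE) c σ = psi (SJ C.z C.JR) s c σ)
    (hz : HH (SJ C.z C.Jz) s c0 1) (hR : HH (SJ C.R C.JR) s c0 1) (hfull : 1 - c0 ≤ s.F 0 1 - ic s c0) {c : ℝ}
    (hc : 0 ≤ c) (hcc : c ≤ c0) :
    1 - (1 + 3 / g) * (c0 - c) ≤ la s C.R C.JR c ∧ 1 - (1 + 3 / g) * (c0 - c) ≤ la s C.z C.JR c ∧
      1 - (1 + 3 / g) * (c0 - c) ≤ la s C.z C.Jz c ∧
      1 - (1 + 3 / g) * (c0 - c) ≤ la s C.R (insert C.z.succ C.JR) c := by
  obtain ⟨iy, hJ, hyR, hyz, hcov⟩ := C.exists_y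
  have hRJ : C.R.succ ∉ C.JR := by
    rw [hJ]
    simp only [Finset.mem_insert, Finset.mem_singleton, not_or]
    exact ⟨Fin.succ_ne_zero _, fun h => hyR h.symm⟩
  have hzJ : C.z.succ ∉ C.JR := by
    rw [hJ]
    simp only [Finset.mem_insert, Finset.mem_singleton, not_or]
    exact ⟨Fin.succ_ne_zero _, fun h => hyz h.symm⟩
  have hz2 : HH (SJ C.z C.JR) s c0 1 := by
    have h1 := HH_subst hRJ hz hR
    rwa [min_self] at h1
  have hfull2 : (1 - c0) + (1 - 1) ≤ h (up1 (kap s c0) (s.P.dg 1)) (up1 (kap s c0) s.T) := by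
    have h1 := (kap_isKap s c0).ic_P h0 hc0.le
    have h2 : s.F 0 1 = h (s.P.dg 1) s.T := by
      have e : s.F 0 1 = h (s.x.dg 0 ⊔ s.P.dg 1) s.T := rfl
      rw [e, s.x.dg_nonpos le_rfl, bot_sup_eq]
    linarith
  have a1 : 1 - (1 + 3 / g) * (c0 - c) ≤ la s C.R C.JR c := by
    have h3 := Pool.Agent.Helper51.LP.flag_speed (s := s) (iy := iy) (iR := C.R) (iz := C.z) hcov (J := C.JR) hzJ hg hg0
      (fun T p E hE c σ => by
        have := hrR T p E hE c σ
        rw [hJ] at this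
        exact this) hc0 zero_le_one le_rfl (by
        rw [hJ] at hR
        exact hR) hz2 hfull2 (cn := c) hc hcc
    rw [← hJ] at h3
    exact le_la h3
  have a2 : 1 - (1 + 3 / g) * (c0 - c) ≤ la s C.z C.JR c := by
    have h3 := Pool.Agent.Helper51.LP.flag_speed (s := s) (iy := iy) (iR := C.z) (iz := C.R)
      (fun i => by
        rcases hcov i with h | h | h
        · exact Or.inl h
        · exact Or.inr (Or.inr h)
        · exact Or.inr (Or.inl h)) (J := C.JR) hRJ hg hg0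
      (fun T p E hE c σ => by
        have := hrz T p E hE c σ
        rw [hJ] at this
        exact this) hc0 zero_le_one le_rfl (by
        rw [hJ] at hz2
        exact hz2) hR hfull2 (cn := c) hc hcc
    rw [← hJ] at h3
    exact le_la h3
  refine ⟨a1, a2, a2.trans (la_mono_J (Finset.subset_insert _ _) c), a1.trans (la_mono_J (Finset.subset_insert _ _) c)⟩

end

end Pool.Agent.Helper91.GR
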