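import Pool.Agent.Helper91.GR.Frs
import Pool.Agent.Helper97.SL.Ssl2
import Pool.Agent.Helper31.EC.Zoom

/-! Polynomials of degree one; zooms, corners and truncations of tame functions. -/

set_option autoImplicit false

namespace Pool.Agent.Helper91.GR

open Finset Filter Topology Pool.Agent.Helper69.RK Pool.Agent.Helper31.EC Pool.Agent.Helper31.EC.Sp
open Pool.Agent.Helper3.LF (Mon)
open Pool.Agent.Helper97.SL (pe z0 cdl ev_cdl ev_pe)

noncomputable section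

/-! ### degree one -/

/-- the monomial `x i` -/
def m1 {q : ℕ} (i : Fin q) : Mon q 1 :=
  ⟨fun j => if j = i then 1 else 0, by
    have h : ∀ j : Fin q, (((if j = i then 1 else 0 : Fin 2)) : ℕ) = if j = i then 1 else 0 := by
      intro j
      split_ifs <;> rfl
    simp only [h]
    rw [Finset.sum_ite_eq' Finset.univ i (fun _ => 1)]
    simp⟩

theorem m1_val {q : ℕ} (i j : Fin q) : ((m1 i).1 j : ℕ) = if j = i then 1 else 0 := by
  show (((if j = i then 1 else 0 : Fin 2)) : ℕ) = _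
  split_ifs <;> rfl

theorem z0_val {q : ℕ} (j : Fin q) : ((z0 q 1).1 j : ℕ) = 0 := rfl

theorem m1_inj {q : ℕ} : Function.Injective (m1 (q := q)) := by
  intro i j h
  have h1 : ((m1 i).1 i : ℕ) = ((m1 j).1 i : ℕ) := by rw [h]
  rw [m1_val, m1_val, if_pos rfl] at h1
  by_contra hc
  rw [if_neg hc] at h1
  exact one_ne_zero h1

theorem m1_ne {q : ℕ} (i : Fin q) : m1 i ≠ z0 q 1 := by
  intro h
  have h1 : ((m1 i).1 i : ℕ) = ((z0 q 1).1 i : ℕ) := by rw [h]
  rw [m1_val, if_pos rfl, z0_val] at h1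
  exact one_ne_zero h1

theorem mon_cases {q : ℕ} (a : Mon q 1) : a = z0 q 1 ∨ ∃ i, a = m1 i := by
  by_cases h : ∀ i, (a.1 i : ℕ) = 0
  · left
    apply Subtype.ext
    funext i
    apply Fin.ext
    rw [h i]
    rfl
  · right
    push Not at h
    obtain ⟨i, hi⟩ := h
    refine ⟨i, ?_⟩
    have hs := a.2
    have h1 : (a.1 i : ℕ) + ∑ j ∈ Finset.univ.erase i, (a.1 j : ℕ) ≤ 1 :=
      (Finset.add_sum_erase Finset.univ (fun j => (a.1 j : ℕ)) (Finset.mem_univ i)).trans_le hs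
    have h2 : ∑ j ∈ Finset.univ.erase i, (a.1 j : ℕ) = 0 := by omega
    have h3 : (a.1 i : ℕ) = 1 := by omega
    apply Subtype.ext
    funext j
    apply Fin.ext
    rw [m1_val]
    by_cases hj : j = i
    · rw [if_pos hj, hj, h3]
    · rw [if_neg hj]
      exact (Finset.sum_eq_zero_iff_of_nonneg (fun _ _ => Nat.zero_le _)).mp h2 j
        (Finset.mem_erase.mpr ⟨hj, Finset.mem_univ j⟩)

theorem sum_mon {q : ℕ} {M : Type*} [AddCommMonoid M] (g : Mon q 1 → M) :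
    ∑ a, g a = g (z0 q 1) + ∑ i, g (m1 i) := by
  classical
  rw [← Finset.add_sum_erase _ _ (Finset.mem_univ (z0 q 1))]
  congr 1
  symm
  apply Finset.sum_bij (fun i _ => m1 i)
  · intro i _
    exact Finset.mem_erase.mpr ⟨m1_ne i, Finset.mem_univ _⟩
  · intro i _ j _ h
    exact m1_inj h
  · intro a ha
    rcases mon_cases a with h | ⟨i, h⟩
    · exact absurd h (Finset.mem_erase.mp ha).1
    · exact ⟨i, Finset.mem_univ _, h.symm⟩
  · intro i _
    rfl

variable {S T : Sp} {q : ℕ}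

open Classical in
/-- the coefficients of `f0 + Σ f1 i x i` -/
def co {M : Type*} [AddCommMonoid M] (f0 : M) (f1 : Fin q → M) (a : Mon q 1) : M :=
  if a = z0 q 1 then f0 else ∑ i, if (a.1 i : ℕ) = 1 then f1 i else 0

theorem co_z0 {M : Type*} [AddCommMonoid M] (f0 : M) (f1 : Fin q → M) : co f0 f1 (z0 q 1) = f0 := if_pos rfl

theorem co_m1 {M : Type*} [AddCommMonoid M] (f0 : M) (f1 : Fin q → M) (i : Fin q) : co f0 f1 (m1 i) = f1 i := by
  unfold co
  rw [if_neg (m1_ne i), Finset.sum_eq_single i]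
  · rw [m1_val, if_pos rfl, if_pos rfl]
  · intro j _ hj
    rw [m1_val, if_neg hj, if_neg (by norm_num)]
  · intro h
    exact absurd (Finset.mem_univ i) h

theorem pe_co (f0 : TR S) (f1 : Fin q → TR S) (x : Fin q → TR S) :
    pe (co f0 f1) x = f0 + ∑ i, f1 i * x i := by
  unfold pe
  rw [sum_mon, co_z0]
  congr 1
  · rw [Finset.prod_eq_one, mul_one]
    intro i _
    rw [z0_val, pow_zero]
  · refine Finset.sum_congr rfl fun i _ => ?_
    rw [co_m1, Finset.prod_eq_single i]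
    · rw [m1_val, if_pos rfl, pow_one]
    · intro j _ hj
      rw [m1_val, if_neg hj, pow_zero]
    · intro h
      exact absurd (Finset.mem_univ i) h

theorem tr_co (p : Pj T S) (f0 : TR S) (f1 : Fin q → TR S) (a : Mon q 1) :
    p.tr (co f0 f1 a) = co (p.tr f0) (fun i => p.tr (f1 i)) a := by
  rcases mon_cases a with h | ⟨i, h⟩
  · rw [h, co_z0, co_z0]
  · rw [h, co_m1, co_m1]

/-! ### zooms -/

/-- number of the cell -/
def flr (f : TR S) (r : ℝ) (k : ℕ) (ω : (S.F k).Ω) : ℤ := ⌊TR.ev f k ω / S.dl r k⌋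

/-- the base knows the cell of level `r`, literally -/
def Lit (f : TR S) (r : ℝ) : Prop :=
  ∀ᶠ k in UF, ∀ ω ω', (S.F k).μ ω ≠ 0 → (S.F k).μ ω' ≠ 0 → (S.F k).Z ω ω' → flr f r k ω = flr f r k ω'

/-- the position in the cell of level `r` -/
def zf (f : TR S) (r : ℝ) : TR S :=
  ⟨fun k ω => TR.ev f k ω / S.dl r k - flr f r k ω, fun _ => 1, S.Sub_const zero_le_one,
    Eventually.of_forall fun k ω _ => by
      have h1 := Int.floor_le (TR.ev f k ω / S.dl r k)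
      have h2 := Int.lt_floor_add_one (TR.ev f k ω / S.dl r k)
      unfold flr
      rw [abs_le]
      constructor <;> linarith⟩

theorem ev_zf (f : TR S) (r : ℝ) (k : ℕ) (ω : (S.F k).Ω) :
    TR.ev (zf f r) k ω = TR.ev f k ω / S.dl r k - flr f r k ω := rfl

theorem zf_bd (f : TR S) (r : ℝ) (k : ℕ) (ω : (S.F k).Ω) : 0 ≤ TR.ev (zf f r) k ω ∧ TR.ev (zf f r) k ω < 1 := by
  rw [ev_zf]
  have h1 := Int.floor_le (TR.ev f k ω / S.dl r k)
  have h2 := Int.lt_floor_add_one (TR.ev f k ω / S.dl r k)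
  unfold flr
  constructor <;> linarith

theorem zf_eq (f : TR S) (r : ℝ) (k : ℕ) (ω : (S.F k).Ω) :
    TR.ev f k ω = S.dl r k * (flr f r k ω + TR.ev (zf f r) k ω) := by
  rw [ev_zf, add_sub_cancel, mul_div_cancel₀ _ (S.dl_pos r k).ne']

theorem zf_diff {f : TR S} {r : ℝ} {k : ℕ} {ω ω' : (S.F k).Ω} (h : flr f r k ω = flr f r k ω') :
    |TR.ev f k ω - TR.ev f k ω'| = S.dl r k * |TR.ev (zf f r) k ω - TR.ev (zf f r) k ω'| := by
  rw [zf_eq f r k ω, zf_eq f r k ω', h, ← mul_sub, add_sub_add_left_eq_sub, abs_mul, abs_of_pos (S.dl_pos r k)]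

/-- digits of the zoom -/
theorem zf_dg {f : TR S} {r : ℝ} (h : Lit f r) (s : ℝ) : TR.dg (zf f r) s = TR.dg f (r + s) := by
  apply le_antisymm
  · apply VV.dg_le_dg _ _ _ _ (fun _ _ => True) Typ_true (fun _ => 1) (S.Sub_const zero_le_one)
    filter_upwards [h] with k hk ω ω' a b _ _ g g' _
    have h1 : |TR.ev f k ω - TR.ev f k ω'| ≤ S.dl (r + s) k := g' 0
    rw [zf_diff (hk ω ω' a b g), S.dl_add] at h1
    rw [one_mul]
    exact le_of_mul_le_mul_left h1 (S.dl_pos r k)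
  · apply VV.dg_le_dg _ _ _ _ (fun _ _ => True) Typ_true (fun _ => 1) (S.Sub_const zero_le_one)
    filter_upwards [h] with k hk ω ω' a b _ _ g g' _
    have h1 : |TR.ev (zf f r) k ω - TR.ev (zf f r) k ω'| ≤ S.dl s k := g' 0
    show |TR.ev f k ω - TR.ev f k ω'| ≤ 1 * S.dl (r + s) k
    rw [one_mul, zf_diff (hk ω ω' a b g), S.dl_add]
    exact mul_le_mul_of_nonneg_left h1 (S.dl_pos r k).le

theorem flr_tr (p : Pj T S) (f : TR S) (r : ℝ) (k : ℕ) (ω : (T.F k).Ω) : flr (p.tr f) r k ω = flr f r k (p.π k ω) := by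
  unfold flr
  have h1 : T.dl r k = S.dl r k := Pool.Agent.Helper97.SL.dl_pj p r k
  rw [h1]
  rfl

theorem zf_tr (p : Pj T S) (f : TR S) (r : ℝ) : p.tr (zf f r) = zf (p.tr f) r := by
  apply Subtype.ext
  funext k ω
  show TR.ev (zf f r) k (p.π k ω) = TR.ev (zf (p.tr f) r) k ω
  have h1 : T.dl r k = S.dl r k := Pool.Agent.Helper97.SL.dl_pj p r k
  rw [ev_zf, ev_zf, flr_tr, h1]
  rfl

theorem Lit.tr {f : TR S} {r : ℝ} (h : Lit f r) (p : Pj T S) : Lit (p.tr f) r := by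
  filter_upwards [h] with k hk ω ω' a b g
  rw [flr_tr, flr_tr]
  exact hk _ _ (p.supp k ω a) (p.supp k ω' b) ((p.hZ k ω ω' a b).mp g)

/-! ### corners -/

/-- the corner of the cell of level `r` -/
def fc' (f : TR S) (r : ℝ) (hr : 0 ≤ r) : TR S := TR.cor ((TR.vec (fun _ : Fin 1 => f)).fl r hr) 0

theorem ev_fc' (f : TR S) (r : ℝ) (hr : 0 ≤ r) (k : ℕ) (ω : (S.F k).Ω) :
    TR.ev (fc' f r hr) k ω = flr f r k ω * S.dl r k := rfl

theorem fc'_sub (f : TR S) (r : ℝ) (hr : 0 ≤ r) (k : ℕ) (ω : (S.F k).Ω) :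
    |TR.ev f k ω - TR.ev (fc' f r hr) k ω| ≤ S.dl r k := by
  have h1 := VV.fl_sub (TR.vec (fun _ : Fin 1 => f)) r hr k ω 0
  have h2 : (TR.vec (fun _ : Fin 1 => f)).v k ω 0 - ((TR.vec (fun _ : Fin 1 => f)).fl r hr).v k ω 0 =
      TR.ev f k ω - TR.ev (fc' f r hr) k ω := rfl
  rw [h2] at h1
  rw [abs_le]
  have := S.dl_pos r k
  constructor <;> linarith

theorem fc'_dg_le (f : TR S) (r : ℝ) (hr : 0 ≤ r) (l : ℝ) : TR.dg (fc' f r hr) l ≤ TR.dg f r := by
  have h1 := TR.cor_dg_le ((TR.vec (fun _ : Fin 1 => f)).fl r hr) 0 l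
  exact h1.trans (VV.fl_dg_le _ r hr l)

theorem fc'_ag (f : TR S) (r : ℝ) (hr : 0 ≤ r) : TR.Ag r f (fc' f r hr) :=
  Pool.Agent.Helper97.SL.ag_of_close (Eventually.of_forall fun k ω _ => fc'_sub f r hr k ω)

/-! ### truncations -/

/-- truncated function -/
def trc (g : ∀ k, (S.F k).Ω → ℝ) (K : ℕ → ℝ) (hK : S.Sub K) : TR S :=
  ⟨fun k ω => if |g k ω| ≤ K k then g k ω else 0, K, hK, by
    filter_upwards [hK.1] with k hk ω _
    split_ifs with h
    · exact h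
    · rw [abs_zero]
      exact hk⟩

theorem ev_trc {g : ∀ k, (S.F k).Ω → ℝ} {K : ℕ → ℝ} {hK : S.Sub K} {k : ℕ} {ω : (S.F k).Ω} (h : |g k ω| ≤ K k) :
    TR.ev (trc g K hK) k ω = g k ω := if_pos h

theorem ev_trc' (g : ∀ k, (S.F k).Ω → ℝ) (K : ℕ → ℝ) (hK : S.Sub K) (k : ℕ) (ω ω' : (S.F k).Ω) (h : g k ω = g k ω') :
    TR.ev (trc g K hK) k ω = TR.ev (trc g K hK) k ω' := by
  show (if |g k ω| ≤ K k then g k ω else 0) = (if |g k ω'| ≤ K k then g k ω' else 0)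
  rw [h]

theorem trc_bd (g : ∀ k, (S.F k).Ω → ℝ) {K : ℕ → ℝ} (hK : S.Sub K) {k : ℕ} (h0 : 0 ≤ K k) (ω : (S.F k).Ω) :
    |TR.ev (trc g K hK) k ω| ≤ K k := by
  show |(if |g k ω| ≤ K k then g k ω else 0)| ≤ K k
  split_ifs with h
  · exact h
  · rw [abs_zero]
    exact h0

/-- digits of `dl r * f` -/
theorem cdl_mul_dg (f : TR S) (r : ℝ) (hr : 0 ≤ r) (s : ℝ) : TR.dg (cdl r hr * f) (r + s) = TR.dg f s := by
  have key : ∀ k (ω ω' : (S.F k).Ω), |TR.ev (cdl r hr * f) k ω - TR.ev (cdl r hr * f) k ω'| =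
      S.dl r k * |TR.ev f k ω - TR.ev f k ω'| := by
    intro k ω ω'
    rw [TR.ev_mul, TR.ev_mul, ev_cdl, ev_cdl, ← mul_sub, abs_mul, abs_of_pos (S.dl_pos r k)]
  apply le_antisymm
  · apply VV.dg_le_dg _ _ _ _ (fun _ _ => True) Typ_true (fun _ => 1) (S.Sub_const zero_le_one)
    refine Eventually.of_forall fun k ω ω' a b _ _ g g' _ => ?_
    have h1 : |TR.ev f k ω - TR.ev f k ω'| ≤ S.dl s k := g' 0
    show |TR.ev (cdl r hr * f) k ω - TR.ev (cdl r hr * f) k ω'| ≤ 1 * S.dl (r + s) k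
    rw [key, one_mul, S.dl_add]
    exact mul_le_mul_of_nonneg_left h1 (S.dl_pos r k).le
  · apply VV.dg_le_dg _ _ _ _ (fun _ _ => True) Typ_true (fun _ => 1) (S.Sub_const zero_le_one)
    refine Eventually.of_forall fun k ω ω' a b _ _ g g' _ => ?_
    have h1 : |TR.ev (cdl r hr * f) k ω - TR.ev (cdl r hr * f) k ω'| ≤ S.dl (r + s) k := g' 0
    show |TR.ev f k ω - TR.ev f k ω'| ≤ 1 * S.dl s k
    rw [key, S.dl_add] at h1
    rw [one_mul]
    exact le_of_mul_le_mul_left h1 (S.dl_pos r k)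

end

end Pool.Agent.Helper91.GR
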