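import Pool.Agent.Helper91.GR.Phi

/-! BLIND SHEETS ARE EXACT: a sheet of the window of level `c`, whose coefficients are almost blind to the base of the
box and independent of the time given the line, gives `HH` of the gauge of sheets. -/

set_option autoImplicit false

namespace Pool.Agent.Helper91.GR

open Finset Filter Topology Pool.Agent.Helper69.RK Pool.Agent.Helper31.EC Pool.Agent.Helper31.EC.Sp
open Pool.Agent.Helper40.EL Pool.Agent.Helper42.NS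
open Pool.Agent.Helper3.LF (Mon pl pl_succ sp_Sub sp_dl)
open Pool.Agent.Helper52.SL (cv cv_dg)
open Pool.Agent.Helper97.SL (pe z0 cdl ev_cdl ev_pe cv_dg_le cv_close)

noncomputable section

variable {S : Sp} {m N : ℕ} {C : Cd m N} {l : Lab S} {s : Sys S m} {c lam σ : ℝ} {Y : Sp}
  {π : Pj Y (l.ovr 1 one_pos)}

/-- labels on extensions of the space over `κ_c` -/
theorem wl_DM (hl : DMc s c l) (A : Y.Inf) (hA : cl A ≤ π.map (up1 l (lA s c)))
    (hB : cl A ≤ π.map (up1 l (lB s))) : DMc s c (wl l π A.1) := by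
  have key : ∀ (B : S.Inf), cl A ≤ π.map (up1 l (cl B)) →
      Nul S (fun k => h (fc (A.1 k) : FL (Y.F k)) ((π.fp k).map ((l k).up 1 one_pos (rpI B k)))) := by
    intro B hB
    have h1 : PLe (rpI A) (rpI (π.mapI (l.upI 1 one_pos B))) := PLe_rpI.mpr hB
    have h2 : Nul Y (fun k => h (rpI A k) (rpI (π.mapI (l.upI 1 one_pos B)) k)) := h1
    unfold Nul at h2 ⊢
    refine h2.congr fun k => ?_
    rw [π.hn k, l.n_over 1 one_pos k, one_mul]
    rfl
  have key2 : ∀ (Ap : Part S), Nul S (fun k => (l k).leak (Ap k)) →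
      Nul S (fun k => h (fc (A.1 k) : FL (Y.F k)) ((π.fp k).map ((l k).up 1 one_pos (Ap k)))) →
      Nul S (fun k => ((wl l π A.1) k).leak (Ap k)) := by
    intro Ap h1 h2
    apply (h1.add h2).of_le (Eventually.of_forall fun k => FLab.leak_nonneg _ _)
    refine Eventually.of_forall fun k => ?_
    have h3 : ((wl l π A.1) k).leak (Ap k) = (l k).leak (Ap k) + I (fc (A.1 k) : FL (Y.F k))
        ((π.fp k).map ((frb (l k).T (l k).V 1 one_pos).map (l k).p.top)) ((π.fp k).map ((l k).up 1 one_pos (Ap k))) :=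
      FLab.comp_leak _ _ _ _ _
    rw [h3]
    have h4 := I_le_h_left (fc (A.1 k) : FL (Y.F k)) ((π.fp k).map ((frb (l k).T (l k).V 1 one_pos).map (l k).p.top))
      ((π.fp k).map ((l k).up 1 one_pos (Ap k)))
    linarith
  constructor
  · apply key2 _ hl.1
    have h1 := key (Inf.sup (Inf.sup (s.Ia 1) (s.Ix 1)) (s.It c)) (by rw [cl_A]; exact hA)
    exact h1
  · apply key2 _ hl.2
    have h1 := key (Inf.sup (s.IP 1) (s.It 1)) (by rw [cl_B]; exact hB)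
    exact h1

open Classical in
/-- the sheet of a good representative of the class -/
def repv {Ω : Type} (Q : Setoid Ω) (G : Ω → Prop) (v : Ω → Cf (m + 1)) (q : Quotient Q) : Cf (m + 1) :=
  if h : ∃ ω, G ω ∧ Quotient.mk Q ω = q then v h.choose else (0, 0)

theorem repv_spec {Ω : Type} {Q : Setoid Ω} {G : Ω → Prop} {v : Ω → Cf (m + 1)} {ω : Ω} (h : G ω) :
    ∃ ω', G ω' ∧ Q ω' ω ∧ repv Q G v (Quotient.mk Q ω) = v ω' := by
  have h1 : ∃ ω', G ω' ∧ Quotient.mk Q ω' = Quotient.mk Q ω := ⟨ω, h, rfl⟩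
  refine ⟨h1.choose, h1.choose_spec.1, Quotient.exact h1.choose_spec.2, ?_⟩
  unfold repv
  rw [dif_pos h1]

theorem repv_bd {Ω : Type} {Q : Setoid Ω} {G : Ω → Prop} {v : Ω → Cf (m + 1)} {K : ℝ} (hK : 0 ≤ K)
    (hv : ∀ ω, G ω → ∀ j, |(v ω).2 j| ≤ K) (q : Quotient Q) (j : Fin (m + 1)) : |(repv Q G v q).2 j| ≤ K := by
  unfold repv
  split_ifs with h
  · exact hv _ h.choose_spec.1 j
  · show |(0 : ℝ)| ≤ K
    rw [abs_zero]
    exact hK

variable {w : ∀ k, ((l.ovr 1 one_pos).F k).Ω → Cf (m + 1)} {v : ∀ k, (Y.F k).Ω → Cf (m + 1)} {K : ℕ → ℝ}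

namespace Bx

/-- the coefficients are functions of the variable `X` -/
theorem ff_le (D : Bx C π (cv l (pv s)) c lam σ w v K) {α : ℕ → Type} {X : ∀ k, (Y.F k).Ω → α k} (hX : Sp.Bdd X)
    (hXv : ∀ᶠ k in UF, ∀ ω ω', (Y.F k).μ ω ≠ 0 → (Y.F k).μ ω' ≠ 0 → (Y.F k).Z ω ω' → X k ω = X k ω' →
      v k ω = v k ω') (r : ℝ) : (Pool.Agent.Helper97.SL.cv D.ff).dg r ≤ Sp.io X := by
  apply cv_dg_le
  intro a
  have key : ∀ᶠ k in UF, ∀ ω ω', (Y.F k).μ ω ≠ 0 → (Y.F k).μ ω' ≠ 0 → (Y.F k).Z ω ω' → X k ω = X k ω' →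
      TR.ev D.f0 k ω = TR.ev D.f0 k ω' ∧ TR.ev D.fR k ω = TR.ev D.fR k ω' ∧
        ∀ a, TR.ev (D.f1 a) k ω = TR.ev (D.f1 a) k ω' := by
    filter_upwards [hXv, D.base_eq] with k h1 h2 ω ω' hω hω' hZ hXe
    have e1 := h1 ω ω' hω hω' hZ hXe
    obtain ⟨e2, e3⟩ := h2 ω ω' hω hω' hZ
    refine ⟨ev_trc' _ _ _ k ω ω' ?_, ev_trc' _ _ _ k ω ω' ?_, fun a => ev_trc' _ _ _ k ω ω' ?_⟩
    · rw [e1, e2, e3]
    · rw [e1]
    · rw [e1, e3]
  have gen : ∀ f : TR Y, (∀ᶠ k in UF, ∀ ω ω', (Y.F k).μ ω ≠ 0 → (Y.F k).μ ω' ≠ 0 → (Y.F k).Z ω ω' → X k ω = X k ω' →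
      TR.ev f k ω = TR.ev f k ω') → TR.dg f r ≤ Sp.io X := by
    intro f hf
    apply VV.dg_le_io _ _ hX (fun _ _ => True) Typ_true (fun _ => 0) (Y.Sub_const le_rfl)
    filter_upwards [hf] with k hk ω ω' hω hω' _ _ hZ hXe _
    show |TR.ev f k ω - TR.ev f k ω'| ≤ _
    rw [hk ω ω' hω hω' hZ hXe, sub_self, abs_zero, zero_mul]
  have ha : D.ff a = co D.f0 (Fin.cons D.fR D.f1) a := rfl
  rw [ha]
  rcases mon_cases a with h | ⟨i, h⟩
  · rw [h, co_z0]
    exact gen _ (key.mono fun k hk ω ω' a b c d => (hk ω ω' a b c d).1)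
  · rw [h, co_m1]
    refine Fin.cases ?_ (fun a => ?_) i
    · exact gen _ (key.mono fun k hk ω ω' a b c d => (hk ω ω' a b c d).2.1)
    · exact gen _ (key.mono fun k hk ω ω' a' b c d => (hk ω ω' a' b c d).2.2 a)

end Bx

/-- the label which knows the rounded coefficients knows a sheet -/
theorem sht_wl (D : Bx C π (cv l (pv s)) c lam σ w v K) {R : ℝ} (hR : 0 ≤ R) :
    ∃ v' : ∀ k, ((wl l π (fun k => Setoid.ker ((Pool.Agent.Helper97.SL.cv D.ff).cellv (σ - c - R) k))) k).T.Ω →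
      Cf (m + 1), Sht s C.z C.Jz (σ - R)
        (wl l π (fun k => Setoid.ker ((Pool.Agent.Helper97.SL.cv D.ff).cellv (σ - c - R) k))) v' := by
  set W : ∀ k, Setoid (Y.F k).Ω := fun k => Setoid.ker ((Pool.Agent.Helper97.SL.cv D.ff).cellv (σ - c - R) k) with hW
  set Q : ∀ k, Setoid (Y.F k).Ω := fun k => ((wl l π W) k).V ⊓ ((wl l π W) k).T.Z with hQ
  refine ⟨fun k ω => repv (Q k) (fun ω => (Y.F k).μ ω ≠ 0 ∧ D.GY k ω) (v k) (Quotient.mk (Q k) ω), ?_, ?_⟩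
  · intro k ω ω' _ _ hV hZ
    have h1 : Quotient.mk (Q k) ω = Quotient.mk (Q k) ω' := Quotient.sound ⟨hV, hZ⟩
    show repv _ _ _ (Quotient.mk (Q k) ω) = repv _ _ _ (Quotient.mk (Q k) ω')
    rw [h1]
  · have hKS : S.Sub K := by
      have h := D.K0
      unfold Sp.Sub at h ⊢
      refine ⟨h.1, ?_⟩
      have h1 : (fun k => Real.logb 2 (K k + 2) / (S.F k).n) =
          fun k => Real.logb 2 (K k + 2) / ((l.ovr 1 one_pos).F k).n := by
        funext k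
        rw [l.n_over 1 one_pos k, one_mul]
      rw [h1]
      exact h.2
    refine ⟨fun k => K k + (1 + ((N + 1) + K k)), ?_, ?_, ?_⟩
    · exact hKS.add ((S.Sub_const zero_le_one).add ((S.Sub_const (show (0 : ℝ) ≤ N + 1 by positivity)).add hKS))
    · filter_upwards [D.hv] with k hk ω _ j
      have K1 := D.K1 k
      have h1 := repv_bd (Q := Q k) (G := fun ω => (Y.F k).μ ω ≠ 0 ∧ D.GY k ω) (v := v k) (by linarith : 0 ≤ K k)
        (fun ω hω j => hk ω hω.1 j) (Quotient.mk (Q k) ω) j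
      have h2 : (0 : ℝ) ≤ N := Nat.cast_nonneg N
      linarith
    · have hT : Typ (S := (wl l π W).sp) D.GY := D.GY_typ
      refine Typ.mono hT ?_
      filter_upwards [D.close] with k hk ω hω hG
      have K1 := D.K1 k
      obtain ⟨ω', ⟨hω', hG'⟩, hQ', hv'⟩ := repv_spec (Q := Q k) (G := fun ω => (Y.F k).μ ω ≠ 0 ∧ D.GY k ω)
        (v := v k) (ω := ω) ⟨hω, hG⟩
      have hω0 : (Y.F k).μ ω ≠ 0 := hω
      have hZ : (Y.F k).Z ω ω' := by
        have b1 := Setoid.symm' (Q k) hQ'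
        have h1 : ((l.ovr 1 one_pos).F k).Z (π.π k ω) (π.π k ω') := by
          refine ⟨b1.1.1, ?_⟩
          exact ((l k).p.hZ _ _ (π.supp k ω hω0) (π.supp k ω' hω')).mpr b1.2
        exact (π.hZ k ω ω' hω0 hω').mpr h1
      have hc : (Pool.Agent.Helper97.SL.cv D.ff).cellv (σ - c - R) k ω =
          (Pool.Agent.Helper97.SL.cv D.ff).cellv (σ - c - R) k ω' := (Setoid.symm' (Q k) hQ').1.2
      have hcc := cv_close D.ff (σ - c - R) k ω ω' hc
      have c0 : |TR.ev D.f0 k ω - TR.ev D.f0 k ω'| ≤ Y.dl (σ - c - R) k := by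
        have h1 := hcc (z0 (N + 1 + 1) 1)
        have h2 : D.ff (z0 (N + 1 + 1) 1) = D.f0 := co_z0 _ _
        rwa [h2] at h1
      have cR : |TR.ev D.fR k ω - TR.ev D.fR k ω'| ≤ Y.dl (σ - c - R) k := by
        have h1 := hcc (m1 0)
        have h2 : D.ff (m1 0) = D.fR := co_m1 _ _ _
        rwa [h2] at h1
      have c1 : ∀ a, |TR.ev (D.f1 a) k ω - TR.ev (D.f1 a) k ω'| ≤ Y.dl (σ - c - R) k := by
        intro a
        have h1 := hcc (m1 a.succ)
        have h2 : D.ff (m1 a.succ) = D.f1 a := co_m1 _ _ _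
        rwa [h2] at h1
      have h3 := hk ω ω' (Y.dl (σ - c - R) k) (Y.dl_pos _ k).le hω0 hω' hZ hG hG' c0 cR c1
      have d1 : Y.dl (σ - c - R) k = S.dl (σ - c - R) k := by
        rw [Pool.Agent.Helper97.SL.dl_pj π]
        have h4 : (l.ovr 1 one_pos).dl (σ - c - R) k = l.sp.dl (1 * (σ - c - R)) k := chg_dl l.V 1 one_pos _ k
        rw [h4, one_mul, sp_dl]
      have d2 : ∀ r, (l.ovr 1 one_pos).dl r k = S.dl r k := by
        intro r
        have h4 : (l.ovr 1 one_pos).dl r k = l.sp.dl (1 * r) k := chg_dl l.V 1 one_pos r k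
        rw [h4, one_mul, sp_dl]
      rw [d1, d2, d2] at h3
      have h5 : dfl s C.z C.Jz (wl l π W) (fun k ω => repv (Q k) (fun ω => (Y.F k).μ ω ≠ 0 ∧ D.GY k ω) (v k)
          (Quotient.mk (Q k) ω)) k ω =
          (cv l (pv s)).v k (π.π k ω) C.z.succ - aff C.Jz (v k ω') ((cv l (pv s)).v k (π.π k ω)) := by
        unfold dfl
        beta_reduce
        rw [hv']
        rfl
      rw [h5]
      refine h3.trans ?_
      have h6 : S.dl σ k ≤ S.dl (σ - R) k := S.dl_anti (by linarith) k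
      have h7 : S.dl c k * (S.dl (σ - c - R) k * (1 + ((N + 1) + K k))) =
          (1 + ((N + 1) + K k)) * S.dl (σ - R) k := by
        have h8 : S.dl (σ - R) k = S.dl c k * S.dl (σ - c - R) k := by
          rw [← S.dl_add]
          congr 1
          ring
        rw [h8]
        ring
      rw [h7, add_mul (K k)]
      have h9 : K k * S.dl σ k ≤ K k * S.dl (σ - R) k := mul_le_mul_of_nonneg_left h6 (by linarith)
      linarith

/-- BLIND SHEETS ARE EXACT -/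
theorem blind_HH (N : ℕ) (ρ : ℝ) (hρ : 0 < ρ) (hρ1 : ρ ≤ 1) : ∃ Cc : ℝ, 1 ≤ Cc ∧
    ∀ {S : Sp} {m : ℕ} {C : Cd m N} {l : Lab S} {s : Sys S m} {c lam σ R κ ε : ℝ} {Y : Sp}
      {π : Pj Y (l.ovr 1 one_pos)} {w : ∀ k, ((l.ovr 1 one_pos).F k).Ω → Cf (m + 1)}
      {v : ∀ k, (Y.F k).Ω → Cf (m + 1)} {K : ℕ → ℝ}, Bx C π (cv l (pv s)) c lam σ w v K → IsKap s c l →
    ∀ {α : ℕ → Type} {X : ∀ k, (Y.F k).Ω → α k}, Sp.Bdd X →
    (∀ᶠ k in UF, ∀ ω ω', (Y.F k).μ ω ≠ 0 → (Y.F k).μ ω' ≠ 0 → (Y.F k).Z ω ω' → X k ω = X k ω' → v k ω = v k ω') →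
    I (Sp.io X) (π.map (up1 l s.T)) (π.map (up1 l (s.xi 1))) = 0 →
    (∀ (T : Sp) (q : Pj T Y) (E : ∀ k, (T.F k).Ω → Prop) (hE : 0 < ul (T.pr E)),
      (N + 1) * (1 - c) + (1 - lam) - ε ≤
        h (restL E hE (q.map (π.map (up1 l (C.M s 1 ⊔ s.T))))) (restL E hE (q.map (Sp.io X)))) →
    (∀ (T : Sp) (q : Pj T (l.ovr 1 one_pos)) (E : ∀ k, (T.F k).Ω → Prop) (hE : 0 < ul (T.pr E)) (r r' : ℝ),
      σ - R ≤ r → r ≤ r' → r' ≤ σ → h (restL E hE (q.map (up1 l (TR.dg (pc s C.z.succ) r'))))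
        (restL E hE (q.map (up1 l (C.M s 1 ⊔ s.T))) ⊔ restL E hE (q.map (up1 l (TR.dg (pc s C.z.succ) r)))) ≤
        (1 - ρ) * (r' - r) + κ) →
    0 < R → R ≤ σ - c → Cc * ε ≤ R → Cc * κ ≤ R → HH (SJ C.z C.Jz) s c (σ - R) := by
  obtain ⟨Cc, hCc, hex⟩ := Bx.exact N ρ hρ hρ1
  refine ⟨Cc, hCc, ?_⟩
  intro S m C l s c lam σ R κ ε Y π w v K D hl α X hX hXv hA hfull hD hR hRg hε hκ
  have h1 := hex D hl (D.ff_le hX hXv (σ - c)) hfull hD hR hRg hε hκ
  have h2 := D.ff_le hX hXv (σ - c - R)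
  have h3 : (Pool.Agent.Helper97.SL.cv D.ff).dg (σ - c - R) ≤ π.map (up1 l (s.xi 1)) := by
    refine le_of_I_zero (B := π.map (up1 l s.T)) ?_ ?_
    · refine h1.trans ?_
      rw [sup_comm, ← Pj.map_sup, ← up1_sup]
      exact Pj.map_mono _ (up1_mono l (B_le s))
    · exact I_zero_mono hA (h2.trans le_sup_left) le_sup_left
  obtain ⟨v', hv'⟩ := sht_wl D hR.le
  refine HH_of_Sht (by linarith [D.c0]) (by linarith [D.s1]) (l := wl l π (fun k => Setoid.ker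
    ((Pool.Agent.Helper97.SL.cv D.ff).cellv (σ - c - R) k))) ?_ hv'
  have h4 := wl_DM (π := π) hl.1 ((Pool.Agent.Helper97.SL.cv D.ff).bdd (σ - c - R)).toInf
    (by
      rw [← io_eq]
      exact h3.trans (Pj.map_mono _ (up1_mono l le_sup_left)))
    (by
      rw [← io_eq]
      exact h1)
  exact h4

end

end Pool.Agent.Helper91.GR
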