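import Pool.Agent.Helper91.GR.Nc

/-! BLINDNESS over a label of the window `c`, on all events of all extensions: functions of a label of the window `c0`
have at most `i(c0) - i(c)` information about the line. -/

set_option autoImplicit false

namespace Pool.Agent.Helper91.GR

open Finset Filter Topology Pool.Agent.Helper69.RK Pool.Agent.Helper31.EC Pool.Agent.Helper31.EC.Sp
open Pool.Agent.Helper40.EL

noncomputable section

/-- functions of the new base in the condition -/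
theorem h_chgL_le {T : Sp} (W : ∀ k, Setoid (T.F k).Ω) {α : ℕ → Type} {X : ∀ k, (T.F k).Ω → α k} (hX : Bdd X)
    (hW : ∀ᶠ k in UF, ∀ ω ω', (T.F k).μ ω ≠ 0 → (T.F k).μ ω' ≠ 0 → (T.F k).Z ω ω' → W k ω ω' → X k ω = X k ω')
    (x y : T.L) : h (chgL W 1 one_pos x) (chgL W 1 one_pos y) ≤ h x (y ⊔ io X) := by
  induction x using Sp.cl_ind with | _ A
  induction y using Sp.cl_ind with | _ B
  rw [chgL_cl, chgL_cl, h_cl, io_eq hX, ← cl_sup, h_cl]
  apply ul_mono (UB_rt _ _) (UB_rt _ _)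
  filter_upwards [hW] with k hk
  have h1 : (T.chg W 1 one_pos).rt (chgI W 1 one_pos A).1 (chgI W 1 one_pos B).1 k =
      T.rt A.1 (fun k => B.1 k ⊓ W k) k / 1 := chg_rt W 1 one_pos A.1 B.1 k
  rw [h1, div_one]
  unfold rt
  apply div_le_div_of_nonneg_right _ (T.F k).pos.le
  apply (T.F k).e_anti
  intro ω ω' a b g
  exact ⟨⟨g.1.1, hk ω ω' a b g.2 g.1.2⟩, g.2⟩

theorem H_chgL_le {T : Sp} (W : ∀ k, Setoid (T.F k).Ω) {α : ℕ → Type} {X : ∀ k, (T.F k).Ω → α k} (hX : Bdd X)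
    (hW : ∀ᶠ k in UF, ∀ ω ω', (T.F k).μ ω ≠ 0 → (T.F k).μ ω' ≠ 0 → (T.F k).Z ω ω' → W k ω ω' → X k ω = X k ω')
    (x : T.L) : H (chgL W 1 one_pos x) ≤ h x (io X) := by
  have h1 := h_chgL_le W hX hW x ⊥
  rw [chgL_bot, h_bot, bot_sup_eq] at h1
  exact h1

variable {S T : Sp} {m : ℕ} (l : Lab S) (π : Pj T (l.ovr 1 one_pos)) (W : ∀ k, Setoid (T.F k).Ω)

/-- the label with the additional partition `W` on an extension of the space over `l` -/
def wl : Lab S := l.comp 1 one_pos (fun k => ⟨T.F k, π.fp k, π.hn k, W k⟩)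

/-- the restriction of the label with the additional partition -/
def wE (E : ∀ k, (T.F k).Ω → Prop) : Lab (Sp.im (xl l π).pj E) := (wl l π W).im E

/-- the extension restricted to an event, over the additional partition, and the space over the restricted label -/
def idw (E : ∀ k, (T.F k).Ω → Prop) : Pj ((T.rest E).chg W 1 one_pos) ((wE l π W E).ovr 1 one_pos) where
  π := fun _ ω => ω
  law := fun k => push_id _
  hZ := fun k ω ω' a b => by
    have a' : (T.F k).μ ω ≠ 0 := ((T.F k).rest_supp (E k) ω a).1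
    have b' : (T.F k).μ ω' ≠ 0 := ((T.F k).rest_supp (E k) ω' b).1
    have h1 : (T.F k).Z ω ω' ↔ ((l.ovr 1 one_pos).F k).Z (π.π k ω) (π.π k ω') := π.hZ k ω ω' a' b'
    have h2 : ((l.ovr 1 one_pos).F k).Z (π.π k ω) (π.π k ω') ↔
        ((l k).V (π.π k ω) (π.π k ω') ∧ (l k).T.Z (π.π k ω) (π.π k ω')) := Iff.rfl
    have h3 : (l k).T.Z (π.π k ω) (π.π k ω') ↔ (S.F k).Z ((l k).p.π (π.π k ω)) ((l k).p.π (π.π k ω')) :=
      (l k).p.hZ _ _ (π.supp k ω a') (π.supp k ω' b')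
    show (W k ω ω' ∧ (T.F k).Z ω ω') ↔ (((l k).V (π.π k ω) (π.π k ω') ∧ W k ω ω') ∧
      (S.F k).Z ((l k).p.π (π.π k ω)) ((l k).p.π (π.π k ω')))
    rw [h1, h2, h3]
    exact ⟨fun h => ⟨⟨h.2.1, h.1⟩, h.2.2⟩, fun h => ⟨h.1.2, h.1.1, h.2⟩⟩
  hn := fun k => by
    show 1 * (T.F k).n = 1 * (S.F k).n
    rw [π.hn k, l.n_over 1 one_pos k, one_mul]

theorem idw_map {q : ℕ} (E : ∀ k, (T.F k).Ω → Prop) (y : S.VV q) (r : ℝ) :
    (idw l π W E).map (up1 (wE l π W E) ((y.im (xl l π).pj E).dg r)) =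
      chgL (S := T.rest E) W 1 one_pos ((vE (E := E) π y).dg r) := by
  have h1 : (VV.chg (S := T.rest E) W 1 one_pos (vE (E := E) π y)).dg r =
      chgL (S := T.rest E) W 1 one_pos ((vE (E := E) π y).dg (1 * r)) :=
    VV.chg_dg (S := T.rest E) W 1 one_pos (vE (E := E) π y) r
  rw [one_mul] at h1
  rw [← h1, ← Pool.Agent.Helper52.SL.cv_dg, Pj.map_dg]
  rfl

variable {l}

/-- a maximal label over `l` in an extension -/
theorem wl_IsMax {A B : Part S} {l2 : Lab (l.ovr 1 one_pos)} (h : (l.comp 1 one_pos l2).IsMax A B)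
    (π2 : Pj T l2.sp) : (wl l (π2.comp l2.pj) (fun k => Setoid.comap (π2.π k) (l2 k).V)).IsMax A B := by
  set W : ∀ k, Setoid (T.F k).Ω := fun k => Setoid.comap (π2.π k) (l2 k).V with hW
  set w : Lab S := wl l (π2.comp l2.pj) W with hw
  have e0 : ∀ k (y : FL ((l.ovr 1 one_pos).F k)),
      ((π2.comp l2.pj).fp k).map y = (π2.fp k).map ((l2 k).p.map y) := by
    intro k y
    induction y using fc_ind
    rfl
  have e1 : ∀ k (x : FL (S.F k)), (w k).leak x = (l.comp 1 one_pos l2 k).leak x := by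
    intro k x
    have f1 : (w k).leak x = (l k).leak x + I ((π2.fp k).map (l2 k).v)
        (((π2.comp l2.pj).fp k).map ((frb (l k).T (l k).V 1 one_pos).map (l k).p.top))
        (((π2.comp l2.pj).fp k).map ((l k).up 1 one_pos x)) := FLab.comp_leak _ _ _ _ x
    have f2 : (l.comp 1 one_pos l2 k).leak x = (l k).leak x + I (l2 k).v
        ((l2 k).p.map ((frb (l k).T (l k).V 1 one_pos).map (l k).p.top))
        ((l2 k).p.map ((l k).up 1 one_pos x)) := FLab.comp_leak _ _ _ _ x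
    have f3 : ((π2.comp l2.pj).fp k).map ((frb (l k).T (l k).V 1 one_pos).map (l k).p.top) =
        (π2.fp k).map ((l2 k).p.map ((frb (l k).T (l k).V 1 one_pos).map (l k).p.top)) := e0 k _
    have f4 : ((π2.comp l2.pj).fp k).map ((l k).up 1 one_pos x) =
        (π2.fp k).map ((l2 k).p.map ((l k).up 1 one_pos x)) := e0 k _
    rw [f1, f2, f3, f4, (π2.fp k).I_map]
    rfl
  have e2 : ∀ k, (w k).info = (l.comp 1 one_pos l2 k).info := by
    intro k
    rw [← FLab.leak_bot, ← FLab.leak_bot, e1]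
  refine ⟨⟨?_, ?_⟩, fun l' h' => ?_⟩
  · exact (h.1.1).congr fun k => congrArg (fun x => x / (S.F k).n) (e1 k (A k)).symm
  · exact (h.1.2).congr fun k => congrArg (fun x => x / (S.F k).n) (e1 k (B k)).symm
  · have h3 : w.info = (l.comp 1 one_pos l2).info := by
      unfold Lab.info
      congr 1
      funext k
      rw [e2]
    rw [h3]
    exact h.2 l' h'

variable {s : Sys S m} {c c0 : ℝ} {E : ∀ k, (T.F k).Ω → Prop}

theorem wE_IsKap {l2 : Lab (l.ovr 1 one_pos)} (h : IsKap s c0 (l.comp 1 one_pos l2)) (π2 : Pj T l2.sp)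
    (hE : 0 < ul (T.pr E)) : IsKap (sE (π2.comp l2.pj) s hE) c0
      (wE l (π2.comp l2.pj) (fun k => Setoid.comap (π2.π k) (l2 k).V) E) := by
  have h1 := Lab.IsMax.im_max (wl_IsMax h π2) E hE (cA_Bd s c0)
    (pof_Bd (im_VB (xl l (π2.comp l2.pj)).pj (fun k ω => ¬ E k ω) (Inf.sup (Inf.sup (s.Ia 1) (s.Ix 1)) (s.It c0)).2))
  exact h1

theorem xi_idp (π : Pj T (l.ovr 1 one_pos)) (hE : 0 < ul (T.pr E)) :
    (vE (E := E) π s.a).dg 1 ⊔ (vE (E := E) π s.x).dg 1 =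
      (idp (E := E) π).map (up1 (xE l π E) ((sE π s hE).xi 1)) := by
  rw [vE_idp, vE_idp, ← Pj.map_sup, ← up1_sup]
  rfl

theorem xi_idw (π : Pj T (l.ovr 1 one_pos)) (W : ∀ k, Setoid (T.F k).Ω) (hE : 0 < ul (T.pr E)) :
    chgL (S := T.rest E) W 1 one_pos ((vE (E := E) π s.a).dg 1 ⊔ (vE (E := E) π s.x).dg 1) =
      (idw l π W E).map (up1 (wE l π W E) ((sE π s hE).xi 1)) := by
  rw [chgL_sup, ← idw_map, ← idw_map, ← Pj.map_sup, ← up1_sup]
  rfl

/-- OLD SYSTEM: functions of the label of the window `c0` have at most `i(c0) - i(c)` information about the line -/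
theorem old_bound (h0 : 0 ≤ c) (hcc : c ≤ c0) (h1 : c0 ≤ 1) (hl : IsKap s c l) {l2 : Lab (l.ovr 1 one_pos)}
    (hl2 : IsKap s c0 (l.comp 1 one_pos l2)) (hi : Pool.Agent.Helper52.KP.RobustI s) (π2 : Pj T l2.sp)
    (hE : 0 < ul (T.pr E)) {α : ℕ → Type} {X : ∀ k, (T.F k).Ω → α k} (hX : Bdd X)
    (hXV : ∀ᶠ k in UF, ∀ ω ω', (T.F k).μ ω ≠ 0 → (T.F k).μ ω' ≠ 0 → (T.F k).Z ω ω' →
      (l2 k).V (π2.π k ω) (π2.π k ω') → X k ω = X k ω') :
    I (restL E hE (io X)) ((vE (E := E) (π2.comp l2.pj) s.a).dg 1 ⊔ (vE (E := E) (π2.comp l2.pj) s.x).dg 1) ⊥ ≤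
      ic s c0 - ic s c := by
  have hc1 : c ≤ 1 := hcc.trans h1
  have hc00 : 0 ≤ c0 := h0.trans hcc
  have i1 : ic (sE (π2.comp l2.pj) s hE) c = ic s c :=
    hi c h0 hc1 (xl l (π2.comp l2.pj)).sp (xl l (π2.comp l2.pj)).pj E hE
  have i2 : ic (sE (π2.comp l2.pj) s hE) c0 = ic s c0 :=
    hi c0 hc00 h1 (xl l (π2.comp l2.pj)).sp (xl l (π2.comp l2.pj)).pj E hE
  have a1 := (xE_IsKap (π2.comp l2.pj) hl hE).ic_xi h0 hc1
  have a2 := (wE_IsKap hl2 π2 hE).ic_xi hc00 h1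
  have b1 : H ((vE (E := E) (π2.comp l2.pj) s.a).dg 1 ⊔ (vE (E := E) (π2.comp l2.pj) s.x).dg 1) =
      H (up1 (xE l (π2.comp l2.pj) E) ((sE (π2.comp l2.pj) s hE).xi 1)) := by
    rw [xi_idp (π2.comp l2.pj) hE, Pj.H_map]
  have b2 : H (chgL (S := T.rest E) (fun k => Setoid.comap (π2.π k) (l2 k).V) 1 one_pos
      ((vE (E := E) (π2.comp l2.pj) s.a).dg 1 ⊔ (vE (E := E) (π2.comp l2.pj) s.x).dg 1)) =
      H (up1 (wE l (π2.comp l2.pj) (fun k => Setoid.comap (π2.π k) (l2 k).V) E) ((sE (π2.comp l2.pj) s hE).xi 1)) := by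
    rw [xi_idw (π2.comp l2.pj) _ hE, Pj.H_map]
    rfl
  have b3 : H (chgL (S := T.rest E) (fun k => Setoid.comap (π2.π k) (l2 k).V) 1 one_pos
      ((vE (E := E) (π2.comp l2.pj) s.a).dg 1 ⊔ (vE (E := E) (π2.comp l2.pj) s.x).dg 1)) ≤
      h ((vE (E := E) (π2.comp l2.pj) s.a).dg 1 ⊔ (vE (E := E) (π2.comp l2.pj) s.x).dg 1) (io (S := T.rest E) X) := by
    apply H_chgL_le (T := T.rest E) _ (rest_VB E hX)
    filter_upwards [hXV] with k hk ω ω' a b hZ hw
    exact hk ω ω' ((T.F k).rest_supp (E k) ω a).1 ((T.F k).rest_supp (E k) ω' b).1 hZ hw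
  rw [restL_io E hE hX, I_comm, I_eq, h_bot, sup_bot_eq]
  linarith

end

end Pool.Agent.Helper91.GR
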