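import Pool.Agent.Helper91.GR.One

/-! BOX COORDINATES: a sheet in the window of level `c`, in the coordinates of the window, with the slab coordinate
`R = slab + 2 ^ (-lam n) rh`, is a polynomial of degree one. -/

set_option autoImplicit false

namespace Pool.Agent.Helper91.GR

open Finset Filter Topology Pool.Agent.Helper69.RK Pool.Agent.Helper31.EC Pool.Agent.Helper31.EC.Sp
open Pool.Agent.Helper3.LF (Mon)
open Pool.Agent.Helper97.SL (pe z0 cdl ev_cdl ev_pe)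

noncomputable section

variable {m N : ℕ} (C : Cd m N)

namespace Cd

theorem aff_JR (f : Cf (m + 1)) (p : Fin (m + 1) → ℝ) :
    aff C.JR f p = f.1 + ∑ a, f.2 (C.sel a) * p (C.sel a) := by
  unfold aff JR
  rw [Finset.sum_image (fun a _ b _ h => C.inj h)]

theorem aff_Jz (f : Cf (m + 1)) (p : Fin (m + 1) → ℝ) :
    aff C.Jz f p = f.1 + (f.2 C.R.succ * p C.R.succ + ∑ a, f.2 (C.sel a) * p (C.sel a)) := by
  have h1 : C.R.succ ∉ C.JR := by
    intro h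
    unfold JR at h
    rw [Finset.mem_image] at h
    obtain ⟨a, -, ha⟩ := h
    exact C.hR a ha
  have h2 := C.aff_JR f p
  unfold aff at h2 ⊢
  unfold Jz
  rw [Finset.sum_insert h1]
  linarith

/-- slopes of the sheet along the slab -/
def g1 (w v : Cf (m + 1)) (a : Fin (N + 1)) : ℝ := v.2 (C.sel a) + v.2 C.R.succ * w.2 (C.sel a)

/-- constant term of the sheet in the window -/
def g0 (w v : Cf (m + 1)) (n : Fin (m + 1) → ℤ) (δ : ℝ) : ℝ :=
  (v.1 + v.2 C.R.succ * w.1) / δ + ∑ a, C.g1 w v a * n (C.sel a) - n C.z.succ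

theorem aff_box (w v : Cf (m + 1)) {n : Fin (m + 1) → ℤ} {p ph : Fin (m + 1) → ℝ} {δ e rh : ℝ} (hδ : δ ≠ 0)
    (h : ∀ a, p (C.sel a) = δ * (n (C.sel a) + ph (C.sel a))) (hR : p C.R.succ = aff C.JR w p + δ * (e * rh)) :
    aff C.Jz v p = δ * (C.g0 w v n δ + n C.z.succ + (∑ a, C.g1 w v a * ph (C.sel a) + v.2 C.R.succ * e * rh)) := by
  have h1 : δ * ((v.1 + v.2 C.R.succ * w.1) / δ) = v.1 + v.2 C.R.succ * w.1 := mul_div_cancel₀ _ hδ
  have h2 : ∑ a, C.g1 w v a * p (C.sel a) = δ * ∑ a, C.g1 w v a * n (C.sel a) + δ * ∑ a, C.g1 w v a * ph (C.sel a) := by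
    rw [Finset.mul_sum, Finset.mul_sum, ← Finset.sum_add_distrib]
    refine Finset.sum_congr rfl fun a _ => ?_
    rw [h a]
    ring
  have h3 : ∑ a, C.g1 w v a * p (C.sel a) = ∑ a, v.2 (C.sel a) * p (C.sel a) +
      v.2 C.R.succ * ∑ a, w.2 (C.sel a) * p (C.sel a) := by
    rw [Finset.mul_sum, ← Finset.sum_add_distrib]
    refine Finset.sum_congr rfl fun a _ => ?_
    unfold g1
    ring
  rw [C.aff_Jz, hR, C.aff_JR]
  unfold g0
  linear_combination h2 - h3 - h1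

theorem abs_g1_le {w v : Cf (m + 1)} {K : ℝ} (hK : 0 ≤ K) (hw : ∀ j, |w.2 j| ≤ K) (hv : ∀ j, |v.2 j| ≤ K)
    (a : Fin (N + 1)) : |C.g1 w v a| ≤ K + K * K := by
  unfold g1
  refine (abs_add_le _ _).trans ?_
  rw [abs_mul]
  exact add_le_add (hv _) (mul_le_mul (hv _) (hw _) (abs_nonneg _) hK)

end Cd

/-- values of sums -/
theorem sum_abs_le {q : ℕ} {f x : Fin q → ℝ} {A B : ℝ} (hA : 0 ≤ A) (hf : ∀ a, |f a| ≤ A)
    (hx : ∀ a, |x a| ≤ B) : |∑ a, f a * x a| ≤ q * (A * B) := by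
  refine (Finset.abs_sum_le_sum_abs _ _).trans ?_
  calc ∑ a, |f a * x a| ≤ ∑ _a : Fin q, A * B := by
        apply Finset.sum_le_sum
        intro a _
        rw [abs_mul]
        exact mul_le_mul (hf a) (hx a) (abs_nonneg _) hA
    _ = q * (A * B) := by
        rw [Finset.sum_const, Finset.card_univ, Fintype.card_fin, nsmul_eq_mul]

/-- BOX DATA: the point `P` on the space `O`, the slab `w` known by the base of `O`, the sheet `v` on the extension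
`Y` -/
structure Bx {O Y : Sp} (π : Pj Y O) (P : O.VV (m + 1)) (c lam σ : ℝ) (w : ∀ k, (O.F k).Ω → Cf (m + 1))
    (v : ∀ k, (Y.F k).Ω → Cf (m + 1)) (K : ℕ → ℝ) : Prop where
  c0 : 0 ≤ c
  cl : c ≤ lam
  l1 : lam ≤ 1
  cs : c ≤ σ
  s1 : σ ≤ 1
  K0 : O.Sub K
  K1 : ∀ k, 1 ≤ K k
  lit : ∀ j, Lit (TR.cor P j) c
  hw : ∀ᶠ k in UF, ∀ ω, (O.F k).μ ω ≠ 0 → ∀ j, |(w k ω).2 j| ≤ K k
  hv : ∀ᶠ k in UF, ∀ ω, (Y.F k).μ ω ≠ 0 → ∀ j, |(v k ω).2 j| ≤ K k
  wl : ∀ᶠ k in UF, ∀ ω ω', (O.F k).μ ω ≠ 0 → (O.F k).μ ω' ≠ 0 → (O.F k).Z ω ω' → w k ω = w k ω'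
  tw : Typ (S := O) (fun k ω => |P.v k ω C.R.succ - aff C.JR (w k ω) (P.v k ω)| ≤ K k * O.dl lam k)
  tv : Typ (S := Y) (fun k ω => |P.v k (π.π k ω) C.z.succ - aff C.Jz (v k ω) (P.v k (π.π k ω))| ≤ K k * O.dl σ k)

namespace Bx

variable {C} {O Y : Sp} {π : Pj Y O} {P : O.VV (m + 1)} {c lam σ : ℝ} {w : ∀ k, (O.F k).Ω → Cf (m + 1)}
  {v : ∀ k, (Y.F k).Ω → Cf (m + 1)} {K : ℕ → ℝ} (D : Bx C π P c lam σ w v K)

include D in
theorem K0Y : Y.Sub K := by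
  have h := D.K0
  unfold Sp.Sub at h ⊢
  refine ⟨h.1, ?_⟩
  have h1 : (fun k => Real.logb 2 (K k + 2) / (Y.F k).n) = fun k => Real.logb 2 (K k + 2) / (O.F k).n := by
    funext k
    rw [π.hn]
  rw [h1]
  exact h.2

/-- the bound of the constant term -/
def K2 (N : ℕ) (K : ℕ → ℝ) (k : ℕ) : ℝ := 1 + ((N + 1) * (K k + K k * K k) + (K k * K k + K k))

theorem K2_sub {S : Sp} {K : ℕ → ℝ} (hK : S.Sub K) : S.Sub (K2 N K) := by
  unfold K2
  exact (S.Sub_const zero_le_one).add (((S.Sub_const (show (0 : ℝ) ≤ N + 1 by positivity)).mul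
    (hK.add (hK.mul hK))).add ((hK.mul hK).add hK))

/-- the slab coordinate -/
def rh (w : ∀ k, (O.F k).Ω → Cf (m + 1)) (P : O.VV (m + 1)) (C : Cd m N) (lam : ℝ) (K : ℕ → ℝ) (hK : O.Sub K) : TR O :=
  trc (fun k ω => (P.v k ω C.R.succ - aff C.JR (w k ω) (P.v k ω)) / O.dl lam k) K hK

/-- numbers of the cells -/
def nn (P : O.VV (m + 1)) (c : ℝ) (k : ℕ) (ω : (O.F k).Ω) (j : Fin (m + 1)) : ℤ := flr (TR.cor P j) c k ω

/-- the coefficients of the sheet in box coordinates -/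
def f0 (D : Bx C π P c lam σ w v K) : TR Y :=
  trc (fun k ω => C.g0 (w k (π.π k ω)) (v k ω) (nn P c k (π.π k ω)) (O.dl c k)) (K2 N K) (K2_sub D.K0Y)

def f1 (D : Bx C π P c lam σ w v K) (a : Fin (N + 1)) : TR Y :=
  trc (fun k ω => C.g1 (w k (π.π k ω)) (v k ω) a) (fun k => K k + K k * K k) (D.K0Y.add (D.K0Y.mul D.K0Y))

def fR (D : Bx C π P c lam σ w v K) : TR Y :=
  trc (fun k ω => (v k ω).2 C.R.succ * O.dl (lam - c) k) K D.K0Y

/-- the polynomial -/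
def ff (D : Bx C π P c lam σ w v K) : Mon (N + 1 + 1) 1 → TR Y := co D.f0 (Fin.cons D.fR D.f1)

/-- the good event on the base space -/
def GO (D : Bx C π P c lam σ w v K) (k : ℕ) (ω : (O.F k).Ω) : Prop :=
  |P.v k ω C.R.succ - aff C.JR (w k ω) (P.v k ω)| ≤ K k * O.dl lam k

/-- the good event -/
def GY (D : Bx C π P c lam σ w v K) (k : ℕ) (ω : (Y.F k).Ω) : Prop :=
  D.GO k (π.π k ω) ∧
  |P.v k (π.π k ω) C.z.succ - aff C.Jz (v k ω) (P.v k (π.π k ω))| ≤ K k * O.dl σ k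

theorem _root_.Pool.Agent.Helper91.GR.typ_pj {T S : Sp} (p : Pj T S) {E : ∀ k, (S.F k).Ω → Prop} (h : Typ E) :
    Typ (fun k ω => E k (p.π k ω)) := by
  rw [Typ_iff, Pool.Agent.Helper97.SL.pr_comp p E]
  exact (Typ_iff E).mp h

theorem GY_typ : Typ (S := Y) D.GY := Typ.and (typ_pj π D.tw) D.tv

theorem R_eq {k : ℕ} {ω : (O.F k).Ω} (h : D.GO k ω) :
    P.v k ω C.R.succ = aff C.JR (w k ω) (P.v k ω) +
      O.dl c k * (O.dl (lam - c) k * TR.ev (rh w P C lam K D.K0) k ω) := by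
  have hd := O.dl_pos lam k
  have h1 : |(P.v k ω C.R.succ - aff C.JR (w k ω) (P.v k ω)) / O.dl lam k| ≤ K k := by
    rw [abs_div, abs_of_pos hd, div_le_iff₀ hd]
    exact h
  have h2 : TR.ev (rh w P C lam K D.K0) k ω = (P.v k ω C.R.succ - aff C.JR (w k ω) (P.v k ω)) / O.dl lam k :=
    ev_trc h1
  rw [h2, ← mul_assoc, ← O.dl_add, add_sub_cancel, mul_div_cancel₀ _ hd.ne', add_sub_cancel]

theorem sel_eq (k : ℕ) (ω : (O.F k).Ω) (j : Fin (m + 1)) :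
    P.v k ω j = O.dl c k * (nn P c k ω j + TR.ev (zf (TR.cor P j) c) k ω) := zf_eq (TR.cor P j) c k ω

theorem box_eq {k : ℕ} {ω : (O.F k).Ω} (h : D.GO k ω) (u : Cf (m + 1)) :
    aff C.Jz u (P.v k ω) = O.dl c k * (C.g0 (w k ω) u (nn P c k ω) (O.dl c k) + nn P c k ω C.z.succ +
      (∑ a, C.g1 (w k ω) u a * TR.ev (zf (TR.cor P (C.sel a)) c) k ω +
        u.2 C.R.succ * O.dl (lam - c) k * TR.ev (rh w P C lam K D.K0) k ω)) :=
  C.aff_box (w k ω) u (ph := fun j => TR.ev (zf (TR.cor P j) c) k ω) (O.dl_pos c k).ne'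
    (fun a => sel_eq k ω (C.sel a)) (D.R_eq h)

theorem rh_bd {k : ℕ} (ω : (O.F k).Ω) : |TR.ev (rh w P C lam K D.K0) k ω| ≤ K k :=
  trc_bd _ D.K0 (by linarith [D.K1 k]) ω

theorem zf_abs (f : TR O) (r : ℝ) (k : ℕ) (ω : (O.F k).Ω) : |TR.ev (zf f r) k ω| ≤ 1 := by
  have := zf_bd f r k ω
  rw [abs_le]
  constructor <;> linarith

theorem dl_le_one {S : Sp} {r : ℝ} (hr : 0 ≤ r) (k : ℕ) : S.dl r k ≤ 1 := by
  have := S.dl_anti hr k
  rwa [S.dl_zero] at this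

/-- the truncations are not active -/
theorem ev_f1 : ∀ᶠ k in UF, ∀ ω, (Y.F k).μ ω ≠ 0 → ∀ a, TR.ev (D.f1 a) k ω = C.g1 (w k (π.π k ω)) (v k ω) a := by
  filter_upwards [D.hw, D.hv] with k h1 h2 ω hω a
  exact ev_trc (C.abs_g1_le (by linarith [D.K1 k]) (h1 _ (π.supp k ω hω)) (h2 ω hω) a)

theorem ev_fR : ∀ᶠ k in UF, ∀ ω, (Y.F k).μ ω ≠ 0 → TR.ev D.fR k ω = (v k ω).2 C.R.succ * O.dl (lam - c) k := by
  filter_upwards [D.hv] with k h2 ω hω
  apply ev_trc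
  rw [abs_mul, abs_of_pos (O.dl_pos _ k)]
  have h3 := dl_le_one (S := O) (sub_nonneg.mpr D.cl) k
  have h4 := h2 ω hω C.R.succ
  have h5 := O.dl_pos (lam - c) k
  nlinarith [abs_nonneg ((v k ω).2 C.R.succ)]

/-- value of the constant term -/
theorem ev_f0 : ∀ᶠ k in UF, ∀ ω, (Y.F k).μ ω ≠ 0 → D.GY k ω →
    TR.ev D.f0 k ω = C.g0 (w k (π.π k ω)) (v k ω) (nn P c k (π.π k ω)) (O.dl c k) := by
  filter_upwards [D.hw, D.hv] with k h1 h2 ω hω hG
  have K1 := D.K1 k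
  apply ev_trc
  have hd := O.dl_pos c k
  have e1 := D.box_eq hG.1 (v k ω)
  have e2 := sel_eq (P := P) (c := c) k (π.π k ω) C.z.succ
  have e3 := hG.2
  set G := C.g0 (w k (π.π k ω)) (v k ω) (nn P c k (π.π k ω)) (O.dl c k)
  set A := ∑ a, C.g1 (w k (π.π k ω)) (v k ω) a * TR.ev (zf (TR.cor P (C.sel a)) c) k (π.π k ω)
  set B := (v k ω).2 C.R.succ * O.dl (lam - c) k * TR.ev (rh w P C lam K D.K0) k (π.π k ω)
  set zz := TR.ev (zf (TR.cor P C.z.succ) c) k (π.π k ω)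
  have e4 : P.v k (π.π k ω) C.z.succ - aff C.Jz (v k ω) (P.v k (π.π k ω)) = O.dl c k * (zz - (G + (A + B))) := by
    rw [e1]
    linear_combination e2
  rw [e4, abs_mul, abs_of_pos hd] at e3
  have e5 : O.dl σ k = O.dl c k * O.dl (σ - c) k := by
    rw [← O.dl_add]
    congr 1
    ring
  rw [e5, mul_left_comm] at e3
  have e6 := le_of_mul_le_mul_left e3 hd
  have e7 : |A| ≤ (N + 1 : ℕ) * ((K k + K k * K k) * 1) :=
    sum_abs_le (by nlinarith) (fun a => C.abs_g1_le (by linarith) (h1 _ (π.supp k ω hω)) (h2 ω hω) a)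
      (fun a => zf_abs _ _ _ _)
  have e8 : |B| ≤ K k * K k := by
    have f1 := h2 ω hω C.R.succ
    have f2 := dl_le_one (S := O) (sub_nonneg.mpr D.cl) k
    have f3 := O.dl_pos (lam - c) k
    have f4 := D.rh_bd (π.π k ω)
    have f5 : |(v k ω).2 C.R.succ * O.dl (lam - c) k| ≤ K k := by
      rw [abs_mul, abs_of_pos f3]
      nlinarith [abs_nonneg ((v k ω).2 C.R.succ)]
    have f6 : |B| = |(v k ω).2 C.R.succ * O.dl (lam - c) k| * |TR.ev (rh w P C lam K D.K0) k (π.π k ω)| :=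
      abs_mul _ _
    rw [f6]
    exact mul_le_mul f5 f4 (abs_nonneg _) (by linarith)
  have e9 : |zz| ≤ 1 := zf_abs _ _ _ _
  have e10 : K k * O.dl (σ - c) k ≤ K k := by
    have := dl_le_one (S := O) (sub_nonneg.mpr D.cs) k
    nlinarith
  push_cast at e7
  have b6 := abs_le.mp e6
  have b7 := abs_le.mp e7
  have b8 := abs_le.mp e8
  have b9 := abs_le.mp e9
  unfold K2
  rw [abs_le]
  constructor <;> nlinarith [b6.1, b6.2, b7.1, b7.2, b8.1, b8.2, b9.1, b9.2]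

include D in
/-- the same cells and slab on the atoms of the base -/
theorem base_eq : ∀ᶠ k in UF, ∀ ω ω', (Y.F k).μ ω ≠ 0 → (Y.F k).μ ω' ≠ 0 → (Y.F k).Z ω ω' →
    nn P c k (π.π k ω) = nn P c k (π.π k ω') ∧ w k (π.π k ω) = w k (π.π k ω') := by
  have h1 : ∀ᶠ k in UF, ∀ j, ∀ ω ω', (O.F k).μ ω ≠ 0 → (O.F k).μ ω' ≠ 0 → (O.F k).Z ω ω' →
      flr (TR.cor P j) c k ω = flr (TR.cor P j) c k ω' := by
    rw [Filter.eventually_all]
    exact D.lit
  filter_upwards [h1, D.wl] with k a b ω ω' hω hω' hZ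
  have hZ' := (π.hZ k ω ω' hω hω').mp hZ
  exact ⟨funext fun j => a j _ _ (π.supp k ω hω) (π.supp k ω' hω') hZ',
    b _ _ (π.supp k ω hω) (π.supp k ω' hω') hZ'⟩

/-- CLOSENESS: the sheets of two points of the same atom of the base with close coefficients -/
theorem close : ∀ᶠ k in UF, ∀ ω ω' (d : ℝ), 0 ≤ d → (Y.F k).μ ω ≠ 0 → (Y.F k).μ ω' ≠ 0 → (Y.F k).Z ω ω' →
    D.GY k ω → D.GY k ω' → |TR.ev D.f0 k ω - TR.ev D.f0 k ω'| ≤ d → |TR.ev D.fR k ω - TR.ev D.fR k ω'| ≤ d →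
    (∀ a, |TR.ev (D.f1 a) k ω - TR.ev (D.f1 a) k ω'| ≤ d) →
    |P.v k (π.π k ω) C.z.succ - aff C.Jz (v k ω') (P.v k (π.π k ω))| ≤
      K k * O.dl σ k + O.dl c k * (d * (1 + ((N + 1) + K k))) := by
  filter_upwards [D.base_eq, D.ev_f0, D.ev_f1, D.ev_fR] with k hb h0 h1 hR ω ω' d hd hω hω' hZ hG hG' c0 cR c1
  have K1 := D.K1 k
  obtain ⟨bn, bw⟩ := hb ω ω' hω hω' hZ
  have e1 := D.box_eq hG.1 (v k ω)
  have e2 := D.box_eq hG.1 (v k ω')
  rw [h0 ω hω hG, h0 ω' hω' hG', ← bn, ← bw] at c0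
  rw [hR ω hω, hR ω' hω'] at cR
  have c1' : ∀ a, |C.g1 (w k (π.π k ω)) (v k ω) a - C.g1 (w k (π.π k ω)) (v k ω') a| ≤ d := by
    intro a
    have := c1 a
    rwa [h1 ω hω, h1 ω' hω', ← bw] at this
  have e3 : P.v k (π.π k ω) C.z.succ - aff C.Jz (v k ω') (P.v k (π.π k ω)) =
      (P.v k (π.π k ω) C.z.succ - aff C.Jz (v k ω) (P.v k (π.π k ω))) +
      O.dl c k * ((C.g0 (w k (π.π k ω)) (v k ω) (nn P c k (π.π k ω)) (O.dl c k) -
        C.g0 (w k (π.π k ω)) (v k ω') (nn P c k (π.π k ω)) (O.dl c k)) +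
        (∑ a, (C.g1 (w k (π.π k ω)) (v k ω) a - C.g1 (w k (π.π k ω)) (v k ω') a) *
          TR.ev (zf (TR.cor P (C.sel a)) c) k (π.π k ω) +
        ((v k ω).2 C.R.succ * O.dl (lam - c) k - (v k ω').2 C.R.succ * O.dl (lam - c) k) *
          TR.ev (rh w P C lam K D.K0) k (π.π k ω))) := by
    have e4 : ∑ a, (C.g1 (w k (π.π k ω)) (v k ω) a - C.g1 (w k (π.π k ω)) (v k ω') a) *
          TR.ev (zf (TR.cor P (C.sel a)) c) k (π.π k ω) =
        ∑ a, C.g1 (w k (π.π k ω)) (v k ω) a * TR.ev (zf (TR.cor P (C.sel a)) c) k (π.π k ω) -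
        ∑ a, C.g1 (w k (π.π k ω)) (v k ω') a * TR.ev (zf (TR.cor P (C.sel a)) c) k (π.π k ω) := by
      rw [← Finset.sum_sub_distrib]
      exact Finset.sum_congr rfl fun a _ => sub_mul _ _ _
    rw [e4]
    linear_combination e1 - e2
  rw [e3]
  refine (abs_add_le _ _).trans (add_le_add hG.2 ?_)
  have hdc := O.dl_pos c k
  rw [abs_mul, abs_of_pos hdc]
  apply mul_le_mul_of_nonneg_left _ hdc.le
  refine (abs_add_le _ _).trans ?_
  have e5 := sum_abs_le (f := fun a => C.g1 (w k (π.π k ω)) (v k ω) a - C.g1 (w k (π.π k ω)) (v k ω') a)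
    (x := fun a => TR.ev (zf (TR.cor P (C.sel a)) c) k (π.π k ω)) hd c1' (fun a => zf_abs _ _ _ _)
  have e6 : |((v k ω).2 C.R.succ * O.dl (lam - c) k - (v k ω').2 C.R.succ * O.dl (lam - c) k) *
      TR.ev (rh w P C lam K D.K0) k (π.π k ω)| ≤ d * K k := by
    rw [abs_mul]
    exact mul_le_mul cR (D.rh_bd _) (abs_nonneg _) hd
  have e7 := abs_add_le (∑ a, (C.g1 (w k (π.π k ω)) (v k ω) a - C.g1 (w k (π.π k ω)) (v k ω') a) *
          TR.ev (zf (TR.cor P (C.sel a)) c) k (π.π k ω))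
    (((v k ω).2 C.R.succ * O.dl (lam - c) k - (v k ω').2 C.R.succ * O.dl (lam - c) k) *
          TR.ev (rh w P C lam K D.K0) k (π.π k ω))
  push_cast at e5
  nlinarith

variable {Y' : Sp} (r1 : Pj Y' Y) (U : TR Y')

/-- the base coordinates of the box, the slab coordinate is completed by `U` -/
def yc (D : Bx C π P c lam σ w v K) : Fin (N + 1 + 1) → TR Y' :=
  Fin.cons ((r1.comp π).tr (fc' (rh w P C lam K D.K0) (1 - lam) (sub_nonneg.mpr D.l1)) +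
    cdl (1 - lam) (sub_nonneg.mpr D.l1) * U) (fun a => (r1.comp π).tr (zf (TR.cor P (C.sel a)) c))

/-- the base of the box -/
def yy (D : Bx C π P c lam σ w v K) : Y'.VV (N + 1 + 1) := TR.vec (D.yc r1 U)

/-- the top coordinate of the box -/
def zz (r1 : Pj Y' Y) (π : Pj Y O) (P : O.VV (m + 1)) (C : Cd m N) (c : ℝ) : TR Y' :=
  (r1.comp π).tr (zf (TR.cor P C.z.succ) c)

theorem ev_pe' (k : ℕ) (ω : (Y'.F k).Ω) : TR.ev (pe (fun a => r1.tr (D.ff a)) (TR.cor (D.yy r1 U))) k ω =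
    TR.ev D.f0 k (r1.π k ω) + (TR.ev D.fR k (r1.π k ω) *
      (TR.ev (fc' (rh w P C lam K D.K0) (1 - lam) (sub_nonneg.mpr D.l1)) k (π.π k (r1.π k ω)) +
        Y'.dl (1 - lam) k * TR.ev U k ω) +
      ∑ a, TR.ev (D.f1 a) k (r1.π k ω) * TR.ev (zf (TR.cor P (C.sel a)) c) k (π.π k (r1.π k ω))) := by
  have e1 : (fun a => r1.tr (D.ff a)) = co (r1.tr D.f0) (fun i => r1.tr ((Fin.cons D.fR D.f1 : Fin (N + 1 + 1) → TR Y) i)) := by
    funext a
    exact tr_co r1 _ _ a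
  have e2 : TR.cor (D.yy r1 U) = D.yc r1 U := rfl
  rw [e1, e2, pe_co, Fin.sum_univ_succ, ← TR.evh_apply, map_add, map_add, map_sum]
  rfl

/-- the sheet in box coordinates -/
theorem ag (hU : ∀ k ω, |TR.ev U k ω| ≤ 1) :
    TR.Ag (σ - c) (zz r1 π P C c) (pe (fun a => r1.tr (D.ff a)) (TR.cor (D.yy r1 U))) := by
  refine ⟨fun k ω => D.GY k (r1.π k ω), fun k => K k + 2 * K k, typ_pj r1 D.GY_typ, ?_, ?_⟩
  · have h : Y'.Sub K := by
      have h := D.K0Y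
      unfold Sp.Sub at h ⊢
      refine ⟨h.1, ?_⟩
      have h1 : (fun k => Real.logb 2 (K k + 2) / (Y'.F k).n) = fun k => Real.logb 2 (K k + 2) / (Y.F k).n := by
        funext k
        rw [r1.hn]
      rw [h1]
      exact h.2
    exact h.add ((Y'.Sub_const (show (0 : ℝ) ≤ 2 by norm_num)).mul h)
  · filter_upwards [D.ev_f0, D.ev_f1, D.ev_fR, D.hv] with k h0 h1 hR hv ω hω hG
    have K1 := D.K1 k
    have hω1 := r1.supp k ω hω
    set ω1 := r1.π k ω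
    rw [ev_pe', h0 ω1 hω1 hG, hR ω1 hω1]
    have h1' : ∑ a, TR.ev (D.f1 a) k ω1 * TR.ev (zf (TR.cor P (C.sel a)) c) k (π.π k ω1) =
        ∑ a, C.g1 (w k (π.π k ω1)) (v k ω1) a * TR.ev (zf (TR.cor P (C.sel a)) c) k (π.π k ω1) :=
      Finset.sum_congr rfl fun a _ => by rw [h1 ω1 hω1 a]
    rw [h1']
    have e1 := D.box_eq hG.1 (v k ω1)
    have e2 := sel_eq (P := P) (c := c) k (π.π k ω1) C.z.succ
    have e3 := hG.2
    have ez : TR.ev (zz r1 π P C c) k ω = TR.ev (zf (TR.cor P C.z.succ) c) k (π.π k ω1) := rfl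
    rw [ez]
    set G := C.g0 (w k (π.π k ω1)) (v k ω1) (nn P c k (π.π k ω1)) (O.dl c k)
    set A := ∑ a, C.g1 (w k (π.π k ω1)) (v k ω1) a * TR.ev (zf (TR.cor P (C.sel a)) c) k (π.π k ω1)
    set rr := TR.ev (rh w P C lam K D.K0) k (π.π k ω1)
    set rf := TR.ev (fc' (rh w P C lam K D.K0) (1 - lam) (sub_nonneg.mpr D.l1)) k (π.π k ω1)
    set x := TR.ev (zf (TR.cor P C.z.succ) c) k (π.π k ω1)
    have hd := O.dl_pos c k
    have e4 : P.v k (π.π k ω1) C.z.succ - aff C.Jz (v k ω1) (P.v k (π.π k ω1)) =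
        O.dl c k * (x - (G + (A + (v k ω1).2 C.R.succ * O.dl (lam - c) k * rr))) := by
      rw [e1]
      linear_combination e2
    rw [e4, abs_mul, abs_of_pos hd] at e3
    have e5 : O.dl σ k = O.dl c k * O.dl (σ - c) k := by
      rw [← O.dl_add]
      congr 1
      ring
    rw [e5, mul_left_comm] at e3
    have e6 := le_of_mul_le_mul_left e3 hd
    have d1 : Y'.dl (1 - lam) k = O.dl (1 - lam) k := by
      rw [Pool.Agent.Helper97.SL.dl_pj r1, Pool.Agent.Helper97.SL.dl_pj π]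
    have d2 : Y'.dl (σ - c) k = O.dl (σ - c) k := by
      rw [Pool.Agent.Helper97.SL.dl_pj r1, Pool.Agent.Helper97.SL.dl_pj π]
    rw [d1, d2]
    have e7 : x - (G + ((v k ω1).2 C.R.succ * O.dl (lam - c) k * (rf + O.dl (1 - lam) k * TR.ev U k ω) + A)) =
        (x - (G + (A + (v k ω1).2 C.R.succ * O.dl (lam - c) k * rr))) +
        (v k ω1).2 C.R.succ * O.dl (lam - c) k * ((rr - rf) - O.dl (1 - lam) k * TR.ev U k ω) := by ring
    rw [e7]
    refine (abs_add_le _ _).trans ?_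
    rw [add_mul]
    refine add_le_add e6 ?_
    have f1 := hv ω1 hω1 C.R.succ
    have f2 := O.dl_pos (lam - c) k
    have f3 := O.dl_pos (1 - lam) k
    have f4 : |rr - rf| ≤ O.dl (1 - lam) k := fc'_sub _ _ _ _ _
    have f5 : |(rr - rf) - O.dl (1 - lam) k * TR.ev U k ω| ≤ 2 * O.dl (1 - lam) k := by
      refine (abs_sub _ _).trans ?_
      rw [abs_mul, abs_of_pos f3]
      have := hU k ω
      nlinarith
    have f6 : O.dl (lam - c) k * O.dl (1 - lam) k ≤ O.dl (σ - c) k := by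
      rw [← O.dl_add]
      apply O.dl_anti
      linarith [D.s1]
    rw [abs_mul, abs_mul, abs_of_pos f2]
    calc |(v k ω1).2 C.R.succ| * O.dl (lam - c) k * |(rr - rf) - O.dl (1 - lam) k * TR.ev U k ω|
        ≤ K k * O.dl (lam - c) k * (2 * O.dl (1 - lam) k) := by
          apply mul_le_mul _ f5 (abs_nonneg _) (by positivity)
          exact mul_le_mul_of_nonneg_right f1 f2.le
      _ = 2 * K k * (O.dl (lam - c) k * O.dl (1 - lam) k) := by ring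
      _ ≤ 2 * K k * O.dl (σ - c) k := mul_le_mul_of_nonneg_left f6 (by linarith)

end Bx

end

end Pool.Agent.Helper91.GR
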