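import Pool.Agent.Helper91.GR.Bx

/-! COUNTS: the completed box is almost uniform given an information `X` which is almost blind. -/

set_option autoImplicit false

namespace Pool.Agent.Helper91.GR

open Finset Filter Topology Pool.Agent.Helper69.RK Pool.Agent.Helper31.EC Pool.Agent.Helper31.EC.Sp
open Pool.Agent.Helper40.EL
open Pool.Agent.Helper3.LF (Mon)
open Pool.Agent.Helper97.SL (pe z0 cdl ev_cdl ev_pe Bl DDL)

noncomputable section

theorem map_dgT {T S : Sp} (p : Pj T S) (f : TR S) (r : ℝ) : p.map (TR.dg f r) = TR.dg (p.tr f) r := by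
  unfold TR.dg
  rw [Pj.map_dg]
  rfl

/-- blindness from one count -/
theorem bl_of_count {S : Sp} {M : ℕ} (y : S.VV M) (F X : S.L) (hFX : F ≤ X) (g0 g p ε : ℝ) (hg0 : 0 ≤ g0) (hg : g ≤ g0)
    (hc : ∀ (T : Sp) (q : Pj T S) (E : ∀ k, (T.F k).Ω → Prop) (hE : 0 < ul (T.pr E)),
      M * g0 - ε ≤ h (restL E hE (q.map (y.dg g0))) (restL E hE (q.map X))) :
    Bl y F (y.dg g0) g p ε := by
  intro T q E hE _
  have a1 := hc T q E hE
  have ey : ∀ r, restL E hE (q.map (y.dg r)) = ((q.vv y).rest E).dg r := by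
    intro r
    rw [Pj.map_dg, VV.rest_dg E hE]
  set Y := (q.vv y).rest E with hY
  have hF : restL E hE (q.map F) ≤ restL E hE (q.map X) := restL_mono E hE (Pj.map_mono _ hFX)
  rw [ey] at a1
  constructor
  · intro s e hs he hse
    rw [ey, ey]
    have c1 : Y.dg s ⊔ Y.dg (s + e) = Y.dg (s + e) := sup_eq_right.mpr (Y.dg_mono (by linarith))
    have c2 : Y.dg (s + e) ⊔ Y.dg g0 = Y.dg g0 := sup_eq_right.mpr (Y.dg_mono (by linarith))
    have b1 := h_chain (Y.dg (s + e)) (Y.dg g0) (restL E hE (q.map X))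
    rw [c2] at b1
    have b2 := h_chain (Y.dg s) (Y.dg (s + e)) (restL E hE (q.map X))
    rw [c1] at b2
    have b3 : h (Y.dg s) (restL E hE (q.map X)) ≤ M * s := (h_le_H _ _).trans (Y.H_dg_le hs)
    have b4 : h (Y.dg g0) (Y.dg (s + e) ⊔ restL E hE (q.map X)) ≤ M * (g0 - (s + e)) :=
      (h_anti le_sup_left).trans (Y.h_dg_dg (by linarith))
    have b5 : h (Y.dg (s + e)) (Y.dg s ⊔ restL E hE (q.map X)) ≤ h (Y.dg (s + e)) (Y.dg s ⊔ restL E hE (q.map F)) :=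
      h_anti (sup_le_sup_left hF _)
    nlinarith
  · intro s hs hsg
    rw [ey, ey]
    have b1 : Y.dg s ≤ Y.dg g0 := Y.dg_mono (by linarith)
    have b2 : I (restL E hE (q.map F)) (Y.dg g0) (Y.dg s) ≤ I (restL E hE (q.map F)) (Y.dg g0) ⊥ := by
      have c1 : I (Y.dg g0) (restL E hE (q.map F)) (Y.dg s ⊔ ⊥) ≤ I (Y.dg g0) (restL E hE (q.map F)) ⊥ :=
        I_cond_le b1
      rwa [sup_bot_eq, I_comm, I_comm (Y.dg g0) (restL E hE (q.map F)) ⊥] at c1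
    have b3 : I (restL E hE (q.map F)) (Y.dg g0) ⊥ ≤ I (restL E hE (q.map X)) (Y.dg g0) ⊥ :=
      I_mono_left (by rw [sup_bot_eq]; exact hF)
    have b4 := I_eq' (restL E hE (q.map X)) (Y.dg g0) ⊥
    rw [h_bot, sup_bot_eq] at b4
    have b5 := Y.H_dg_le hg0
    linarith

variable {m N : ℕ} {C : Cd m N}

namespace Bx

variable {O Y : Sp} {π : Pj Y O} {P : O.VV (m + 1)} {c lam σ : ℝ} {w : ∀ k, (O.F k).Ω → Cf (m + 1)}
  {v : ∀ k, (Y.F k).Ω → Cf (m + 1)} {K : ℕ → ℝ} (D : Bx C π P c lam σ w v K)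

/-- the last coordinate of the base is known by the slab coordinate -/
theorem R_le (A : O.L) (hA : ∀ a, TR.dg (TR.cor P (C.sel a)) 1 ≤ A)
    (hr : TR.dg (rh w P C lam K D.K0) (1 - lam) ≤ A) : TR.dg (TR.cor P C.R.succ) 1 ≤ A := by
  have h1 : (TR.vec (fun a => TR.cor P (C.sel a))).dg 1 ≤ A := TR.vec_dg_le _ _ _ hA
  have h2 : (TR.vec (fun _ : Fin 1 => rh w P C lam K D.K0)).dg (1 - lam) ≤ A := hr
  refine le_trans ?_ (sup_le h1 h2)
  refine VV.dg_le_dg2 _ _ _ _ _ _ D.GO D.tw (fun k => (N + 1 : ℕ) * (K k * 1) + 1)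
    (((O.Sub_const (Nat.cast_nonneg (N + 1))).mul (D.K0.mul (O.Sub_const zero_le_one))).add
      (O.Sub_const zero_le_one)) ?_
  filter_upwards [D.hw, D.wl] with k hw hl ω ω' hω hω' hG hG' hZ h3 h4 _
  have K1 := D.K1 k
  have e1 := D.R_eq hG
  have e2 := D.R_eq hG'
  rw [← hl ω ω' hω hω' hZ] at e2
  have h4' : |TR.ev (rh w P C lam K D.K0) k ω - TR.ev (rh w P C lam K D.K0) k ω'| ≤ O.dl (1 - lam) k := h4 0
  have e3 : P.v k ω C.R.succ - P.v k ω' C.R.succ = (∑ a, (w k ω).2 (C.sel a) * (P.v k ω (C.sel a) - P.v k ω' (C.sel a))) +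
      O.dl lam k * (TR.ev (rh w P C lam K D.K0) k ω - TR.ev (rh w P C lam K D.K0) k ω') := by
    have e4 : O.dl lam k = O.dl c k * O.dl (lam - c) k := by
      rw [← O.dl_add]
      congr 1
      ring
    have e5 : ∑ a, (w k ω).2 (C.sel a) * (P.v k ω (C.sel a) - P.v k ω' (C.sel a)) =
        ∑ a, (w k ω).2 (C.sel a) * P.v k ω (C.sel a) - ∑ a, (w k ω).2 (C.sel a) * P.v k ω' (C.sel a) := by
      rw [← Finset.sum_sub_distrib]
      exact Finset.sum_congr rfl fun a _ => mul_sub _ _ _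
    rw [C.aff_JR] at e1 e2
    rw [e4, e5]
    linear_combination e1 - e2
  show |P.v k ω C.R.succ - P.v k ω' C.R.succ| ≤ _
  rw [e3]
  refine (abs_add_le _ _).trans ?_
  have d1 := O.dl_pos 1 k
  have e6 : |∑ a, (w k ω).2 (C.sel a) * (P.v k ω (C.sel a) - P.v k ω' (C.sel a))| ≤ (N + 1 : ℕ) * (K k * O.dl 1 k) :=
    sum_abs_le (by linarith) (fun a => hw ω hω (C.sel a)) (fun a => h3 a)
  have e7 : |O.dl lam k * (TR.ev (rh w P C lam K D.K0) k ω - TR.ev (rh w P C lam K D.K0) k ω')| ≤ O.dl 1 k := by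
    have d2 := O.dl_pos lam k
    rw [abs_mul, abs_of_pos d2]
    refine (mul_le_mul_of_nonneg_left h4' d2.le).trans (le_of_eq ?_)
    rw [← O.dl_add]
    congr 1
    ring
  have e8 : ((N + 1 : ℕ) * (K k * 1) + 1) * O.dl 1 k = (N + 1 : ℕ) * (K k * O.dl 1 k) + O.dl 1 k := by ring
  rw [e8]
  exact add_le_add e6 e7

variable {Y' : Sp} (r1 : Pj Y' Y) (U : TR Y')

/-- the flat digits are digits of the box -/
theorem flat_le (a : Fin (N + 1)) {A : O.L} (hA : TR.dg (TR.cor P (C.sel a)) 1 = A) :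
    (r1.comp π).map A ≤ (D.yy r1 U).dg (1 - c) := by
  have h1 : TR.cor (D.yy r1 U) a.succ = (r1.comp π).tr (zf (TR.cor P (C.sel a)) c) := rfl
  have h2 := TR.cor_dg_le (D.yy r1 U) a.succ (1 - c)
  rw [h1, ← map_dgT, zf_dg (D.lit _), add_sub_cancel, hA] at h2
  exact h2

/-- digits of the completed slab coordinate -/
theorem R_dg (hU : ∀ k ω, |TR.ev U k ω| ≤ 1) :
    TR.dg (D.yc r1 U 0) (1 - lam) = (r1.comp π).map (TR.dg (rh w P C lam K D.K0) (1 - lam)) := by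
  rw [map_dgT]
  apply TR.Ag.dg_eq (r := 1 - lam) _ le_rfl
  refine ⟨fun _ _ => True, fun _ => 2, Typ_true, Y'.Sub_const (by norm_num), Eventually.of_forall fun k ω _ _ => ?_⟩
  have h0 : D.yc r1 U 0 = (r1.comp π).tr (fc' (rh w P C lam K D.K0) (1 - lam) (sub_nonneg.mpr D.l1)) +
    cdl (1 - lam) (sub_nonneg.mpr D.l1) * U := rfl
  rw [h0, TR.ev_add, TR.ev_mul, ev_cdl]
  have h1 : TR.ev ((r1.comp π).tr (fc' (rh w P C lam K D.K0) (1 - lam) (sub_nonneg.mpr D.l1))) k ω =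
    TR.ev (fc' (rh w P C lam K D.K0) (1 - lam) (sub_nonneg.mpr D.l1)) k ((r1.comp π).π k ω) := rfl
  have h2 : TR.ev ((r1.comp π).tr (rh w P C lam K D.K0)) k ω =
    TR.ev (rh w P C lam K D.K0) k ((r1.comp π).π k ω) := rfl
  rw [h1, h2]
  have h3 := fc'_sub (rh w P C lam K D.K0) (1 - lam) (sub_nonneg.mpr D.l1) k ((r1.comp π).π k ω)
  have h4 : Y'.dl (1 - lam) k = O.dl (1 - lam) k := Pool.Agent.Helper97.SL.dl_pj (r1.comp π) _ k
  rw [h4]
  have h5 := O.dl_pos (1 - lam) k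
  have h6 := hU k ω
  have h7 := abs_le.mp h3
  have h8 : |O.dl (1 - lam) k * TR.ev U k ω| ≤ O.dl (1 - lam) k := by
    rw [abs_mul, abs_of_pos h5]
    nlinarith
  have h9 := abs_le.mp h8
  rw [abs_le]
  constructor <;> linarith [h7.1, h7.2, h9.1, h9.2]

theorem slab_le (hU : ∀ k ω, |TR.ev U k ω| ≤ 1) :
    (r1.comp π).map (TR.dg (rh w P C lam K D.K0) (1 - lam)) ≤ (D.yy r1 U).dg (1 - c) := by
  rw [← D.R_dg r1 U hU]
  have h1 : TR.cor (D.yy r1 U) 0 = D.yc r1 U 0 := rfl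
  rw [← h1]
  exact (TR.dg_mono _ (by linarith [D.cl])).trans (TR.cor_dg_le _ _ _)

/-- the digits of `U` -/
theorem U_le : TR.dg U (lam - c) ≤ (D.yy r1 U).dg (1 - c) ⊔
    (r1.comp π).map (TR.dg (fc' (rh w P C lam K D.K0) (1 - lam) (sub_nonneg.mpr D.l1)) (1 - c)) := by
  have h1 := cdl_mul_dg U (1 - lam) (sub_nonneg.mpr D.l1) (lam - c)
  have h2 : 1 - lam + (lam - c) = 1 - c := by ring
  rw [h2] at h1
  rw [← h1]
  have h3 : (cdl (1 - lam) (sub_nonneg.mpr D.l1) * U : TR Y') = D.yc r1 U 0 -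
      (r1.comp π).tr (fc' (rh w P C lam K D.K0) (1 - lam) (sub_nonneg.mpr D.l1)) := by
    have h0 : D.yc r1 U 0 = (r1.comp π).tr (fc' (rh w P C lam K D.K0) (1 - lam) (sub_nonneg.mpr D.l1)) +
      cdl (1 - lam) (sub_nonneg.mpr D.l1) * U := rfl
    rw [h0, add_sub_cancel_left]
  have h4 : (cdl (1 - lam) (sub_nonneg.mpr D.l1) * U : TR Y') ∈ TR.Kn Y' (1 - c) ((D.yy r1 U).dg (1 - c) ⊔
    (r1.comp π).map (TR.dg (fc' (rh w P C lam K D.K0) (1 - lam) (sub_nonneg.mpr D.l1)) (1 - c))) := by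
    rw [h3]
    apply Subring.sub_mem
    · exact (TR.cor_dg_le (D.yy r1 U) 0 _).trans le_sup_left
    · rw [map_dgT]
      exact (le_sup_right : _ ≤ (D.yy r1 U).dg (1 - c) ⊔ _)
  exact h4

end Bx

end

end Pool.Agent.Helper91.GR
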