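import Pool.Agent.Helper91.GR.Sub
import Pool.Agent.Helper93.LIP.Line
import Pool.Agent.Helper80.HCI.Ov

/-! The smallest eigenvalue of an affine form of the base over a label which knows the directions from the directions of
the base: it is at most `2 ^ (2 (c + e) n)` outside an event of small probability, by richness. -/

set_option autoImplicit false

namespace Pool.Agent.Helper91.GR

open Filter Topology Pool.Agent.Helper69.RK Pool.Agent.Helper31.EC Pool.Agent.Helper31.EC.Sp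
open Pool.Agent.Helper42.NS Pool.Agent.Helper40.EL
open Pool.Agent.Helper95.LF (PdM)
open Pool.Agent.Helper3.LF (pl Mon phi nn sp_Sub sp_dl sp_n)
open Pool.Agent.Helper3.SG (Fac)
open Pool.Agent.Helper89.LX (sph ptf qf)
open Pool.Agent.Helper39.LIP (gv gM gv_sub qf_smul_vec)

noncomputable section

variable {S : Sp} {m q : ℕ} {s : Sys S m} {s' : Sys S q}

/-- the velocity of a line with respect to a sheet -/
theorem Sht.vel {i : Fin m} {J : Finset (Fin (m + 1))} {c σ : ℝ} (h0 : 0 ≤ c) (h1 : c < 1) (hσ : σ ≤ 1) {l : Lab S}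
    (hl : NlA s c l) {v : ∀ k, (l k).T.Ω → Cf (m + 1)} (hv : Sht s i J σ l v) : ∃ K' : ℕ → ℝ, S.Sub K' ∧
    Typ (S := l.sp) (fun k (ω : (l k).T.Ω) => |d1 i J (v k ω) (s.x.v k ((l k).p.π ω))| ≤ K' k * S.dl (σ - c) k) := by
  obtain ⟨hm, K, hK, hs, ht⟩ := hv
  obtain ⟨K', hK', hT⟩ := win_df h0 h1 hl i J v (Eventually.of_forall hm) hK hs 0 le_rfl (fun _ => 1)
    (S.Sub_const zero_le_one)
  have hS : S.Sub (fun k => 2 * (K' k * (K k + 1))) :=
    (S.Sub_const (by norm_num)).mul (hK'.mul (hK.add (S.Sub_const zero_le_one)))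
  refine ⟨_, hS, Typ.mono (ht.and hT) ?_⟩
  filter_upwards [hK.1, hK'.1] with k a b ω hω g
  obtain ⟨g1, g2⟩ := g
  have hd := S.dl_pos c k
  have e1 := g2 (s.t.v k ((l k).p.π ω) 0) (by rw [sub_self, abs_zero, one_mul]; exact (S.dl_pos _ k).le)
  have e2 := g2 (s.t.v k ((l k).p.π ω) 0 + S.dl c k) (by
    rw [add_sub_cancel_left, abs_of_pos hd, one_mul, sub_zero])
  rw [df_lin] at e1 e2
  rw [zero_mul, Real.rpow_zero, mul_one] at e1 e2
  set D0 := d0 i J (v k ω) (s.a.v k ((l k).p.π ω))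
  set D1 := d1 i J (v k ω) (s.x.v k ((l k).p.π ω))
  set t := s.t.v k ((l k).p.π ω) 0
  have e3 : |dfl s i J l v k ω| + S.dl 1 k ≤ (K k + 1) * S.dl σ k := by
    have := S.dl_anti hσ k
    nlinarith
  have e4 := mul_le_mul_of_nonneg_left e3 b
  have e5 : S.dl c k * |D1| ≤ 2 * (K' k * (K k + 1)) * S.dl σ k := by
    have e6 : S.dl c k * D1 = (D0 + (t + S.dl c k) * D1) - (D0 + t * D1) := by ring
    have e7 : |S.dl c k * D1| = S.dl c k * |D1| := by rw [abs_mul, abs_of_pos hd]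
    rw [← e7, e6]
    refine (abs_sub _ _).trans ?_
    linarith
  have e8 : S.dl σ k = S.dl c k * S.dl (σ - c) k := by
    rw [← S.dl_add]
    congr 1
    ring
  rw [e8] at e5
  have e9 : S.dl c k * |D1| ≤ S.dl c k * (2 * (K' k * (K k + 1)) * S.dl (σ - c) k) := by
    refine e5.trans (le_of_eq ?_)
    ring
  exact le_of_mul_le_mul_left e9 hd

/-- DIRECTIONS: the slope of the coordinate `i` is known from the slopes of the coordinates of the sheet -/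
theorem Sht.x_dg {i : Fin m} {J : Finset (Fin (m + 1))} {c σ : ℝ} (h0 : 0 ≤ c) (h1 : c < 1) (hσ : σ ≤ 1) {l : Lab S}
    (hl : NlA s c l) {v : ∀ k, (l k).T.Ω → Cf (m + 1)} (hv : Sht s i J σ l v) {r : ℝ} (hr : r ≤ σ - c)
    {A : (l.ovr 1 one_pos).L} (hA : ∀ j : Fin m, j.succ ∈ J → up1 l (TR.dg (TR.cor s.x j) r) ≤ A) :
    up1 l (TR.dg (TR.cor s.x i) r) ≤ A := by
  classical
  obtain ⟨K', hK', hT⟩ := hv.vel h0 h1 hσ hl
  obtain ⟨hm, K, hK, hs, ht⟩ := hv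
  set J' : Finset (Fin m) := Finset.univ.filter fun j => j.succ ∈ J with hJ'
  have h1 : (msk J' (Pool.Agent.Helper52.SL.cv l s.x)).dg r ≤ A := by
    apply msk_dg_le
    intro j hj
    have h2 := hA j (Finset.mem_filter.mp hj).2
    rw [← ct_dg] at h2
    exact h2
  rw [← ct_dg]
  refine le_trans ?_ h1
  have hKS : (l.ovr 1 one_pos).Sub (fun k => (m + 1) * K k + 2 * K' k) := by
    have h3 : l.sp.Sub (fun k => ((m : ℝ) + 1) * K k + 2 * K' k) := by
      rw [sp_Sub]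
      exact ((S.Sub_const (by positivity)).mul hK).add ((S.Sub_const (by norm_num)).mul hK')
    exact chg_sub l.V 1 one_pos h3
  refine dg_pair_le (S := l.ovr 1 one_pos) (ct l (TR.cor s.x i)) (msk J' (Pool.Agent.Helper52.SL.cv l s.x)) r _
    (typ_chg l.V one_pos hT) _ hKS ?_
  filter_upwards [hs, hK.1, hK'.1] with k hk1 hk2 hk3 ω ω' a b e e' hZ g
  have hdl : (l.ovr 1 one_pos).dl r k = S.dl r k := by
    have h3 : (l.ovr 1 one_pos).dl r k = l.sp.dl (1 * r) k := chg_dl l.V 1 one_pos r k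
    rw [h3, one_mul, sp_dl]
  rw [hdl] at g ⊢
  have hd := S.dl_pos r k
  have hdσ : S.dl (σ - c) k ≤ S.dl r k := S.dl_anti hr k
  have hvv : v k ω = v k ω' := hm k ω ω' a b hZ.1 hZ.2
  have e1 : TR.ev (ct l (TR.cor s.x i)) k ω = ∑ j ∈ J, (v k ω).2 j *
      (Fin.cons 1 (s.x.v k ((l k).p.π ω)) : Fin (m + 1) → ℝ) j + d1 i J (v k ω) (s.x.v k ((l k).p.π ω)) := by
    show s.x.v k ((l k).p.π ω) i = _
    unfold d1
    ring
  have e2 : TR.ev (ct l (TR.cor s.x i)) k ω' = ∑ j ∈ J, (v k ω').2 j *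
      (Fin.cons 1 (s.x.v k ((l k).p.π ω')) : Fin (m + 1) → ℝ) j + d1 i J (v k ω') (s.x.v k ((l k).p.π ω')) := by
    show s.x.v k ((l k).p.π ω') i = _
    unfold d1
    ring
  rw [e1, e2, ← hvv]
  have e3 : |∑ j ∈ J, (v k ω).2 j * (Fin.cons 1 (s.x.v k ((l k).p.π ω)) : Fin (m + 1) → ℝ) j -
      ∑ j ∈ J, (v k ω).2 j * (Fin.cons 1 (s.x.v k ((l k).p.π ω')) : Fin (m + 1) → ℝ) j| ≤
      (m + 1) * K k * S.dl r k := by
    rw [← Finset.sum_sub_distrib]
    refine (Finset.abs_sum_le_sum_abs _ _).trans ?_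
    calc ∑ j ∈ J, |(v k ω).2 j * (Fin.cons 1 (s.x.v k ((l k).p.π ω)) : Fin (m + 1) → ℝ) j -
          (v k ω).2 j * (Fin.cons 1 (s.x.v k ((l k).p.π ω')) : Fin (m + 1) → ℝ) j| ≤
          ∑ _j ∈ J, K k * S.dl r k := by
          apply Finset.sum_le_sum
          intro j hj
          rw [← mul_sub, abs_mul]
          refine mul_le_mul (hk1 ω a j) ?_ (abs_nonneg _) hk2
          obtain rfl | ⟨j', rfl⟩ : j = 0 ∨ ∃ j', j = Fin.succ j' := by
            rcases Fin.eq_zero_or_eq_succ j with h | ⟨j', h⟩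
            · exact Or.inl h
            · exact Or.inr ⟨j', h⟩
          · rw [Fin.cons_zero, Fin.cons_zero, sub_self, abs_zero]
            exact hd.le
          · rw [Fin.cons_succ, Fin.cons_succ]
            have h4 := g j'
            have hj' : j' ∈ J' := Finset.mem_filter.mpr ⟨Finset.mem_univ _, hj⟩
            have h5 : (msk J' (Pool.Agent.Helper52.SL.cv l s.x)).v k ω j' = s.x.v k ((l k).p.π ω) j' := if_pos hj'
            have h6 : (msk J' (Pool.Agent.Helper52.SL.cv l s.x)).v k ω' j' = s.x.v k ((l k).p.π ω') j' := if_pos hj'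
            rw [h5, h6] at h4
            exact h4
      _ ≤ ∑ _j : Fin (m + 1), K k * S.dl r k := by
          apply Finset.sum_le_sum_of_subset_of_nonneg (Finset.subset_univ _)
          intro _ _ _
          positivity
      _ = (m + 1) * K k * S.dl r k := by
          rw [Finset.sum_const, Finset.card_univ, Fintype.card_fin, nsmul_eq_mul]
          push_cast
          ring
  have e' : |d1 i J (v k ω') (s.x.v k ((l k).p.π ω'))| ≤ K' k * S.dl (σ - c) k := e'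
  rw [← hvv] at e'
  have e : |d1 i J (v k ω) (s.x.v k ((l k).p.π ω))| ≤ K' k * S.dl (σ - c) k := e
  have h7 : K' k * S.dl (σ - c) k ≤ K' k * S.dl r k := mul_le_mul_of_nonneg_left hdσ hk3
  have h8 := abs_le.mp e3
  have h9 := abs_le.mp e
  have h10 := abs_le.mp e'
  rw [abs_le]
  constructor <;> nlinarith [h8.1, h8.2, h9.1, h9.2, h10.1, h10.2]


theorem cons_gM (x y : Fin q → ℝ) : (gv (Fin.cons 1 x : Fin (q + 1) → ℝ) : Mon (q + 1) 1 → ℝ) -
    gv (Fin.cons 1 y : Fin (q + 1) → ℝ) = gM (x - y) := by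
  rw [← gv_sub]
  unfold gM
  congr 1
  funext i
  refine Fin.cases ?_ (fun j => ?_) i
  · rw [Pi.sub_apply, Fin.cons_zero, Fin.cons_zero, Fin.cons_zero, sub_self]
  · rw [Pi.sub_apply, Fin.cons_succ, Fin.cons_succ, Fin.cons_succ, Pi.sub_apply]

theorem abs_le_of_dot {u : Fin q → ℝ} {r : ℝ} (hr : 0 ≤ r) (h : u ⬝ᵥ u ≤ r ^ 2) (i : Fin q) : |u i| ≤ r := by
  have h1 : u i ^ 2 ≤ u ⬝ᵥ u := by
    unfold dotProduct
    calc u i ^ 2 = u i * u i := by ring
      _ ≤ ∑ j, u j * u j := Finset.single_le_sum (f := fun j => u j * u j) (fun j _ => mul_self_nonneg _)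
          (Finset.mem_univ i)
  exact abs_le_of_sq_le_sq' (h1.trans h) hr |> abs_le.mpr

theorem UB_pb {F : ℕ → FSp} (E : ∀ k, (F k).Ω → Prop) : UB (fun k => (F k).pb (E k)) :=
  UB_of_nonneg_le (C := 1) (Eventually.of_forall fun k => FSp.pb_nonneg _ _)
    (Eventually.of_forall fun k => FSp.pb_le_one _ _)

/-- the directions of the base are not determined by the label, at any depth, on any event -/
def NB (s' : Sys S q) (l : Lab S) : Prop := ∀ (E : ∀ k, ((l.ovr 1 one_pos).F k).Ω → Prop)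
  (hE : 0 < ul ((l.ovr 1 one_pos).pr E)) (r : ℝ), 0 < r → restL E hE (up1 l (s'.x.dg r)) ≠ ⊥

/-- THE SMALLEST EIGENVALUE of an affine form of the base over a label which does not know the directions of the lines
of the base -/
theorem eig_nb (hf : Fac s s') {c : ℝ} (h0 : 0 ≤ c) (h1 : c < 1) {l : Lab S} (hl : DMc s c l) (hNB : NB s' l)
    (A : ∀ k, (l k).T.Ω → Matrix (Mon (q + 1) 1) (Mon (q + 1) 1) ℝ)
    (hA : ∀ᶠ k in UF, ∀ ω, (l k).T.μ ω ≠ 0 → PdM (A k ω))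
    (hV : ∀ᶠ k in UF, ∀ ω ω', (l k).T.μ ω ≠ 0 → (l k).T.μ ω' ≠ 0 → (l k).V ω ω' → (l k).T.Z ω ω' → A k ω = A k ω')
    (hφ : ∀ e : ℝ, 0 < e → ∀ᶠ k in UF, (l k).T.pb (fun ω =>
      ¬ sph s' 1 k ((l k).p.π ω) (A k ω) ≤ 2 ^ (e * (S.F k).n)) ≤ e)
    (e : ℝ) (he : 0 < e) :
    Tendsto (fun k => (l k).T.pb (fun ω => ∀ u : Fin q → ℝ,
      2 ^ (2 * (c + e) * (S.F k).n) * (u ⬝ᵥ u) ≤ qf (A k ω) (gM u))) UF (𝓝 0) := by
  classical
  set E0 : ∀ k, (l k).T.Ω → Prop := fun k ω => ∀ u : Fin q → ℝ,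
    2 ^ (2 * (c + e) * (S.F k).n) * (u ⬝ᵥ u) ≤ qf (A k ω) (gM u) with hE0
  set V0 : ∀ k, (l k).T.Ω → Prop := fun k ω =>
    qf (A k ω) (gv (Fin.cons 1 (s'.x.v k ((l k).p.π ω)) : Fin (q + 1) → ℝ)) ≤ 2 ^ (2 * (c + e / 2) * (S.F k).n)
    with hV0
  have hvel : Tendsto (fun k => (l k).T.pb (fun ω => ¬ V0 k ω)) UF (𝓝 0) :=
    Pool.Agent.Helper93.LIP.line_vel hf h0 h1 hl.1 A hA hV hφ (e / 2) (by linarith)
  have hU := UB_pb (F := fun k => (l k).T) E0
  by_contra hne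
  have hpos : 0 < ul (fun k => (l k).T.pb (E0 k)) := by
    have h3 := ul_mono (UB_const 0) hU (Eventually.of_forall fun k => FSp.pb_nonneg _ _)
    rw [ul_const] at h3
    refine lt_of_le_of_ne h3 fun h => hne ?_
    have h2 := ul_tendsto hU
    rw [← h] at h2
    exact h2
  -- the event
  set E : ∀ k, ((l.ovr 1 one_pos).F k).Ω → Prop := fun k ω => E0 k ω ∧ V0 k ω with hEd
  have hUE : UB (fun k => (l k).T.pb (E k)) := UB_pb (F := fun k => (l k).T) E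
  have hE : 0 < ul ((l.ovr 1 one_pos).pr E) := by
    have t1 := (ul_tendsto hU).sub hvel
    rw [sub_zero] at t1
    refine lt_of_lt_of_le hpos (le_of_tendsto_of_tendsto t1 (ul_tendsto hUE) (Eventually.of_forall fun k => ?_))
    beta_reduce
    have a1 : (l k).T.pb (E0 k) ≤ (l k).T.pb (fun ω => E k ω ∨ ¬ V0 k ω) := by
      refine FSp.pb_mono _ fun ω _ h => ?_
      by_cases hv : V0 k ω
      · exact Or.inl ⟨h, hv⟩
      · exact Or.inr hv
    have a2 := Pool.Agent.Helper89.LX.pb_or (l k).T (E k) (fun ω => ¬ V0 k ω)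
    have a3 : (l.ovr 1 one_pos).pr E k = (l k).T.pb (E k) := rfl
    rw [a3]
    linarith
  -- digits of the directions
  obtain ⟨r, hr0, hr2⟩ : ∃ r : ℝ, 0 < r ∧ r ≤ e / 2 := ⟨e / 2, by linarith, le_rfl⟩
  have key : (vE (E := E) (Pj.id (l.ovr 1 one_pos)) s'.x).dg r = ⊥ := by
    apply le_antisymm _ bot_le
    rw [← VV.dg_nonpos (vE (E := E) (Pj.id (l.ovr 1 one_pos)) s'.x) (le_refl (0 : ℝ))]
    have h2s : ((l.ovr 1 one_pos).rest E).Sub (fun _ => (2 : ℝ)) := Sp.Sub_const _ (by norm_num)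
    apply VV.dg_le_dg _ _ _ _ (fun _ _ => True) Typ_true (fun _ => 2) h2s
    have hpr := pr_half' hE
    filter_upwards [hpr, hA, hV] with k hk hAk hVk ω ω' a b _ _ hZ _ i
    have hpb : (l k).T.pb (E k) ≠ 0 := by
      have h5 : ul ((l.ovr 1 one_pos).pr E) / 2 ≤ (l k).T.pb (E k) := hk
      have h6 : 0 < ul ((l.ovr 1 one_pos).pr E) / 2 := by linarith
      linarith
    have a1 := (((l.ovr 1 one_pos).F k).rest_supp (E k) ω a)
    have b1 := (((l.ovr 1 one_pos).F k).rest_supp (E k) ω' b)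
    obtain ⟨a2, a3⟩ : E k ω := a1.2 hpb
    obtain ⟨b2, b3⟩ : E k ω' := b1.2 hpb
    have hZ' : (l k).V ω ω' ∧ (l k).T.Z ω ω' := hZ
    have hAA : A k ω = A k ω' := hVk ω ω' a1.1 b1.1 hZ'.1 hZ'.2
    have hnn : ∀ v, 0 ≤ qf (A k ω) v := fun v => (hAk ω a1.1).nonneg v
    have c1 : qf (A k ω) (gv (Fin.cons 1 (s'.x.v k ((l k).p.π ω)) : Fin (q + 1) → ℝ)) ≤
      2 ^ (2 * (c + e / 2) * (S.F k).n) := a3
    have c2 : qf (A k ω') (gv (Fin.cons 1 (s'.x.v k ((l k).p.π ω')) : Fin (q + 1) → ℝ)) ≤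
      2 ^ (2 * (c + e / 2) * (S.F k).n) := b3
    rw [← hAA] at c2
    have c3 := Pool.Agent.Helper93.LIP.qf_sub_le hnn
      (gv (Fin.cons 1 (s'.x.v k ((l k).p.π ω)) : Fin (q + 1) → ℝ) : Mon (q + 1) 1 → ℝ)
      (gv (Fin.cons 1 (s'.x.v k ((l k).p.π ω')) : Fin (q + 1) → ℝ))
    rw [cons_gM] at c3
    set u : Fin q → ℝ := s'.x.v k ((l k).p.π ω) - s'.x.v k ((l k).p.π ω') with hu
    have c4 := a2 u
    have c5 : 2 ^ (2 * (c + e) * (S.F k).n) * (u ⬝ᵥ u) ≤ 4 * 2 ^ (2 * (c + e / 2) * (S.F k).n) := by linarith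
    have hn := (S.F k).pos
    have c6 : (2 : ℝ) ^ (2 * (c + e / 2) * (S.F k).n) = 2 ^ (2 * (c + e) * (S.F k).n) * (S.dl (e / 2) k) ^ 2 := by
      unfold Sp.dl
      rw [← Real.rpow_natCast, ← Real.rpow_mul (by norm_num), ← Real.rpow_add (by norm_num)]
      congr 1
      push_cast
      ring
    have c7 : u ⬝ᵥ u ≤ (2 * S.dl (e / 2) k) ^ 2 := by
      rw [c6] at c5
      have c8 : (0 : ℝ) < 2 ^ (2 * (c + e) * (S.F k).n) := by positivity
      have c9 : 2 ^ (2 * (c + e) * (S.F k).n) * (u ⬝ᵥ u) ≤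
          2 ^ (2 * (c + e) * (S.F k).n) * (2 * S.dl (e / 2) k) ^ 2 := by
        refine c5.trans (le_of_eq ?_)
        ring
      exact le_of_mul_le_mul_left c9 c8
    have c10 := abs_le_of_dot (by have := S.dl_pos (e / 2) k; positivity) c7 i
    have hdl : ((l.ovr 1 one_pos).rest E).dl r k = S.dl r k := by
      have h3 : ((l.ovr 1 one_pos).rest E).dl r k = l.sp.dl (1 * r) k := chg_dl l.V 1 one_pos r k
      rw [h3, one_mul, sp_dl]
    rw [hdl]
    have c11 := S.dl_anti hr2 k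
    have c12 : |u i| ≤ 2 * S.dl r k := c10.trans (by linarith)
    exact c12
  rw [vE_dg _ _ _ hE, Pj.id_map] at key
  exact hNB E hE r hr0 key

/-- rich systems, if the label knows the directions from the directions of the base -/
theorem NB_of_rich {c : ℝ} (h1 : c < 1) {g : ℝ} (hg0 : 0 < g) (hg : Pool.Agent.Helper80.MX.Rich s g) {l : Lab S}
    (hl : DMc s c l) (hd : ∀ r, 0 ≤ r → r ≤ 1 - c → up1 l (s.x.dg r) ≤ up1 l (s'.x.dg r)) (h0 : 0 ≤ c) : NB s' l := by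
  intro E hE r' hr' key'
  obtain ⟨r, hr0, hr1, hr2⟩ : ∃ r : ℝ, 0 < r ∧ r ≤ 1 - c ∧ r ≤ r' :=
    ⟨min (1 - c) r', lt_min (by linarith) hr', min_le_left _ _, min_le_right _ _⟩
  have key : restL E hE (up1 l (s'.x.dg r)) ≤ ⊥ := by
    rw [← key']
    exact restL_mono E hE (up1_mono l (s'.x.dg_mono hr2))
  have h3 := Pool.Agent.Helper80.HCI.rich_ovr l (Pj.id (l.ovr 1 one_pos)) E hE s hg hl (r := r) hr0.le
    (by linarith)
  rw [one_mul, Pj.id_map, Pj.id_map] at h3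
  have h4 : restL E hE (up1 l (s.x.dg r)) ≤ ⊥ :=
    (restL_mono E hE (hd r hr0.le hr1)).trans key
  have h5 := (h_eq_zero_iff (A := restL E hE (up1 l (s.x.dg r))) (B := restL E hE (up1 l (lB s)))).mpr
    (h4.trans bot_le)
  have h6 : g * r ≤ h (restL E hE (up1 l (s.x.dg r))) (restL E hE (up1 l (lB s))) := h3
  rw [h5] at h6
  have h7 := mul_pos hg0 hr0
  linarith

theorem eig_small (hf : Fac s s') {c : ℝ} (h0 : 0 ≤ c) (h1 : c < 1) {g : ℝ} (hg0 : 0 < g)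
    (hg : Pool.Agent.Helper80.MX.Rich s g) {l : Lab S} (hl : DMc s c l)
    (hd : ∀ r, 0 ≤ r → r ≤ 1 - c → up1 l (s.x.dg r) ≤ up1 l (s'.x.dg r))
    (A : ∀ k, (l k).T.Ω → Matrix (Mon (q + 1) 1) (Mon (q + 1) 1) ℝ)
    (hA : ∀ᶠ k in UF, ∀ ω, (l k).T.μ ω ≠ 0 → PdM (A k ω))
    (hV : ∀ᶠ k in UF, ∀ ω ω', (l k).T.μ ω ≠ 0 → (l k).T.μ ω' ≠ 0 → (l k).V ω ω' → (l k).T.Z ω ω' → A k ω = A k ω')
    (hφ : ∀ e : ℝ, 0 < e → ∀ᶠ k in UF, (l k).T.pb (fun ω =>
      ¬ sph s' 1 k ((l k).p.π ω) (A k ω) ≤ 2 ^ (e * (S.F k).n)) ≤ e)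
    (e : ℝ) (he : 0 < e) :
    Tendsto (fun k => (l k).T.pb (fun ω => ∀ u : Fin q → ℝ,
      2 ^ (2 * (c + e) * (S.F k).n) * (u ⬝ᵥ u) ≤ qf (A k ω) (gM u))) UF (𝓝 0) :=
  eig_nb hf h0 h1 hl (NB_of_rich h1 hg0 hg hl hd h0) A hA hV hφ e he

end

end Pool.Agent.Helper91.GR
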