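import Pool.Agent.Helper91.GR.Bld
import Pool.Agent.Helper97.SL.Cls2

/-! The label of the window `c0` at a fresh point of the window `c`: the space, common informations, blindness. -/

set_option autoImplicit false

namespace Pool.Agent.Helper91.GR

open Finset Filter Topology Pool.Agent.Helper69.RK Pool.Agent.Helper31.EC Pool.Agent.Helper31.EC.Sp
open Pool.Agent.Helper40.EL
open Pool.Agent.Helper52.SL (cv cv_dg)

noncomputable section

variable {S T : Sp} {m : ℕ} {l : Lab S} {s : Sys S m} {c c0 : ℝ}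

/-- the line and the window of the time -/
def VA (s : Sys S m) (l : Lab S) (c : ℝ) :
    ∀ k, ((l.ovr 1 one_pos).F k).Ω → ((Fin m → ℤ) × (Fin m → ℤ)) × (Fin 1 → ℤ) :=
  fun k ω => (((cv l s.a).cellv 1 k ω, (cv l s.x).cellv 1 k ω), (cv l s.t).cellv c k ω)

theorem VA_bdd : Sp.Bdd (VA s l c) := (((cv l s.a).bdd 1).pair ((cv l s.x).bdd 1)).pair ((cv l s.t).bdd c)

theorem VA_io : Sp.io (VA s l c) = (cv l s.a).dg 1 ⊔ (cv l s.x).dg 1 ⊔ (cv l s.t).dg c := by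
  have h1 : Sp.io (VA s l c) = Sp.io (fun k ω => ((cv l s.a).cellv 1 k ω, (cv l s.x).cellv 1 k ω)) ⊔
      Sp.io ((cv l s.t).cellv c) := Sp.io_pair (((cv l s.a).bdd 1).pair ((cv l s.x).bdd 1)) ((cv l s.t).bdd c)
  rw [h1, Sp.io_pair ((cv l s.a).bdd 1) ((cv l s.x).bdd 1)]
  rfl

variable (l2 : Lab (l.ovr 1 one_pos)) (s c)

/-- the amalgam of the old and the new system -/
def fX : AmD l2.sp (l.ovr 1 one_pos) := l2.pj.join (VA s l c)

variable {l2 s c}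

theorem fX_close {q : ℕ} (y : S.VV q) (r : ℝ)
    (h : ∀ k (w w' : ((l.ovr 1 one_pos).F k).Ω), VA s l c k w = VA s l c k w' → (cv l y).cellv r k w = (cv l y).cellv r k w') :
    (fX s c l2).p1.map (l2.pj.map ((cv l y).dg r)) = (fX s c l2).p2.map ((cv l y).dg r) := by
  rw [Pj.map_dg, Pj.map_dg, Pj.map_dg]
  apply Pool.Agent.Helper97.SL.dg_eq_of_close _ _ r r le_rfl
  refine Eventually.of_forall fun k w hw i => ?_
  have h1 := Pj.join_supp l2.pj (VA s l c) k w hw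
  have h2 := h k _ _ h1
  have h3 := (cv l y).cellv_close r k _ _ h2 i
  have h4 : ((fX s c l2).sp).dl r k = (l.ovr 1 one_pos).dl r k := Pool.Agent.Helper97.SL.dl_pj (fX s c l2).p2 r k
  rw [h4]
  exact h3

theorem fX_a : (fX s c l2).p1.map (l2.pj.map ((cv l s.a).dg 1)) = (fX s c l2).p2.map ((cv l s.a).dg 1) :=
  fX_close s.a 1 fun _ _ _ h => (Prod.mk.inj (Prod.mk.inj h).1).1

theorem fX_x : (fX s c l2).p1.map (l2.pj.map ((cv l s.x).dg 1)) = (fX s c l2).p2.map ((cv l s.x).dg 1) :=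
  fX_close s.x 1 fun _ _ _ h => (Prod.mk.inj (Prod.mk.inj h).1).2

variable {E : ∀ k, (T.F k).Ω → Prop}

theorem vE_sup {q q' : ℕ} (π : Pj T (l.ovr 1 one_pos)) (y : S.VV q) (y' : S.VV q') (r r' : ℝ) (hE : 0 < ul (T.pr E)) :
    (vE (E := E) π y).dg r ⊔ (vE (E := E) π y').dg r' = restL E hE (π.map (up1 l (y.dg r ⊔ y'.dg r'))) := by
  rw [vE_dg _ _ _ hE, vE_dg _ _ _ hE, ← restL_sup, ← Pj.map_sup, ← up1_sup]

theorem vE_mono {π : Pj T (l.ovr 1 one_pos)} (hE : 0 < ul (T.pr E)) {x y : S.L} (h : x ≤ y) :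
    restL E hE (π.map (up1 l x)) ≤ restL E hE (π.map (up1 l y)) :=
  restL_mono E hE (Pj.map_mono _ (up1_mono l h))

theorem vE_t_bot (π : Pj T (l.ovr 1 one_pos)) (hl : IsKap s c l) (h1 : c ≤ 1) (hE : 0 < ul (T.pr E)) :
    (vE (E := E) π s.t).dg c = ⊥ := by
  rw [vE_dg _ _ _ hE, hl.t_bot h1, Pj.map_bot, restL_bot]

theorem vE_P_le (π : Pj T (l.ovr 1 one_pos)) (hE : 0 < ul (T.pr E)) :
    (vE (E := E) π s.P).dg 1 ≤ (vE (E := E) π s.a).dg 1 ⊔ (vE (E := E) π s.x).dg 1 ⊔ (vE (E := E) π s.t).dg 1 := by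
  have h1 : s.P.dg 1 ≤ s.xi 1 ⊔ s.T := s.P_le le_rfl
  have h2 := vE_mono (π := π) hE h1
  have h3 : s.xi 1 ⊔ s.T = (s.a.dg 1 ⊔ s.x.dg 1) ⊔ s.t.dg 1 := rfl
  rw [h3, up1_sup, up1_sup, Pj.map_sup, Pj.map_sup, restL_sup, restL_sup] at h2
  rw [vE_dg _ _ _ hE, vE_dg _ _ _ hE, vE_dg _ _ _ hE, vE_dg _ _ _ hE]
  exact h2

/-- the entropy of the point and the time over `κ_c` is the same on all events -/
theorem ovr_PT (π : Pj T (l.ovr 1 one_pos)) (hl : IsKap s c l) (h0 : 0 ≤ c) (h1 : c ≤ 1)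
    (hp : Pool.Agent.Helper52.SL.RobP s) (hi : Pool.Agent.Helper52.KP.RobustI s) (hE : 0 < ul (T.pr E)) :
    H ((vE (E := E) π s.P).dg 1 ⊔ (vE (E := E) π s.t).dg 1) = (1 - c) + (s.F 0 1 - ic s c) := by
  have k1 := xE_IsKap (E := E) π hl hE
  have a1 := k1.ic_P h0 h1
  have a2 := k1.H_T h0 h1
  have a3 : ic (sE π s hE) c = ic s c := hi c h0 h1 (xl l π).sp (xl l π).pj E hE
  have a4 : (sE π s hE).F 0 1 = s.F 0 1 := hp 0 1 le_rfl zero_le_one zero_le_one le_rfl (xl l π).sp (xl l π).pj E hE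
  have a5 : (sE π s hE).F 0 1 = h ((sE π s hE).P.dg 1) (sE π s hE).T := by
    have e : (sE π s hE).F 0 1 = h ((sE π s hE).x.dg 0 ⊔ (sE π s hE).P.dg 1) (sE π s hE).T := rfl
    rw [e, (sE π s hE).x.dg_nonpos le_rfl, bot_sup_eq]
  have b1 : H ((vE (E := E) π s.P).dg 1 ⊔ (vE (E := E) π s.t).dg 1) =
      H (up1 (xE l π E) ((sE π s hE).P.dg 1) ⊔ up1 (xE l π E) (sE π s hE).T) := by
    rw [vE_idp, vE_idp, ← Pj.map_sup, Pj.H_map]
    rfl
  rw [b1, sup_comm, H_chain, a2]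
  linarith

/-- BLINDNESS -/
theorem blind (h0 : 0 ≤ c) (hcc : c ≤ c0) (h1 : c0 ≤ 1) (hl : IsKap s c l) {l2 : Lab (l.ovr 1 one_pos)}
    (hl2 : IsKap s c0 (l.comp 1 one_pos l2)) (hi : Pool.Agent.Helper52.KP.RobustI s) (q : Pj T (fX s c l2).sp)
    (hE : 0 < ul (T.pr E)) {α : ℕ → Type} {X : ∀ k, (l2.sp.F k).Ω → α k} (hX : Bdd X)
    (hXV : ∀ᶠ k in UF, ∀ ω ω', (l2.sp.F k).μ ω ≠ 0 → (l2.sp.F k).μ ω' ≠ 0 → (l2.sp.F k).Z ω ω' →
      (l2 k).V ω ω' → X k ω = X k ω') :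
    I (restL E hE (q.map ((fX s c l2).p1.map (io X))))
      ((vE (E := E) (q.comp (fX s c l2).p2) s.P).dg 1 ⊔ (vE (E := E) (q.comp (fX s c l2).p2) s.t).dg 1) ⊥ ≤
      ic s c0 - ic s c := by
  have hc1 : c ≤ 1 := hcc.trans h1
  set πo : Pj T l2.sp := q.comp (fX s c l2).p1 with hπo
  set πn : Pj T (l.ovr 1 one_pos) := q.comp (fX s c l2).p2 with hπn
  have e1 : q.map ((fX s c l2).p1.map (io X)) = io (fun k ω => X k (πo.π k ω)) := by
    rw [Pj.map_io, Pj.map_io]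
    rfl
  have hX' : Bdd (S := T) (fun k ω => X k (πo.π k ω)) := (πo.bdd_iff X).mpr hX
  have e2 := old_bound h0 hcc h1 hl hl2 hi πo hE hX' (by
    filter_upwards [hXV] with k hk ω ω' a b hZ hV
    exact hk _ _ (πo.supp k ω a) (πo.supp k ω' b) ((πo.hZ k ω ω' a b).mp hZ) hV)
  rw [← e1] at e2
  -- the lines agree
  have ea : (vE (E := E) (πo.comp l2.pj) s.a).dg 1 = (vE (E := E) πn s.a).dg 1 := by
    rw [vE_dg _ _ _ hE, vE_dg _ _ _ hE]
    congr 1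
    have h2 := congrArg q.map (fX_a (l2 := l2) (s := s) (c := c))
    rw [cv_dg] at h2
    have h3 : (πo.comp l2.pj).map (up1 l (s.a.dg 1)) = q.map ((fX s c l2).p1.map (l2.pj.map (up1 l (s.a.dg 1)))) := by
      rw [← Pj.comp_map, ← Pj.comp_map]
    have h4 : πn.map (up1 l (s.a.dg 1)) = q.map ((fX s c l2).p2.map (up1 l (s.a.dg 1))) := by
      rw [← Pj.comp_map]
    rw [h3, h4]
    exact h2
  have ex : (vE (E := E) (πo.comp l2.pj) s.x).dg 1 = (vE (E := E) πn s.x).dg 1 := by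
    rw [vE_dg _ _ _ hE, vE_dg _ _ _ hE]
    congr 1
    have h2 := congrArg q.map (fX_x (l2 := l2) (s := s) (c := c))
    rw [cv_dg] at h2
    have h3 : (πo.comp l2.pj).map (up1 l (s.x.dg 1)) = q.map ((fX s c l2).p1.map (l2.pj.map (up1 l (s.x.dg 1)))) := by
      rw [← Pj.comp_map, ← Pj.comp_map]
    have h4 : πn.map (up1 l (s.x.dg 1)) = q.map ((fX s c l2).p2.map (up1 l (s.x.dg 1))) := by
      rw [← Pj.comp_map]
    rw [h3, h4]
    exact h2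
  rw [ea, ex] at e2
  -- the time is independent
  have hind : I (restL E hE (q.map ((fX s c l2).p1.map (io X)))) ((vE (E := E) πn s.t).dg 1)
      ((vE (E := E) πn s.a).dg 1 ⊔ (vE (E := E) πn s.x).dg 1) = 0 := by
    have f1 := Pj.join_indep l2.pj (VA s l c) VA_bdd (io X) ((cv l s.t).dg 1)
    have f2 := Pj.join_common l2.pj (VA s l c) VA_bdd
    rw [f2, VA_io] at f1
    have f3 := I_rest_zero E hE ((q.I_map _ _ _).trans f1)
    have f4 : restL E hE (q.map ((fX s c l2).p2.map ((cv l s.a).dg 1 ⊔ (cv l s.x).dg 1 ⊔ (cv l s.t).dg c))) =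
        (vE (E := E) πn s.a).dg 1 ⊔ (vE (E := E) πn s.x).dg 1 := by
      rw [← Pj.comp_map, cv_dg, cv_dg, cv_dg, Pj.map_sup, Pj.map_sup, restL_sup, restL_sup]
      have f5 := vE_t_bot (E := E) πn hl hc1 hE
      rw [vE_dg _ _ _ hE] at f5
      rw [vE_dg _ _ _ hE, vE_dg _ _ _ hE]
      have f6 : restL E hE ((q.comp (fX s c l2).p2).map (up1 l (s.t.dg c))) = ⊥ := f5
      rw [f6, sup_bot_eq]
    have f5 : restL E hE (q.map ((fX s c l2).p2.map ((cv l s.t).dg 1))) = (vE (E := E) πn s.t).dg 1 := by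
      rw [← Pj.comp_map, cv_dg, vE_dg _ _ _ hE]
    rw [← f4, ← f5]
    exact f3
  have h2 : I (restL E hE (q.map ((fX s c l2).p1.map (io X))))
      ((vE (E := E) πn s.P).dg 1 ⊔ (vE (E := E) πn s.t).dg 1) ⊥ ≤
      I (restL E hE (q.map ((fX s c l2).p1.map (io X))))
      (((vE (E := E) πn s.a).dg 1 ⊔ (vE (E := E) πn s.x).dg 1) ⊔ (vE (E := E) πn s.t).dg 1) ⊥ := by
    apply I_mono_right
    rw [sup_bot_eq]
    exact sup_le (vE_P_le πn hE) le_sup_right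
  refine h2.trans ?_
  rw [I_chain_right, sup_bot_eq, hind, add_zero]
  exact e2

/-- BLINDNESS, second form -/
theorem blind' (h0 : 0 ≤ c) (hcc : c ≤ c0) (h1 : c0 ≤ 1) (hl : IsKap s c l) {l2 : Lab (l.ovr 1 one_pos)}
    (hl2 : IsKap s c0 (l.comp 1 one_pos l2)) (hp : Pool.Agent.Helper52.SL.RobP s)
    (hi : Pool.Agent.Helper52.KP.RobustI s) (q : Pj T (fX s c l2).sp)
    (hE : 0 < ul (T.pr E)) {α : ℕ → Type} {X : ∀ k, (l2.sp.F k).Ω → α k} (hX : Bdd X)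
    (hXV : ∀ᶠ k in UF, ∀ ω ω', (l2.sp.F k).μ ω ≠ 0 → (l2.sp.F k).μ ω' ≠ 0 → (l2.sp.F k).Z ω ω' →
      (l2 k).V ω ω' → X k ω = X k ω') :
    (1 - c) + (s.F 0 1 - ic s c0) ≤
      h ((vE (E := E) (q.comp (fX s c l2).p2) s.P).dg 1 ⊔ (vE (E := E) (q.comp (fX s c l2).p2) s.t).dg 1)
        (restL E hE (q.map ((fX s c l2).p1.map (io X)))) := by
  have a1 := blind h0 hcc h1 hl hl2 hi q hE hX hXV
  have a2 := ovr_PT (E := E) (q.comp (fX s c l2).p2) hl h0 (hcc.trans h1) hp hi hE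
  rw [I_comm, I_eq, h_bot, sup_bot_eq] at a1
  linarith

end

end Pool.Agent.Helper91.GR
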