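import Pool.Agent.Helper91.GR.Eig
import Pool.Agent.Helper40.NSK.Top4
import Pool.Agent.Helper3.UF.Su

/-! FULLNESS AT THE CORNER: the label of a window with a linear sheet of full depth is full over a base of dimension
two, except for one window and one plank: `(1 - c) + (1 - lamI c) ≤ F(0,1) - i(c)`. -/

set_option autoImplicit false

namespace Pool.Agent.Helper91.GR

open Filter Topology Matrix Pool.Agent.Helper69.RK Pool.Agent.Helper31.EC Pool.Agent.Helper31.EC.Sp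
open Pool.Agent.Helper42.NS Pool.Agent.Helper40.EL Pool.Agent.Helper40.NSK Pool.Agent.Helper52.KP
open Pool.Agent.Helper95.LF (PdM)
open Pool.Agent.Helper3.LF (pl Mon phi gam nn nn_one sp_Sub sp_dl sp_n lb)
open Pool.Agent.Helper3.SG (Fac HfP lamP IsCanP exists_canP le_lamP lamP_nonneg)
open Pool.Agent.Helper3.PR (logGG_nonneg GG_pos')
open Pool.Agent.Helper89.LX
open Pool.Agent.Helper39.LIP (gv gM gv_sub qf_smul_vec Jf_gM)
open Pool.Agent.Helper48.NS (Jf GG Jf_gam Jf_symm Jf_nonneg)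
open Pool.Agent.Helper52.SL (GDP toFDP ofFDP HfP_iff_psi)
open Pool.Agent.Helper59.EV (ST)

noncomputable section

variable {S : Sp} {m q : ℕ}

/-- labels with forms of `GDP` from admissible forms -/
theorem exists_LFmP {R : Matrix (Fin q) (Fin m) ℝ} {s : Sys S m} {D : ℕ} {c : ℝ}
    {x : ∀ k, FD (S.F k) (Mon (q + 1) D)} (hx : (gau (prB R s) D).Ad (cA s c) (cB s) x) : ∃ f : LFm (GDP R D) s,
      (∀ᶠ k in UF, ∃ hk, f k = ofFDP (x k) hk) ∧ f.lab.DM (pA s c) (pB s) ∧ f.Bounds := by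
  classical
  set f : LFm (GDP R D) s := fun k =>
    if hk : ∀ ω, (x k).l.T.μ ω ≠ 0 → Cpd (2 ^ ((2 * (D : ℝ) + 1 + 1) * (S.F k).n)) ((x k).g ω) then ofFDP (x k) hk
    else FFm.triv (GDP R D) (s.fin k) with hf
  have hcp : ∀ᶠ k in UF, ∀ ω, (x k).l.T.μ ω ≠ 0 → Cpd (2 ^ ((2 * (D : ℝ) + 1 + 1) * (S.F k).n)) ((x k).g ω) := by
    filter_upwards [hx 1 one_pos] with k hk ω hω
    exact (hk.2.2.1 ω hω).1
  have hfk : ∀ᶠ k in UF, ∃ hk, f k = ofFDP (x k) hk := by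
    filter_upwards [hcp] with k hk
    exact ⟨hk, by rw [hf]; exact dif_pos hk⟩
  have hlk : ∀ A : Part S, (∀ η : ℝ, 0 < η → ∀ᶠ k in UF, (x k).l.leak (A k) ≤ η * (S.F k).n) →
      Nul S (fun k => (f.lab k).leak (A k)) := by
    intro A hA
    show Tendsto (fun k => (f.lab k).leak (A k) / (S.F k).n) UF (𝓝 0)
    rw [Metric.tendsto_nhds]
    intro e' he
    filter_upwards [hfk, hA (e' / 2) (by linarith)] with k ⟨hk, h1⟩ h2
    have h3 : (f.lab k).leak (A k) = (x k).l.leak (A k) := by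
      show (f k).l.leak (A k) = _
      rw [h1]; rfl
    have hn := (S.F k).pos
    rw [Real.dist_eq, sub_zero, h3, abs_of_nonneg (div_nonneg (FLab.leak_nonneg _ _) hn.le), div_lt_iff₀ hn]
    nlinarith
  refine ⟨f, hfk, ⟨hlk _ fun η hη => ?_, hlk _ fun η hη => ?_⟩, fun e' he => ?_⟩
  · filter_upwards [hx η hη] with k hk using hk.1
  · filter_upwards [hx η hη] with k hk using hk.2.1
  · filter_upwards [hfk, hx e' he] with k ⟨hk, h1⟩ h2
    rw [h1]
    exact pb_of_compl h2.2.2.2.1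

/-- UPPER BOUND OF THE GRADIENT above the thickness, by the zero-one law -/
theorem trace_up {R : Matrix (Fin q) (Fin m) ℝ} {s : Sys S m} {D : ℕ} {c σ : ℝ}
    (h01 : psi (GDP R D) s c σ = 0 ∨ psi (GDP R D) s c σ = 1) (hσ : lamP s (prB R s) D c < σ)
    {x : ∀ k, FD (S.F k) (Mon (q + 1) D)} (hx : (gau (prB R s) D).Ad (cA s c) (cB s) x) :
    Tendsto (fun k => (x k).l.T.pb (fun ω => 2 ^ (2 * σ * (S.F k).n) ≤
      sga (prB R s) D k ((x k).l.p.π ω) ((x k).g ω))) UF (𝓝 0) := by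
  have h0 : psi (GDP R D) s c σ = 0 := by
    rcases h01 with h | h
    · exact h
    · exact absurd (le_lamP (HfP_iff_psi.mpr h)) (not_le.mpr hσ)
  have hU := UB_pb (F := fun k => (x k).l.T) (fun k ω => (2 : ℝ) ^ (2 * σ * (S.F k).n) ≤
      sga (prB R s) D k ((x k).l.p.π ω) ((x k).g ω))
  by_contra hne
  have hpos : 0 < ul (fun k => (x k).l.T.pb (fun ω => (2 : ℝ) ^ (2 * σ * (S.F k).n) ≤
      sga (prB R s) D k ((x k).l.p.π ω) ((x k).g ω))) := by
    have h3 := ul_mono (UB_const 0) hU (Eventually.of_forall fun k => FSp.pb_nonneg _ _)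
    rw [ul_const] at h3
    refine lt_of_le_of_ne h3 fun h => hne ?_
    have h2 := ul_tendsto hU
    rw [← h] at h2
    exact h2
  obtain ⟨f, hfk, hf1, hf2⟩ := exists_LFmP hx
  have hmem : ul (fun k => (x k).l.T.pb (fun ω => (2 : ℝ) ^ (2 * σ * (S.F k).n) ≤
      sga (prB R s) D k ((x k).l.p.π ω) ((x k).g ω))) ∈ psiS (GDP R D) s c σ := by
    rw [mem_psiS_iff_lab]
    refine ⟨f, hf1, hf2, fun e he => ?_⟩
    filter_upwards [hfk, eventually_gt_of_lt_ul hU (sub_lt_self _ he)] with k ⟨hk, h1⟩ h2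
    rw [h1]
    refine h2.le.trans (FSp.pb_mono _ fun ω _ h3 => ?_)
    refine le_trans ?_ h3
    have h4 : (s.fin k).F.n = (S.F k).n := rfl
    rw [h4]
    apply Real.rpow_le_rpow_of_exponent_le (by norm_num)
    have := (S.F k).pos
    nlinarith
  have h4 := le_psi s hmem
  rw [h0] at h4
  linarith

/-- the determinant of a nonnegative matrix of dimension two -/
theorem det_two {M : Matrix (Fin 2) (Fin 2) ℝ} (hs : M.IsSymm) {v : Fin 2 → ℝ} (hv : 0 < v ⬝ᵥ v) {a b : ℝ}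
    (ha : v ⬝ᵥ (M *ᵥ v) ≤ a * (v ⬝ᵥ v)) (ha0 : 0 ≤ a) (hb : ∀ w, w ⬝ᵥ (M *ᵥ w) ≤ b * (w ⬝ᵥ w))
    (hn : ∀ w, 0 ≤ w ⬝ᵥ (M *ᵥ w)) : M.det ≤ a * b := by
  have h1 : M 1 0 = M 0 1 := by
    have := congrFun (congrFun hs 0) 1
    rw [Matrix.transpose_apply] at this
    exact this
  have hw := hb ![-(v 1), v 0]
  have hw0 := hn ![-(v 1), v 0]
  have hv0 := hn v
  have e1 : v ⬝ᵥ v = v 0 * v 0 + v 1 * v 1 := by
    rw [dotProduct, Fin.sum_univ_two]
  have e2 : ![-(v 1), v 0] ⬝ᵥ ![-(v 1), v 0] = v 0 * v 0 + v 1 * v 1 := by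
    rw [dotProduct, Fin.sum_univ_two]
    simp
    ring
  have e3 : v ⬝ᵥ (M *ᵥ v) = M 0 0 * (v 0 * v 0) + 2 * M 0 1 * (v 0 * v 1) + M 1 1 * (v 1 * v 1) := by
    rw [dotProduct, Fin.sum_univ_two, Matrix.mulVec, Matrix.mulVec, dotProduct, dotProduct, Fin.sum_univ_two,
      Fin.sum_univ_two, h1]
    ring
  have e4 : ![-(v 1), v 0] ⬝ᵥ (M *ᵥ ![-(v 1), v 0]) =
      M 0 0 * (v 1 * v 1) - 2 * M 0 1 * (v 0 * v 1) + M 1 1 * (v 0 * v 0) := by
    rw [dotProduct, Fin.sum_univ_two, Matrix.mulVec, Matrix.mulVec, dotProduct, dotProduct, Fin.sum_univ_two,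
      Fin.sum_univ_two, h1]
    simp
    ring
  rw [e2] at hw
  rw [e4] at hw hw0
  rw [e3] at ha hv0
  rw [e1] at ha hv
  rw [Matrix.det_fin_two, h1]
  set V := v 0 * v 0 + v 1 * v 1 with hV
  set X := M 0 0 * (v 0 * v 0) + 2 * M 0 1 * (v 0 * v 1) + M 1 1 * (v 1 * v 1) with hX
  set Y := M 0 0 * (v 1 * v 1) - 2 * M 0 1 * (v 0 * v 1) + M 1 1 * (v 0 * v 0) with hY
  have e5 : (M 0 0 * M 1 1 - M 0 1 * M 0 1) * V ^ 2 = X * Y -
      (M 0 0 * (-(v 0 * v 1)) + M 0 1 * (v 0 * v 0 - v 1 * v 1) + M 1 1 * (v 0 * v 1)) ^ 2 := by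
    rw [hX, hY, hV]
    ring
  have e6 : X * Y ≤ (a * V) * (b * V) := by
    refine (mul_le_mul_of_nonneg_right ha hw0).trans (mul_le_mul_of_nonneg_left hw ?_)
    positivity
  have e7 : (M 0 0 * M 1 1 - M 0 1 * M 0 1) * V ^ 2 ≤ (a * b) * V ^ 2 := by
    rw [e5]
    have := sq_nonneg (M 0 0 * (-(v 0 * v 1)) + M 0 1 * (v 0 * v 0 - v 1 * v 1) + M 1 1 * (v 0 * v 1))
    calc _ ≤ X * Y := by linarith
      _ ≤ (a * V) * (b * V) := e6
      _ = a * b * V ^ 2 := by ring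
  exact le_of_mul_le_mul_right e7 (by positivity)

/-- the volume of an affine form in dimension two -/
theorem GG_two {r : ℝ} {A : Matrix (Mon (2 + 1) 1) (Mon (2 + 1) 1) ℝ} (hA : PdM A) {p : Fin (2 + 1) → ℝ} {X Y : ℝ}
    (hX : 1 ≤ X) (hY : 1 ≤ Y) (h1 : ¬ ∀ u : Fin 2 → ℝ, X * (u ⬝ᵥ u) ≤ qf A (gM u)) (h2 : ¬ Y ≤ gam r A p) :
    Real.logb 2 (GG r A p) ≤ Real.logb 2 X + Real.logb 2 Y + (Real.logb 2 (1 + nn (2 + 1) 1) + 1) := by
  push Not at h1 h2
  obtain ⟨u, hu⟩ := h1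
  have hn1 := nn_one (2 + 1) 1
  have hq : 0 ≤ qf A (gM u) := hA.nonneg _
  have huu : 0 < u ⬝ᵥ u := by
    by_contra hc
    push Not at hc
    nlinarith
  have hdet : GG r A p ≤ (1 + nn (2 + 1) 1 * X) * (1 + Y) := by
    unfold GG
    refine det_two ?_ huu ?_ (by nlinarith) ?_ ?_
    · exact Pool.Agent.Helper48.NS.one_Jf_symm r hA.1 p
    · rw [Pool.Agent.Helper95.LF.dv_add, Pool.Agent.Helper48.NS.one_dv, Jf_gM]
      have h3 : nn (2 + 1) 1 * qf A (gM u) ≤ nn (2 + 1) 1 * (X * (u ⬝ᵥ u)) :=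
        mul_le_mul_of_nonneg_left hu.le (by linarith)
      linarith
    · intro w
      rw [Pool.Agent.Helper95.LF.dv_add, Pool.Agent.Helper48.NS.one_dv]
      have h3 := Jf_gam r A hA p w
      have h4 : gam r A p * (w ⬝ᵥ w) ≤ Y * (w ⬝ᵥ w) :=
        mul_le_mul_of_nonneg_right h2.le (Pool.Agent.Helper95.LF.self_nonneg' w)
      linarith
    · intro w
      rw [Pool.Agent.Helper95.LF.dv_add, Pool.Agent.Helper48.NS.one_dv]
      have h3 := Jf_nonneg r hA.nonneg p w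
      have h4 := Pool.Agent.Helper95.LF.self_nonneg' w
      linarith
  have h5 : (1 + nn (2 + 1) 1 * X) * (1 + Y) ≤ ((1 + nn (2 + 1) 1) * X) * (2 * Y) := by
    refine mul_le_mul (by nlinarith) (by linarith) (by linarith) (by nlinarith)
  have h6 := Real.logb_le_logb_of_le (b := 2) (by norm_num) (GG_pos' r hA p) (hdet.trans h5)
  rw [Real.logb_mul (by nlinarith) (by linarith), Real.logb_mul (by linarith) (by linarith),
    Real.logb_mul (by norm_num) (by linarith), Real.logb_self_eq_one (by norm_num)] at h6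
  linarith

/-- FULLNESS over a base of dimension two -/
theorem full_base {s : Sys S m} {s' : Sys S 2} (hF : Fac s s') (hst : ST 1 2) {c : ℝ} (h0 : 0 ≤ c) (h1 : c < 1)
    {x : ∀ k, FD (S.F k) (Mon (2 + 1) 1)} (hx : (gau s' 1).Opt (cA s c) (cB s) x) (hNB : NB s' (lb x))
    {lam : ℝ} (hl0 : 0 ≤ lam)
    (hlam : ∀ e : ℝ, 0 < e → Tendsto (fun k => (x k).l.T.pb (fun ω => 2 ^ (2 * (lam + e) * (S.F k).n) ≤
      sga s' 1 k ((x k).l.p.π ω) ((x k).g ω))) UF (𝓝 0)) :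
    (1 - c) + (1 - lam) ≤ h (up1 (lb x) (s'.P.dg 1)) (up1 (lb x) s'.T) := by
  have hdm : DMc s c (lb x) := Gau.Ad.dm (gau s' 1) hx.1
  have hcpd : ∀ᶠ k in UF, ∀ ω, (x k).l.T.μ ω ≠ 0 → PdM ((x k).g ω) := by
    filter_upwards [hx.1 1 one_pos] with k hk ω hω
    exact (hk.2.2.1 ω hω).1.pdM
  have heig := eig_nb hF h0 h1 hdm hNB (fun k ω => (x k).g ω) hcpd
    (Eventually.of_forall fun k ω ω' a b d e => ((x k).meas ω ω' a b d e).1)
    (fun e he => by
      filter_upwards [hx.1 e he] with k hk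
      exact hk.2.2.2.1)
  apply le_of_forall_pos_le_add
  intro e he
  obtain ⟨d, hd0, hde⟩ : ∃ d : ℝ, 0 < d ∧ 2 * d = e := ⟨e / 2, by linarith, by ring⟩
  set X : ℕ → ℝ := fun k => 2 ^ (2 * (c + d) * (S.F k).n) with hX
  set Y : ℕ → ℝ := fun k => 2 ^ (2 * (lam + d) * (S.F k).n) with hY
  -- the event
  set E : ∀ k, (((lb x).ovr 1 one_pos).F k).Ω → Prop := fun k ω =>
    (¬ ∀ u : Fin 2 → ℝ, X k * (u ⬝ᵥ u) ≤ qf ((x k).g ω) (gM u)) ∧
      ¬ Y k ≤ sga s' 1 k ((x k).l.p.π ω) ((x k).g ω) with hEd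
  have hsum := (heig d hd0).add (hlam d hd0)
  rw [add_zero] at hsum
  have hT : Typ (S := (lb x).ovr 1 one_pos) E := by
    have h2 : Tendsto (fun k => (x k).l.T.pb (fun ω => ¬ E k ω)) UF (𝓝 0) := by
      refine squeeze_zero (fun k => FSp.pb_nonneg _ _) (fun k => ?_) hsum
      refine le_trans (FSp.pb_mono _ ?_) (pb_or _ _ _)
      intro ω _ h2
      by_contra h3
      rw [not_or] at h3
      exact h2 h3
    exact h2
  have hE : 0 < ul (((lb x).ovr 1 one_pos).pr E) := ul_pr_typ_pos E hT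
  have hful := Pool.Agent.Helper3.UF.can_full hF le_rfl hst h0 h1 hx (Pj.id ((lb x).ovr 1 one_pos)) E hE
  rw [Pj.id_map, Pj.id_map, h_restL_typ E hT] at hful
  -- the volume
  set v : ∀ k, ((((lb x).ovr 1 one_pos).rest E).F k).Ω → ℝ := fun k ω =>
    Pool.Agent.Helper3.UF.vx s' k ((x k).g ω) ((x k).l.p.π ω) with hv
  set C0 : ℝ := Real.logb 2 (1 + nn (2 + 1) 1) + 1 with hC0
  have hC00 : 0 ≤ C0 := by
    have h2 := Real.logb_nonneg (b := 2) (by norm_num) (show (1 : ℝ) ≤ 1 + nn (2 + 1) 1 by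
      have := nn_one (2 + 1) 1
      linarith)
    linarith
  have hbd : ∀ᶠ k in UF, ∀ ω, (((((lb x).ovr 1 one_pos).rest E).F k).μ ω ≠ 0) → 0 ≤ v k ω ∧
      v k ω ≤ 2 * (c + lam + 2 * d) * (S.F k).n + C0 := by
    filter_upwards [pr_half' hE, hcpd] with k hk hc ω hω
    have hpb : (x k).l.T.pb (E k) ≠ 0 := by
      have h5 : ul (((lb x).ovr 1 one_pos).pr E) / 2 ≤ (x k).l.T.pb (E k) := hk
      have h6 : 0 < ul (((lb x).ovr 1 one_pos).pr E) / 2 := by linarith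
      linarith
    have a1 := ((((lb x).ovr 1 one_pos).F k).rest_supp (E k) ω hω)
    obtain ⟨a2, a3⟩ : E k ω := a1.2 hpb
    have hA : PdM ((x k).g ω) := hc ω a1.1
    have hn := (S.F k).pos
    refine ⟨logGG_nonneg _ hA _, ?_⟩
    have b1 : (1 : ℝ) ≤ X k := Real.one_le_rpow (by norm_num) (by positivity)
    have b2 : (1 : ℝ) ≤ Y k := Real.one_le_rpow (by norm_num) (by positivity)
    have b3 := GG_two hA b1 b2 a2 a3
    have b4 : Real.logb 2 (X k) = 2 * (c + d) * (S.F k).n := Real.logb_rpow (by norm_num) (by norm_num)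
    have b5 : Real.logb 2 (Y k) = 2 * (lam + d) * (S.F k).n := Real.logb_rpow (by norm_num) (by norm_num)
    rw [b4, b5] at b3
    refine b3.trans (le_of_eq ?_)
    rw [hC0]
    ring
  have hnn : ∀ k, ((((lb x).ovr 1 one_pos).rest E).F k).n = (S.F k).n := fun k => (lb x).n_over 1 one_pos k |>.trans (one_mul _)
  have hUB : UB (fun k => Pool.Agent.Helper3.UF.avg (((lb x).ovr 1 one_pos).rest E) v k / (S.F k).n) := by
    have h2 := Pool.Agent.Helper3.UF.avg_UB (R := ((lb x).ovr 1 one_pos).rest E) (v := v)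
      (C := 2 * (c + lam + 2 * d) + C0) (by
        filter_upwards [hbd, S.lim.eventually (eventually_ge_atTop (1 : ℝ))] with k h2 h3 ω hω
        refine ⟨(h2 ω hω).1, (h2 ω hω).2.trans ?_⟩
        rw [hnn k]
        nlinarith)
    have h3 : (fun k => Pool.Agent.Helper3.UF.avg (((lb x).ovr 1 one_pos).rest E) v k / (S.F k).n) =
        fun k => Pool.Agent.Helper3.UF.avg (((lb x).ovr 1 one_pos).rest E) v k /
          ((((lb x).ovr 1 one_pos).rest E).F k).n := by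
      funext k
      rw [hnn k]
    rw [h3]
    exact h2
  have hav : ul (fun k => Pool.Agent.Helper3.UF.avg (((lb x).ovr 1 one_pos).rest E) v k / (S.F k).n) ≤
      2 * (c + lam + 2 * d) := by
    have t1 := (S.div_n_tendsto C0).const_add (2 * (c + lam + 2 * d))
    rw [add_zero] at t1
    refine le_of_tendsto_of_tendsto (ul_tendsto hUB) t1 ?_
    filter_upwards [hbd] with k h2
    have hn := (S.F k).pos
    rw [div_le_iff₀ hn, add_mul, div_mul_cancel₀ _ hn.ne']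
    exact sum_mul_le _ _ fun ω hω => (h2 ω hω).2
  have h7 : (2 : ℝ) - ul (fun k => Pool.Agent.Helper3.UF.avg (((lb x).ovr 1 one_pos).rest E) v k / (S.F k).n) / 2 ≤
      h (up1 (lb x) (s'.P.dg 1)) (up1 (lb x) s'.T) := hful
  linarith

/-- averages of functions bounded on a typical event -/
theorem sum_le_bad {F : FSp} {f : F.Ω → ℝ} {E : F.Ω → Prop} {B C : ℝ} (hB : 0 ≤ B)
    (h1 : ∀ ω, F.μ ω ≠ 0 → E ω → f ω ≤ B) (h2 : ∀ ω, F.μ ω ≠ 0 → f ω ≤ C) (hC : 0 ≤ C) :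
    ∑ ω, F.μ ω * f ω ≤ B + C * F.pb (fun ω => ¬ E ω) := by
  have e1 : B = ∑ ω, F.μ ω * B := by
    have e0 : ∑ ω, F.μ ω = 1 := F.ms
    rw [← Finset.sum_mul, e0, one_mul]
  have e2 : C * F.pb (fun ω => ¬ E ω) = ∑ ω, C * res F.μ (fun ω => ¬ E ω) ω := by
    rw [← Finset.mul_sum]
    rfl
  rw [e2]
  nth_rewrite 1 [e1]
  rw [← Finset.sum_add_distrib]
  refine Finset.sum_le_sum fun ω _ => ?_
  by_cases h0 : F.μ ω = 0
  · have h3 : res F.μ (fun ω => ¬ E ω) ω = 0 := by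
      unfold res
      rw [h0, ite_self]
    rw [h0, h3]
    simp
  · have hp : 0 ≤ F.μ ω := F.nn ω
    by_cases hE : E ω
    · rw [res_neg F.μ (fun ω => ¬ E ω) ω (not_not.mpr hE), mul_zero, add_zero]
      exact mul_le_mul_of_nonneg_left (h1 ω h0 hE) hp
    · rw [res_pos F.μ (fun ω => ¬ E ω) ω hE]
      have h3 := mul_le_mul_of_nonneg_left (h2 ω h0) hp
      have h4 := mul_nonneg hp hB
      nlinarith

/-- THE VOLUME over a base of dimension two -/
theorem vol_base {s : Sys S m} {s' : Sys S 2} (hF : Fac s s') {c : ℝ} (h0 : 0 ≤ c) (h1 : c < 1)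
    {x : ∀ k, FD (S.F k) (Mon (2 + 1) 1)} (hx : (gau s' 1).Opt (cA s c) (cB s) x) (hNB : NB s' (lb x))
    {lam : ℝ} (hl0 : 0 ≤ lam)
    (hlam : ∀ e : ℝ, 0 < e → Tendsto (fun k => (x k).l.T.pb (fun ω => 2 ^ (2 * (lam + e) * (S.F k).n) ≤
      sga s' 1 k ((x k).l.p.π ω) ((x k).g ω))) UF (𝓝 0)) :
    Pool.Agent.Helper52.SL.lvolP s s' 1 c ≤ 2 * (c + lam) := by
  have hdm : DMc s c (lb x) := Gau.Ad.dm (gau s' 1) hx.1
  have hcpd : ∀ᶠ k in UF, ∀ ω, (x k).l.T.μ ω ≠ 0 → PdM ((x k).g ω) := by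
    filter_upwards [hx.1 1 one_pos] with k hk ω hω
    exact (hk.2.2.1 ω hω).1.pdM
  have heig := eig_nb hF h0 h1 hdm hNB (fun k ω => (x k).g ω) hcpd
    (Eventually.of_forall fun k ω ω' a b d e => ((x k).meas ω ω' a b d e).1)
    (fun e he => by
      filter_upwards [hx.1 e he] with k hk
      exact hk.2.2.2.1)
  rw [← Pool.Agent.Helper52.SL.lvolP_eq s s' hx]
  apply le_of_forall_pos_le_add
  intro e he
  obtain ⟨d, hd0, hde⟩ : ∃ d : ℝ, 0 < d ∧ 4 * d = e := ⟨e / 4, by linarith, by ring⟩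
  set X : ℕ → ℝ := fun k => 2 ^ (2 * (c + d) * (S.F k).n) with hX
  set Y : ℕ → ℝ := fun k => 2 ^ (2 * (lam + d) * (S.F k).n) with hY
  set E : ∀ k, (x k).l.T.Ω → Prop := fun k ω =>
    (¬ ∀ u : Fin 2 → ℝ, X k * (u ⬝ᵥ u) ≤ qf ((x k).g ω) (gM u)) ∧
      ¬ Y k ≤ sga s' 1 k ((x k).l.p.π ω) ((x k).g ω) with hEd
  have hsum := (heig d hd0).add (hlam d hd0)
  rw [add_zero] at hsum
  have hT : Tendsto (fun k => (x k).l.T.pb (fun ω => ¬ E k ω)) UF (𝓝 0) := by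
    refine squeeze_zero (fun k => FSp.pb_nonneg _ _) (fun k => ?_) hsum
    refine le_trans (FSp.pb_mono _ ?_) (pb_or _ _ _)
    intro ω _ h2
    by_contra h3
    rw [not_or] at h3
    exact h2 h3
  set C0 : ℝ := Real.logb 2 (1 + nn (2 + 1) 1) + 1 with hC0
  have hC00 : 0 ≤ C0 := by
    have h2 := Real.logb_nonneg (b := 2) (by norm_num) (show (1 : ℝ) ≤ 1 + nn (2 + 1) 1 by
      have := nn_one (2 + 1) 1
      linarith)
    linarith
  obtain ⟨C, hC, hub⟩ := Pool.Agent.Helper3.PR.logGG_ub s' 1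
  have t1 := ((S.div_n_tendsto C0).const_add (2 * (c + lam + 2 * d))).add (hT.const_mul C)
  rw [add_zero, mul_zero, add_zero] at t1
  have h9 : ul (fun k => Pool.Agent.Helper3.PR.lgd s' 1 x k / (S.F k).n) ≤ 2 * (c + lam + 2 * d) := by
    refine le_of_tendsto_of_tendsto (ul_tendsto (Pool.Agent.Helper3.PR.lgd_UB s' hx.1)) t1 ?_
    filter_upwards [hub, hx.1 1 one_pos] with k h2 h3
    have hn := (S.F k).pos
    have hc : ∀ ω, (x k).l.T.μ ω ≠ 0 → Cpd ((gau s' 1).cp k) ((x k).g ω) := fun ω hω => (h3.2.2.1 ω hω).1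
    have h4 := sum_le_bad (F := (x k).l.T) (f := fun ω => Real.logb 2 (GG (S.dl 1 k) ((x k).g ω)
      (ptf s' k ((x k).l.p.π ω)))) (E := E k) (B := 2 * (c + lam + 2 * d) * (S.F k).n + C0) (C := C * (S.F k).n)
      (by positivity) (fun ω hω hE => by
        obtain ⟨a2, a3⟩ := hE
        have b1 : (1 : ℝ) ≤ X k := Real.one_le_rpow (by norm_num) (by positivity)
        have b2 : (1 : ℝ) ≤ Y k := Real.one_le_rpow (by norm_num) (by positivity)
        have b3 := GG_two (hc ω hω).pdM b1 b2 a2 a3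
        have b4 : Real.logb 2 (X k) = 2 * (c + d) * (S.F k).n := Real.logb_rpow (by norm_num) (by norm_num)
        have b5 : Real.logb 2 (Y k) = 2 * (lam + d) * (S.F k).n := Real.logb_rpow (by norm_num) (by norm_num)
        rw [b4, b5] at b3
        refine b3.trans (le_of_eq ?_)
        rw [hC0]
        ring) (fun ω hω => h2 _ ((x k).l.p.supp ω hω) _ (hc ω hω)) (by positivity)
    have h5 : Pool.Agent.Helper3.PR.lgd s' 1 x k ≤ 2 * (c + lam + 2 * d) * (S.F k).n + C0 +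
      C * (S.F k).n * (x k).l.T.pb (fun ω => ¬ E k ω) := h4
    rw [div_le_iff₀ hn]
    refine h5.trans (le_of_eq ?_)
    field_simp
  linarith

theorem prI_x_v (s : Sys S 3) (z : Fin 3) (k : ℕ) (ω : (S.F k).Ω) (j : Fin 2) :
    (prI s z).x.v k ω j = s.x.v k ω (z.succAbove j) := by
  show ∑ i, selM z j i * s.x.v k ω i = _
  unfold selM
  simp only [Matrix.of_apply, ite_mul, one_mul, zero_mul, Finset.sum_ite_eq, Finset.mem_univ, if_true]

/-- the directions are known from the directions of the base, over a label with a sheet of full depth -/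
theorem prI_x_dg {s : Sys S 3} (z : Fin 3) {J : Finset (Fin 4)} (hJ : z.succ ∉ J) {c : ℝ} (h0 : 0 ≤ c) (h1 : c < 1)
    {l : Lab S} (hl : NlA s c l) {v : ∀ k, (l k).T.Ω → Cf 4} (hv : Sht s z J 1 l v) {r : ℝ} (hr : r ≤ 1 - c) :
    up1 l (s.x.dg r) ≤ up1 l ((prI s z).x.dg r) := by
  have h2 : ∀ i : Fin 3, i ≠ z → TR.dg (TR.cor s.x i) r ≤ (prI s z).x.dg r := by
    intro i hi
    obtain ⟨j, rfl⟩ := Fin.exists_succAbove_eq hi
    refine dg_pair_le (TR.cor s.x (z.succAbove j)) (prI s z).x r (fun _ _ => True) Typ_true (fun _ => 1)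
      (S.Sub_const zero_le_one) (Eventually.of_forall fun k ω ω' _ _ _ _ _ g => ?_)
    have h3 := g j
    rw [prI_x_v, prI_x_v] at h3
    rw [one_mul]
    exact h3
  rw [← Pool.Agent.Helper52.SL.cv_dg, TR.vv_dg_le_iff]
  intro i
  rw [← ct_cor, ct_dg]
  by_cases hi : i = z
  · rw [hi]
    refine hv.x_dg h0 h1 le_rfl hl hr fun j hj => up1_mono l (h2 j fun h => hJ ?_)
    rw [← h]
    exact hj
  · exact up1_mono l (h2 i hi)

/-- FULLNESS AT A WINDOW WITH A LINEAR SHEET OF FULL DEPTH -/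
theorem full_top {g : ℝ} {s : Sys S 3} (hst : ST 1 2) (hg0 : 0 < g) (hg : Pool.Agent.Helper80.MX.Rich s g) (z : Fin 3)
    {c : ℝ} (h01 : ∀ σ, psi (GDP (selM z) 1) s c σ = 0 ∨ psi (GDP (selM z) 1) s c σ = 1) {J : Finset (Fin 4)}
    (hJ : z.succ ∉ J) (h0 : 0 ≤ c) (h1 : c < 1) (hz : HH (SJ z J) s c 1) :
    (1 - c) + (1 - lamI s z c) ≤ s.F 0 1 - Pool.Agent.Helper40.EL.ic s c := by
  obtain ⟨x, hx1, hx2⟩ := exists_canP s (prI s z) 1 c
  obtain ⟨l1, v, d1, hv⟩ := Sht_of_HH hz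
  have hd1 : DMc s c l1 := d1
  have hopt := Gau.Opt.jn (gau (prI s z) 1) hx1 hd1
  have hv' := Sht_join_right (l := lb x) hv
  have hk : IsKap s c ((lb x).join l1) := IsKap_join_left hx2 hd1
  have hF : Fac s (prI s z) := Fac.pr s _ _ _ _
  have key := full_base hF hst h0 h1 hopt
    (NB_of_rich h1 hg0 hg hk.dm (fun r _ hr => prI_x_dg z hJ h0 h1 hk.dm.1 hv' hr) h0) (lam := lamI s z c)
    (lamP_nonneg le_rfl c)
    (fun e he => trace_up (h01 _) (lt_add_of_pos_right _ he) hopt.1)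
  refine key.trans ?_
  have h3 := hk.ic_P h0 h1.le
  have h4 : s.F 0 1 = h (s.P.dg 1) s.T := by
    have e : s.F 0 1 = h (s.x.dg 0 ⊔ s.P.dg 1) s.T := rfl
    rw [e, s.x.dg_nonpos le_rfl, bot_sup_eq]
  have h5 : h (up1 ((lb x).join l1) ((prI s z).P.dg 1)) (up1 ((lb x).join l1) (prI s z).T) ≤
      h (up1 ((lb x).join l1) (s.P.dg 1)) (up1 ((lb x).join l1) s.T) := by
    rw [hF.T]
    exact h_mono (up1_mono _ (Pool.Agent.Helper3.PR.pr_P_dg s _ _ _ _ 1))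
  have h6 : h (up1 (lb fun k => (x k).jn (l1 k)) ((prI s z).P.dg 1)) (up1 (lb fun k => (x k).jn (l1 k)) (prI s z).T) ≤
      h (up1 ((lb x).join l1) (s.P.dg 1)) (up1 ((lb x).join l1) s.T) := h5
  linarith

end

end Pool.Agent.Helper91.GR
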