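import Pool.Agent.Helper91.GR.Ct

/-! Completion of the slab coordinate by an independent uniform variable; blindness and deficit in the completed box;
the coefficients of a blind sheet are a function of the point. -/

set_option autoImplicit false

namespace Pool.Agent.Helper91.GR

open Finset Filter Topology Pool.Agent.Helper69.RK Pool.Agent.Helper31.EC Pool.Agent.Helper31.EC.Sp
open Pool.Agent.Helper40.EL
open Pool.Agent.Helper3.LF (Mon)
open Pool.Agent.Helper52.SL (cv cv_dg)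
open Pool.Agent.Helper97.SL (pe z0 cdl ev_cdl ev_pe Bl DDL sslL pw exact_of_agree)

noncomputable section

theorem triv_bdd {S : Sp} : Sp.Bdd (S := S) (fun (k : ℕ) (_ : (S.F k).Ω) => ()) :=
  ((TR.vec (fun _ : Fin 1 => (0 : TR S))).bdd 0).of_fun (Eventually.of_forall fun _ _ _ _ _ _ _ => rfl)

theorem io_triv {S : Sp} : Sp.io (S := S) (fun (k : ℕ) (_ : (S.F k).Ω) => ()) = ⊥ := by
  apply le_antisymm _ bot_le
  rw [← tr_zero_dg (S := S) 0]
  exact Sp.io_le_of_fun ((TR.vec (fun _ : Fin 1 => (0 : TR S))).bdd 0)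
    (Eventually.of_forall fun _ _ _ _ _ _ _ => rfl)

/-- an extension completed by an independent copy of the space -/
def Yp {O Y : Sp} (π : Pj Y O) : AmD Y O := π.join (fun (k : ℕ) (_ : (O.F k).Ω) => ())

theorem Yp_indep {O Y : Sp} (π : Pj Y O) (x : Y.L) (y : O.L) : I ((Yp π).p1.map x) ((Yp π).p2.map y) ⊥ = 0 := by
  have h1 := Pj.join_indep π (fun (k : ℕ) (_ : (O.F k).Ω) => ()) triv_bdd x y
  rw [io_triv, Pj.map_bot, Pj.map_bot] at h1
  exact h1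

variable {S : Sp} {m N : ℕ} {C : Cd m N} {l : Lab S} {s : Sys S m} {c lam σ : ℝ}

theorem pt_dg (l : Lab S) (s : Sys S m) (j : Fin (m + 1)) (r : ℝ) :
    TR.dg (TR.cor (cv l (pv s)) j) r = up1 l (TR.dg (pc s j) r) := ct_dg l (pc s j) r

/-- the uniform variable -/
def UU {Y : Sp} (l : Lab S) (s : Sys S m) (c : ℝ) (π : Pj Y (l.ovr 1 one_pos)) : TR (Yp π).sp :=
  (Yp π).p2.tr (zf (TR.cor (cv l (pv s)) 0) c)

theorem UU_abs {Y : Sp} (π : Pj Y (l.ovr 1 one_pos)) (k : ℕ) (ω : ((Yp π).sp.F k).Ω) :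
    |TR.ev (UU l s c π) k ω| ≤ 1 := Bx.zf_abs _ _ _ _

theorem UU_dg {Y : Sp} (π : Pj Y (l.ovr 1 one_pos)) (hlit : Lit (TR.cor (cv l (pv s)) 0) c) (r : ℝ) :
    TR.dg (UU l s c π) r = (Yp π).p2.map (up1 l (s.t.dg (c + r))) := by
  unfold UU
  rw [← map_dgT, zf_dg hlit, pt_dg, pc_zero_dg]

/-- the uniform variable is full on all events -/
theorem UU_full {Y T : Sp} (π : Pj Y (l.ovr 1 one_pos)) (hl : IsKap s c l) (h0 : 0 ≤ c) (hcl : c ≤ lam) (h1 : lam ≤ 1)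
    (hlit : Lit (TR.cor (cv l (pv s)) 0) c) (q : Pj T (Yp π).sp) (E : ∀ k, (T.F k).Ω → Prop) (hE : 0 < ul (T.pr E)) :
    lam - c ≤ H (restL E hE (q.map (TR.dg (UU l s c π) (lam - c)))) := by
  rw [UU_dg π hlit, add_sub_cancel, ← Pj.comp_map, ← vE_dg]
  set p := q.comp (Yp π).p2 with hp
  have k1 := xE_IsKap (E := E) p hl hE
  have a1 := k1.H_T h0 (hcl.trans h1)
  have a2 : H ((vE (E := E) p s.t).dg 1) = 1 - c := by
    rw [vE_idp, Pj.H_map]
    exact a1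
  have a3 := (vE (E := E) p s.t).h_dg_dg h1
  have a4 := H_chain ((vE (E := E) p s.t).dg lam) ((vE (E := E) p s.t).dg 1)
  rw [sup_eq_right.mpr ((vE (E := E) p s.t).dg_mono h1)] at a4
  push_cast at a3
  linarith

variable {Y : Sp} {π : Pj Y (l.ovr 1 one_pos)} {w : ∀ k, ((l.ovr 1 one_pos).F k).Ω → Cf (m + 1)}
  {v : ∀ k, (Y.F k).Ω → Cf (m + 1)} {K : ℕ → ℝ} (D : Bx C π (cv l (pv s)) c lam σ w v K)

namespace Bx

/-- the flat digits of the point -/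
theorem fl_le : (Yp π).p1.map (π.map (up1 l ((C.fl s).dg 1 ⊔ s.T))) ≤ (D.yy (Yp π).p1 (UU l s c π)).dg (1 - c) := by
  rw [← Pj.comp_map, up1_sup, Pj.map_sup]
  apply sup_le
  · rw [← cv_dg, Pj.map_dg, TR.vv_dg_le_iff]
    intro i
    have h1 : TR.cor (((Yp π).p1.comp π).vv (cv l (C.fl s))) i =
        ((Yp π).p1.comp π).tr (TR.cor (cv l (pv s)) (C.sel i.succ)) := rfl
    rw [h1, ← map_dgT]
    exact D.flat_le (Yp π).p1 (UU l s c π) i.succ rfl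
  · have h1 : up1 l s.T = TR.dg (TR.cor (cv l (pv s)) (C.sel 0)) 1 := by
      rw [C.sel0, pt_dg, pc_zero_dg]
      rfl
    rw [h1]
    exact D.flat_le (Yp π).p1 (UU l s c π) 0 rfl

/-- all digits of the last coordinate of the base -/
theorem M_le : up1 l (C.M s 1 ⊔ s.T) ≤ up1 l ((C.fl s).dg 1 ⊔ s.T) ⊔
    TR.dg (rh w (cv l (pv s)) C lam K D.K0) (1 - lam) := by
  have h1 : up1 l (TR.dg (pc s C.R.succ) 1) ≤ up1 l ((C.fl s).dg 1 ⊔ s.T) ⊔
      TR.dg (rh w (cv l (pv s)) C lam K D.K0) (1 - lam) := by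
    rw [← pt_dg]
    apply D.R_le
    · intro a
      rw [pt_dg]
      refine le_trans ?_ le_sup_left
      apply up1_mono
      apply C.sel_le s 1
      unfold Cd.JR
      exact Finset.mem_image_of_mem _ (Finset.mem_univ a)
    · exact le_sup_right
  unfold Cd.M
  rw [up1_sup, up1_sup]
  refine sup_le (sup_le ?_ h1) ?_
  · exact (up1_mono l le_sup_left).trans le_sup_left
  · exact (up1_mono l le_sup_right).trans le_sup_left

theorem M_le_yy : (Yp π).p1.map (π.map (up1 l (C.M s 1 ⊔ s.T))) ≤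
    (D.yy (Yp π).p1 (UU l s c π)).dg (1 - c) := by
  have h1 := Pj.map_mono (Yp π).p1 (Pj.map_mono π D.M_le)
  rw [Pj.map_sup, Pj.map_sup] at h1
  refine h1.trans (sup_le D.fl_le ?_)
  rw [← Pj.comp_map]
  exact D.slab_le (Yp π).p1 (UU l s c π) (UU_abs π)

/-- COUNT in the completed box -/
theorem count (hl : IsKap s c l) {X : Y.L} {ε : ℝ}
    (hX : ∀ (T : Sp) (q : Pj T Y) (E : ∀ k, (T.F k).Ω → Prop) (hE : 0 < ul (T.pr E)),
      (N + 1) * (1 - c) + (1 - lam) - ε ≤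
        h (restL E hE (q.map (π.map (up1 l (C.M s 1 ⊔ s.T))))) (restL E hE (q.map X)))
    (T : Sp) (q : Pj T (Yp π).sp) (E : ∀ k, (T.F k).Ω → Prop) (hE : 0 < ul (T.pr E)) :
    ((N + 1 + 1 : ℕ) : ℝ) * (1 - c) - ε ≤
      h (restL E hE (q.map ((D.yy (Yp π).p1 (UU l s c π)).dg (1 - c)))) (restL E hE (q.map ((Yp π).p1.map X))) := by
  set φ : (Yp π).sp.L → (T.rest E).L := fun x => restL E hE (q.map x) with hφ
  have φm : ∀ {x y : (Yp π).sp.L}, x ≤ y → φ x ≤ φ y := fun h => restL_mono E hE (Pj.map_mono q h)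
  have φs : ∀ x y : (Yp π).sp.L, φ (x ⊔ y) = φ x ⊔ φ y := fun x y => by
    show restL E hE (q.map (x ⊔ y)) = _
    rw [Pj.map_sup, restL_sup]
  set yc := (D.yy (Yp π).p1 (UU l s c π)).dg (1 - c) with hyc
  set X' := (Yp π).p1.map X with hX'
  set a : Y.L := π.map (up1 l (C.M s 1 ⊔ s.T)) with ha
  set rf : Y.L := π.map (TR.dg (fc' (rh w (cv l (pv s)) C lam K D.K0) (1 - lam) (sub_nonneg.mpr D.l1)) (1 - c)) with hrf
  set u := TR.dg (UU l s c π) (lam - c) with hu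
  show _ ≤ h (φ yc) (φ X')
  have e1 : φ ((Yp π).p1.map a) ≤ φ yc := φm D.M_le_yy
  have e2 : h (φ yc) (φ X') = h (φ ((Yp π).p1.map a)) (φ X') + h (φ yc) (φ ((Yp π).p1.map a) ⊔ φ X') := by
    rw [← h_chain, sup_eq_right.mpr e1]
  have e3 : (N + 1) * (1 - c) + (1 - lam) - ε ≤ h (φ ((Yp π).p1.map a)) (φ X') := by
    have := hX T (q.comp (Yp π).p1) E hE
    rwa [Pj.comp_map, Pj.comp_map] at this
  have e4 : φ u ≤ φ yc ⊔ φ ((Yp π).p1.map rf) := by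
    rw [← φs]
    apply φm
    have := D.U_le (Yp π).p1 (UU l s c π)
    rwa [Pj.comp_map] at this
  have e5 : h (φ u) (φ ((Yp π).p1.map a) ⊔ φ X' ⊔ φ ((Yp π).p1.map rf)) ≤
      h (φ yc) (φ ((Yp π).p1.map a) ⊔ φ X') := by
    refine le_trans ?_ (h_anti (le_sup_left : φ ((Yp π).p1.map a) ⊔ φ X' ≤
      φ ((Yp π).p1.map a) ⊔ φ X' ⊔ φ ((Yp π).p1.map rf)))
    have e6 : h (φ u) (φ ((Yp π).p1.map a) ⊔ φ X' ⊔ φ ((Yp π).p1.map rf)) ≤
        h (φ yc ⊔ φ ((Yp π).p1.map rf)) (φ ((Yp π).p1.map a) ⊔ φ X' ⊔ φ ((Yp π).p1.map rf)) := h_mono e4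
    rwa [h_sup_right_of_le le_sup_right] at e6
  have e7 : I (φ ((Yp π).p1.map (a ⊔ X ⊔ rf))) (φ u) ⊥ = 0 := by
    have f1 : I ((Yp π).p1.map (a ⊔ X ⊔ rf)) u ⊥ = 0 := by
      rw [hu, UU_dg π (D.lit 0)]
      exact Yp_indep π _ _
    have f2 := I_rest_zero E hE ((q.I_map _ _ _).trans f1)
    rw [Pj.map_bot, restL_bot] at f2
    exact f2
  have e8 : h (φ u) (φ ((Yp π).p1.map a) ⊔ φ X' ⊔ φ ((Yp π).p1.map rf)) = H (φ u) := by
    have f1 : φ ((Yp π).p1.map a) ⊔ φ X' ⊔ φ ((Yp π).p1.map rf) = φ ((Yp π).p1.map (a ⊔ X ⊔ rf)) := by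
      rw [Pj.map_sup, Pj.map_sup, φs, φs]
    have f2 := I_zero_iff_h'.mp e7
    rw [sup_bot_eq, h_bot] at f2
    rw [f1, f2]
  have e9 : lam - c ≤ H (φ u) := UU_full π hl D.c0 D.cl D.l1 (D.lit 0) q E hE
  push_cast
  nlinarith

end Bx

end

end Pool.Agent.Helper91.GR
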