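import Pool.Agent.Helper91.GR.Rnd

/-! LIP: the depth of a sheet at the window `c` near a corner `c0` of full depth. -/

set_option autoImplicit false

namespace Pool.Agent.Helper91.GR

open Finset Filter Topology Pool.Agent.Helper69.RK Pool.Agent.Helper31.EC Pool.Agent.Helper31.EC.Sp
open Pool.Agent.Helper40.EL Pool.Agent.Helper42.NS
open Pool.Agent.Helper3.LF (pl pl_zero pl_succ sp_Sub sp_dl)
open Pool.Agent.Helper52.SL (cv cv_dg)

noncomputable section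

variable {m N : ℕ} {C : Cd m N}

namespace Bx

variable {O Y : Sp} {π : Pj Y O} {P : O.VV (m + 1)} {c lam σ : ℝ} {w : ∀ k, (O.F k).Ω → Cf (m + 1)}
  {v : ∀ k, (Y.F k).Ω → Cf (m + 1)} {K : ℕ → ℝ}

/-- digits of the sheet -/
theorem z_le (D : Bx C π P c lam σ w v K) {α : ℕ → Type} {X : ∀ k, (Y.F k).Ω → α k} (hX : Sp.Bdd X)
    (hXv : ∀ᶠ k in UF, ∀ ω ω', (Y.F k).μ ω ≠ 0 → (Y.F k).μ ω' ≠ 0 → (Y.F k).Z ω ω' → X k ω = X k ω' →
      v k ω = v k ω') :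
    π.map (TR.dg (TR.cor P C.z.succ) σ) ≤ π.map ((msk C.Jz P).dg σ) ⊔ Sp.io X := by
  have e1 : Sp.io (fun k ω => ((π.vv (msk C.Jz P)).cellv σ k ω, X k ω)) = (π.vv (msk C.Jz P)).dg σ ⊔ Sp.io X :=
    Sp.io_pair ((π.vv (msk C.Jz P)).bdd σ) hX
  rw [Pj.map_dg, ← e1]
  have e2 : π.map (TR.dg (TR.cor P C.z.succ) σ) = (π.vv (TR.vec fun _ : Fin 1 => TR.cor P C.z.succ)).dg σ :=
    Pj.map_dg π _ σ
  rw [e2]
  have hK : Y.Sub (fun k => K k + K k + (m + 1 : ℕ) * K k) :=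
    (D.K0Y.add D.K0Y).add ((Y.Sub_const (Nat.cast_nonneg (m + 1))).mul D.K0Y)
  refine VV.dg_le_io _ _ (((π.vv (msk C.Jz P)).bdd σ).pair hX) D.GY D.GY_typ _ hK ?_
  filter_upwards [hXv, D.hv] with k h1 hv ω ω' hω hω' hG hG' hZ hXe i
  have K1 := D.K1 k
  have f1 : v k ω = v k ω' := h1 ω ω' hω hω' hZ (congrArg Prod.snd hXe)
  have f2 := (π.vv (msk C.Jz P)).cellv_close σ k ω ω' (congrArg Prod.fst hXe)
  have g1 := hG.2
  have g2 := hG'.2
  rw [← f1] at g2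
  have d0 : Y.dl σ k = O.dl σ k := Pool.Agent.Helper97.SL.dl_pj π σ k
  rw [d0] at f2 ⊢
  have hd := O.dl_pos σ k
  have g3 : |aff C.Jz (v k ω) (P.v k (π.π k ω)) - aff C.Jz (v k ω) (P.v k (π.π k ω'))| ≤
      (m + 1 : ℕ) * K k * O.dl σ k := by
    unfold aff
    rw [add_sub_add_left_eq_sub, ← Finset.sum_sub_distrib]
    refine (Finset.abs_sum_le_sum_abs _ _).trans ?_
    calc ∑ j ∈ C.Jz, |(v k ω).2 j * P.v k (π.π k ω) j - (v k ω).2 j * P.v k (π.π k ω') j| ≤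
          ∑ _j ∈ C.Jz, K k * O.dl σ k := by
          apply Finset.sum_le_sum
          intro j hj
          rw [← mul_sub, abs_mul]
          have h4 := f2 j
          have h5 : (π.vv (msk C.Jz P)).v k ω j = P.v k (π.π k ω) j := if_pos hj
          have h6 : (π.vv (msk C.Jz P)).v k ω' j = P.v k (π.π k ω') j := if_pos hj
          rw [h5, h6] at h4
          exact mul_le_mul (hv ω hω j) h4 (abs_nonneg _) (by linarith)
      _ ≤ ∑ _j : Fin (m + 1), K k * O.dl σ k := by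
          apply Finset.sum_le_sum_of_subset_of_nonneg (Finset.subset_univ _)
          intro _ _ _
          positivity
      _ = (m + 1 : ℕ) * K k * O.dl σ k := by
          rw [Finset.sum_const, Finset.card_univ, Fintype.card_fin, nsmul_eq_mul]
          ring
  show |P.v k (π.π k ω) C.z.succ - P.v k (π.π k ω') C.z.succ| ≤ (K k + K k + (m + 1 : ℕ) * K k) * O.dl σ k
  have e3 : P.v k (π.π k ω) C.z.succ - P.v k (π.π k ω') C.z.succ =
      (P.v k (π.π k ω) C.z.succ - aff C.Jz (v k ω) (P.v k (π.π k ω))) -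
      (P.v k (π.π k ω') C.z.succ - aff C.Jz (v k ω) (P.v k (π.π k ω'))) +
      (aff C.Jz (v k ω) (P.v k (π.π k ω)) - aff C.Jz (v k ω) (P.v k (π.π k ω'))) := by ring
  rw [e3]
  refine (abs_add_le _ _).trans ?_
  have e4 := abs_sub (P.v k (π.π k ω) C.z.succ - aff C.Jz (v k ω) (P.v k (π.π k ω)))
    (P.v k (π.π k ω') C.z.succ - aff C.Jz (v k ω) (P.v k (π.π k ω')))
  rw [add_mul, add_mul]
  linarith

end Bx

variable {S : Sp} {l : Lab S} {s : Sys S m} {c c0 lam lam0 σ : ℝ} {Y : Sp} {π : Pj Y (l.ovr 1 one_pos)}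
  {w : ∀ k, ((l.ovr 1 one_pos).F k).Ω → Cf (m + 1)} {v : ∀ k, (Y.F k).Ω → Cf (m + 1)} {K : ℕ → ℝ}

theorem msk_Jz_le {r : ℝ} (hr : r ≤ 1) : (msk C.Jz (cv l (pv s))).dg r ≤ up1 l (C.M s 1 ⊔ s.T) := by
  apply msk_dg_le
  intro j hj
  have e1 : TR.dg (TR.cor (cv l (pv s)) j) r = up1 l (TR.dg (pc s j) r) := pt_dg l s j r
  rw [e1]
  apply up1_mono
  unfold Cd.Jz at hj
  rw [Finset.mem_insert] at hj
  rcases hj with rfl | hj
  · exact ((TR.dg_mono _ hr).trans le_sup_right : TR.dg (pc s C.R.succ) r ≤ C.M s 1).trans le_sup_left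
  · exact (C.sel_le s r j hj).trans (sup_le ((((C.fl s).dg_mono hr).trans le_sup_left : (C.fl s).dg r ≤ C.M s 1).trans
      le_sup_left) ((s.t.dg_mono hr).trans le_sup_right))

/-- COUNT -/
theorem Bx.cnt (D : Bx C π (cv l (pv s)) c lam σ w v K) {α : ℕ → Type} {X : ∀ k, (Y.F k).Ω → α k} (hX : Sp.Bdd X)
    (hXv : ∀ᶠ k in UF, ∀ ω ω', (Y.F k).μ ω ≠ 0 → (Y.F k).μ ω' ≠ 0 → (Y.F k).Z ω ω' → X k ω = X k ω' →
      v k ω = v k ω') {T : Sp} (q : Pj T Y) (E : ∀ k, (T.F k).Ω → Prop) (hE : 0 < ul (T.pr E)) {A : ℝ}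
    (hA : A ≤ h ((vE (E := E) (q.comp π) s.P).dg 1 ⊔ (vE (E := E) (q.comp π) s.t).dg 1)
      (restL E hE (q.map (Sp.io X)))) :
    A - (1 - σ) ≤ h (restL E hE (q.map (π.map (up1 l (C.M s 1 ⊔ s.T))))) (restL E hE (q.map (Sp.io X))) := by
  have e1 : (vE (E := E) (q.comp π) s.P).dg 1 ⊔ (vE (E := E) (q.comp π) s.t).dg 1 =
      restL E hE (q.map (π.map (up1 l (C.M s 1 ⊔ s.T)))) ⊔
        restL E hE (q.map (π.map (up1 l (TR.dg (pc s C.z.succ) 1)))) := by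
    rw [vE_sup (q.comp π) s.P s.t 1 1 hE, C.P_eq s 1, Pj.comp_map, ← restL_sup, ← Pj.map_sup, ← Pj.map_sup, ← up1_sup]
    have e2 : C.M s 1 ⊔ TR.dg (pc s C.z.succ) 1 ⊔ s.t.dg 1 = C.M s 1 ⊔ s.T ⊔ TR.dg (pc s C.z.succ) 1 := by
      rw [sup_assoc, sup_comm (TR.dg (pc s C.z.succ) 1), ← sup_assoc]
      rfl
    rw [e2]
  have e3 : restL E hE (q.map (π.map (up1 l (TR.dg (pc s C.z.succ) σ)))) ≤
      restL E hE (q.map (π.map (up1 l (C.M s 1 ⊔ s.T)))) ⊔ restL E hE (q.map (Sp.io X)) := by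
    have f1 := D.z_le hX hXv
    have f2 : TR.dg (TR.cor (cv l (pv s)) C.z.succ) σ = up1 l (TR.dg (pc s C.z.succ) σ) := pt_dg l s C.z.succ σ
    rw [f2] at f1
    have f3 := f1.trans (sup_le_sup_right (Pj.map_mono π (msk_Jz_le (C := C) (l := l) (s := s) D.s1)) _)
    have f4 := restL_mono E hE (Pj.map_mono q f3)
    rwa [Pj.map_sup, restL_sup] at f4
  have e4 : h (restL E hE (q.map (π.map (up1 l (TR.dg (pc s C.z.succ) 1)))))
      (restL E hE (q.map (π.map (up1 l (TR.dg (pc s C.z.succ) σ))))) ≤ 1 - σ := by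
    have f1 : ∀ r, restL E hE (q.map (π.map (up1 l (TR.dg (pc s C.z.succ) r)))) =
        (vE (E := E) (q.comp π) (TR.vec fun _ : Fin 1 => pc s C.z.succ)).dg r := by
      intro r
      rw [vE_dg _ _ _ hE, Pj.comp_map]
      rfl
    rw [f1, f1]
    have f2 := (vE (E := E) (q.comp π) (TR.vec fun _ : Fin 1 => pc s C.z.succ)).h_dg_dg D.s1
    simpa using f2
  rw [e1, h_chain] at hA
  have e5 := (h_anti (A := restL E hE (q.map (π.map (up1 l (TR.dg (pc s C.z.succ) 1))))) e3).trans e4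
  linarith

/-- DEFICIT: LEMMA NC on all events of all extensions -/
theorem dfc (h0 : 0 ≤ c0) (hcl : c0 ≤ lam0) (h1 : lam0 ≤ 1) (hp : Pool.Agent.Helper52.SL.RobP s)
    (hi : Pool.Agent.Helper52.KP.RobustI s) (hz : HH (SJ C.z C.Jz) s c0 1) (hR : HH (SJ C.R C.JR) s c0 lam0)
    (hfull : N * (1 - c0) + (1 - lam0) ≤ s.F 0 1 - Pool.Agent.Helper40.EL.ic s c0) {T : Sp}
    (q : Pj T (l.ovr 1 one_pos)) (E : ∀ k, (T.F k).Ω → Prop) (hE : 0 < ul (T.pr E)) {r r' : ℝ} (hr : lam0 ≤ r)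
    (hrr : r ≤ r') (hr' : r' ≤ 1) : h (restL E hE (q.map (up1 l (TR.dg (pc s C.z.succ) r'))))
      (restL E hE (q.map (up1 l (C.M s 1 ⊔ s.T))) ⊔ restL E hE (q.map (up1 l (TR.dg (pc s C.z.succ) r)))) ≤
      s.F 0 r' - s.F 0 r - (N + 1) * (r' - r) := by
  have hz' : HH (SJ C.z C.Jz) (sE q s hE) c0 1 := HH_im' hz (xl l q).pj E hE
  have hR' : HH (SJ C.R C.JR) (sE q s hE) c0 lam0 := HH_im' hR (xl l q).pj E hE
  obtain ⟨l', v', w', hl', hv', hw'⟩ := exists_kap2 hz' hR'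
  have a1 : ∀ u : ℝ, 0 ≤ u → u ≤ 1 → (sE q s hE).F 0 u = s.F 0 u := fun u h0 h1 =>
    hp 0 u le_rfl zero_le_one h0 h1 (xl l q).sp (xl l q).pj E hE
  have a2 : ic (sE q s hE) c0 = ic s c0 := hi c0 h0 (hcl.trans h1) (xl l q).sp (xl l q).pj E hE
  have a3 : (sE q s hE).F 0 1 = h ((sE q s hE).P.dg 1) (sE q s hE).T := by
    have e : (sE q s hE).F 0 1 = h ((sE q s hE).x.dg 0 ⊔ (sE q s hE).P.dg 1) (sE q s hE).T := rfl
    rw [e, (sE q s hE).x.dg_nonpos le_rfl, bot_sup_eq]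
  have a4 := C.nc h0 hcl h1 hl' hv' hw' (by rw [← a3, a1 1 zero_le_one le_rfl, a2]; exact hfull) hr hrr hr'
  have hr0 : 0 ≤ r := (h0.trans hcl).trans hr
  rw [a1 r' (hr0.trans hrr) hr', a1 r hr0 (hrr.trans hr')] at a4
  refine le_trans ?_ a4
  have b1 : ∀ u, restL E hE (q.map (up1 l (TR.dg (pc s C.z.succ) u))) =
      (idp (E := E) q).map (up1 (xE l q E) (TR.dg (pc (sE q s hE) C.z.succ) u)) := by
    intro u
    have f1 := vE_dg (E := E) q (TR.vec fun _ : Fin 1 => pc s C.z.succ) u hE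
    have f2 := vE_idp (E := E) q (TR.vec fun _ : Fin 1 => pc s C.z.succ) u
    exact f1.symm.trans f2
  have b2 : restL E hE (q.map (up1 l (C.M s 1 ⊔ s.T))) =
      (idp (E := E) q).map (up1 (xE l q E) (C.M (sE q s hE) 1 ⊔ (sE q s hE).T)) := by
    have f1 := (vE_dg (E := E) q (C.fl s) 1 hE).symm.trans (vE_idp (E := E) q (C.fl s) 1)
    have f2 := (vE_dg (E := E) q (TR.vec fun _ : Fin 1 => pc s C.R.succ) 1 hE).symm.trans
      (vE_idp (E := E) q (TR.vec fun _ : Fin 1 => pc s C.R.succ) 1)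
    have f3 := (vE_dg (E := E) q s.t 1 hE).symm.trans (vE_idp (E := E) q s.t 1)
    have g1 : restL E hE (q.map (up1 l (C.M s 1 ⊔ s.T))) = restL E hE (q.map (up1 l ((C.fl s).dg 1))) ⊔
        restL E hE (q.map (up1 l ((TR.vec fun _ : Fin 1 => pc s C.R.succ).dg 1))) ⊔
        restL E hE (q.map (up1 l (s.t.dg 1))) := by
      rw [← restL_sup, ← restL_sup, ← Pj.map_sup, ← Pj.map_sup, ← up1_sup, ← up1_sup]
      rfl
    rw [g1, f1, f2, f3, ← Pj.map_sup, ← Pj.map_sup, ← up1_sup, ← up1_sup]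
    rfl
  rw [b1, b1, b2, ← Pj.map_sup, ← up1_sup, Pj.h_map]
  refine (h_up1_le _ _ _).trans (le_of_eq ?_)
  congr 1
  rw [sup_assoc, sup_comm (sE q s hE).T]

end

end Pool.Agent.Helper91.GR
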