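import Pool.Agent.Helper91.GR.Lip2
import Pool.Agent.Helper19.S12.Win
import Pool.Agent.Helper54.NS.Dens
import Pool.Agent.Helper52.SL.Sel

/-! LIP near a corner: density form. -/

set_option autoImplicit false

namespace Pool.Agent.Helper91.GR

open Filter Topology MeasureTheory Set Pool.Agent.Helper69.RK Pool.Agent.Helper31.EC Pool.Agent.Helper31.EC.Sp
open Pool.Agent.Helper42.NS Pool.Agent.Helper19.S12
open scoped NNReal ENNReal

/-- increments near a left density point of the levels with derivative at most `b` -/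
theorem dens_incr {y : ℝ → ℝ} {K : ℝ≥0} (hy : LipschitzWith K y) {b l : ℝ}
    (hd : Tendsto (fun δ : ℝ => volume (Ioo (l - δ) l \ {r | ∃ y' ≤ b, HasDerivAt y y' r}) / ENNReal.ofReal δ)
      (𝓝[>] 0) (𝓝 0)) {e : ℝ} (he : 0 < e) : ∃ δ0 > 0, ∀ δ, 0 < δ → δ < δ0 → ∀ r r', l - δ ≤ r → r ≤ r' → r' ≤ l →
      y r' - y r ≤ b * (r' - r) + e * δ := by
  set D : Set ℝ := {r | ∃ y' ≤ b, HasDerivAt y y' r} with hD
  have hDm : MeasurableSet D := Pool.Agent.Helper54.NS.meas_level y b
  set M : ℝ := K + |b| + 1 with hM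
  have hM0 : 0 < M := by positivity
  have he' : 0 < e / M := div_pos he hM0
  have h1 : ∀ᶠ δ : ℝ in 𝓝[>] 0, volume (Ioo (l - δ) l \ D) / ENNReal.ofReal δ < ENNReal.ofReal (e / M) :=
    hd.eventually (gt_mem_nhds (by simpa using he'))
  rw [eventually_nhdsWithin_iff, Metric.eventually_nhds_iff] at h1
  obtain ⟨δ0, hδ0, h1⟩ := h1
  refine ⟨δ0, hδ0, fun δ hδ hδ1 r r' hr hrr hr' => ?_⟩
  have h2 := h1 (y := δ) (by rw [Real.dist_eq, sub_zero, abs_of_pos hδ]; exact hδ1) hδ
  have h3 : volume (Ioo (l - δ) l \ D) ≤ ENNReal.ofReal (e / M * δ) := by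
    have h4 := (ENNReal.div_le_iff (by simpa using hδ) ENNReal.ofReal_ne_top).mp h2.le
    rwa [← ENNReal.ofReal_mul he'.le] at h4
  have hac : AbsolutelyContinuousOnInterval y r r' := hy.lipschitzOnWith.absolutelyContinuousOnInterval
  have hint := hac.integral_deriv_eq_sub
  have hbd : ∫ x in r..r', deriv y x ≤ ∫ x in r..r', (b + M * Dᶜ.indicator (fun _ => (1 : ℝ)) x) := by
    have hi2 : IntervalIntegrable (fun x => b + M * Dᶜ.indicator (fun _ => (1 : ℝ)) x) volume r r' := by
      apply IntervalIntegrable.add intervalIntegrable_const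
      apply IntervalIntegrable.const_mul
      rw [intervalIntegrable_iff]
      exact Integrable.indicator (intervalIntegrable_iff.mp (intervalIntegrable_const (c := (1 : ℝ)))) hDm.compl
    refine intervalIntegral.integral_mono_ae_restrict hrr hac.intervalIntegrable_deriv hi2 ?_
    refine Eventually.of_forall fun x => ?_
    show deriv y x ≤ b + M * Dᶜ.indicator (fun _ => (1 : ℝ)) x
    by_cases hx : x ∈ D
    · rw [indicator_of_notMem (by simpa using hx), mul_zero, add_zero]
      obtain ⟨y', h5, h6⟩ := hx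
      rw [h6.deriv]
      exact h5
    · rw [indicator_of_mem hx, mul_one]
      have h5 := norm_deriv_le_of_lipschitz (x₀ := x) hy
      rw [Real.norm_eq_abs] at h5
      have h6 := (abs_le.mp h5).2
      have h7 := neg_abs_le b
      linarith
  have hcomp : ∫ x in r..r', (b + M * Dᶜ.indicator (fun _ => (1 : ℝ)) x) =
      b * (r' - r) + M * (volume (Ioc r r' ∩ Dᶜ)).toReal := by
    have hi3 : IntervalIntegrable (fun x => M * Dᶜ.indicator (fun _ => (1 : ℝ)) x) volume r r' := by
      apply IntervalIntegrable.const_mul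
      rw [intervalIntegrable_iff]
      exact Integrable.indicator (intervalIntegrable_iff.mp (intervalIntegrable_const (c := (1 : ℝ)))) hDm.compl
    rw [intervalIntegral.integral_add intervalIntegrable_const hi3, intervalIntegral.integral_const,
      intervalIntegral.integral_const_mul, smul_eq_mul, mul_comm, intervalIntegral.integral_of_le hrr]
    congr 2
    rw [setIntegral_indicator hDm.compl, setIntegral_const, smul_eq_mul, mul_one]
    rfl
  have h8 : (volume (Ioc r r' ∩ Dᶜ)).toReal ≤ e / M * δ := by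
    have h9 : volume (Ioc r r' ∩ Dᶜ) ≤ ENNReal.ofReal (e / M * δ) := by
      refine le_trans ?_ h3
      have h10 : volume (Ioc r r' ∩ Dᶜ) = volume (Ioo r r' ∩ Dᶜ) := by
        apply measure_congr
        exact Ioo_ae_eq_Ioc.symm.inter (ae_eq_refl _)
      rw [h10]
      apply measure_mono
      rintro x ⟨⟨a1, a2⟩, a3⟩
      exact ⟨⟨by linarith, by linarith⟩, a3⟩
    have h11 := ENNReal.toReal_mono ENNReal.ofReal_ne_top h9
    rwa [ENNReal.toReal_ofReal (by positivity)] at h11
  have h12 : M * (volume (Ioc r r' ∩ Dᶜ)).toReal ≤ e * δ := by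
    calc M * (volume (Ioc r r' ∩ Dᶜ)).toReal ≤ M * (e / M * δ) := mul_le_mul_of_nonneg_left h8 hM0.le
      _ = e * δ := by field_simp
  rw [← hint]
  linarith

/-- LIP, density form: the depth `la` of the `z` sheet is Lipschitz at the corner `c0` from the left, if the depth of the
slab is Lipschitz there and less than `1` -/
theorem lip_dens (N : ℕ) {b C1 : ℝ} (hb : b < N + 2) (hC1 : 0 ≤ C1) : ∃ Cc : ℝ, 0 ≤ Cc ∧
    ∀ {S : Sp} {m : ℕ} {C : Cd m N} {s : Sys S m} {c0 d : ℝ}, 0 < d → 0 ≤ c0 - d →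
    Pool.Agent.Helper52.SL.RobP s → Pool.Agent.Helper52.KP.RobustI s → HH (SJ C.z C.Jz) s c0 1 →
    la s C.R C.JR c0 < 1 →
    N * (1 - c0) + (1 - la s C.R C.JR c0) ≤ s.F 0 1 - Pool.Agent.Helper40.EL.ic s c0 →
    (∀ c ∈ Ioo (c0 - d) c0, la s C.R C.JR c0 - la s C.R C.JR c ≤ C1 * (c0 - c)) →
    Tendsto (fun δ : ℝ => volume (Ioo (1 - δ) 1 \ Pool.Agent.Helper52.SL.defic s b) / ENNReal.ofReal δ) (𝓝[>] 0)
      (𝓝 0) →
    ∃ d' > 0, d' ≤ d ∧ ∀ c ∈ Ioo (c0 - d') c0, 1 - la s C.z C.Jz c ≤ Cc * (c0 - c) := by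
  set ρ : ℝ := min 1 (N + 2 - b) with hρd
  have hρ : 0 < ρ := lt_min one_pos (by linarith)
  have hρ1 : ρ ≤ 1 := min_le_left _ _
  have hρ2 : ρ ≤ N + 2 - b := min_le_right _ _
  obtain ⟨K, hK, hlip⟩ := lip N ρ hρ hρ1
  have hN : (0 : ℝ) ≤ N := Nat.cast_nonneg N
  set A : ℝ := (N + 1) + C1 with hA
  have hA1 : 1 ≤ A := by linarith
  have hKA : 1 ≤ K * A := by nlinarith
  refine ⟨1 + K * A, by linarith, ?_⟩
  intro S m C s c0 d hd0 hd1 hp hi hz hlt hfull hspd hden
  obtain ⟨δ0, hδ0, hinc⟩ := dens_incr (Pool.Agent.Helper52.SL.y_lip s) hden (e := 1 / (2 * K)) (by positivity)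
  set lam0 : ℝ := la s C.R C.JR c0 with hlam0
  refine ⟨min d (min (δ0 / (1 + K * A)) ((1 - lam0) / (1 + K * A))), ?_, min_le_left _ _, ?_⟩
  · refine lt_min hd0 (lt_min (div_pos hδ0 (by linarith)) (div_pos (by linarith) (by linarith)))
  · intro c hc
    have h1 : c0 - c < d := by
      have := min_le_left d (min (δ0 / (1 + K * A)) ((1 - lam0) / (1 + K * A)))
      linarith [hc.1]
    have h2 : (1 + K * A) * (c0 - c) < δ0 := by
      have := (min_le_right d _).trans (min_le_left (δ0 / (1 + K * A)) ((1 - lam0) / (1 + K * A)))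
      have h3 : c0 - c < δ0 / (1 + K * A) := by linarith [hc.1]
      rw [lt_div_iff₀ (by linarith)] at h3
      linarith
    have h3 : (1 + K * A) * (c0 - c) < 1 - lam0 := by
      have := (min_le_right d _).trans (min_le_right (δ0 / (1 + K * A)) ((1 - lam0) / (1 + K * A)))
      have h3 : c0 - c < (1 - lam0) / (1 + K * A) := by linarith [hc.1]
      rw [lt_div_iff₀ (by linarith)] at h3
      linarith
    have hcc : 0 < c0 - c := by linarith [hc.2]
    have h0 : 0 ≤ c := by linarith
    have hc01 : c0 ≤ 1 := by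
      by_contra hcon
      push Not at hcon
      have := hlt
      have h5 := la_mono (s := s) (i := C.R) (J := C.JR) hcon.le
      have h6 : (1 : ℝ) ≤ la s C.R C.JR 1 := la_ge_self zero_le_one le_rfl
      linarith
    set R : ℝ := K * A * (c0 - c) with hR
    have hR0 : 0 < R := by positivity
    have hRc : c0 - c ≤ R := by
      rw [hR]
      nlinarith
    have h4 := hspd c ⟨by linarith, hc.2⟩
    have h5 := hlip (C := C) (s := s) (c := c) (c0 := c0) (lam := la s C.R C.JR c) (lam0 := lam0) (R := R)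
      (κ := 1 / (2 * K) * (R + (c0 - c))) h0 (by linarith) (la_ge_self h0 (by linarith))
      (la_ge_self (by linarith) hc01) (la_le_one c) hp hi hz (HH_la c0) (HH_la c) hfull hR0
      (by linarith) ?_ ?_ ?_
    · have h6 := le_la h5
      linarith
    · rw [hR]
      have h7 : (N + 1) * (c0 - c) + (lam0 - la s C.R C.JR c) ≤ A * (c0 - c) := by
        rw [hA]
        linarith
      calc K * ((N + 1) * (c0 - c) + (lam0 - la s C.R C.JR c)) ≤ K * (A * (c0 - c)) :=
            mul_le_mul_of_nonneg_left h7 (by linarith)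
        _ = K * A * (c0 - c) := by ring
    · have h7 : K * (1 / (2 * K) * (R + (c0 - c))) = (R + (c0 - c)) / 2 := by
        field_simp
      rw [h7]
      linarith
    · intro r r' hr hrr hr'
      have h7 := hinc (R + (c0 - c)) (by linarith) (by linarith) r r' (by linarith) hrr (by linarith)
      have h8 : b * (r' - r) ≤ (N + 2 - ρ) * (r' - r) := mul_le_mul_of_nonneg_right (by linarith) (by linarith)
      linarith

end Pool.Agent.Helper91.GR
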