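import Pool.Agent.Helper91.GR.Lip3
import Pool.Agent.Helper51.LP.FlV

/-! LIP for systems of lines of space with three coordinates `y, R, z`: FLAG SPEED and SSL. -/

set_option autoImplicit false

namespace Pool.Agent.Helper91.GR

open Filter Topology MeasureTheory Set Pool.Agent.Helper69.RK Pool.Agent.Helper31.EC Pool.Agent.Helper31.EC.Sp
open Pool.Agent.Helper42.NS Pool.Agent.Helper19.S12 Pool.Agent.Helper40.EL
open scoped NNReal ENNReal

/-- the flat coordinate -/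
theorem Cd.exists_y {m : ℕ} (C : Cd m 1) : ∃ iy : Fin m, C.JR = {0, iy.succ} ∧ iy.succ ≠ C.R.succ ∧
    iy.succ ≠ C.z.succ ∧ ∀ i, i = iy ∨ i = C.R ∨ i = C.z := by
  have h1 : C.sel 1 ≠ 0 := by
    intro h
    have h2 := C.inj (h.trans C.sel0.symm)
    exact one_ne_zero h2
  obtain ⟨iy, hiy⟩ := Fin.exists_succ_eq.mpr h1
  refine ⟨iy, ?_, ?_, ?_, ?_⟩
  · unfold Cd.JR
    ext j
    simp only [Finset.mem_image, Finset.mem_univ, true_and, Finset.mem_insert, Finset.mem_singleton]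
    constructor
    · rintro ⟨a, rfl⟩
      fin_cases a
      · exact Or.inl C.sel0
      · exact Or.inr hiy.symm
    · rintro (rfl | rfl)
      · exact ⟨0, C.sel0⟩
      · exact ⟨1, hiy.symm⟩
  · rw [hiy]
    exact C.hR 1
  · rw [hiy]
    exact C.hz 1
  · intro i
    rcases C.cov i.succ with h | h | ⟨a, h⟩
    · exact Or.inr (Or.inr (Fin.succ_injective _ h))
    · exact Or.inr (Or.inl (Fin.succ_injective _ h))
    · fin_cases a
      · exact absurd (h.trans C.sel0) (Fin.succ_ne_zero i)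
      · exact Or.inl (Fin.succ_injective _ (h.trans hiy.symm))

/-- LIP IN THE CASE OF A LINEAR SHEET, three coordinates -/
theorem lip_flag {b g : ℝ} (hb : b < 3) (hg0 : 0 < g) : ∃ Cc : ℝ, 0 ≤ Cc ∧
    ∀ {S : Sp} {m : ℕ} {C : Cd m 1} {s : Sys S m} {c0 d : ℝ}, 0 < d → 0 ≤ c0 - d →
    Pool.Agent.Helper52.SL.RobP s → Pool.Agent.Helper52.KP.RobustI s → Pool.Agent.Helper80.MX.Rich s g →
    (∀ (T : Sp) (p : Pj T S) (E : ∀ k, (T.F k).Ω → Prop) (hE : 0 < ul (T.pr E)) (c σ : ℝ),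
      psi (SJ C.R C.JR) (s.im p E hE) c σ = psi (SJ C.R C.JR) s c σ) →
    HH (SJ C.z C.Jz) s c0 1 → la s C.R C.JR c0 < 1 →
    (1 - c0) + (1 - la s C.R C.JR c0) ≤ s.F 0 1 - ic s c0 →
    Tendsto (fun δ : ℝ => volume (Ioo (1 - δ) 1 \ Pool.Agent.Helper52.SL.defic s b) / ENNReal.ofReal δ) (𝓝[>] 0)
      (𝓝 0) →
    ∃ d' > 0, d' ≤ d ∧ ∀ c ∈ Ioo (c0 - d') c0, 1 - la s C.z C.Jz c ≤ Cc * (c0 - c) := by
  obtain ⟨Cc, hCc, hl⟩ := lip_dens 1 (b := b) (C1 := 1 + 3 / g) (by push_cast; linarith) (by positivity)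
  refine ⟨Cc, hCc, ?_⟩
  intro S m C s c0 d hd0 hd1 hp hi hg hrob hz hlt hfull hden
  obtain ⟨iy, hJ, hyR, hyz, hcov⟩ := C.exists_y
  have h0 : 0 ≤ c0 := by linarith
  have hc01 : c0 < 1 := by
    by_contra hcon
    push Not at hcon
    have h5 := la_mono (s := s) (i := C.R) (J := C.JR) hcon
    have h6 : (1 : ℝ) ≤ la s C.R C.JR 1 := la_ge_self zero_le_one le_rfl
    linarith
  have hzJ : C.z.succ ∉ C.Jz := by
    unfold Cd.Jz
    rw [Finset.mem_insert, hJ]
    simp only [Finset.mem_insert, Finset.mem_singleton, not_or]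
    refine ⟨fun h => C.hRz (Fin.succ_injective _ h).symm, Fin.succ_ne_zero _, fun h => hyz h.symm⟩
  have hfull2 : (1 - c0) + (1 - la s C.R C.JR c0) ≤ h (up1 (kap s c0) (s.P.dg 1)) (up1 (kap s c0) s.T) := by
    have h1 := (kap_isKap s c0).ic_P h0 hc01.le
    have h2 : s.F 0 1 = h (s.P.dg 1) s.T := by
      have e : s.F 0 1 = h (s.x.dg 0 ⊔ s.P.dg 1) s.T := rfl
      rw [e, s.x.dg_nonpos le_rfl, bot_sup_eq]
    linarith
  refine hl hd0 hd1 hp hi hz hlt (by push_cast; linarith) (fun c hc => ?_) hden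
  have h3 := Pool.Agent.Helper51.LP.flag_speed (s := s) (iy := iy) (iR := C.R) (iz := C.z) hcov hzJ hg hg0
    (fun T p E hE c σ => by
      have := hrob T p E hE c σ
      rw [hJ] at this
      exact this) hc01 (la_nonneg c0) (la_le_one c0) (by
      have := HH_la (s := s) (i := C.R) (J := C.JR) c0
      rw [hJ] at this ⊢
      exact this) hz hfull2 (cn := c) (by linarith [hc.1]) hc.2.le
  rw [← hJ] at h3
  have h4 := le_la h3
  linarith

end Pool.Agent.Helper91.GR
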