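import Pool.Agent.Helper91.GR.Spd
import Pool.Agent.Helper52.SL.Ext

/-! Events of extensions of the space over a label `κ` of the window `c`: they are spaces over a label of the window
`c` of the system restricted to the event. -/

set_option autoImplicit false

namespace Pool.Agent.Helper91.GR

open Finset Filter Topology Pool.Agent.Helper69.RK Pool.Agent.Helper31.EC Pool.Agent.Helper31.EC.Sp
open Pool.Agent.Helper40.EL Pool.Agent.Helper52.KP Pool.Agent.Helper42.NS

noncomputable section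

variable {S T : Sp} (l : Lab S) (π : Pj T (l.ovr 1 one_pos))

/-- the trivial label on an extension -/
def tl : Lab (l.ovr 1 one_pos) := fun k => ⟨T.F k, π.fp k, π.hn k, ⊤⟩

theorem tl_v (k : ℕ) : (tl l π k).v = ⊥ := rfl

theorem I_bot_left {L : Type*} [PM L] (y z : L) : I ⊥ y z = 0 := by
  rw [I_eq]
  have h1 : h (⊥ : L) z = 0 := (h_eq_zero_iff).mpr bot_le
  have h2 : h (⊥ : L) (y ⊔ z) = 0 := (h_eq_zero_iff).mpr bot_le
  rw [h1, h2, sub_zero]

theorem tl_leak (k : ℕ) (x : FL ((l.ovr 1 one_pos).F k)) : (tl l π k).leak x = 0 := I_bot_left _ _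

/-- the label `l` on an extension of the space over it -/
def xl : Lab S := l.comp 1 one_pos (tl l π)

theorem xl_info : (xl l π).info = l.info := by
  unfold Lab.info
  congr 1
  funext k
  congr 1
  have h1 : (xl l π k).info = (l k).info + I (tl l π k).v
      ((tl l π k).p.map ((frb (l k).T (l k).V 1 one_pos).map (l k).p.top)) ⊥ := FLab.comp_info _ _ _ _
  rw [h1, tl_v, I_bot_left, add_zero]

variable {l} {A B : Part S}

theorem xl_DM (h : l.DM A B) : (xl l π).DM A B := by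
  refine Lab.DM.comp h ⟨?_, ?_⟩
  · have : (fun k => (tl l π k).leak (l.up 1 one_pos A k)) = fun _ => 0 := by
      funext k
      exact tl_leak l π k _
    rw [this]
    exact Nul_zero _
  · have : (fun k => (tl l π k).leak (l.up 1 one_pos B k)) = fun _ => 0 := by
      funext k
      exact tl_leak l π k _
    rw [this]
    exact Nul_zero _

theorem xl_IsMax (h : l.IsMax A B) : (xl l π).IsMax A B := ⟨xl_DM π h.1, fun l' h' => by
  rw [xl_info]
  exact h.2 l' h'⟩

variable (l) (E : ∀ k, (T.F k).Ω → Prop)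

theorem xl_pr : (xl l π).sp.pr E = T.pr E := rfl

/-- the label restricted to an event of the extension -/
def xE : Lab (Sp.im (xl l π).pj E) := (xl l π).im E

variable {l} {E}

/-- the system restricted to the event -/
def sE {m : ℕ} (s : Sys S m) (hE : 0 < ul (T.pr E)) : Sys (Sp.im (xl l π).pj E) m := s.im (xl l π).pj E hE

theorem xE_IsKap {m : ℕ} {s : Sys S m} {c : ℝ} (h : IsKap s c l) (hE : 0 < ul (T.pr E)) :
    IsKap (sE π s hE) c (xE l π E) := by
  have h1 := Lab.IsMax.im_max (xl_IsMax π h) E hE (cA_Bd s c)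
    (pof_Bd (im_VB (xl l π).pj (fun k ω => ¬ E k ω) (Inf.sup (Inf.sup (s.Ia 1) (s.Ix 1)) (s.It c)).2))
  exact h1

theorem rest_Z (F : FSp) (E : F.Ω → Prop) : (F.rest E).Z = F.Z := rfl

/-- the projection onto the space over the restricted label -/
def idp : Pj (T.rest E) ((xE l π E).ovr 1 one_pos) where
  π := fun _ ω => ω
  law := fun k => push_id _
  hZ := fun k ω ω' a b => by
    have a' : (T.F k).μ ω ≠ 0 := ((T.F k).rest_supp (E k) ω a).1
    have b' : (T.F k).μ ω' ≠ 0 := ((T.F k).rest_supp (E k) ω' b).1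
    have h1 : (T.F k).Z ω ω' ↔ ((l.ovr 1 one_pos).F k).Z (π.π k ω) (π.π k ω') := π.hZ k ω ω' a' b'
    have h2 : ((l.ovr 1 one_pos).F k).Z (π.π k ω) (π.π k ω') ↔
        ((l k).V (π.π k ω) (π.π k ω') ∧ (l k).T.Z (π.π k ω) (π.π k ω')) := Iff.rfl
    have h3 : (l k).T.Z (π.π k ω) (π.π k ω') ↔ (S.F k).Z ((l k).p.π (π.π k ω)) ((l k).p.π (π.π k ω')) :=
      (l k).p.hZ _ _ (π.supp k ω a') (π.supp k ω' b')
    show (T.F k).Z ω ω' ↔ (((l k).V (π.π k ω) (π.π k ω') ∧ (⊤ : Setoid (T.F k).Ω) ω ω') ∧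
      (S.F k).Z ((l k).p.π (π.π k ω)) ((l k).p.π (π.π k ω')))
    rw [h1, h2, h3]
    exact ⟨fun h => ⟨⟨h.1, trivial⟩, h.2⟩, fun h => ⟨h.1.1, h.2⟩⟩
  hn := fun k => by
    show (T.F k).n = 1 * (S.F k).n
    rw [π.hn k]
    exact l.n_over 1 one_pos k

/-- vector variables of `S` on the event -/
def vE {q : ℕ} (y : S.VV q) : (T.rest E).VV q := (π.vv (Pool.Agent.Helper52.SL.cv l y)).rest E

theorem vE_dg {q : ℕ} (y : S.VV q) (r : ℝ) (hE : 0 < ul (T.pr E)) :
    (vE (E := E) π y).dg r = Sp.restL E hE (π.map (up1 l (y.dg r))) := by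
  unfold vE
  rw [VV.rest_dg E hE, ← Pj.map_dg, Pool.Agent.Helper52.SL.cv_dg]

theorem vE_idp {q : ℕ} (y : S.VV q) (r : ℝ) :
    (vE (E := E) π y).dg r = (idp (E := E) π).map (up1 (xE l π E) ((y.im (xl l π).pj E).dg r)) := by
  rw [← Pool.Agent.Helper52.SL.cv_dg, Pj.map_dg]
  rfl

end

end Pool.Agent.Helper91.GR
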