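import Pool.Agent.Helper91.GR.Ind

/-! The coefficients of a blind sheet are a function of the point (static sheet lemma in box coordinates). -/

set_option autoImplicit false

namespace Pool.Agent.Helper91.GR

open Finset Filter Topology Pool.Agent.Helper69.RK Pool.Agent.Helper31.EC Pool.Agent.Helper31.EC.Sp
open Pool.Agent.Helper40.EL
open Pool.Agent.Helper3.LF (Mon)
open Pool.Agent.Helper52.SL (cv cv_dg)
open Pool.Agent.Helper97.SL (pe z0 cdl ev_cdl ev_pe Bl DDL sslL pw exact_of_agree cdl_dg)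

noncomputable section

theorem typ_of_ul {T : Sp} {E : ∀ k, (T.F k).Ω → Prop} (h : 1 ≤ ul (T.pr E)) : Typ E := by
  rw [Typ_iff]
  have h1 := ul_tendsto (UB_pr E)
  have h2 : ul (T.pr E) = 1 := le_antisymm (Sp.ul_pr_le_one E) h
  rwa [h2] at h1

namespace Bx

variable {m N : ℕ} {C : Cd m N} {c lam σ : ℝ}

/-- the slab coordinate is known by the point -/
theorem rh_le {O Y : Sp} {π : Pj Y O} {P : O.VV (m + 1)} {w : ∀ k, (O.F k).Ω → Cf (m + 1)}
    {v : ∀ k, (Y.F k).Ω → Cf (m + 1)} {K : ℕ → ℝ} (D : Bx C π P c lam σ w v K) :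
    TR.dg (rh w P C lam K D.K0) (1 - lam) ≤ P.dg 1 := by
  refine VV.dg_le_dg _ _ _ _ D.GO D.tw (fun k => 1 + (N + 1 : ℕ) * (K k * 1))
    ((O.Sub_const zero_le_one).add ((O.Sub_const (Nat.cast_nonneg (N + 1))).mul (D.K0.mul (O.Sub_const zero_le_one)))) ?_
  filter_upwards [D.hw, D.wl] with k hw hl ω ω' hω hω' hG hG' hZ h3 _
  have K1 := D.K1 k
  have e1 := D.R_eq hG
  have e2 := D.R_eq hG'
  rw [← hl ω ω' hω hω' hZ] at e2
  rw [C.aff_JR] at e1 e2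
  have e4 : O.dl lam k = O.dl c k * O.dl (lam - c) k := by
    rw [← O.dl_add]
    congr 1
    ring
  have e5 : ∑ a, (w k ω).2 (C.sel a) * (P.v k ω (C.sel a) - P.v k ω' (C.sel a)) =
      ∑ a, (w k ω).2 (C.sel a) * P.v k ω (C.sel a) - ∑ a, (w k ω).2 (C.sel a) * P.v k ω' (C.sel a) := by
    rw [← Finset.sum_sub_distrib]
    exact Finset.sum_congr rfl fun a _ => mul_sub _ _ _
  have e3 : O.dl lam k * (TR.ev (rh w P C lam K D.K0) k ω - TR.ev (rh w P C lam K D.K0) k ω') =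
      (P.v k ω C.R.succ - P.v k ω' C.R.succ) -
        ∑ a, (w k ω).2 (C.sel a) * (P.v k ω (C.sel a) - P.v k ω' (C.sel a)) := by
    rw [e4, e5]
    linear_combination e2 - e1
  show |TR.ev (rh w P C lam K D.K0) k ω - TR.ev (rh w P C lam K D.K0) k ω'| ≤ _
  have d1 := O.dl_pos 1 k
  have d2 := O.dl_pos lam k
  have e6 : |∑ a, (w k ω).2 (C.sel a) * (P.v k ω (C.sel a) - P.v k ω' (C.sel a))| ≤ (N + 1 : ℕ) * (K k * O.dl 1 k) :=
    sum_abs_le (by linarith) (fun a => hw ω hω (C.sel a)) (fun a => h3 (C.sel a))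
  have e7 : O.dl lam k * |TR.ev (rh w P C lam K D.K0) k ω - TR.ev (rh w P C lam K D.K0) k ω'| ≤
      O.dl lam k * ((1 + (N + 1 : ℕ) * (K k * 1)) * O.dl (1 - lam) k) := by
    have f1 : O.dl lam k * |TR.ev (rh w P C lam K D.K0) k ω - TR.ev (rh w P C lam K D.K0) k ω'| =
        |O.dl lam k * (TR.ev (rh w P C lam K D.K0) k ω - TR.ev (rh w P C lam K D.K0) k ω')| := by
      rw [abs_mul, abs_of_pos d2]
    rw [f1, e3]
    refine (abs_sub _ _).trans ?_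
    have f2 : O.dl lam k * ((1 + (N + 1 : ℕ) * (K k * 1)) * O.dl (1 - lam) k) =
        O.dl 1 k + (N + 1 : ℕ) * (K k * O.dl 1 k) := by
      have f3 : O.dl 1 k = O.dl lam k * O.dl (1 - lam) k := by
        rw [← O.dl_add]
        congr 1
        ring
      rw [f3]
      ring
    rw [f2]
    exact add_le_add (h3 _) e6
  exact le_of_mul_le_mul_left e7 d2

variable {S : Sp} {l : Lab S} {s : Sys S m} {Y : Sp} {π : Pj Y (l.ovr 1 one_pos)}
  {w : ∀ k, ((l.ovr 1 one_pos).F k).Ω → Cf (m + 1)} {v : ∀ k, (Y.F k).Ω → Cf (m + 1)} {K : ℕ → ℝ}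

theorem pt_lB {r : ℝ} (hr : r ≤ 1) (j : Fin (m + 1)) : TR.dg (TR.cor (cv l (pv s)) j) r ≤ up1 l (lB s) := by
  rw [pt_dg]
  apply up1_mono
  have h1 := TR.cor_dg_le (pv s) j r
  rw [pv_dg] at h1
  exact h1.trans (sup_le_sup (s.P.dg_mono hr) (s.t.dg_mono hr))

/-- the box is known by the point and the uniform variable -/
theorem yy_le (D : Bx C π (cv l (pv s)) c lam σ w v K) :
    (D.yy (Yp π).p1 (UU l s c π)).dg (σ - c) ≤ (Yp π).p1.map (π.map (up1 l (lB s))) ⊔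
      (Yp π).p2.map (up1 l (s.t.dg (c + (σ - c)))) := by
  rw [TR.vv_dg_le_iff]
  intro i
  refine Fin.cases ?_ (fun a => ?_) i
  · have h0 : TR.cor (D.yy (Yp π).p1 (UU l s c π)) 0 =
        ((Yp π).p1.comp π).tr (fc' (rh w (cv l (pv s)) C lam K D.K0) (1 - lam) (sub_nonneg.mpr D.l1)) +
        cdl (1 - lam) (sub_nonneg.mpr D.l1) * UU l s c π := rfl
    rw [h0]
    refine (TR.add_dg_le _ _ _).trans (sup_le ?_ ?_)
    · refine le_trans ?_ le_sup_left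
      rw [← map_dgT, Pj.comp_map]
      apply Pj.map_mono
      apply Pj.map_mono
      refine (fc'_dg_le _ _ _ _).trans (D.rh_le.trans ?_)
      rw [cv_dg, pv_dg]
      exact le_rfl
    · refine (TR.mul_dg_le _ _ _).trans (sup_le ?_ ?_)
      · rw [cdl_dg]
        exact bot_le
      · rw [UU_dg π (D.lit 0)]
        exact le_sup_right
  · have h0 : TR.cor (D.yy (Yp π).p1 (UU l s c π)) a.succ =
        ((Yp π).p1.comp π).tr (zf (TR.cor (cv l (pv s)) (C.sel a)) c) := rfl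
    rw [h0, ← map_dgT, zf_dg (D.lit _), Pj.comp_map]
    refine le_trans ?_ le_sup_left
    apply Pj.map_mono
    apply Pj.map_mono
    exact pt_lB (by linarith [D.s1]) _

theorem zz_dg (D : Bx C π (cv l (pv s)) c lam σ w v K) (r : ℝ) :
    TR.dg (zz (Yp π).p1 π (cv l (pv s)) C c) r =
      (Yp π).p1.map (π.map (up1 l (TR.dg (pc s C.z.succ) (c + r)))) := by
  unfold zz
  rw [← map_dgT, zf_dg (D.lit _), Pj.comp_map, pt_dg]

/-- THE COEFFICIENTS OF A BLIND SHEET ARE A FUNCTION OF THE POINT -/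
theorem exact (N : ℕ) (ρ : ℝ) (hρ : 0 < ρ) (hρ1 : ρ ≤ 1) : ∃ Cc : ℝ, 1 ≤ Cc ∧
    ∀ {S : Sp} {m : ℕ} {C : Cd m N} {l : Lab S} {s : Sys S m} {c lam σ R κ ε : ℝ} {Y : Sp}
      {π : Pj Y (l.ovr 1 one_pos)} {w : ∀ k, ((l.ovr 1 one_pos).F k).Ω → Cf (m + 1)}
      {v : ∀ k, (Y.F k).Ω → Cf (m + 1)} {K : ℕ → ℝ} (D : Bx C π (cv l (pv s)) c lam σ w v K), IsKap s c l →
    ∀ {X : Y.L}, (Pool.Agent.Helper97.SL.cv D.ff).dg (σ - c) ≤ X →
    (∀ (T : Sp) (q : Pj T Y) (E : ∀ k, (T.F k).Ω → Prop) (hE : 0 < ul (T.pr E)),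
      (N + 1) * (1 - c) + (1 - lam) - ε ≤
        h (restL E hE (q.map (π.map (up1 l (C.M s 1 ⊔ s.T))))) (restL E hE (q.map X))) →
    (∀ (T : Sp) (q : Pj T (l.ovr 1 one_pos)) (E : ∀ k, (T.F k).Ω → Prop) (hE : 0 < ul (T.pr E)) (r r' : ℝ),
      σ - R ≤ r → r ≤ r' → r' ≤ σ → h (restL E hE (q.map (up1 l (TR.dg (pc s C.z.succ) r'))))
        (restL E hE (q.map (up1 l (C.M s 1 ⊔ s.T))) ⊔ restL E hE (q.map (up1 l (TR.dg (pc s C.z.succ) r)))) ≤
        (1 - ρ) * (r' - r) + κ) →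
    0 < R → R ≤ σ - c → Cc * ε ≤ R → Cc * κ ≤ R →
    (Pool.Agent.Helper97.SL.cv D.ff).dg (σ - c - R) ≤ π.map (up1 l (lB s)) := by
  obtain ⟨Cc, hCc, hssl⟩ := sslL (N + 1) 1 ρ hρ hρ1
  refine ⟨Cc, hCc, ?_⟩
  intro S m C l s c lam σ R κ ε Y π w v K D hl X hFX hfull hD hR hRg hε hκ
  set y := D.yy (Yp π).p1 (UU l s c π) with hy
  set z := zz (Yp π).p1 π (cv l (pv s)) C c with hz
  set f : Mon (N + 1 + 1) 1 → TR (Yp π).sp := fun a => (Yp π).p1.tr (D.ff a) with hf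
  have hcv : ∀ r, (Pool.Agent.Helper97.SL.cv f).dg r = (Yp π).p1.map ((Pool.Agent.Helper97.SL.cv D.ff).dg r) := by
    intro r
    rw [Pj.map_dg, Pool.Agent.Helper97.SL.vv_cv]
  have hσc : σ - c ≤ 1 - c := by linarith [D.s1]
  have hBl : ∀ p : ℝ, Bl y ((Pool.Agent.Helper97.SL.cv f).dg (σ - c)) (y.dg (1 - c)) (σ - c) p ε := by
    intro p
    apply bl_of_count y _ ((Yp π).p1.map X) _ (1 - c) (σ - c) p ε (by linarith [D.cl, D.l1]) hσc
    · intro T q E hE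
      exact D.count hl hfull T q E hE
    · rw [hcv]
      exact Pj.map_mono _ hFX
  have hDD : ∀ p : ℝ, DDL (y.dg (1 - c)) z (σ - c - R) (σ - c) p ρ κ := by
    intro p T q E hE _ r r' h1 h2 h3
    have a1 := hD T (q.comp ((Yp π).p1.comp π)) E hE (c + r) (c + r') (by linarith) (by linarith) (by linarith)
    have e1 : ∀ u, restL E hE (q.map (TR.dg z u)) =
        restL E hE ((q.comp ((Yp π).p1.comp π)).map (up1 l (TR.dg (pc s C.z.succ) (c + u)))) := by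
      intro u
      rw [hz, D.zz_dg, Pj.comp_map, Pj.comp_map]
    have e2 : restL E hE ((q.comp ((Yp π).p1.comp π)).map (up1 l (C.M s 1 ⊔ s.T))) ≤
        restL E hE (q.map (y.dg (1 - c))) := by
      rw [Pj.comp_map, Pj.comp_map]
      exact restL_mono E hE (Pj.map_mono q D.M_le_yy)
    rw [e1, e1]
    refine (h_anti (sup_le_sup_right e2 _)).trans (a1.trans (le_of_eq ?_))
    ring
  have hmain : ∀ (T : Sp) (a b : Pj T (Yp π).sp),
      (∀ᶠ k in UF, ∀ ω, (T.F k).μ ω ≠ 0 → ∀ i, |(a.vv y).v k ω i - (b.vv y).v k ω i| ≤ T.dl (σ - c) k) →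
      (∀ᶠ k in UF, ∀ ω, (T.F k).μ ω ≠ 0 → |TR.ev (a.tr z) k ω - TR.ev (b.tr z) k ω| ≤ T.dl (σ - c) k) →
      ul (T.pr (fun k ω => ∃ i, T.dl (σ - c - R) k < |TR.ev (b.tr (f i) - a.tr (f i)) k ω|)) ≤ 0 := by
    intro T a b h1 h2
    have h3 : ∀ p : ℝ, 0 ≤ p → ul (T.pr (fun k ω => ∃ i, T.dl (σ - c - R) k < |TR.ev (b.tr (f i) - a.tr (f i)) k ω|)) ≤
        Cc * ((σ - c) / R) ^ pw (N + 1) 1 * p := fun p hp =>
      hssl (Yp π).sp y z f (y.dg (1 - c)) (σ - c - R) (σ - c) R p κ ε hR (by linarith) (by linarith) hp hε hκ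
        (y.dg_mono hσc) (D.ag (Yp π).p1 (UU l s c π) (UU_abs π)) (hBl p) (hDD p) T a b h1 h2
    have h4 := h3 0 le_rfl
    rwa [mul_zero] at h4
  have hVb : Sp.Bdd (S := (Yp π).sp) (fun k ω => (y.cellv (σ - c) k ω, (TR.vec fun _ : Fin 1 => z).cellv (σ - c) k ω)) :=
    (y.bdd _).pair ((TR.vec fun _ : Fin 1 => z).bdd _)
  obtain ⟨E, hE1, hE2⟩ := exact_of_agree y z f (σ - c) (σ - c - R) 0 hmain
    (fun k ω => (y.cellv (σ - c) k ω, (TR.vec fun _ : Fin 1 => z).cellv (σ - c) k ω)) hVb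
    (Eventually.of_forall fun k ω ω' _ _ _ h => by
      rw [Prod.mk.injEq] at h
      exact ⟨fun i => y.cellv_close _ k ω ω' h.1 i, (TR.vec fun _ : Fin 1 => z).cellv_close _ k ω ω' h.2 0⟩)
  rw [sub_zero] at hE1
  have hTyp : Typ E := typ_of_ul hE1
  have hEp : 0 < ul ((Yp π).sp.pr E) := ul_pr_typ_pos E hTyp
  have e1 := (restL_le_typ E hTyp _ _).mp (hE2 E hEp fun _ _ h => h)
  have e2 : Sp.io (S := (Yp π).sp) (fun k ω => (y.cellv (σ - c) k ω, (TR.vec fun _ : Fin 1 => z).cellv (σ - c) k ω)) =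
      y.dg (σ - c) ⊔ TR.dg z (σ - c) := Sp.io_pair (y.bdd _) ((TR.vec fun _ : Fin 1 => z).bdd _)
  rw [e2, hcv] at e1
  set B := (Yp π).p1.map (π.map (up1 l (lB s))) with hB
  set W := (Yp π).p2.map (up1 l (s.t.dg (c + (σ - c)))) with hW
  set Φ := (Pool.Agent.Helper97.SL.cv D.ff).dg (σ - c - R) with hΦ
  have e3 : (Yp π).p1.map Φ ≤ W ⊔ B := by
    refine e1.trans (sup_le ?_ ?_)
    · rw [sup_comm W B]
      exact D.yy_le
    · refine le_trans ?_ le_sup_right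
      rw [hz, D.zz_dg, ← pt_dg]
      exact Pj.map_mono _ (Pj.map_mono _ (pt_lB (by linarith [D.s1]) _))
  have e4 : I ((Yp π).p1.map Φ) W B = 0 := by
    have f1 := Yp_indep π (π.map (up1 l (lB s)) ⊔ Φ) (up1 l (s.t.dg (c + (σ - c))))
    rw [Pj.map_sup, I_chain, sup_bot_eq] at f1
    have f2 := I_nonneg B W ⊥
    have f3 := I_nonneg ((Yp π).p1.map Φ) W B
    exact le_antisymm (by linarith) f3
  have e5 := le_of_I_zero e3 e4
  exact (Pj.map_le (Yp π).p1).mp e5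

end Bx

end

end Pool.Agent.Helper91.GR
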