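import Pool.Agent.Helper91.GR.Nl

/-! ROUNDED SHEETS: the coefficients of a sheet may be taken to be literal functions of finitely many digits. -/

set_option autoImplicit false

namespace Pool.Agent.Helper91.GR

open Finset Filter Topology Pool.Agent.Helper69.RK Pool.Agent.Helper31.EC Pool.Agent.Helper31.EC.Sp
open Pool.Agent.Helper40.EL Pool.Agent.Helper42.NS
open Pool.Agent.Helper3.LF (pl pl_zero pl_succ sp_Sub sp_dl)
open Pool.Agent.Helper52.SL (cv cv_dg)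

noncomputable section

variable {S : Sp} {m : ℕ} {s : Sys S m} {c : ℝ}

/-- the truncated coefficients of a function of sheets -/
def cfy {L : Sp} (v : ∀ k, (L.F k).Ω → Cf (m + 1)) (K1 K : ℕ → ℝ) (h1 : L.Sub K1) (h : L.Sub K) : L.VV (m + 2) :=
  TR.vec (Fin.cons (trc (fun k ω => (v k ω).1) K1 h1) (fun j => trc (fun k ω => (v k ω).2 j) K h))

/-- the coefficients read off from the cells -/
def vfl {L : Sp} (y : L.VV (m + 2)) (k : ℕ) (ω : (L.F k).Ω) : Cf (m + 1) :=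
  ((y.fl 1 zero_le_one).v k ω 0, fun j => (y.fl 1 zero_le_one).v k ω j.succ)

theorem vfl_lit {L : Sp} (y : L.VV (m + 2)) (k : ℕ) (ω ω' : (L.F k).Ω) (h : y.cellv 1 k ω = y.cellv 1 k ω') :
    vfl y k ω = vfl y k ω' := by
  have h1 : ∀ i, (y.fl 1 zero_le_one).v k ω i = (y.fl 1 zero_le_one).v k ω' i := by
    intro i
    have h2 : ⌊y.v k ω i / L.dl 1 k⌋ = ⌊y.v k ω' i / L.dl 1 k⌋ := congrFun h i
    show (⌊y.v k ω i / L.dl 1 k⌋ : ℝ) * L.dl 1 k = ⌊y.v k ω' i / L.dl 1 k⌋ * L.dl 1 k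
    rw [h2]
  unfold vfl
  rw [h1 0]
  congr 1
  funext j
  exact h1 j.succ

theorem cfy_lit {L : Sp} {v : ∀ k, (L.F k).Ω → Cf (m + 1)} {K1 K : ℕ → ℝ} {h1 : L.Sub K1} {h : L.Sub K} {k : ℕ}
    {ω ω' : (L.F k).Ω} (hv : v k ω = v k ω') : (cfy v K1 K h1 h).cellv 1 k ω = (cfy v K1 K h1 h).cellv 1 k ω' := by
  funext i
  refine Fin.cases ?_ (fun j => ?_) i
  · show ⌊TR.ev (trc (fun k ω => (v k ω).1) K1 h1) k ω / L.dl 1 k⌋ = ⌊TR.ev (trc (fun k ω => (v k ω).1) K1 h1) k ω' / L.dl 1 k⌋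
    rw [ev_trc' _ _ _ k ω ω' (congrArg Prod.fst hv)]
  · show ⌊TR.ev (trc (fun k ω => (v k ω).2 j) K h) k ω / L.dl 1 k⌋ =
      ⌊TR.ev (trc (fun k ω => (v k ω).2 j) K h) k ω' / L.dl 1 k⌋
    rw [ev_trc' _ _ _ k ω ω' (congrFun (congrArg Prod.snd hv) j)]

theorem vfl_sub {L : Sp} {v : ∀ k, (L.F k).Ω → Cf (m + 1)} {K1 K : ℕ → ℝ} {h1 : L.Sub K1} {h : L.Sub K} {k : ℕ}
    {ω : (L.F k).Ω} (a : |(v k ω).1| ≤ K1 k) (b : ∀ j, |(v k ω).2 j| ≤ K k) :
    |(v k ω).1 - (vfl (cfy v K1 K h1 h) k ω).1| ≤ L.dl 1 k ∧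
      ∀ j, |(v k ω).2 j - (vfl (cfy v K1 K h1 h) k ω).2 j| ≤ L.dl 1 k := by
  have hd := L.dl_pos 1 k
  constructor
  · have e := (cfy v K1 K h1 h).fl_sub 1 zero_le_one k ω 0
    have e1 : (cfy v K1 K h1 h).v k ω 0 = (v k ω).1 := ev_trc (g := fun k ω => (v k ω).1) (hK := h1) a
    rw [e1] at e
    exact (abs_of_nonneg e.1).trans_le e.2.le
  · intro j
    have e := (cfy v K1 K h1 h).fl_sub 1 zero_le_one k ω j.succ
    have e1 : (cfy v K1 K h1 h).v k ω j.succ = (v k ω).2 j := ev_trc (g := fun k ω => (v k ω).2 j) (hK := h) (b j)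
    rw [e1] at e
    exact (abs_of_nonneg e.1).trans_le e.2.le

theorem vfl_bd {L : Sp} {v : ∀ k, (L.F k).Ω → Cf (m + 1)} {K1 K : ℕ → ℝ} {h1 : L.Sub K1} {h : L.Sub K} {k : ℕ}
    (h0 : 0 ≤ K k) (ω : (L.F k).Ω) (j : Fin (m + 1)) : |(vfl (cfy v K1 K h1 h) k ω).2 j| ≤ K k + 1 := by
  have d1 : L.dl 1 k ≤ 1 := by
    have := L.dl_anti zero_le_one k
    rwa [dl_zero] at this
  have e := (cfy v K1 K h1 h).fl_sub 1 zero_le_one k ω j.succ
  have e1 : |(cfy v K1 K h1 h).v k ω j.succ| ≤ K k := trc_bd (fun k ω => (v k ω).2 j) h h0 ω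
  have e2 : (vfl (cfy v K1 K h1 h) k ω).2 j = ((cfy v K1 K h1 h).fl 1 zero_le_one).v k ω j.succ := rfl
  rw [e2]
  have e3 := abs_le.mp e1
  rw [abs_le]
  constructor
  · linarith [e.2]
  · linarith [e.1]

/-- rounded functions -/
theorem exists_rnd {L : Sp} (v : ∀ k, (L.F k).Ω → Cf (m + 1)) {K1 K : ℕ → ℝ} (h1 : L.Sub K1) (h : L.Sub K) :
    ∃ y : L.VV (m + 2), (∀ k ω ω', v k ω = v k ω' → y.cellv 1 k ω = y.cellv 1 k ω') ∧
      (∀ k, 0 ≤ K k → ∀ ω j, |(vfl y k ω).2 j| ≤ K k + 1) ∧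
      ∀ k ω, |(v k ω).1| ≤ K1 k → (∀ j, |(v k ω).2 j| ≤ K k) → |(v k ω).1 - (vfl y k ω).1| ≤ L.dl 1 k ∧
        ∀ j, |(v k ω).2 j - (vfl y k ω).2 j| ≤ L.dl 1 k :=
  ⟨cfy v K1 K h1 h, fun _ _ _ hv => cfy_lit hv, fun _ h0 ω j => vfl_bd h0 ω j, fun _ _ a b => vfl_sub a b⟩

theorem aff_sub_le {q : ℕ} (J : Finset (Fin q)) {f g : Cf q} {p : Fin q → ℝ} {d B : ℝ} (hd : 0 ≤ d) (hB : 0 ≤ B)
    (h1 : |f.1 - g.1| ≤ d) (h2 : ∀ j, |f.2 j - g.2 j| ≤ d) (hp : ∀ j, |p j| ≤ B) :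
    |aff J f p - aff J g p| ≤ (1 + q * B) * d := by
  unfold aff
  have e1 : f.1 + ∑ j ∈ J, f.2 j * p j - (g.1 + ∑ j ∈ J, g.2 j * p j) =
      (f.1 - g.1) + ∑ j ∈ J, (f.2 j - g.2 j) * p j := by
    have e2 : ∑ j ∈ J, (f.2 j - g.2 j) * p j = ∑ j ∈ J, f.2 j * p j - ∑ j ∈ J, g.2 j * p j := by
      rw [← Finset.sum_sub_distrib]
      exact Finset.sum_congr rfl fun j _ => sub_mul _ _ _
    rw [e2]
    ring
  rw [e1]
  refine (abs_add_le _ _).trans ?_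
  have e3 : |∑ j ∈ J, (f.2 j - g.2 j) * p j| ≤ q * B * d := by
    refine (Finset.abs_sum_le_sum_abs _ _).trans ?_
    calc ∑ j ∈ J, |(f.2 j - g.2 j) * p j| ≤ ∑ _j ∈ J, d * B := by
          apply Finset.sum_le_sum
          intro j _
          rw [abs_mul]
          exact mul_le_mul (h2 j) (hp j) (abs_nonneg _) hd
      _ ≤ ∑ _j : Fin q, d * B := by
          apply Finset.sum_le_sum_of_subset_of_nonneg (Finset.subset_univ _)
          intro _ _ _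
          positivity
      _ = q * B * d := by
          rw [Finset.sum_const, Finset.card_univ, Fintype.card_fin, nsmul_eq_mul]
          ring
  linarith

theorem abs_aff_le {q : ℕ} (J : Finset (Fin q)) {f : Cf q} {p : Fin q → ℝ} {K B : ℝ} (hK : 0 ≤ K) (hB : 0 ≤ B)
    (h2 : ∀ j, |f.2 j| ≤ K) (hp : ∀ j, |p j| ≤ B) : |f.1| ≤ |aff J f p| + q * (K * B) := by
  have e3 : |∑ j ∈ J, f.2 j * p j| ≤ q * (K * B) := by
    refine (Finset.abs_sum_le_sum_abs _ _).trans ?_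
    calc ∑ j ∈ J, |f.2 j * p j| ≤ ∑ _j ∈ J, K * B := by
          apply Finset.sum_le_sum
          intro j _
          rw [abs_mul]
          exact mul_le_mul (h2 j) (hp j) (abs_nonneg _) hK
      _ ≤ ∑ _j : Fin q, K * B := by
          apply Finset.sum_le_sum_of_subset_of_nonneg (Finset.subset_univ _)
          intro _ _ _
          positivity
      _ = q * (K * B) := by
          rw [Finset.sum_const, Finset.card_univ, Fintype.card_fin, nsmul_eq_mul]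
  have e1 : f.1 = aff J f p - ∑ j ∈ J, f.2 j * p j := by
    unfold aff
    ring
  rw [e1]
  exact (abs_sub _ _).trans (add_le_add le_rfl e3)

/-- ROUNDED SHEETS -/
theorem Sht.round {i : Fin m} {J : Finset (Fin (m + 1))} {σ : ℝ} {l : Lab S} {v : ∀ k, (l k).T.Ω → Cf (m + 1)}
    (h : Sht s i J σ l v) (h0 : 0 ≤ σ) (h1 : σ ≤ 1) : ∃ y : l.sp.VV (m + 2), Sht s i J σ l (vfl y) ∧
      ∀ k ω ω', (l k).T.μ ω ≠ 0 → (l k).T.μ ω' ≠ 0 → (l k).V ω ω' → (l k).T.Z ω ω' →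
        y.cellv 1 k ω = y.cellv 1 k ω' := by
  obtain ⟨hm, K, hK, hs, ht⟩ := h
  obtain ⟨B, hB, hBb⟩ := (pv s).bd
  have hq : (0 : ℝ) ≤ (m + 1 : ℕ) := Nat.cast_nonneg _
  have hK1 : S.Sub (fun k => B k + K k + (m + 1 : ℕ) * (K k * B k)) := (hB.add hK).add ((S.Sub_const hq).mul (hK.mul hB))
  obtain ⟨y, y1, y2, y3⟩ := exists_rnd (L := l.sp) v ((sp_Sub l).mpr hK1) ((sp_Sub l).mpr hK)
  have hS : S.Sub (fun k => K k + 1 + (1 + (m + 1 : ℕ) * B k)) :=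
    (hK.add (S.Sub_const zero_le_one)).add ((S.Sub_const zero_le_one).add ((S.Sub_const hq).mul hB))
  have hlit : ∀ k ω ω', (l k).T.μ ω ≠ 0 → (l k).T.μ ω' ≠ 0 → (l k).V ω ω' → (l k).T.Z ω ω' →
        y.cellv 1 k ω = y.cellv 1 k ω' := fun k ω ω' a a' b d => y1 k ω ω' (hm k ω ω' a a' b d)
  have hlit2 : ∀ k ω ω', (l k).T.μ ω ≠ 0 → (l k).T.μ ω' ≠ 0 → (l k).V ω ω' → (l k).T.Z ω ω' →
        vfl y k ω = vfl y k ω' := fun k ω ω' a a' b d => vfl_lit y k ω ω' (hlit k ω ω' a a' b d)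
  refine ⟨y, ⟨hlit2, _, hS, ?_, ?_⟩, hlit⟩
  · filter_upwards [hK.1, hB.1] with k b c' ω _ j
    have e4 : 0 ≤ (m + 1 : ℕ) * B k := mul_nonneg hq c'
    have := y2 k b ω j
    linarith
  · refine Typ.mono ht ?_
    filter_upwards [hs, hK.1, hB.1, hBb] with k a b c' d ω hω g
    have hp : ∀ j, |pl (s.a.v k ((l k).p.π ω)) (s.x.v k ((l k).p.π ω)) (s.t.v k ((l k).p.π ω) 0) j| ≤ B k :=
      fun j => d _ ((l k).p.supp ω hω) j
    set p := pl (s.a.v k ((l k).p.π ω)) (s.x.v k ((l k).p.π ω)) (s.t.v k ((l k).p.π ω) 0) with hpd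
    have e0 : S.dl σ k ≤ 1 := by
      have := S.dl_anti h0 k
      rwa [dl_zero] at this
    have e1 : S.dl 1 k ≤ S.dl σ k := S.dl_anti h1 k
    have hdp := S.dl_pos σ k
    have hz : s.a.v k ((l k).p.π ω) i + s.t.v k ((l k).p.π ω) 0 * s.x.v k ((l k).p.π ω) i = p i.succ := by
      rw [hpd, pl_succ]
    have g1 : dfl s i J l v k ω = p i.succ - aff J (v k ω) p := by
      unfold dfl df
      rw [hz]
    have g2 : dfl s i J l (vfl y) k ω = p i.succ - aff J (vfl y k ω) p := by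
      unfold dfl df
      rw [hz]
    rw [g1] at g
    rw [g2]
    have f1 : |(v k ω).1| ≤ B k + K k + (m + 1 : ℕ) * (K k * B k) := by
      refine (abs_aff_le J b c' (a ω hω) hp).trans ?_
      have e5 : |aff J (v k ω) p| ≤ |p i.succ| + |p i.succ - aff J (v k ω) p| := by
        have := abs_sub (p i.succ) (p i.succ - aff J (v k ω) p)
        rwa [sub_sub_cancel] at this
      have e6 := hp i.succ
      have e7 : K k * S.dl σ k ≤ K k := by nlinarith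
      linarith
    obtain ⟨f2, f3⟩ := y3 k ω f1 (a ω hω)
    rw [sp_dl] at f2
    have f4 := aff_sub_le J (S.dl_pos 1 k).le c' f2 (fun j => by
      have := f3 j
      rwa [sp_dl] at this) hp
    have f5 : (1 + (m + 1 : ℕ) * B k) * S.dl 1 k ≤ (1 + (m + 1 : ℕ) * B k) * S.dl σ k :=
      mul_le_mul_of_nonneg_left e1 (by positivity)
    have f6 : p i.succ - aff J (vfl y k ω) p =
        (p i.succ - aff J (v k ω) p) + (aff J (v k ω) p - aff J (vfl y k ω) p) := by ring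
    rw [f6]
    refine (abs_add_le _ _).trans ?_
    rw [add_mul, add_mul, one_mul]
    linarith

end

end Pool.Agent.Helper91.GR
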