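import Pool.Agent.Helper91.GR.Win

/-! SPEED for sheets: a sheet of depth `σ` of the window `c` gives a sheet of depth `σ + c' - c` of the window `c'`. -/

set_option autoImplicit false

namespace Pool.Agent.Helper91.GR

open Finset Filter Topology Pool.Agent.Helper69.RK Pool.Agent.Helper31.EC Pool.Agent.Helper31.EC.Sp
open Pool.Agent.Helper40.EL Pool.Agent.Helper52.KP Pool.Agent.Helper42.NS
open Pool.Agent.Helper3.LF (pl pl_zero pl_succ pl_line Sub_pow_two sp_Sub sp_dl sp_n)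
open Pool.Agent.Helper59.LF (ladd fadd DM_ladd h_label nul_few)

noncomputable section

variable {S : Sp} {m : ℕ} {s : Sys S m}

theorem aff_diff {J : Finset (Fin (m + 1))} {f : Cf (m + 1)} {K e : ℝ} (hK : 0 ≤ K) (he : 0 ≤ e)
    (hf : ∀ j, |f.2 j| ≤ K) {p p' : Fin (m + 1) → ℝ} (hp : ∀ j, |p' j - p j| ≤ e) :
    |aff J f p' - aff J f p| ≤ (m + 1) * K * e := by
  unfold aff
  rw [add_sub_add_left_eq_sub]
  exact sum_diff hK he hf hp

theorem Sub_sq {K : ℕ → ℝ} (hK : S.Sub K) : S.Sub (fun k => K k ^ 2) := by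
  have := hK.mul hK
  simpa only [pow_two] using this

/-- SPEED -/
theorem Sht.speed {i : Fin m} {J : Finset (Fin (m + 1))} {c c' σ : ℝ} (h0 : 0 ≤ c) (hc : c < 1) (hcc : c ≤ c')
    (hc' : c' ≤ 1) (h2 : σ + (c' - c) ≤ 1) {l : Lab S} {v : ∀ k, (l k).T.Ω → Cf (m + 1)} (hl : DMc s c l)
    (hv : Sht s i J σ l v) : ∃ (l' : Lab S) (v' : ∀ k, (l' k).T.Ω → Cf (m + 1)), DMc s c' l' ∧
      Sht s i J (σ + (c' - c)) l' v' := by
  classical
  obtain ⟨hm, K, hK, hs, ht⟩ := hv
  set σ' : ℝ := σ + (c' - c) with hσ'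
  set q : ∀ k, (l k).T.Ω → ℝ := fun k ω => dfl s i J l v k ω with hq
  set U : ∀ k, (l k).T.Ω → Fin 1 → ℤ := fun k ω _ =>
    if |q k ω| ≤ K k * S.dl σ k then ⌊q k ω / S.dl σ' k⌋ else 0 with hU
  obtain ⟨K', hK', hT⟩ := win_df h0 hc hl.1 i J v (Eventually.of_forall hm) hK hs 0 le_rfl (fun _ => 1)
    (S.Sub_const zero_le_one)
  obtain ⟨Kt, hKt, hKtb⟩ := s.t.bd
  -- the typical event
  set E : ∀ k, (l k).T.Ω → Prop := fun k ω => |q k ω| ≤ K k * S.dl σ k ∧
    ∀ r, |r - s.t.v k ((l k).p.π ω) 0| ≤ 1 * S.dl (c - 0) k →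
      |df i J (v k ω) (s.a.v k ((l k).p.π ω)) (s.x.v k ((l k).p.π ω)) r| ≤
        K' k * 2 ^ (0 * (S.F k).n) * (|dfl s i J l v k ω| + S.dl 1 k) with hE
  have hET : Typ (S := l.sp) E := Typ.and ht hT
  -- bounds
  have hX : ∀ᶠ k in UF, ∀ (ω : (l k).T.Ω) (i : Fin 1), (l k).T.μ ω ≠ 0 → |(U k ω i : ℝ)| ≤ 2 ^ (3 * (S.F k).n) := by
    have hn1 : ∀ᶠ k in UF, (1 : ℝ) ≤ (S.F k).n := S.lim.eventually (eventually_ge_atTop 1)
    filter_upwards [hK.eventually_le one_pos, hK.1, hn1] with k a b hn1 ω i _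
    have hn := (S.F k).pos
    rw [hU]
    beta_reduce
    by_cases g : |q k ω| ≤ K k * S.dl σ k
    · rw [if_pos g]
      have h3 : |(⌊q k ω / S.dl σ' k⌋ : ℝ)| ≤ |q k ω / S.dl σ' k| + 1 := by
        have e1 := Int.floor_le (q k ω / S.dl σ' k)
        have e2 := Int.lt_floor_add_one (q k ω / S.dl σ' k)
        rw [abs_le]
        have e3 := neg_abs_le (q k ω / S.dl σ' k)
        have e4 := le_abs_self (q k ω / S.dl σ' k)
        constructor <;> linarith
      have h4 : |q k ω / S.dl σ' k| ≤ K k * 2 ^ ((1 : ℝ) * (S.F k).n) := by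
        rw [abs_div, abs_of_pos (S.dl_pos σ' k), div_le_iff₀ (S.dl_pos σ' k)]
        refine g.trans ?_
        rw [mul_assoc]
        apply mul_le_mul_of_nonneg_left _ b
        unfold Sp.dl
        rw [← Real.rpow_add (by norm_num)]
        apply Real.rpow_le_rpow_of_exponent_le (by norm_num)
        have h5 : σ' - σ ≤ 1 := by
          rw [hσ']
          linarith
        nlinarith
      have h5 : (2 : ℝ) ^ (3 * (S.F k).n) = 2 ^ ((1 : ℝ) * (S.F k).n) * 2 ^ ((1 : ℝ) * (S.F k).n) *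
          2 ^ ((1 : ℝ) * (S.F k).n) := by
        rw [← Real.rpow_add (by norm_num), ← Real.rpow_add (by norm_num)]
        congr 1
        ring
      have h6 : (2 : ℝ) ≤ 2 ^ ((1 : ℝ) * (S.F k).n) := by
        calc (2 : ℝ) = 2 ^ (1 : ℝ) := (Real.rpow_one 2).symm
          _ ≤ _ := Real.rpow_le_rpow_of_exponent_le (by norm_num) (by linarith)
      rw [h5]
      have h7 : K k ≤ 2 ^ ((1 : ℝ) * (S.F k).n) := by linarith
      set X := (2 : ℝ) ^ ((1 : ℝ) * (S.F k).n)
      have h8 : K k * X ≤ X * X := mul_le_mul_of_nonneg_right h7 (by linarith)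
      have h9 : X * X * 2 ≤ X * X * X := mul_le_mul_of_nonneg_left h6 (by nlinarith)
      have h10 : 4 ≤ X * X := by nlinarith
      linarith
    · rw [if_neg g]
      simp only [Int.cast_zero, abs_zero]
      positivity
  -- functions of (l, ξ, t_c')
  have hA : Nul S (fun k => h (fc (Setoid.ker (U k))) ((l k).v ⊔ (l k).p.map (cA s c' k))) := by
    have h3 := nul_few l U (fun k => ((l k).V ⊓ Setoid.comap (l k).p.π (Setoid.ker (s.a.cellv 1 k) ⊓
      Setoid.ker (s.x.cellv 1 k) ⊓ Setoid.ker (s.t.cellv c' k))) ⊓ (l k).T.Z) 3 (by norm_num) hX E hET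
      (fun k => (2 * K' k * (K k + 1) + (1 + Kt k) * (1 + (m + 1) * K k)) + 1)
      ((((S.Sub_const (by norm_num)).mul hK').mul (hK.add (S.Sub_const zero_le_one))).add
        (((S.Sub_const zero_le_one).add hKt).mul ((S.Sub_const zero_le_one).add
          ((S.Sub_const (by positivity)).mul hK))) |>.add (S.Sub_const zero_le_one)) ?_
    · refine h3.congr fun k => ?_
      beta_reduce
      rw [← h_label (l k)]
      rfl
    · filter_upwards [hs, hK.1, hK'.1, hKt.1, hKtb] with k hk1 hk2 hk3 hk4 hk5 ω ω' a a' g g' hB _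
      obtain ⟨⟨hV, ⟨hc1, hc2⟩, hc3⟩, hZ⟩ := hB
      have hv : v k ω = v k ω' := hm k ω ω' a a' hV hZ
      rw [hU]
      beta_reduce
      rw [if_pos g.1, if_pos g'.1]
      apply floor_diff (S.dl_pos σ' k)
      have ea := fun i => s.a.cellv_close 1 k _ _ hc1 i
      have ex := fun i => s.x.cellv_close 1 k _ _ hc2 i
      have et := s.t.cellv_close c' k _ _ hc3 0
      have hdc := S.dl_pos c k
      have hdc' := S.dl_pos c' k
      have hd1 := S.dl_pos 1 k
      have hdσ := S.dl_pos σ k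
      have hdσ' := S.dl_pos σ' k
      have h1σ' : S.dl 1 k ≤ S.dl σ' k := S.dl_anti h2 k
      have h1σ : S.dl 1 k ≤ S.dl σ k := S.dl_anti (by linarith) k
      -- slope
      have w0 := g.2 (s.t.v k ((l k).p.π ω) 0) (by rw [sub_self, abs_zero, one_mul]; exact (S.dl_pos _ k).le)
      have w1 := g.2 (s.t.v k ((l k).p.π ω) 0 + S.dl (c - 0) k) (by
        rw [add_sub_cancel_left, abs_of_pos (S.dl_pos _ k), one_mul])
      rw [zero_mul, Real.rpow_zero, mul_one] at w0 w1
      rw [sub_zero] at w1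
      have hb : K' k * (|dfl s i J l v k ω| + S.dl 1 k) ≤ K' k * (K k + 1) * S.dl σ k := by
        rw [mul_assoc]
        apply mul_le_mul_of_nonneg_left _ hk3
        have := g.1
        rw [add_mul, one_mul]
        exact add_le_add this h1σ
      have hsl : |d1 i J (v k ω) (s.x.v k ((l k).p.π ω))| * S.dl c k ≤ 2 * (K' k * (K k + 1) * S.dl σ k) := by
        have e1 : d1 i J (v k ω) (s.x.v k ((l k).p.π ω)) * S.dl c k =
            df i J (v k ω) (s.a.v k ((l k).p.π ω)) (s.x.v k ((l k).p.π ω)) (s.t.v k ((l k).p.π ω) 0 + S.dl c k) -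
            df i J (v k ω) (s.a.v k ((l k).p.π ω)) (s.x.v k ((l k).p.π ω)) (s.t.v k ((l k).p.π ω) 0) := by
          rw [df_lin, df_lin]
          ring
        have e2 : |d1 i J (v k ω) (s.x.v k ((l k).p.π ω))| * S.dl c k =
            |d1 i J (v k ω) (s.x.v k ((l k).p.π ω)) * S.dl c k| := by
          rw [abs_mul, abs_of_pos hdc]
        rw [e2, e1]
        refine (abs_sub _ _).trans ?_
        linarith
      have e3 : q k ω - q k ω' = (s.t.v k ((l k).p.π ω) 0 - s.t.v k ((l k).p.π ω') 0) *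
          d1 i J (v k ω) (s.x.v k ((l k).p.π ω)) -
          (df i J (v k ω) (s.a.v k ((l k).p.π ω')) (s.x.v k ((l k).p.π ω')) (s.t.v k ((l k).p.π ω') 0) -
          df i J (v k ω) (s.a.v k ((l k).p.π ω)) (s.x.v k ((l k).p.π ω)) (s.t.v k ((l k).p.π ω') 0)) := by
        show df i J (v k ω) _ _ _ - df i J (v k ω') _ _ _ = _
        rw [← hv]
        rw [df_lin, df_lin, df_lin]
        ring
      rw [e3]
      refine (abs_sub _ _).trans ?_
      have e4 : |(s.t.v k ((l k).p.π ω) 0 - s.t.v k ((l k).p.π ω') 0) * d1 i J (v k ω) (s.x.v k ((l k).p.π ω))| ≤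
          2 * K' k * (K k + 1) * S.dl σ' k := by
        rw [abs_mul]
        have e5 : |s.t.v k ((l k).p.π ω) 0 - s.t.v k ((l k).p.π ω') 0| *
            |d1 i J (v k ω) (s.x.v k ((l k).p.π ω))| ≤ S.dl c' k * |d1 i J (v k ω) (s.x.v k ((l k).p.π ω))| :=
          mul_le_mul_of_nonneg_right et (abs_nonneg _)
        refine e5.trans ?_
        have e6 : S.dl c' k = S.dl (c' - c) k * S.dl c k := by
          rw [← S.dl_add]
          congr 1
          ring
        have e7 : S.dl σ' k = S.dl (c' - c) k * S.dl σ k := by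
          rw [← S.dl_add, hσ']
          congr 1
          ring
        rw [e6, e7]
        have hdd := S.dl_pos (c' - c) k
        calc S.dl (c' - c) k * S.dl c k * |d1 i J (v k ω) (s.x.v k ((l k).p.π ω))|
            = S.dl (c' - c) k * (|d1 i J (v k ω) (s.x.v k ((l k).p.π ω))| * S.dl c k) := by ring
          _ ≤ S.dl (c' - c) k * (2 * (K' k * (K k + 1) * S.dl σ k)) := mul_le_mul_of_nonneg_left hsl hdd.le
          _ = _ := by ring
      have e8 := df_diff (i := i) (J := J) hk2 hd1.le (hk1 ω a)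
        (fun i => by rw [abs_sub_comm]; exact ea i) (fun i => by rw [abs_sub_comm]; exact ex i)
        (s.t.v k ((l k).p.π ω') 0)
      have e9 : (1 + |s.t.v k ((l k).p.π ω') 0|) * (1 + (m + 1) * K k) * S.dl 1 k ≤
          (1 + Kt k) * (1 + (m + 1) * K k) * S.dl σ' k := by
        apply mul_le_mul _ h1σ' hd1.le (by positivity)
        apply mul_le_mul_of_nonneg_right _ (by positivity)
        have := hk5 _ ((l k).p.supp ω' a') 0
        linarith
      rw [add_mul]
      exact add_le_add e4 (e8.trans e9)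
  -- functions of (l, P, t)
  have hB : Nul S (fun k => h (fc (Setoid.ker (U k))) ((l k).v ⊔ (l k).p.map (cB s k))) := by
    have h3 := nul_few l U (fun k => ((l k).V ⊓ Setoid.comap (l k).p.π (Setoid.ker (s.P.cellv 1 k) ⊓
      Setoid.ker (s.t.cellv 1 k))) ⊓ (l k).T.Z) 3 (by norm_num) hX E hET
      (fun k => (1 + (m + 1) * K k) + 1)
      (((S.Sub_const zero_le_one).add ((S.Sub_const (by positivity)).mul hK)).add (S.Sub_const zero_le_one)) ?_
    · refine h3.congr fun k => ?_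
      beta_reduce
      rw [← h_label (l k)]
      rfl
    · filter_upwards [hs, hK.1] with k hk1 hk2 ω ω' a a' g g' hB _
      obtain ⟨⟨hV, hc1, hc3⟩, hZ⟩ := hB
      have hv : v k ω = v k ω' := hm k ω ω' a a' hV hZ
      rw [hU]
      beta_reduce
      rw [if_pos g.1, if_pos g'.1]
      apply floor_diff (S.dl_pos σ' k)
      have eP := fun i => s.P.cellv_close 1 k _ _ hc1 i
      have et := s.t.cellv_close 1 k _ _ hc3 0
      have hd1 := S.dl_pos 1 k
      have h1σ' : S.dl 1 k ≤ S.dl σ' k := S.dl_anti h2 k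
      have hp : ∀ j, |pl (s.a.v k ((l k).p.π ω)) (s.x.v k ((l k).p.π ω)) (s.t.v k ((l k).p.π ω) 0) j -
          pl (s.a.v k ((l k).p.π ω')) (s.x.v k ((l k).p.π ω')) (s.t.v k ((l k).p.π ω') 0) j| ≤ S.dl 1 k := by
        intro j
        refine Fin.cases ?_ (fun j => ?_) j
        · rw [pl_zero, pl_zero]
          exact et
        · rw [pl_succ, pl_succ]
          exact eP j
      have e1 := aff_diff (J := J) hk2 hd1.le (hk1 ω a) hp
      have e2 : q k ω - q k ω' = (s.P.v k ((l k).p.π ω) i - s.P.v k ((l k).p.π ω') i) -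
          (aff J (v k ω) (pl (s.a.v k ((l k).p.π ω)) (s.x.v k ((l k).p.π ω)) (s.t.v k ((l k).p.π ω) 0)) -
          aff J (v k ω) (pl (s.a.v k ((l k).p.π ω')) (s.x.v k ((l k).p.π ω')) (s.t.v k ((l k).p.π ω') 0))) := by
        show df i J (v k ω) _ _ _ - df i J (v k ω') _ _ _ = _
        rw [← hv]
        unfold df
        show (s.a.v k ((l k).p.π ω) i + s.t.v k ((l k).p.π ω) 0 * s.x.v k ((l k).p.π ω) i - _) -
          (s.a.v k ((l k).p.π ω') i + s.t.v k ((l k).p.π ω') 0 * s.x.v k ((l k).p.π ω') i - _) =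
          ((s.a.v k ((l k).p.π ω) i + s.t.v k ((l k).p.π ω) 0 * s.x.v k ((l k).p.π ω) i) -
          (s.a.v k ((l k).p.π ω') i + s.t.v k ((l k).p.π ω') 0 * s.x.v k ((l k).p.π ω') i)) - _
        ring
      rw [e2]
      refine (abs_sub _ _).trans ?_
      have e3 := eP i
      have e4 : (1 + (m + 1) * K k) * S.dl 1 k ≤ (1 + (m + 1) * K k) * S.dl σ' k :=
        mul_le_mul_of_nonneg_left h1σ' (by positivity)
      linarith
  refine ⟨ladd l (fun k => Setoid.ker (U k)),
    fun k ω => ((v k ω).1 + (U k ω 0 : ℝ) * S.dl σ' k, (v k ω).2), ?_, ?_, fun k => K k + 1,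
    hK.add (S.Sub_const zero_le_one), ?_, ?_⟩
  · exact DM_ladd (hl.mono hcc) _ hA hB
  · intro k ω ω' a a' hV hZ
    have hv : v k ω = v k ω' := hm k ω ω' a a' hV.1 hZ
    have hu : U k ω = U k ω' := hV.2
    show ((v k ω).1 + (U k ω 0 : ℝ) * S.dl σ' k, (v k ω).2) = ((v k ω').1 + (U k ω' 0 : ℝ) * S.dl σ' k, (v k ω').2)
    rw [hv, hu]
  · filter_upwards [hs] with k hk ω a j
    have := hk ω a j
    show |(v k ω).2 j| ≤ K k + 1
    linarith
  · refine Typ.mono (S := l.sp) ht ?_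
    filter_upwards [hK.1] with k hk2 ω a g
    have e1 : dfl s i J (ladd l fun k => Setoid.ker (U k))
        (fun k ω => ((v k ω).1 + (U k ω 0 : ℝ) * S.dl σ' k, (v k ω).2)) k ω = q k ω - (U k ω 0 : ℝ) * S.dl σ' k := by
      show df i J ((v k ω).1 + (U k ω 0 : ℝ) * S.dl σ' k, (v k ω).2) (s.a.v k ((l k).p.π ω)) (s.x.v k ((l k).p.π ω))
        (s.t.v k ((l k).p.π ω) 0) = df i J (v k ω) (s.a.v k ((l k).p.π ω)) (s.x.v k ((l k).p.π ω))
        (s.t.v k ((l k).p.π ω) 0) - (U k ω 0 : ℝ) * S.dl σ' k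
      unfold df aff
      simp only
      ring
    have hd := S.dl_pos σ' k
    have hu : U k ω 0 = ⌊q k ω / S.dl σ' k⌋ := by
      rw [hU]
      beta_reduce
      rw [if_pos g]
    rw [e1, hu]
    have e2 := Int.floor_le (q k ω / S.dl σ' k)
    have e3 := Int.lt_floor_add_one (q k ω / S.dl σ' k)
    rw [le_div_iff₀ hd] at e2
    rw [div_lt_iff₀ hd] at e3
    rw [abs_of_nonneg (by linarith)]
    nlinarith

end

end Pool.Agent.Helper91.GR
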